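import Pool.Agent.FCQ.Basic

/-!
# Four corner Cantor sets, the exponent one half: statements and proofs

THEOREM. `Fav (E n) ≤ C / √n`, hence `Fav (E n) ≤ C' gam (E n)` for all `n ≥ 1`.

Symbols: `T = T t`, `s = 101/200`, `θ = 1 - s/2 = 299/400`, `Λ := 4 ^ r * ∫ Nr` over a window;
bulk: `|x| ≤ 7/10 + t`. All constants `C`, `A` are absolute. One module for each `Stmt_...`;
a module may use all the facts of `Basic.lean` and, as hypotheses, the statements it names.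
-/

namespace Pool.Agent.FCQ

open MeasureTheory Set

/-! ### A. The operator -/

/-- EXP2. The iterates. Induction on `r`: `T^(r+1) φ x = ∑ wt a wt b (T^r φ)(4x - dv a - t dv b)`;
the digits are `-3, 0, 3`, so `|u|, |v| ≤ 3 (1 + 4 + .. + 4^(r-1)) = 4^r - 1`. (Index the sum by
`Fin r → Fin 3 × Fin 3` or by induction by `Fin m × (Fin 3 × Fin 3)`, then by `Fin`.) -/
def Stmt_EXP2 : Prop := ∀ r : ℕ, ∃ (m : ℕ) (w u v : Fin m → ℝ), (∀ d, 0 < w d) ∧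
  (∀ d, |u d| ≤ 4 ^ r - 1) ∧ (∀ d, |v d| ≤ 4 ^ r - 1) ∧ ∑ d, w d = 4 ^ r ∧
  ∀ (t : ℝ) (φ : ℝ → ℝ) (x : ℝ), (T t)^[r] φ x = ∑ d, w d * φ (4 ^ r * x - u d - t * v d)

/-- AUT1. The second moment of the multiplicity is `(T^N tent)(0)`. Proof: `S N t` is the sum over
pairs of words `w, w'` of the length of `psq t w ∩ psq t w'`, which is
`4^(-N) tent t (4^N (pr t w - pr t w'))` (two intervals of the same length `(1 + t)/4^N`); the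
differences of the digits of the pairs are `-3, 0, 3` with multiplicities `1, 2, 1 = 2 wt`.
Cleaner: induction on `N` through `G_N(x) := ∫ f N t y * f N t (y + x) dy = (T^N tent)(x)` for all
`x` (autocorrelation), with `FCC.f_add 1 N`: `f (1+N) t x = ∑_{u : Wd 1} f N t (4 (x - pr t u))`. -/
def Stmt_AUT1 : Prop := ∀ (N : ℕ) (t : ℝ), 0 ≤ t → t ≤ 1 → FCC.S N t = (T t)^[N] (tent t) 0

/-- AUT2. The increments of the second moment. `T^N tent` is even and vanishes for `|x| ≥ 1 + t`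
(induction: `|4x - dv a - t dv b| ≥ 4|x| - 3 - 3t`), so among the digits at `x = 0` only `(1,1)` and
`±(3, -3)` remain, as `3 - 3t ≤ 1 + t` but `3t ≥ 1 + t`, `3 ≥ 1 + t`, `3 + 3t ≥ 1 + t`. -/
def Stmt_AUT2 : Prop := ∀ (N : ℕ) (t : ℝ), 1 / 2 ≤ t → t ≤ 1 →
  (T t)^[N + 1] (tent t) 0 = (T t)^[N] (tent t) 0 + 1 / 2 * (T t)^[N] (tent t) (rho 0 t)

/-- EDGE. From `rho 0` to `rho i`: `T φ x ≥ φ (4x - 3 - 3t) / 4` for `φ ≥ 0`, `rho (i+1) t =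
4 rho i t - 3 - 3 t`, `tent t ≥ Phi b / 100`; second part: `tent t (rho m t) = 4^m (4t - 2)` when
`0 ≤ rho m t`. -/
def Stmt_EDGE : Prop := ∀ (t : ℝ), 1 / 2 ≤ t → t ≤ 1 →
  (∀ (b : ℝ) (i n : ℕ), Rg b t → E b i n t / (100 * 4 ^ i) ≤ (T t)^[n + i] (tent t) (rho 0 t)) ∧
  (∀ m : ℕ, 0 ≤ rho m t → 4 * t - 2 ≤ (T t)^[m] (tent t) (rho 0 t))

/-- LAM. The hat of radius `89/100 + t` is (more than) `13/50`-excessive. The true constant is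
`.293` (worst: `t = 1`, `x = 1.2225`). By symmetry `x ≥ 0`; for `x` near `89/100 + t` use the digit
`3 + 3t` (weight `1/4`) and from `x ≤ .9725 + t/4` on also the digit `3` (weight `1/2`), then `3t`
(`1/2`), `0` (`1`), `3 - 3t` (`1/4`); on each piece both sides are linear, `hat c y ≥ c - y`,
`hat c y ≥ c + y`, `hat c y ≥ 0` whenever `|y| ≤ c`. -/
def Stmt_LAM : Prop := ∀ t x : ℝ, 1 / 2 ≤ t → t ≤ 1 →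
  13 / 50 * hat (89 / 100 + t) x ≤ T t (hat (89 / 100 + t)) x

/-- COV. Every `|x| ≤ 9/10 + t` has a digit `d = dv a + t dv b` with
`|4x - d| ≤ max (3t/2) (6/10 + t) ≤ b - 1/50` (the gaps of the nine digits are at most `3t`, and
`4 (9/10 + t) - (3 + 3t) = 6/10 + t`); weights are `≥ 1/4`. For `|x| ≤ 31/32 + t` the digit brings
`4x - d` to `|y| ≤ 9/10 + t` (`4 · 31/32 + 4t - 3 - 3t = 7/8 + t`). Last part by induction. -/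
def Stmt_COV : Prop := ∀ b t : ℝ, Rg b t →
  (∀ x, |x| ≤ 9 / 10 + t → 1 / 4 ≤ T t (chi b) x) ∧
  (∀ x, |x| ≤ 31 / 32 + t → 1 / 16 ≤ (T t)^[2] (chi b) x) ∧
  (∀ n : ℕ, 1 ≤ n → ∀ x, |x| ≤ 9 / 10 + t → 1 / 4 ^ n ≤ (T t)^[n] (chi b) x)

/-- COMP. The nodes near the edge do not dominate. With `1_+ = ind (5/4 + t)`, `1_b = ind (7/10 + t)`,
`1_e = 1_+ - 1_b`: `T 1_e ≤ 1_e / 4 + 4 · 1_b` (in the edge region only the digit `3 + 3t` can keep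
`4x - d` in `|y| ≤ 5/4 + t`, because `4 (7/10 + t) - 3 > 5/4 + t`; outside `|x| ≤ 5/4 + t` nothing).
So `a_n := T^n 1_e (x0)` satisfies `a_0 = 0`, `a_(n+1) ≤ a_n / 4 + 4 b_n`, `b_n := T^n 1_b (x0) ≤
(100/19) p_n`, `p_n := T^n (hat (89/100 + t)) (x0)`, `p_(n+1) ≥ (13/50) p_n` (LAM); geometric series
with ratio `(1/4)/(13/50) = 25/26`. -/
def Stmt_COMP : Prop := ∃ C : ℝ, 0 < C ∧ ∀ (t x : ℝ) (n : ℕ), 1 / 2 ≤ t → t ≤ 1 →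
  |x| ≤ 7 / 10 + t →
    (T t)^[n] (ind (5 / 4 + t)) x ≤ C * (T t)^[n] (hat (89 / 100 + t)) x

/-- W1. Comparisons at the roots `rho i t` in the bulk, `n ≥ 1`. (1) `T^n 1_+ ≤ 4 T^(n-1) 1_+`
(as `T 1_+ ≤ 4 · 1_+`) `≤ 4 C T^(n-1) (hat (89/100 + t))` (COMP) and `hat (89/100 + t) ≤ 2 ind (..)
≤ 8 T (Phi b)` (COV, `chi ≤ Phi`). (2) `Phi b ≤ 1_+`, COMP. (3) COV with `n ≥ 1`, `Phi ≥ chi`.
(4) in EXP2 the argument `4^n rho i t - u - t v` moves by at most `4^(n+i+1) |t - t'| ≤ 1/64`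
(`|v| ≤ 4^n - 1`, slope of `rho i` is `-(4^(i+1) - 1)`), and `b + 1/64 ≤ 5/4 + t`; so
`E b i n t' ≤ T^n 1_+ (rho i t)`. -/
def Stmt_W1 : Prop := ∃ C : ℝ, 0 < C ∧ ∀ (b : ℝ) (i n : ℕ) (t : ℝ), 1 ≤ n → Rg b t →
  |rho i t| ≤ 7 / 10 + t →
    (T t)^[n] (ind (5 / 4 + t)) (rho i t) ≤ C * E b i n t ∧
    E b i n t ≤ C * (T t)^[n] (hat (89 / 100 + t)) (rho i t) ∧
    1 / 4 ^ n ≤ E b i n t ∧
    (∀ t', Rg b t' → |rho i t'| ≤ 7 / 10 + t' → |t - t'| ≤ ell (n + i) →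
      E b i n t' ≤ C * E b i n t)

/-- JEN. Jensen for `x^(-2)` with the weights `p h`. In `ENNReal` (`0 * ∞ = 0`): if some `B d = 0`
with `p d > 0`, `h d > 0` the right side is `∞`. Else `(∑ p B)⁻² ≤ (∑ p h (B/h))⁻² =
Z⁻² (∑ (p h/Z)(B/h))⁻² ≤ Z⁻² ∑ (p h/Z) (B/h)⁻²` over the `d` with `p d h d > 0`, `Z = ∑ p h`. -/
def Stmt_JEN : Prop := ∀ (m : ℕ) (p h B : Fin m → ℝ), (∀ d, 0 ≤ p d) → (∀ d, 0 ≤ h d) →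
  (∀ d, 0 ≤ B d) → 0 < ∑ d, p d * h d →
  (ENNReal.ofReal (∑ d, p d * B d))⁻¹ ^ 2 ≤
    ENNReal.ofReal (1 / (∑ d, p d * h d) ^ 3) *
      ∑ d, ENNReal.ofReal (p d * h d ^ 3) * (ENNReal.ofReal (B d))⁻¹ ^ 2

/-! ### B. Growth of the inverse square moments -/

/-- GMID. Growth from the certificate in one variable. `A_n := T^n (chi b)`,
`M_n := ∫⁻ V A_n⁻²`. By JEN with weights `wt a wt b h (4x - dv a - t dv b)` (where `V x ≠ 0`,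
`T h x > 0`): `A_n⁻² (x) ≤ (T h x)⁻³ ∑ wt wt h(y)³ A_(n-1)⁻² (y)`, `y = 4x - d`; integrate with
`V x dx`, put `x = (r + d)/4`, `dx = dr/4`, and use `ineq`: `M_n ≤ G M_(n-1)`. Base: `V ≤ C0` is
supported in `|x| ≤ 31/32 + t ≤ 2` and `A_2 ≥ 1/16` there (COV): `M_2 ≤ 1024 C0`. For `r ≥ 2`:
`∫⁻ over |x| ≤ 9/10 + t ≤ M_r / c0 ≤ G^(r-2) M_2 / c0`; for `r = 1` use `A_1 ≥ 1/4`. -/
def Stmt_GMID : Prop := ∀ c0 C0 : ℝ, 0 < c0 → 0 < C0 → ∃ K : ℝ, 1 ≤ K ∧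
  ∀ (b t G : ℝ) (h V : ℝ → ℝ), Rg b t → 1 ≤ G → Cm t c0 C0 G h V → Grw b t K G

/-- GONE. Growth from the certificate for the delayed chain. `X = 2x/(1+t) = (1 + t*) x`,
`t* = (1-t)/(1+t) = t'/4^j`. In the variable `X` the digits are `σ + t* δ`, `σ = dv a + dv b`,
`δ = dv a - dv b`; the law of `δ` given `σ` is `pd` of the class `|σ|/3`. `T̃` = `T t` in the
variable `X`, `χ̃ = chi (169/100)`. For `Q ∈ (Fin 3)^l`, `l ≤ j`: `A_n(X;Q) := E_δ (T̃^n χ̃)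
(X - t' ∑_{i=1}^{l} 4^(-(j-l+i)) δ_i)`, `δ_i ~ pd Q_i` independent. Then for `l = j`:
`A_n(X;Q) = ∑_k ∑_e W k pd Q_1 e A_(n-1)(4X - sv k - t' dl Q_1 e; Q_2..Q_j, cl k)`; for `l < j`:
`A_n(X;Q) = ∑_k W k A_(n-1)(4X - sv k; Q_1..Q_l, cl k)`. Functionals:
`M_n = ∑_Q (∏_{i<j} bb Q_i) ∫ V Q_1 Q_j (X) A_n(X;Q)⁻² dX`, and in the filling phase
`M^l_n = ∑_Q (∏_{i<l} bb Q_i) ∫ VA Q_l (X) A_n(X;Q)⁻² dX` (`l = 0`: `∫ VA 1 A_n⁻²`). JEN with the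
weights `h Q_2 (Y)` (`hA (Y)`) and `ineq`, `ineqA` give `M_n ≤ G M_(n-1)`, `M^l_n ≤ GA M^(l+1)_(n-1)`
(`l = 0`: `bb ≤ 1`), and `M^j_n ≤ C0 M_n` by `dom`. Base `n = 2`: `A_2(X;Q) ≥ 1/128` on
`|X| ≤ 63/32`: `T̃² χ̃ ≥ 1/16` on `|X| ≤ 1.979`; choose the first three (if `j = 2`: two) `δ_i` with the sign of
`X` or `0` (probability `≥ 1/8`), the others shift by at most `1/128`; so `M_2 ≤ C`, as
`∑_Q ∏_{i<l} bb Q_i ≤ 3`. Then for `r ≥ j + 2`: `∫ A_r⁻² ≤ M^0_r / c0 ≤ GA^j C0 G^(r-j-2) C / c0`,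
for `2 ≤ r < j + 2`: `≤ GA^(r-2) C / c0`, `r = 1`: `A_1 ≥ 1/4`. -/
def Stmt_GONE : Prop := ∀ c0 C0 : ℝ, 0 < c0 → 0 < C0 → ∃ K : ℝ, 1 ≤ K ∧
  ∀ (t' G GA : ℝ) (j : ℕ) (h : Fin 3 → ℝ → ℝ) (V : Fin 3 → Fin 3 → ℝ → ℝ) (hA : ℝ → ℝ)
    (VA : Fin 3 → ℝ → ℝ) (bb : Fin 3 → ℝ), 1 / 16 ≤ t' → t' ≤ 1 / 4 → 2 ≤ j → 1 ≤ G → G ≤ GA →
    Co t' c0 C0 G GA h V hA VA bb → Grw (169 / 100) (tau j t') (K * (GA / G) ^ j) G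

/-- CM. The certificates in one variable (kernel computation). -/
def Stmt_CM : Prop := ∃ c0 C0 : ℝ, 0 < c0 ∧ 0 < C0 ∧
  (∀ t, 1 / 2 ≤ t → t ≤ 63 / 65 → ∃ h V, Cm t c0 C0 (131 / 100) h V) ∧
  (∀ t, 1 / 2 ≤ t → t ≤ 23 / 40 → ∃ h V, Cm t c0 C0 (6 / 5) h V)

/-- CO. The certificates for the delayed chain (kernel computation). -/
def Stmt_CO : Prop := ∃ c0 C0 : ℝ, 0 < c0 ∧ 0 < C0 ∧
  ∃ (m : ℕ) (a g gA : ℕ → ℝ), a 0 = 1 / 16 ∧ a m = 1 / 4 ∧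
    ∀ k < m, a k + 1 / 1000 ≤ a (k + 1) ∧ Pr (g k) (gA k) ∧
      ∀ t', a k ≤ t' → t' ≤ a (k + 1) → ∃ h V hA VA bb, Co t' c0 C0 (g k) (gA k) h V hA VA bb

/-- DATS. The admissible families. From CM, GMID, CO, GONE, with
`t = tau j t'`, `t' = 4^j (1 - t)/(1 + t)`, `tau 2 (1/4) = 63/65`, `tau` decreasing, `tau j a - tau j a' =
2 (a' - a) 4^(-j) / ((1 + a 4^(-j)) (1 + a' 4^(-j)))`. `|rho 0 t| = 3 - 3t ≤ 7/10 + t` for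
`t ≥ 23/40`; `4^i (4t - 2) ∈ [3/10, 12/10]` on the half intervals. -/
def Stmt_DATS : Prop := Stmt_CM → Stmt_GMID → Stmt_CO → Stmt_GONE → ∃ K : ℝ, 1 ≤ K ∧
  Dat (7 / 5) 0 0 1 (23 / 40) (7 / 10) K (131 / 100) ∧
  Dat (169 / 100) 0 0 1 (7 / 10) (63 / 65) K (131 / 100) ∧
  (∀ i : ℕ, 1 ≤ i → Dat (7 / 5) i 0 1 (1 / 2 + 3 / 40 / 4 ^ i) (1 / 2 + 3 / 10 / 4 ^ i) K (6 / 5)) ∧
  ∃ (m : ℕ) (a g gA : ℕ → ℝ), a 0 = 1 / 16 ∧ a m = 1 / 4 ∧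
    ∀ k < m, 1 / 16 ≤ a k ∧ a k ≤ a (k + 1) ∧ a (k + 1) ≤ 1 / 4 ∧ Pr (g k) (gA k) ∧
      ∀ j : ℕ, 2 ≤ j →
        Dat (169 / 100) 0 j (j + 1) (tau j (a (k + 1))) (tau j (a k)) (K * (gA k / g k) ^ j) (g k)

/-- W2. Inverse square moment over a window, growth from level `n` to level `n + r`. From EXP2,
COMP, W1, JEN. For `t` in the window `E_(n+r)(t) = ∑ w_d (T_t^r Phi)(x_d(t)) ≥ ∑ w_d B(x_d(t))`,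
`x_d(t) = 4^n rho i t - u_d - t v_d`, `B := (T t0)^r chi` (frozen direction: in EXP2 for `r` the
argument moves by at most `4^r ell ≤ 1/256`, and `chi (y) = 1` implies `Phi (y') = 1`). JEN with
`h = hat (9/10 + t0) (x_d(t))`: the square is `≤ Z(t)⁻³ ∑ w_d h³ B(x_d(t))⁻²`, `Z(t) =
∑ w_d hat (9/10 + t0) (x_d(t)) ≥ (T_t^n hat (89/100 + t)) (rho i t) ≥ E_n(t)/C ≥ E_n(t0)/C²`. Each
`x_d` is affine with slope of modulus `≥ 2 · 4^(n+i)` (`4^n (4^(i+1) - 1) - |v_d|`), so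
`∫_window h³ B⁻² (x_d(t)) dt ≤ (1/(2 · 4^(n+i))) ∫ hat³ B⁻² dx ≤ (8/(2 · 4^(n+i))) K G^r`; the
`d` which occur have `|x_d(t0)| ≤ 9/10 + t0 + 1/64`, their total weight is `≤ (T_{t0}^n 1_+)(rho i t0)
≤ C E_n(t0)`. -/
def Stmt_W2 : Prop := ∃ C : ℝ, 0 < C ∧
  ∀ (b : ℝ) (i j n0 : ℕ) (u v K G : ℝ), Dat b i j n0 u v K G →
  ∀ (n r : ℕ) (t0 : ℝ), 1 ≤ r → r ≤ n → t0 ∈ Icc u v →
    ∫⁻ t in Iw u v t0 (ell (n + i)), (ENNReal.ofReal (E b i (n + r) t)) ^ (-(2 : ℝ)) ≤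
      ENNReal.ofReal (C / 4 ^ (n + i) * (K * G ^ r)) * (ENNReal.ofReal (E b i n t0)) ^ (-(2 : ℝ))

/-! ### C. The square norms of the increments -/

/-- SHORT. `∫ Dr` over an interval of length `4^(-l)`, `l ≤ r`. Bound the factors with index `< l`
by `1`; the rest has period `π/4^l ≥ 4^(-l)`, and its mean is exact: `cos⁴ z = 3/8 + cos 2z/2 +
cos 4z/8`, `cos² z = 1/2 + cos 2z / 2`; frequencies `2 · 4^i a_i`, `|a_i| ≤ 2`, so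
`∑ 4^i a_i = 0` only if all `a_i = 0`. Means: `(3/8)^(r-l)` and for the terms of the sum with
`i ≥ l`: `(1/2)(3/8)^(r-l-1) = (4/3)(3/8)^(r-l)`, for `i < l`: `(3/8)^(r-l)`. As
`4^(-l) (3/8)^(r-l) = (2/3)^l (3/8)^r`. -/
def Stmt_SHORT : Prop := ∃ C : ℝ, 0 < C ∧ ∀ (l r : ℕ) (x : ℝ), l ≤ r →
  ∫ z in x..(x + 1 / 4 ^ l), Dr r z ≤ C * (2 / 3) ^ l * (3 / 8) ^ r

/-- FTR. The Fourier transform of the iterates: one step is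
`Ft (T φ) ξ = Ft φ (ξ/4) cos²(3ξ/8) cos²(3tξ/8)`, as
`∑ wt a exp(-i ξ dv a/4) = 1 + cos(3ξ/4) = 2 cos²(3ξ/8)`. -/
def Stmt_FTR : Prop := ∀ (φ : ℝ → ℝ), Integrable φ → ∀ (t ξ : ℝ) (r : ℕ),
  Ft ((T t)^[r] φ) ξ =
    ((P2 r (3 * (ξ / 4 ^ r) / 2) * P2 r (3 * t * (ξ / 4 ^ r) / 2) : ℝ) : ℂ) * Ft φ (ξ / 4 ^ r)

/-- PSI. Bounds for `Ps` and its derivative in `t`. `Phi b` is smooth with compact support, so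
`|Ft Phi ω| ≤ C/(1+ω²)` (twice integration by parts, or Schwartz functions in Mathlib) and it is
Lipschitz; for `|ω| ≤ 1`: `|Ps| ≤ |Ft Phi (ω/4) - Ft Phi ω| + |Ft Phi (ω/4)| (1 - cos² cos²) ≤
C|ω|`. The derivative of `cos²(3tω/8)` in `t` is at most `3|ω|/4`. -/
def Stmt_PSI : Prop := ∃ C : ℝ, 0 < C ∧ ∀ b t ω : ℝ, b = 7 / 5 ∨ b = 169 / 100 →
  1 / 4 ≤ t → t ≤ 5 / 4 →
    ‖Ps b t ω‖ ≤ C * |ω| / (1 + ω ^ 2) ∧ ‖Ps b t ω‖ ≤ C / (1 + ω ^ 2) ∧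
    DifferentiableAt ℝ (fun τ => Ps b τ ω) t ∧
    ‖deriv (fun τ => Ps b τ ω) t‖ ≤ C * |ω| / (1 + ω ^ 2)

/-- DER. The increments are smooth in the direction (EXP2, `Phi b` is smooth). -/
def Stmt_DER : Prop := ∀ (b : ℝ), b = 7 / 5 ∨ b = 169 / 100 → ∀ r : ℕ,
  Continuous (fun p : ℝ × ℝ => gr b r p.1 p.2) ∧ Continuous (fun p : ℝ × ℝ => dgr b r p.1 p.2) ∧
  (∀ x t : ℝ, HasDerivAt (fun τ => gr b r x τ) (dgr b r x t) t) ∧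
  (∀ x t : ℝ, 0 ≤ t → t ≤ 2 → 10 ≤ |x| → gr b r x t = 0 ∧ dgr b r x t = 0)

/-- FTG. The Fourier transforms of the increments and of their derivatives: `gr = T^r (T Phi - Phi)`
and FTR; differentiate under the integral sign (DER: dominated on `|x| ≤ 10`). -/
def Stmt_FTG : Prop := ∀ (b : ℝ), b = 7 / 5 ∨ b = 169 / 100 → ∀ (r : ℕ) (t ξ : ℝ),
  1 / 4 ≤ t → t ≤ 5 / 4 →
    Ft (fun x => gr b r x t) ξ =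
      ((P2 r (3 * (ξ / 4 ^ r) / 2) * P2 r (3 * t * (ξ / 4 ^ r) / 2) : ℝ) : ℂ) *
        Ps b t (ξ / 4 ^ r) ∧
    Ft (fun x => dgr b r x t) ξ =
      deriv (fun τ => ((P2 r (3 * (ξ / 4 ^ r) / 2) * P2 r (3 * τ * (ξ / 4 ^ r) / 2) : ℝ) : ℂ) *
        Ps b τ (ξ / 4 ^ r)) t

/-- PLN. Plancherel (with the constant `1/(2π) ≤ 1` dropped), for continuous functions with
compact support. -/
def Stmt_PLN : Prop := ∀ f : ℝ → ℝ, Continuous f → HasCompactSupport f →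
  ∫⁻ x, ENNReal.ofReal (f x ^ 2) ≤ ∫⁻ ξ, ENNReal.ofReal (‖Ft f ξ‖ ^ 2)

/-- NRB. Bound for `Nr`. By PLN, FTG with `ω = ξ/4^r`, PSI: `∫ gr² ≤ 4^r ∫ |Ps|² Q4(3ω/2)
Q4(3tω/2) dω`; the derivative of `P2 r (3tω/2)` in `t` is at most `3|ω| ∑_i 4^i |cos (4^i z)|
∏_{l≠i} cos² (4^l z)`, `z = 3tω/2`, with square `≤ 9ω² (4^r/3) ∑_i 4^i cos² ∏_{l≠i} cos⁴`
(Cauchy-Schwarz with the weights `4^i`), so `16^(-r) ∫ dgr² ≤ 2 · 4^r ∫ (16^(-r) |∂Ps|² Q4 Q4 +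
3 ω² |Ps|² Q4(3ω/2) (Dr - Q4)(3tω/2)) dω`; use `|Ps| ≤ C/(1+ω²)` in the last term. -/
def Stmt_NRB : Prop := ∃ C : ℝ, 0 < C ∧ ∀ b t : ℝ, b = 7 / 5 ∨ b = 169 / 100 →
  1 / 4 ≤ t → t ≤ 5 / 4 → ∀ r : ℕ,
    Nr b r t ≤ ENNReal.ofReal (C * 4 ^ r) *
      ∫⁻ ω, ENNReal.ofReal (ω ^ 2 / (1 + ω ^ 2) ^ 2 * Q4 r (3 * ω / 2) * Dr r (3 * t * ω / 2))

/-- RATE. `∫ Nr` over an interval of directions of length `≤ 4 · 4^(-j)`, `j ≤ r`. NRB, Tonelli;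
`∫_u^v Dr r (3tω/2) dt = (2/(3|ω|)) ∫ Dr dz` over an interval of length `≤ 6|ω|/4^j`, covered by
`≤ 6|ω| + 1` intervals of length `4^(-j)`: SHORT gives
`≤ (2/(3|ω|)) (6|ω| + 1) C (2/3)^j (3/8)^r`; `ω² (6|ω| + 1)/|ω| ≤ 7 (1 + ω²)`; finally
`∫ Q4 r (3ω/2)/(1 + ω²) dω ≤ C (3/8)^r` by SHORT with `l = 0` (`Q4 ≤ Dr`) on the intervals
`[k, k+1]`; `4 · (3/8)² = 9/16`. -/
def Stmt_RATE : Prop := ∃ C : ℝ, 0 < C ∧ ∀ (b : ℝ) (j r : ℕ) (u v : ℝ),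
  b = 7 / 5 ∨ b = 169 / 100 → j ≤ r → 1 / 4 ≤ u → u ≤ v → v ≤ 5 / 4 → v - u ≤ 4 / 4 ^ j →
    ∫⁻ t in Icc u v, Nr b r t ≤ ENNReal.ofReal (C * (2 / 3) ^ j * (9 / 16) ^ r)

/-- SOB. `u(t)² ≤ 2 u(s)² + 2 (b-a) ∫ u'²`, average over `s`. -/
def Stmt_SOB : Prop := ∀ (u u' : ℝ → ℝ) (a b t : ℝ), a < b → (∀ x, HasDerivAt u (u' x) x) →
  Continuous u' → t ∈ Icc a b →
    u t ^ 2 ≤ 2 / (b - a) * (∫ x in a..b, u x ^ 2) + 2 * (b - a) * ∫ x in a..b, u' x ^ 2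

/-- W3. The increments over a window. From EXP2, W1, DER, SOB. `E_(n+r+1) - E_(n+r) = ∑ w_d
gr b r (x_d(t)) t`, `x_d(t) = 4^n rho i t - u_d - t v_d`; `gr b r x t = 0` for `|x| > 1 + t` (here
`t` in the window is in `Rg b`, so `b ≤ 1 + t`), hence the `d` which occur have
`|x_d(t0)| ≤ 1 + t0 + 1/32 ≤ 5/4 + t0`, total weight `≤ C E_n(t0)`; Cauchy-Schwarz:
`|..|² ≤ C E_n(t0) ∑_d w_d gr(x_d(t), t)²`. SOB on `J = [t0 - 4^(-r), t0 + 4^(-r)]`: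
`gr(x,t)² ≤ 4^r ∫_J gr(x,τ)² dτ + 4 · 4^(-r) ∫_J dgr(x,τ)² dτ`; put `x = x_d(t)` and integrate over
`t` in the window (slope of modulus `≥ 2 · 4^(n+i)`), then extend to all `x`. -/
def Stmt_W3 : Prop := ∃ C : ℝ, 0 < C ∧
  ∀ (b : ℝ) (i j n0 : ℕ) (u v K G : ℝ), Dat b i j n0 u v K G →
  ∀ (n r : ℕ) (t0 : ℝ), 1 ≤ n → r ≤ n → t0 ∈ Icc u v →
    ∫⁻ t in Iw u v t0 (ell (n + i)),
        ENNReal.ofReal ((E b i (n + r + 1) t - E b i (n + r) t) ^ 2) ≤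
      ENNReal.ofReal (C / 4 ^ (n + i) * E b i n t0 ^ 2 * 4 ^ r) *
        ∫⁻ τ in Icc (t0 - 1 / 4 ^ r) (t0 + 1 / 4 ^ r), Nr b r τ

/-! ### D. The recursion -/

/-- COVW. Averages over windows (Tonelli): every `t ∈ [u, v]` belongs to the windows of a set of
`t0 ∈ [u, v]` of measure `≥ l`. -/
def Stmt_COVW : Prop := ∀ (f : ℝ → ENNReal) (u v l : ℝ), Measurable f → 0 < l → l ≤ v - u →
  ENNReal.ofReal l * ∫⁻ t in Icc u v, f t ≤ ∫⁻ t0 in Icc u v, ∫⁻ t in Iw u v t0 l, f t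

/-- FINX. Finiteness and interpolation. `E ≥ 4^(-n)` (W1), `E` is continuous, `v - u ≤ 2`;
Hölder. -/
def Stmt_FINX : Prop := ∀ (b : ℝ) (i j n0 : ℕ) (u v K G : ℝ), Dat b i j n0 u v K G →
  ∀ n : ℕ, 1 ≤ n →
    Continuous (E b i n) ∧ X b i u v (101 / 200) n ≠ ⊤ ∧ X b i u v 2 n ≠ ⊤ ∧
    Xr b i u v (101 / 200) n ≤ 2 * 4 ^ n ∧ Xr b i u v 2 n ≤ (v - u) * 16 ^ n ∧
    Xr b i u v (101 / 200) n ≤ (v - u) ^ (299 / 400 : ℝ) * Xr b i u v 2 n ^ (101 / 400 : ℝ)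

/-- REC1. W2 integrated over `t0` with COVW (`ell (n + i) ≤ ell (n0 + i) ≤ v - u`). -/
def Stmt_REC1 : Prop := ∃ A : ℝ, 1 ≤ A ∧
  ∀ (b : ℝ) (i j n0 : ℕ) (u v K G : ℝ), Dat b i j n0 u v K G → ∀ n r : ℕ, n0 ≤ n → 1 ≤ r → r ≤ n →
    Xr b i u v 2 (n + r) ≤ A * K * G ^ r * Xr b i u v 2 n

/-- GRO. REC1 iterated, by induction on `l` (if `2^l n0 < n ≤ 2^(l+1) n0` take
`n' = ⌈n/2⌉`, `r = n - n'`). -/
def Stmt_GRO : Prop := ∃ A : ℝ, 1 ≤ A ∧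
  ∀ (b : ℝ) (i j n0 : ℕ) (u v K G : ℝ), Dat b i j n0 u v K G → ∀ l n : ℕ, n0 ≤ n → n ≤ 2 ^ l * n0 →
    Xr b i u v 2 n ≤ (A * K) ^ l * G ^ (n - n0) * Xr b i u v 2 n0

/-- LOCB. The bad part over a window: Hölder with the exponents `2/s, 2/θ, 2/θ`
(`ENNReal.lintegral_prod_norm_pow_le`; `s/2 + θ/2 + θ/2 = 1`), W2 for `r + 1` and `r`, W3. The
powers of `E_n(t0)`: `-s - θ + θ`; `(K G^(r+1))^(s/2) (K G^r)^(θ/2) ≤ (K G^(r+1))^((2+s)/4)`. -/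
def Stmt_LOCB : Prop := ∃ C : ℝ, 0 < C ∧
  ∀ (b : ℝ) (i j n0 : ℕ) (u v K G : ℝ), Dat b i j n0 u v K G →
  ∀ (n r : ℕ) (t0 : ℝ), 1 ≤ r → r + 1 ≤ n → t0 ∈ Icc u v →
    ∫⁻ t in Iw u v t0 (ell (n + i)), (ENNReal.ofReal (E b i (n + r + 1) t)) ^ (-(101 / 200) : ℝ) *
        (ENNReal.ofReal |E b i (n + r + 1) t - E b i (n + r) t|) ^ (299 / 400 : ℝ) *
        (ENNReal.ofReal (E b i (n + r) t)) ^ (-(299 / 400) : ℝ) ≤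
      ENNReal.ofReal (C / 4 ^ (n + i) * (K * G ^ (r + 1)) ^ (501 / 800 : ℝ)) *
        (ENNReal.ofReal (E b i n t0)) ^ (-(101 / 200) : ℝ) *
        (ENNReal.ofReal (4 ^ r) *
          ∫⁻ τ in Icc (t0 - 1 / 4 ^ r) (t0 + 1 / 4 ^ r), Nr b r τ) ^ (299 / 800 : ℝ)

/-- REC2. With `a = E_(n+r+1)`, `w = E_(n+r)`: where `|a - w| ≤ δ w`, `a^(-s) ≤ (1-δ)^(-s) w^(-s)`;
elsewhere `a^(-s) ≤ a^(-s) (|a - w|/(δ w))^θ`. COVW and LOCB for the bad part, then Hölder in `t0`: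
`∫ E_n^(-s) Λ^(θ/2) ≤ (∫ Λ)^(θ/2) (∫ E_n^(-q'))^((2+s)/4)`, `q' = 4s/(2+s)`,
`∫ E_n^(-q') ≤ X_s^(2/(2+s)) X_2^(s/(2+s))`; together `X_s^(1/2) X_2^(s/4)` (do it in one step with
three functions: exponents `θ/2, 1/2, s/4`, sum `1`: `E_n^(-s) = (E_n^(-s))^(1/2) (E_n^(-2))^(s/4)`).
`∫ Λ dt0 ≤ 2 ∫_{u-4^(-r)}^{v+4^(-r)} Nr ≤ C (2/3)^j (9/16)^r` by Tonelli and RATE (`j ≤ r`,
`v - u + 2 · 4^(-r) ≤ 4/4^j`). -/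
def Stmt_REC2 : Prop := ∃ A : ℝ, 1 ≤ A ∧
  ∀ (b : ℝ) (i j n0 : ℕ) (u v K G : ℝ), Dat b i j n0 u v K G →
  ∀ (n r : ℕ) (δ : ℝ), n0 ≤ n → j ≤ r → 1 ≤ r → r + 1 ≤ n → 0 < δ → δ ≤ 1 / 2 →
    Xr b i u v (101 / 200) (n + r + 1) ≤
      (1 + 2 * δ) * Xr b i u v (101 / 200) (n + r) +
      A / δ * (K * G ^ (r + 1)) ^ (501 / 800 : ℝ) *
        ((2 / 3) ^ j * (9 / 16) ^ r) ^ (299 / 800 : ℝ) *
        Xr b i u v (101 / 200) n ^ (1 / 2 : ℝ) * Xr b i u v 2 n ^ (101 / 800 : ℝ)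

/-- REC3. REC2 with `N = (m+2)/2` (integer part; `N = ⌈(m+1)/2⌉`), `r = m - N ∈ {N-1, N-2}`,
`δ = 1/(m+1)^2`. -/
def Stmt_REC3 : Prop := ∃ A : ℝ, 1 ≤ A ∧
  ∀ (b : ℝ) (i j n0 : ℕ) (u v K G : ℝ), Dat b i j n0 u v K G → ∀ m : ℕ, 2 * n0 + 2 ≤ m →
    Xr b i u v (101 / 200) (m + 1) ≤
      (1 + 2 / (m + 1) ^ 2) * Xr b i u v (101 / 200) m +
      A * (m + 1) ^ 2 * (K * G ^ ((m + 2) / 2)) ^ (501 / 800 : ℝ) *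
        ((2 / 3) ^ j * (9 / 16) ^ ((m + 2) / 2)) ^ (299 / 800 : ℝ) *
        Xr b i u v (101 / 200) ((m + 2) / 2) ^ (1 / 2 : ℝ) *
        Xr b i u v 2 ((m + 2) / 2) ^ (101 / 800 : ℝ)

/-- SEQ. With `z = max_{M ≤ k ≤ m} Y k`: `z ≤ e^D (y0 + H + S √z) ≤ e^D (y0 + H) + z/2 +
(e^D S)²/2`. -/
def Stmt_SEQ : Prop := ∀ (Y d ε η : ℕ → ℝ) (M : ℕ) (D y0 S H : ℝ), (∀ n, 0 ≤ Y n) →
  (∀ n, 0 ≤ d n) → (∀ n, 0 ≤ ε n) → (∀ n, 0 ≤ η n) → (∀ n, ∑ k ∈ Finset.Ico M n, d k ≤ D) →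
  (∀ n, ∑ k ∈ Finset.Ico M n, ε k ≤ S) → (∀ n, ∑ k ∈ Finset.Ico M n, η k ≤ H) → Y M ≤ y0 →
  (∀ m, M ≤ m → ∀ z, (∀ k, M ≤ k → k ≤ m → Y k ≤ z) →
    Y (m + 1) ≤ (1 + d m) * Y m + ε m * z ^ (1 / 2 : ℝ) + η m) →
  ∀ m, M ≤ m → Y m ≤ 2 * Real.exp D * (y0 + H) + (Real.exp D * S) ^ 2

/-- MIDF. The middle family. `X_2 1 ≤ 32`, `X_2 N ≤ (A K)^l G^N · 32` with `N ≤ 2^l`, `2^l ≤ 2N`
(so `(A K)^l ≤` a power of `N` times a constant). SEQ with `M = 8`: for `N = (m+2)/2 < 8` bound by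
constants (`η`), else `Xr N ≤ z`; `ε_m` is summable as `(131/100)^602 < (16/9)^299`
(`501 + 101 = 602`). -/
def Stmt_MIDF : Prop := ∀ K : ℝ, 1 ≤ K → ∃ C : ℝ, 0 < C ∧ ∀ b u v : ℝ,
  Dat b 0 0 1 u v K (131 / 100) → ∀ m : ℕ, 1 ≤ m → Xr b 0 u v (101 / 200) m ≤ C

/-- HALF1. Small levels. `X_2 1 ≤ 16 (v - u)` (FINX), GRO with `m ≤ 2^l ≤ 2m`, FINX:
`4^(is) X_s m ≤ 4^(is) (v-u)^(1-s/2) X_2^(s/2) ≤ C i^C 4^(-i(1-s)) (6/5)^(8 i s/2)`, and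
`-(99/200) log 4 + (101/50) log (6/5) < -3/10`. -/
def Stmt_HALF1 : Prop := ∀ K : ℝ, 1 ≤ K → ∃ C : ℝ, 0 < C ∧ ∀ i : ℕ, 1 ≤ i →
  Dat (7 / 5) i 0 1 (1 / 2 + 3 / 40 / 4 ^ i) (1 / 2 + 3 / 10 / 4 ^ i) K (6 / 5) →
  ∀ m : ℕ, 1 ≤ m → m ≤ 8 * i →
    Xr (7 / 5) i (1 / 2 + 3 / 40 / 4 ^ i) (1 / 2 + 3 / 10 / 4 ^ i) (101 / 200) m ≤
      C * Real.exp (-(i : ℝ) / 10) / 4 ^ ((i : ℝ) * (101 / 200))

/-- HALF2. All levels. `Y m := 4^(is) X_s m`, SEQ with `M = 8i` (HALF1), REC3, GRO: the error term is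
`≤ A (m+1)² C N^C (6/5)^(602N/800) (9/16)^(299N/800) 4^(101 i/800) · (Y N)^(1/2)`, `N = (m+2)/2 ≥
4i`; `(602 log(6/5) - 299 log(16/9))/800 < -.077`, `101 log 4/800 < .176`; `Y N ≤ C` by HALF1 for
`N < 8i`, `Y N ≤ z` for `N ≥ 8i`. -/
def Stmt_HALF2 : Prop := ∀ K : ℝ, 1 ≤ K → ∃ C : ℝ, 0 < C ∧ ∀ i : ℕ, 1 ≤ i →
  Dat (7 / 5) i 0 1 (1 / 2 + 3 / 40 / 4 ^ i) (1 / 2 + 3 / 10 / 4 ^ i) K (6 / 5) →
  ∀ m : ℕ, 1 ≤ m →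
    Xr (7 / 5) i (1 / 2 + 3 / 40 / 4 ^ i) (1 / 2 + 3 / 10 / 4 ^ i) (101 / 200) m ≤
      C * Real.exp (-(i : ℝ) / 20) / 4 ^ ((i : ℝ) * (101 / 200))

/-- LOWJ. Lower bound at the first levels near `t = 1`: the digits with `dv a + dv b = 0` have total
weight `3/2` and map `x` to `4x - δ (1 - t)`, `|δ| ≤ 3`, so after `n` steps
`|x_n| ≤ 4^(n+1) (1 - t) ≤ 1/2` for `n ≤ j - 1`, `Phi = 1` there; two more levels with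
`T (Phi) ≥ 1/4`, `T² (Phi) ≥ 1/16` (COV). -/
def Stmt_LOWJ : Prop := ∀ (j n : ℕ) (t : ℝ), 1 ≤ j → n ≤ j + 1 → 1 - 1 / (2 * 4 ^ j) ≤ t → t ≤ 1 →
  (3 / 2) ^ n / 36 ≤ E (169 / 100) 0 n t

/-- EXPO. Numerical inequalities. -/
def Stmt_EXPO : Prop := ∀ G GA : ℝ, Pr G GA →
  -(Real.log 4) + 101 / 400 * (-(2 * Real.log (3 / 2)) + 4 * Real.log (GA / G) +
    11 * Real.log G) ≤ -(1 / 10) ∧
  602 / 800 * Real.log G + 101 / 12800 * Real.log (GA / G) - 299 / 800 * Real.log (16 / 9) ≤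
    -(1 / 400) ∧
  101 / 800 * (-(Real.log 4) - 2 * Real.log (3 / 2) + 19 / 4 * Real.log (GA / G) +
      11 * Real.log G) + 501 / 800 * (Real.log (GA / G) + 12 * Real.log G) -
    299 / 800 * (12 * Real.log (16 / 9) + Real.log (3 / 2)) ≤ -(1 / 20) ∧
  (∀ x : ℝ, x = 6 ∨ x = 12 →
    101 / 800 * (-(Real.log 4) - 2 * Real.log (3 / 2) + 4 * Real.log (GA / G) +
        (x - 1) * Real.log G) + 501 / 800 * (Real.log (GA / G) + x * Real.log G) -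
      299 / 800 * (x * Real.log (16 / 9) + Real.log (3 / 2)) +
      1 / 2 * (-(Real.log 4) + 101 / 400 * (-(2 * Real.log (3 / 2)) + 4 * Real.log (GA / G) +
        (x - 1) * Real.log G)) ≤ -(1 / 20))

/-- ONE1. Small levels near `t = 1`. For `m ≤ j + 1`: LOWJ gives `E ≥ 1/36`, `v - u ≤ 2/4^j`. For
`j + 1 ≤ m ≤ 12 j`: `X_2 (j+1) ≤ (2/4^j) 36² (9/4)^(-j)` (LOWJ), GRO with `l = 4`
(`12j ≤ 16(j+1)`): `X_2 m ≤ (A K)^4 G^(m-j-1) X_2 (j+1)`, `K = K0 (GA/G)^j`; FINX. The bound with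
`m` in the exponent is used in ONE2. EXPO (first inequality) gives the last one. -/
def Stmt_ONE1 : Prop := ∀ K0 : ℝ, 1 ≤ K0 → ∃ C : ℝ, 0 < C ∧
  ∀ (j : ℕ) (u v G GA : ℝ), 2 ≤ j → Pr G GA → 1 - 1 / (2 * 4 ^ j) ≤ u → v ≤ 1 →
  Dat (169 / 100) 0 j (j + 1) u v (K0 * (GA / G) ^ j) G →
    (∀ m : ℕ, j + 1 ≤ m → m ≤ 12 * j → Xr (169 / 100) 0 u v (101 / 200) m ≤
      C * Real.exp (-(j * Real.log 4) + 101 / 400 * (-(2 * j * Real.log (3 / 2)) +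
        4 * j * Real.log (GA / G) + ((m : ℝ) - j) * Real.log G))) ∧
    (∀ m : ℕ, 1 ≤ m → m ≤ 12 * j →
      Xr (169 / 100) 0 u v (101 / 200) m ≤ C * Real.exp (-(j : ℝ) / 10))

/-- ONE2. All levels near `t = 1`. SEQ with `M = 12j`, REC3 (`K = K0 (GA/G)^j`), `N = (m+2)/2 ≥ 6j`,
LOWJ for `X_2 (j+1)`, GRO. For `N < 12j`: `l = 4` and ONE1 for `X_s N`: the exponent of the error
term is `j` times a function of `x = N/j` which is affine, `≤ -1/20` at `x = 6` and `x = 12` by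
EXPO. For `N ≥ 12j`: `l ≤ 4 + N/(16 j)` (`N ≤ 2^l (j+1)`; if `N ≤ 16(j+1)` take `l = 4`, else the
least `l`, `2^(l-1)(j+1) < N`, `2^(l-1) < N/j`, `l ≤ 4 + 2^(l-1)/16`), the factor `A^l` is
polynomial in `N/j`, and the exponent is
`j a + N b` with `b ≤ -1/400`, `a + 12 b ≤ -1/20` (EXPO). -/
def Stmt_ONE2 : Prop := ∀ K0 : ℝ, 1 ≤ K0 → ∃ C : ℝ, 0 < C ∧
  ∀ (j : ℕ) (u v G GA : ℝ), 2 ≤ j → Pr G GA → 1 - 1 / (2 * 4 ^ j) ≤ u → v ≤ 1 →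
  Dat (169 / 100) 0 j (j + 1) u v (K0 * (GA / G) ^ j) G →
    ∀ m : ℕ, 1 ≤ m → Xr (169 / 100) 0 u v (101 / 200) m ≤ C * Real.exp (-(j : ℝ) / 50)

/-! ### E. The conclusion -/

/-- MOM. The negative moment of the increments. From the conclusion of DATS (call it `D`), MIDF,
HALF2, ONE2, EDGE, FINX. Cover `[1/2, 1]` up to two points by the intervals of DATS. In the half
family: `e_m ≥ 4t - 2 ≥ (3/10) 4^(-i)` for `m ≤ i` (EDGE, `rho m t ≥ 0` as `4^m (4t-2) ≤ 12/10`), and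
`e_m ≥ E b i (m - i) t/(100 · 4^i)` for `m > i`; in the others `e_0 = 4t - 2 ≥ 3/10` and
`e_m ≥ E/100`. Sum the series over `i`, `j`. -/
def Stmt_MOM : Prop :=
  (∃ K : ℝ, 1 ≤ K ∧
    Dat (7 / 5) 0 0 1 (23 / 40) (7 / 10) K (131 / 100) ∧
    Dat (169 / 100) 0 0 1 (7 / 10) (63 / 65) K (131 / 100) ∧
    (∀ i : ℕ, 1 ≤ i →
      Dat (7 / 5) i 0 1 (1 / 2 + 3 / 40 / 4 ^ i) (1 / 2 + 3 / 10 / 4 ^ i) K (6 / 5)) ∧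
    ∃ (m : ℕ) (a g gA : ℕ → ℝ), a 0 = 1 / 16 ∧ a m = 1 / 4 ∧
      ∀ k < m, 1 / 16 ≤ a k ∧ a k ≤ a (k + 1) ∧ a (k + 1) ≤ 1 / 4 ∧ Pr (g k) (gA k) ∧
        ∀ j : ℕ, 2 ≤ j →
          Dat (169 / 100) 0 j (j + 1) (tau j (a (k + 1))) (tau j (a k)) (K * (gA k / g k) ^ j)
            (g k)) →
  Stmt_MIDF → Stmt_HALF2 → Stmt_ONE2 → Stmt_EDGE → Stmt_FINX →
  ∃ C : ℝ, 0 < C ∧ ∀ m : ℕ,
    ∫⁻ t in Icc (1 / 2 : ℝ) 1,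
      (ENNReal.ofReal ((T t)^[m] (tent t) (rho 0 t))) ^ (-(101 / 200) : ℝ) ≤ ENNReal.ofReal C

/-- TAIL2. Directions with small second moment are rare. `S N t ≥ (1/2) ∑_{m<N} e_m` (AUT1, AUT2);
on the set `((2y)/N)^(-s) ≤ ((1/N) ∑ e_m)^(-s) ≤ (1/N) ∑ e_m^(-s)` (convexity), integrate. -/
def Stmt_TAIL2 : Prop :=
  (∃ C : ℝ, 0 < C ∧ ∀ m : ℕ,
    ∫⁻ t in Icc (1 / 2 : ℝ) 1,
      (ENNReal.ofReal ((T t)^[m] (tent t) (rho 0 t))) ^ (-(101 / 200) : ℝ) ≤ ENNReal.ofReal C) →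
  Stmt_AUT1 → Stmt_AUT2 →
  ∃ C : ℝ, 0 < C ∧ ∀ (N : ℕ) (y : ℝ), 1 ≤ N → 0 < y →
    (volume {t : ℝ | t ∈ Icc (1 / 2 : ℝ) 1 ∧ FCC.S N t ≤ y}).toReal ≤
      C * (y / N) ^ (101 / 200 : ℝ)

/-- DICH2. The dichotomy without logarithm, from STOP, VIT, REC of `FCC`. For `K = 2^i`, `1 ≤ i ≤ k`
(`4 · 2^i < S N t`): `σ = ∑ 4^(-b.1) ≥ |A|/20 ≥ 1/(640 K²)`, `η ≥ K σ`, and `L (N+M) ≤ 5σ +
(1-η) L M ≤ L M - η (L M - 5/K)`, so `L (N+M) - 5/K ≤ (1 - 1/(640 K)) (L M - 5/K)` or `L (N+M) ≤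
5/K`. Scale `i` starts with `L ≤ 10/2^(i-1)` (`i = 1`: `L ≤ 2`) and needs `704 · 2^i` steps of `N`
generations to come to `L ≤ 10/2^i` (`640 log 3 < 704`); in total
`N ∑_{i ≤ k} 704 · 2^i ≤ 1408 · 2^k N`. -/
def Stmt_DICH2 : Prop := ∀ (N k : ℕ) (t : ℝ), 0 ≤ t → t ≤ 1 → 1 ≤ k → 4 * 2 ^ k < FCC.S N t →
  ∀ n : ℕ, N * (1410 * 2 ^ k) ≤ n → FCC.L n t ≤ 10 / 2 ^ k

/-- INT2. The average in the main range, from the conclusion of TAIL2 and DICH2. For `4^k ≤ n` take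
`N = ⌊n/(1410 · 2^k)⌋`: `|{L n > 10/2^k}| ≤ |{S N ≤ 4 · 2^k}| ≤ C (4^k/n)^s` (trivial if `N = 0`,
as then `4^k/n ≥ 2^k/n ≥ 1/1410`). Sum over `k`: `∑ 2^(-k) (4^k/n)^s ≤ C n^(-1/2)` as
`2s = 1.01 > 1`. -/
def Stmt_INT2 : Prop :=
  (∃ C : ℝ, 0 < C ∧ ∀ (N : ℕ) (y : ℝ), 1 ≤ N → 0 < y →
    (volume {t : ℝ | t ∈ Icc (1 / 2 : ℝ) 1 ∧ FCC.S N t ≤ y}).toReal ≤
      C * (y / N) ^ (101 / 200 : ℝ)) →
  Stmt_DICH2 → ∃ C : ℝ, 0 < C ∧ ∀ n : ℕ, 1 ≤ n →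
    ∫ t in (1 / 2 : ℝ)..1, FCC.L n t ≤ C / √n

/-- SYM. For `t ∈ [1/4, 1/2]`: `P n t = {x + t y}`, `x ∈ {0, 3/4} + cset (n-1)/4`,
`y ∈ cset n ⊆ cset (n-1)`, and `cset (n-1)/4 + t cset (n-1) = t P (n-1) (1/(4t))`
(`FCC.Stmt_GEO`, proved as `FCC.geo` or similar in `FCC/GEO.lean`). -/
def Stmt_SYM : Prop := ∀ (n : ℕ) (t : ℝ), 1 ≤ n → 1 / 4 ≤ t → t ≤ 1 / 2 →
  FCC.L n t ≤ FCC.L (n - 1) (1 / (4 * t))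

/-- RED2. From the main range to all directions: SYM with the substitution `u = 1/(4t)`
(`dt = du/(4u²) ≤ du`), `FCC.Stmt_SCL` for the dyadic blocks `[4^(-k-1), 4^(-k)]`, `k ≤ n/2`:
`∫ L n ≤ 8^(-k) ∫_{1/4}^1 L (n-k)`; the rest `[0, 4^(-⌊n/2⌋-1)]` with `L ≤ 2`. -/
def Stmt_RED2 : Prop :=
  (∃ C : ℝ, 0 < C ∧ ∀ n : ℕ, 1 ≤ n → ∫ t in (1 / 2 : ℝ)..1, FCC.L n t ≤ C / √n) →
  Stmt_SYM → ∃ C : ℝ, 0 < C ∧ ∀ n : ℕ, 1 ≤ n → ∫ t in (0 : ℝ)..1, FCC.L n t ≤ C / √n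

/-- MAINQ: the theorem. -/
def Stmt_MAINQ : Prop :=
  (∃ C : ℝ, 0 < C ∧ ∀ n : ℕ, 1 ≤ n → FCC.Fav (FCC.E n) ≤ C / √n) ∧
  (∃ c : ℝ, 0 < c ∧ ∀ n : ℕ, 1 ≤ n → c * FCC.Fav (FCC.E n) ≤ FCC.gam (FCC.E n))

end Pool.Agent.FCQ
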