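import Pool.Agent.FCQ.Stmts

/-!
# COMP: the nodes near the edge do not dominate
-/

set_option autoImplicit false

namespace Pool.Agent.FCQ

open MeasureTheory Set

namespace COMP

/-- The indicator of the edge region. -/
noncomputable def g (t x : ℝ) : ℝ := ind (5 / 4 + t) x - ind (7 / 10 + t) x

theorem ind_even (c x : ℝ) : ind c (-x) = ind c x := by unfold ind; rw [abs_neg]

theorem g_even (t x : ℝ) : g t (-x) = g t x := by unfold g; rw [ind_even, ind_even]

theorem g_le_one (t x : ℝ) : g t x ≤ 1 := by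
  unfold g
  linarith [ind_le_one (5 / 4 + t) x, ind_nonneg (7 / 10 + t) x]

theorem g_zero {t x : ℝ} (h : 5 / 4 + t < |x|) : g t x = 0 := by
  unfold g
  rw [ind_of_lt h, ind_of_lt (by linarith), sub_zero]

theorem g_zero' {t x : ℝ} (h : |x| ≤ 7 / 10 + t) : g t x = 0 := by
  unfold g
  rw [ind_of_le (by linarith), ind_of_le h, sub_self]

theorem g_one {t x : ℝ} (h : 7 / 10 + t < |x|) (h' : |x| ≤ 5 / 4 + t) : g t x = 1 := by
  unfold g
  rw [ind_of_le h', ind_of_lt h, sub_zero]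

theorem g_zero_pos {t x : ℝ} (h : 5 / 4 + t < x) : g t x = 0 :=
  g_zero (lt_of_lt_of_le h (le_abs_self x))

theorem T_g_pos {t x : ℝ} (h1 : 1 / 2 ≤ t) (_ : t ≤ 1) (hx : 7 / 10 + t < x) :
    T t (g t) x = 1 / 4 * g t (4 * x - 3 - 3 * t) := by
  rw [T_apply, g_zero_pos (x := 4 * x + 3 + 3 * t) (by linarith),
    g_zero_pos (x := 4 * x + 3) (by linarith), g_zero_pos (x := 4 * x + 3 - 3 * t) (by linarith),
    g_zero_pos (x := 4 * x + 3 * t) (by linarith), g_zero_pos (x := 4 * x) (by linarith),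
    g_zero_pos (x := 4 * x - 3 * t) (by linarith), g_zero_pos (x := 4 * x - 3 + 3 * t) (by linarith),
    g_zero_pos (x := 4 * x - 3) (by linarith)]
  ring

theorem T_g_le_pos {t x : ℝ} (h1 : 1 / 2 ≤ t) (h2 : t ≤ 1) (hx : 0 ≤ x) :
    T t (g t) x ≤ 1 / 4 * g t x + 4 * ind (7 / 10 + t) x := by
  rcases le_or_gt x (7 / 10 + t) with h | h
  · have hxa : |x| ≤ 7 / 10 + t := by rwa [abs_of_nonneg hx]
    rw [g_zero' hxa, ind_of_le hxa]
    have := T_mono (g_le_one t) t x
    rw [T_const] at this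
    linarith
  · rw [T_g_pos h1 h2 h]
    rcases le_or_gt x (5 / 4 + t) with h' | h'
    · rw [g_one (x := x) (by rwa [abs_of_nonneg hx]) (by rwa [abs_of_nonneg hx])]
      have := g_le_one t (4 * x - 3 - 3 * t)
      have := ind_nonneg (7 / 10 + t) x
      linarith
    · rw [g_zero_pos (x := 4 * x - 3 - 3 * t) (by linarith), g_zero_pos h',
        ind_of_lt (by rw [abs_of_nonneg hx]; linarith)]
      linarith

theorem T_g_le {t : ℝ} (x : ℝ) (h1 : 1 / 2 ≤ t) (h2 : t ≤ 1) :
    T t (g t) x ≤ 1 / 4 * g t x + 4 * ind (7 / 10 + t) x := by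
  rcases le_total 0 x with h | h
  · exact T_g_le_pos h1 h2 h
  · have := T_g_le_pos (x := -x) h1 h2 (by linarith)
    rw [T_even (g_even t), g_even, ind_even] at this
    exact this

theorem ind_le_hat {t : ℝ} (x : ℝ) :
    ind (7 / 10 + t) x ≤ 100 / 19 * hat (89 / 100 + t) x := by
  by_cases h : |x| ≤ 7 / 10 + t
  · rw [ind_of_le h]
    have := hat_ge (89 / 100 + t) x
    linarith
  · push Not at h
    rw [ind_of_lt h]
    have := hat_nonneg (89 / 100 + t) x
    linarith

theorem step {t x : ℝ} (hL : Stmt_LAM) (h1 : 1 / 2 ≤ t) (h2 : t ≤ 1) (hx : |x| ≤ 7 / 10 + t)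
    (n : ℕ) : (T t)^[n] (g t) x ≤ 2200 * (T t)^[n] (hat (89 / 100 + t)) x := by
  induction n with
  | zero =>
    simp only [Function.iterate_zero, id_eq]
    rw [g_zero' hx]
    have := hat_nonneg (89 / 100 + t) x
    linarith
  | succ n ih =>
    have a1 : (T t)^[n + 1] (g t) x ≤
        (T t)^[n] (fun y => 1 / 4 * g t y + 4 * ind (7 / 10 + t) y) x := by
      rw [iter_succ]
      exact iter_mono (fun y => T_g_le y h1 h2) t n x
    have a2 : (T t)^[n] (fun y => 1 / 4 * g t y + 4 * ind (7 / 10 + t) y) x =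
        1 / 4 * (T t)^[n] (g t) x + 4 * (T t)^[n] (ind (7 / 10 + t)) x := by
      rw [iter_add (fun y => 1 / 4 * g t y) (fun y => 4 * ind (7 / 10 + t) y), iter_smul, iter_smul]
    have a3 : (T t)^[n] (ind (7 / 10 + t)) x ≤ 100 / 19 * (T t)^[n] (hat (89 / 100 + t)) x := by
      rw [← iter_smul]
      exact iter_mono (fun y => ind_le_hat y) t n x
    have a4 : 13 / 50 * (T t)^[n] (hat (89 / 100 + t)) x ≤
        (T t)^[n + 1] (hat (89 / 100 + t)) x := by
      rw [iter_succ, ← iter_smul]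
      exact iter_mono (fun y => hL t y h1 h2) t n x
    have a5 : 0 ≤ (T t)^[n] (hat (89 / 100 + t)) x := iter_nonneg (hat_nonneg _) t n x
    linarith

end COMP

theorem COMP_thm : Stmt_LAM → Stmt_COMP := by
  intro hL
  refine ⟨2300, by norm_num, fun t x n h1 h2 hx => ?_⟩
  have b1 := COMP.step hL h1 h2 hx n
  have b2 : (T t)^[n] (ind (7 / 10 + t)) x ≤ 100 / 19 * (T t)^[n] (hat (89 / 100 + t)) x := by
    rw [← iter_smul]
    exact iter_mono (fun y => COMP.ind_le_hat y) t n x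
  have b3 : (T t)^[n] (COMP.g t) x =
      (T t)^[n] (ind (5 / 4 + t)) x - (T t)^[n] (ind (7 / 10 + t)) x := iter_sub _ _ t n x
  have b4 : 0 ≤ (T t)^[n] (hat (89 / 100 + t)) x := iter_nonneg (hat_nonneg _) t n x
  linarith

end Pool.Agent.FCQ
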