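import Mathlib
import Pool.Agent.FCQ.Stmts

/-!
# Small levels near the direction one half
-/

set_option autoImplicit false

namespace Pool.Agent.FCQ

open MeasureTheory Set

namespace HALF1

lemma powbound {A K : ℝ} (hA : 1 ≤ A) (hK : 1 ≤ K) : ∃ p : ℕ, ∀ m : ℕ, 1 ≤ m →
    ∃ l : ℕ, m ≤ 2 ^ l ∧ (A * K) ^ l ≤ (2 * (m : ℝ)) ^ p := by
  obtain ⟨p, hp⟩ := pow_unbounded_of_one_lt (A * K) (by norm_num : (1 : ℝ) < 2)
  refine ⟨p, fun m hm => ⟨Nat.log 2 m + 1, (Nat.lt_pow_succ_log_self (by norm_num) m).le, ?_⟩⟩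
  have h0 : 0 ≤ A * K := by positivity
  have h1 : 2 ^ (Nat.log 2 m + 1) ≤ 2 * m := by
    rw [pow_succ, mul_comm]
    exact Nat.mul_le_mul_left 2 (Nat.pow_log_le_self 2 (by omega))
  have h2 : ((2 : ℝ) ^ (Nat.log 2 m + 1)) ≤ 2 * (m : ℝ) := by exact_mod_cast h1
  calc (A * K) ^ (Nat.log 2 m + 1) ≤ (2 ^ p) ^ (Nat.log 2 m + 1) := by gcongr
    _ = (2 ^ (Nat.log 2 m + 1)) ^ p := by rw [← pow_mul, ← pow_mul, mul_comm]
    _ ≤ (2 * (m : ℝ)) ^ p := by gcongr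

lemma final (p i : ℕ) (hi : 1 ≤ i) (L : ℝ) (hL : L = 9 / 40 / 4 ^ i) :
    L ^ (299 / 400 : ℝ) * ((16 * (i : ℝ)) ^ p * (6 / 5) ^ (8 * i) * (L * 16)) ^ (101 / 400 : ℝ) ≤
      (16 * 16 ^ p * 10 ^ p * (p.factorial : ℝ)) * Real.exp (-(i : ℝ) / 10) /
        4 ^ ((i : ℝ) * (101 / 200)) := by
  have hi1 : (1 : ℝ) ≤ i := by exact_mod_cast hi
  have hLp : 0 < L := by rw [hL]; positivity
  set D : ℝ := 16 * (16 * (i : ℝ)) ^ p with hD
  have hD1 : 1 ≤ D := by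
    have : (1 : ℝ) ≤ (16 * (i : ℝ)) ^ p := one_le_pow₀ (by linarith)
    rw [hD]; linarith
  have e1 : (16 * (i : ℝ)) ^ p * (6 / 5) ^ (8 * i) * (L * 16) = D * (6 / 5) ^ (8 * i) * L := by
    rw [hD]; ring
  rw [e1, Real.mul_rpow (by positivity) hLp.le, Real.mul_rpow (by positivity) (by positivity)]
  have e2 : L ^ (299 / 400 : ℝ) * (D ^ (101 / 400 : ℝ) * ((6 / 5 : ℝ) ^ (8 * i)) ^ (101 / 400 : ℝ) *
      L ^ (101 / 400 : ℝ)) = L * (D ^ (101 / 400 : ℝ) * ((6 / 5 : ℝ) ^ (8 * i)) ^ (101 / 400 : ℝ)) := by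
    have h : L ^ (299 / 400 : ℝ) * L ^ (101 / 400 : ℝ) = L := by
      rw [← Real.rpow_add hLp]
      norm_num
    calc L ^ (299 / 400 : ℝ) * (D ^ (101 / 400 : ℝ) * ((6 / 5 : ℝ) ^ (8 * i)) ^ (101 / 400 : ℝ) *
          L ^ (101 / 400 : ℝ)) = (L ^ (299 / 400 : ℝ) * L ^ (101 / 400 : ℝ)) *
          (D ^ (101 / 400 : ℝ) * ((6 / 5 : ℝ) ^ (8 * i)) ^ (101 / 400 : ℝ)) := by ring
      _ = _ := by rw [h]
  rw [e2]
  -- the factors
  have f1 : D ^ (101 / 400 : ℝ) ≤ D := by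
    calc D ^ (101 / 400 : ℝ) ≤ D ^ (1 : ℝ) :=
          Real.rpow_le_rpow_of_exponent_le hD1 (by norm_num)
      _ = D := Real.rpow_one D
  have f2 : ((6 / 5 : ℝ) ^ (8 * i)) ^ (101 / 400 : ℝ) ≤ Real.exp (101 / 250 * i) := by
    rw [Real.rpow_def_of_pos (by positivity), Real.log_pow]
    apply Real.exp_le_exp.mpr
    have hlog : Real.log (6 / 5) ≤ 1 / 5 := by
      have := Real.log_le_sub_one_of_pos (by norm_num : (0 : ℝ) < 6 / 5)
      linarith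
    push_cast
    nlinarith
  have f3 : (i : ℝ) ^ p ≤ 10 ^ p * (p.factorial : ℝ) * Real.exp ((i : ℝ) / 10) := by
    have h := Real.pow_div_factorial_le_exp ((i : ℝ) / 10) (by positivity) p
    rw [div_le_iff₀ (by positivity), div_pow, div_le_iff₀ (by positivity)] at h
    linarith
  have f4 : (4 : ℝ) ^ i = Real.exp (Real.log 4 * i) := by
    rw [← Real.rpow_natCast, Real.rpow_def_of_pos (by norm_num)]
  have f5 : (4 : ℝ) ^ ((i : ℝ) * (101 / 200)) = Real.exp (Real.log 4 * ((i : ℝ) * (101 / 200))) :=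
    Real.rpow_def_of_pos (by norm_num) _
  have hlog4 : Real.log 4 = 2 * Real.log 2 := by
    rw [show (4 : ℝ) = 2 ^ 2 by norm_num, Real.log_pow]; norm_num
  have hlog2 := Real.log_two_gt_d9
  have f6 : Real.exp ((i : ℝ) / 10) * Real.exp (101 / 250 * i) * Real.exp (-(Real.log 4 * i)) ≤
      Real.exp (-(i : ℝ) / 10) * Real.exp (-(Real.log 4 * ((i : ℝ) * (101 / 200)))) := by
    rw [← Real.exp_add, ← Real.exp_add, ← Real.exp_add]
    apply Real.exp_le_exp.mpr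
    rw [hlog4]
    nlinarith
  rw [f5, div_eq_mul_inv _ (Real.exp _), ← Real.exp_neg]
  have g1 : L * (D ^ (101 / 400 : ℝ) * ((6 / 5 : ℝ) ^ (8 * i)) ^ (101 / 400 : ℝ)) ≤
      Real.exp (-(Real.log 4 * i)) * (D * Real.exp (101 / 250 * i)) := by
    have hLe : L ≤ Real.exp (-(Real.log 4 * i)) := by
      rw [hL, Real.exp_neg, ← f4, ← one_div]
      gcongr
      norm_num
    gcongr
  refine g1.trans ?_
  have g2 : D ≤ 16 * 16 ^ p * (10 ^ p * (p.factorial : ℝ) * Real.exp ((i : ℝ) / 10)) := by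
    rw [hD, mul_pow]
    calc 16 * (16 ^ p * (i : ℝ) ^ p) = 16 * 16 ^ p * (i : ℝ) ^ p := by ring
      _ ≤ _ := by gcongr
  calc Real.exp (-(Real.log 4 * i)) * (D * Real.exp (101 / 250 * i)) ≤
      Real.exp (-(Real.log 4 * i)) * ((16 * 16 ^ p * (10 ^ p * (p.factorial : ℝ) *
        Real.exp ((i : ℝ) / 10))) * Real.exp (101 / 250 * i)) := by gcongr
    _ = (16 * 16 ^ p * 10 ^ p * (p.factorial : ℝ)) *
        (Real.exp ((i : ℝ) / 10) * Real.exp (101 / 250 * i) * Real.exp (-(Real.log 4 * i))) := by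
        ring
    _ ≤ (16 * 16 ^ p * 10 ^ p * (p.factorial : ℝ)) *
        (Real.exp (-(i : ℝ) / 10) * Real.exp (-(Real.log 4 * ((i : ℝ) * (101 / 200))))) := by
        gcongr
    _ = _ := by ring

end HALF1

theorem HALF1_thm (hGRO : Stmt_GRO) (hFINX : Stmt_FINX) : Stmt_HALF1 := by
  intro K hK
  obtain ⟨A, hA, hG⟩ := hGRO
  obtain ⟨p, hp⟩ := HALF1.powbound hA hK
  refine ⟨16 * 16 ^ p * 10 ^ p * (p.factorial : ℝ), by positivity, ?_⟩
  intro i hi hdat m hm1 hm8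
  set u : ℝ := 1 / 2 + 3 / 40 / 4 ^ i with hu
  set v : ℝ := 1 / 2 + 3 / 10 / 4 ^ i with hv
  have hL : v - u = 9 / 40 / 4 ^ i := by
    rw [hu, hv]; ring
  have hLp : 0 < v - u := by rw [hL]; positivity
  obtain ⟨-, -, -, -, hX21, -⟩ := hFINX _ _ _ _ _ _ _ _ hdat 1 le_rfl
  obtain ⟨-, -, -, -, -, hint⟩ := hFINX _ _ _ _ _ _ _ _ hdat m hm1
  obtain ⟨l, hl1, hl2⟩ := hp m hm1
  have hgro := hG _ _ _ _ _ _ _ _ hdat l m hm1 (by rw [mul_one]; exact hl1)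
  have hX20 : 0 ≤ Xr (7 / 5) i u v 2 m := ENNReal.toReal_nonneg
  have hmi : (m : ℝ) ≤ 8 * i := by exact_mod_cast hm8
  have hB : Xr (7 / 5) i u v 2 m ≤ (16 * (i : ℝ)) ^ p * (6 / 5) ^ (8 * i) * ((v - u) * 16) := by
    have h1 : (A * K) ^ l ≤ (16 * (i : ℝ)) ^ p := by
      refine hl2.trans ?_
      have : 2 * (m : ℝ) ≤ 16 * i := by linarith
      gcongr
    have h2 : (6 / 5 : ℝ) ^ (m - 1) ≤ (6 / 5) ^ (8 * i) :=
      pow_le_pow_right₀ (by norm_num) (by omega)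
    have h3 : Xr (7 / 5) i u v 2 1 ≤ (v - u) * 16 := by simpa using hX21
    have h4 : 0 ≤ Xr (7 / 5) i u v 2 1 := ENNReal.toReal_nonneg
    have h5 : 0 ≤ (A * K) ^ l := by positivity
    calc Xr (7 / 5) i u v 2 m ≤ (A * K) ^ l * (6 / 5) ^ (m - 1) * Xr (7 / 5) i u v 2 1 := hgro
      _ ≤ _ := by gcongr
  refine hint.trans (le_trans ?_ (HALF1.final p i hi (v - u) hL))
  gcongr

end Pool.Agent.FCQ
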