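import Pool.Agent.FCQ.ONE2
import Pool.Agent.FCQ.HALF1

/-!
# Module HALF2: all levels near the direction one half
-/

set_option autoImplicit false

namespace Pool.Agent.FCQ

open MeasureTheory Set

namespace HALF2

theorem log169 : (57 / 100 : ℝ) ≤ Real.log (16 / 9) := by
  have h1 : (57 : ℝ) ≤ Real.log ((16 / 9) ^ 100) := by
    rw [Real.le_log_iff_exp_le (by positivity)]
    have h2 : Real.exp 57 = Real.exp 1 ^ 57 := by
      rw [← Real.exp_nat_mul]; norm_num
    rw [h2]
    have h3 := Real.exp_one_lt_d9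
    calc Real.exp 1 ^ 57 ≤ (2.7182818286 : ℝ) ^ 57 := pow_le_pow_left₀ (Real.exp_pos _).le h3.le _
      _ ≤ _ := by norm_num
  rw [Real.log_pow] at h1
  push_cast at h1
  linarith

theorem log65 : Real.log (6 / 5) ≤ 1 / 5 := by
  have := Real.log_le_sub_one_of_pos (by norm_num : (0 : ℝ) < 6 / 5)
  linarith

theorem log4 : Real.log 4 ≤ 13863 / 10000 := by
  have hlog4 : Real.log 4 = 2 * Real.log 2 := by
    rw [show (4 : ℝ) = 2 ^ 2 by norm_num, Real.log_pow]; norm_num
  have hlog2 := Real.log_two_lt_d9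
  rw [hlog4]
  linarith

/-- The exponent of the error term. -/
theorem expo {i N m : ℝ} (hi : 0 ≤ i) (hN : 4 * i ≤ N) (hm : m ≤ 2 * N) :
    501 / 800 * (N * Real.log (6 / 5)) + 299 / 800 * (-(0 * Real.log (3 / 2) + N * Real.log (16 / 9))) +
      101 / 800 * (N * Real.log (6 / 5) - i * Real.log 4) + 101 / 400 * (i * Real.log 4) ≤
      -(m / 800) + -(i / 20) := by
  have hN0 : 0 ≤ N := by linarith
  have h1 := mul_le_mul_of_nonneg_left log65 hN0
  have h2 := mul_le_mul_of_nonneg_left log169 hN0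
  have h3 := mul_le_mul_of_nonneg_left log4 hi
  linarith

end HALF2

theorem HALF2_thm (hhalf1 : Stmt_HALF1) (hrec3 : Stmt_REC3) (hgro : Stmt_GRO) (hseq : Stmt_SEQ)
    (hfinx : Stmt_FINX) : Stmt_HALF2 := by
  intro K hK
  obtain ⟨C1, hC1, h1⟩ := hhalf1 K hK
  obtain ⟨A, hA, hrec⟩ := hrec3
  obtain ⟨A', hA', hG⟩ := hgro
  obtain ⟨p, hp⟩ := HALF1.powbound hA' hK
  have hsum := ONE2.summ (p + 2)
  set Sg : ℝ := ∑' k : ℕ, ((k : ℝ) + 1) ^ (p + 2) * Real.exp (-((k : ℝ) / 800)) with hSg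
  have hSg0 : 0 ≤ Sg := tsum_nonneg fun k => by positivity
  set B : ℝ := 4 * A * K * 2 ^ p with hB
  have hA0 : 0 ≤ A := by linarith
  have hK0 : 0 ≤ K := by linarith
  have hB0 : 0 ≤ B := by positivity
  set Bη : ℝ := B * C1 ^ (1 / 2 : ℝ) with hBη
  have hBη0 : 0 ≤ Bη := by positivity
  refine ⟨(2 * Real.exp 2 * (C1 + Bη * Sg) + (Real.exp 2 * (B * Sg)) ^ 2) + C1, by positivity, ?_⟩
  intro i hi hdat m hm
  set u : ℝ := 1 / 2 + 3 / 40 / 4 ^ i with hu
  set v : ℝ := 1 / 2 + 3 / 10 / 4 ^ i with hv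
  set P : ℝ := 4 ^ ((i : ℝ) * (101 / 200)) with hP
  have hPp : 0 < P := by positivity
  have hi0 : (0 : ℝ) ≤ i := Nat.cast_nonneg i
  have hi1 : (1 : ℝ) ≤ i := by exact_mod_cast hi
  have hh1 := h1 i hi hdat
  -- the scaled quantity
  have hY1 : ∀ n : ℕ, 1 ≤ n → n ≤ 8 * i →
      P * Xr (7 / 5) i u v (101 / 200) n ≤ C1 * Real.exp (-(i : ℝ) / 10) := by
    intro n hn1 hn2
    have h := hh1 n hn1 hn2
    rw [le_div_iff₀ hPp] at h
    linarith
  have hexp1 : Real.exp (-(i : ℝ) / 10) ≤ Real.exp (-(i : ℝ) / 20) :=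
    Real.exp_le_exp.2 (by linarith)
  have hexp2 : Real.exp (-(i : ℝ) / 10) ≤ 1 := Real.exp_le_one_iff.2 (by linarith)
  have hexp3 : Real.exp (-(i : ℝ) / 20) ≤ 1 := Real.exp_le_one_iff.2 (by linarith)
  suffices hgoal : P * Xr (7 / 5) i u v (101 / 200) m ≤
      ((2 * Real.exp 2 * (C1 + Bη * Sg) + (Real.exp 2 * (B * Sg)) ^ 2) + C1) *
        Real.exp (-(i : ℝ) / 20) by
    rw [le_div_iff₀ hPp]
    linarith
  rcases le_or_gt m (8 * i) with hm8 | hm8
  · refine (hY1 m hm hm8).trans ?_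
    calc C1 * Real.exp (-(i : ℝ) / 10) ≤ C1 * Real.exp (-(i : ℝ) / 20) := by gcongr
      _ ≤ _ := by
        gcongr
        have : 0 ≤ 2 * Real.exp 2 * (C1 + Bη * Sg) + (Real.exp 2 * (B * Sg)) ^ 2 := by positivity
        linarith
  · have key := hseq (fun n => P * Xr (7 / 5) i u v (101 / 200) n)
      (fun k => 2 / ((k : ℝ) + 1) ^ 2)
      (fun k => B * Real.exp (-(i : ℝ) / 20) *
        (((k : ℝ) + 1) ^ (p + 2) * Real.exp (-((k : ℝ) / 800))))
      (fun k => Bη * Real.exp (-(i : ℝ) / 20) *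
        (((k : ℝ) + 1) ^ (p + 2) * Real.exp (-((k : ℝ) / 800))))
      (8 * i) 2 (C1 * Real.exp (-(i : ℝ) / 20)) (B * Real.exp (-(i : ℝ) / 20) * Sg)
      (Bη * Real.exp (-(i : ℝ) / 20) * Sg) (fun n => mul_nonneg hPp.le ENNReal.toReal_nonneg)
      (fun n => by positivity) (fun n => by positivity) (fun n => by positivity)
      (fun n => ONE2.sum_d _ (by omega) n)
      (fun n => by
        rw [← Finset.mul_sum]
        refine mul_le_mul_of_nonneg_left ?_ (by positivity)
        exact hsum.sum_le_tsum _ fun k _ => by positivity)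
      (fun n => by
        rw [← Finset.mul_sum]
        refine mul_le_mul_of_nonneg_left ?_ (by positivity)
        exact hsum.sum_le_tsum _ fun k _ => by positivity)
      ((hY1 (8 * i) (by omega) le_rfl).trans (by gcongr))
      (by
        intro n hn z hz
        have hrn := hrec (7 / 5) i 0 1 u v K (6 / 5) hdat n (by omega)
        set N : ℕ := (n + 2) / 2 with hN
        have hN4 : 4 * i ≤ N := by omega
        have hN1 : 1 ≤ N := by omega
        have hNn : N ≤ n := by omega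
        have hN2 : n ≤ 2 * N := by omega
        have hN2'' : 2 * N ≤ n + 2 := by omega
        have hN4' : 4 * (i : ℝ) ≤ N := by exact_mod_cast hN4
        have hN2' : (n : ℝ) ≤ 2 * N := by exact_mod_cast hN2
        have hN2r : 2 * (N : ℝ) ≤ (n : ℝ) + 2 := by exact_mod_cast hN2''
        have hN1r : (1 : ℝ) ≤ N := by exact_mod_cast hN1
        have hnr : (0 : ℝ) ≤ n := Nat.cast_nonneg n
        have hz0 : 0 ≤ z := le_trans (mul_nonneg hPp.le ENNReal.toReal_nonneg) (hz n hn le_rfl)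
        have nX : 0 ≤ Xr (7 / 5) i u v 2 N := ENNReal.toReal_nonneg
        have nY : 0 ≤ Xr (7 / 5) i u v (101 / 200) N := ENNReal.toReal_nonneg
        -- factors
        have hKG : K * (6 / 5 : ℝ) ^ N ≤ K * Real.exp (N * Real.log (6 / 5)) := by
          rw [ONE2.pow_eq_exp (by norm_num : (0 : ℝ) < 6 / 5)]
        have hq' : ((2 : ℝ) / 3) ^ 0 * (9 / 16) ^ N ≤
            1 * Real.exp (-(0 * Real.log (3 / 2) + N * Real.log (16 / 9))) := by
          have := ONE2.q_eq 0 N
          rw [one_mul, this]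
          push_cast
          exact le_rfl
        obtain ⟨l, hl1, hl2⟩ := hp N hN1
        have hgr := hG (7 / 5) i 0 1 u v K (6 / 5) hdat l N hN1 (by rw [mul_one]; exact hl1)
        have hX21 := (hfinx _ _ _ _ _ _ _ _ hdat 1 le_rfl).2.2.2.2.1
        have hvu : v - u = 9 / 40 / 4 ^ i := by rw [hu, hv]; ring
        have hx2 : Xr (7 / 5) i u v 2 N ≤ (4 * (2 * (N : ℝ)) ^ p) *
            Real.exp (N * Real.log (6 / 5) - i * Real.log 4) := by
          have e1 : Real.exp (N * Real.log (6 / 5) - i * Real.log 4) = (6 / 5) ^ N * (1 / 4 ^ i) := by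
            rw [sub_eq_add_neg, Real.exp_add, ← ONE2.pow_eq_exp (by norm_num : (0 : ℝ) < 6 / 5),
              Real.exp_neg, ← ONE2.pow_eq_exp (by norm_num : (0 : ℝ) < 4), one_div]
          have e2 : Xr (7 / 5) i u v 2 1 ≤ 4 * (1 / 4 ^ i) := by
            refine hX21.trans ?_
            rw [hvu]
            have h4 : (0 : ℝ) < 1 / 4 ^ i := by positivity
            have : (9 / 40 / 4 ^ i : ℝ) * 16 ^ 1 = (18 / 5) * (1 / 4 ^ i) := by ring
            rw [this]
            nlinarith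
          have e3 : (6 / 5 : ℝ) ^ (N - 1) ≤ (6 / 5) ^ N :=
            pow_le_pow_right₀ (by norm_num) (Nat.sub_le _ _)
          have e4 : 0 ≤ Xr (7 / 5) i u v 2 1 := ENNReal.toReal_nonneg
          have e5 : 0 ≤ (A' * K) ^ l := by positivity
          rw [e1]
          calc Xr (7 / 5) i u v 2 N ≤ (A' * K) ^ l * (6 / 5) ^ (N - 1) * Xr (7 / 5) i u v 2 1 := hgr
            _ ≤ (2 * (N : ℝ)) ^ p * (6 / 5) ^ N * (4 * (1 / 4 ^ i)) := by gcongr
            _ = _ := by ring
        have hcX : 1 ≤ 4 * (2 * (N : ℝ)) ^ p := by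
          have : (1 : ℝ) ≤ (2 * (N : ℝ)) ^ p := one_le_pow₀ (by linarith)
          linarith
        -- `P * X^(1/2) = P^(1/2) * (P X)^(1/2)`
        have hPe : P = Real.exp (101 / 400 * (i * Real.log 4)) * Real.exp (101 / 400 * (i * Real.log 4)) := by
          rw [hP, Real.rpow_def_of_pos (by norm_num), ← Real.exp_add]
          congr 1
          ring
        have hPs : P ^ (1 / 2 : ℝ) = Real.exp (101 / 400 * (i * Real.log 4)) := by
          have e7 : P = Real.exp (Real.log 4 * ((i : ℝ) * (101 / 200))) :=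
            Real.rpow_def_of_pos (by norm_num) _
          rw [e7, ← Real.exp_mul]
          congr 1
          ring
        have hPX : P * Xr (7 / 5) i u v (101 / 200) N ^ (1 / 2 : ℝ) =
            Real.exp (101 / 400 * (i * Real.log 4)) *
              (P * Xr (7 / 5) i u v (101 / 200) N) ^ (1 / 2 : ℝ) := by
          rw [Real.mul_rpow hPp.le nY, hPs]
          nth_rewrite 1 [hPe]
          ring
        set YN : ℝ := (P * Xr (7 / 5) i u v (101 / 200) N) ^ (1 / 2 : ℝ) with hYN
        have hYN0 : 0 ≤ YN := Real.rpow_nonneg (mul_nonneg hPp.le nY) _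
        have r1 := ONE2.rpow_exp_le (z := 501 / 800) hK (by norm_num) (by norm_num) (by positivity) hKG
        have r2 := ONE2.rpow_exp_le (z := 299 / 800) le_rfl (by norm_num) (by norm_num) (by positivity) hq'
        have r3 := ONE2.rpow_exp_le (z := 101 / 800) hcX (by norm_num) (by norm_num) nX hx2
        have n3 : 0 ≤ Xr (7 / 5) i u v 2 N ^ (101 / 800 : ℝ) := Real.rpow_nonneg nX _
        have hpoly : ((n : ℝ) + 1) ^ 2 * (2 * (N : ℝ)) ^ p ≤ 2 ^ p * ((n : ℝ) + 1) ^ (p + 2) := by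
          have : (2 * (N : ℝ)) ^ p ≤ (2 * ((n : ℝ) + 1)) ^ p := by
            gcongr
            linarith
          calc ((n : ℝ) + 1) ^ 2 * (2 * (N : ℝ)) ^ p ≤ ((n : ℝ) + 1) ^ 2 * (2 * ((n : ℝ) + 1)) ^ p := by gcongr
            _ = _ := by rw [mul_pow]; ring
        have hex := HALF2.expo (i := i) (N := N) (m := n) hi0 hN4' hN2'
        -- the error term
        have herr : P * (A * ((n : ℝ) + 1) ^ 2 * (K * (6 / 5) ^ N) ^ (501 / 800 : ℝ) *
            ((2 / 3) ^ 0 * (9 / 16) ^ N) ^ (299 / 800 : ℝ) *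
            Xr (7 / 5) i u v (101 / 200) N ^ (1 / 2 : ℝ) * Xr (7 / 5) i u v 2 N ^ (101 / 800 : ℝ)) ≤
            B * Real.exp (-(i : ℝ) / 20) *
              (((n : ℝ) + 1) ^ (p + 2) * Real.exp (-((n : ℝ) / 800))) * YN := by
          calc P * (A * ((n : ℝ) + 1) ^ 2 * (K * (6 / 5) ^ N) ^ (501 / 800 : ℝ) *
              ((2 / 3) ^ 0 * (9 / 16) ^ N) ^ (299 / 800 : ℝ) *
              Xr (7 / 5) i u v (101 / 200) N ^ (1 / 2 : ℝ) * Xr (7 / 5) i u v 2 N ^ (101 / 800 : ℝ))
              = A * ((n : ℝ) + 1) ^ 2 * (K * (6 / 5) ^ N) ^ (501 / 800 : ℝ) *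
              ((2 / 3) ^ 0 * (9 / 16) ^ N) ^ (299 / 800 : ℝ) *
              (P * Xr (7 / 5) i u v (101 / 200) N ^ (1 / 2 : ℝ)) *
              Xr (7 / 5) i u v 2 N ^ (101 / 800 : ℝ) := by ring
            _ = A * ((n : ℝ) + 1) ^ 2 * (K * (6 / 5) ^ N) ^ (501 / 800 : ℝ) *
              ((2 / 3) ^ 0 * (9 / 16) ^ N) ^ (299 / 800 : ℝ) *
              (Real.exp (101 / 400 * (i * Real.log 4)) * YN) *
              Xr (7 / 5) i u v 2 N ^ (101 / 800 : ℝ) := by rw [hPX]
            _ ≤ A * ((n : ℝ) + 1) ^ 2 * (K * Real.exp (501 / 800 * (N * Real.log (6 / 5)))) *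
              (1 * Real.exp (299 / 800 * (-(0 * Real.log (3 / 2) + N * Real.log (16 / 9))))) *
              (Real.exp (101 / 400 * (i * Real.log 4)) * YN) *
              (4 * (2 * (N : ℝ)) ^ p * Real.exp (101 / 800 * (N * Real.log (6 / 5) - i * Real.log 4))) := by
                gcongr
            _ = 4 * A * K * (((n : ℝ) + 1) ^ 2 * (2 * (N : ℝ)) ^ p) *
              Real.exp (501 / 800 * (N * Real.log (6 / 5)) +
                299 / 800 * (-(0 * Real.log (3 / 2) + N * Real.log (16 / 9))) +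
                101 / 800 * (N * Real.log (6 / 5) - i * Real.log 4) +
                101 / 400 * (i * Real.log 4)) * YN := by
                rw [Real.exp_add, Real.exp_add, Real.exp_add]
                ring
            _ ≤ 4 * A * K * (2 ^ p * ((n : ℝ) + 1) ^ (p + 2)) *
              Real.exp (-((n : ℝ) / 800) + -((i : ℝ) / 20)) * YN := by
                gcongr
            _ = _ := by
                rw [hB, Real.exp_add, neg_div]
                ring
        have hstep : P * Xr (7 / 5) i u v (101 / 200) (n + 1) ≤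
            (1 + 2 / ((n : ℝ) + 1) ^ 2) * (P * Xr (7 / 5) i u v (101 / 200) n) +
            B * Real.exp (-(i : ℝ) / 20) *
              (((n : ℝ) + 1) ^ (p + 2) * Real.exp (-((n : ℝ) / 800))) * YN := by
          have h5 := mul_le_mul_of_nonneg_left hrn hPp.le
          linarith
        refine hstep.trans ?_
        rcases lt_or_ge N (8 * i) with hcase | hcase
        · have y1 := hY1 N hN1 hcase.le
          have y2 : YN ≤ C1 ^ (1 / 2 : ℝ) := by
            rw [hYN]
            refine Real.rpow_le_rpow (mul_nonneg hPp.le nY) (y1.trans ?_) (by norm_num)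
            calc C1 * Real.exp (-(i : ℝ) / 10) ≤ C1 * 1 := by gcongr
              _ = C1 := mul_one _
          have h6 : B * Real.exp (-(i : ℝ) / 20) *
              (((n : ℝ) + 1) ^ (p + 2) * Real.exp (-((n : ℝ) / 800))) * YN ≤
              Bη * Real.exp (-(i : ℝ) / 20) *
              (((n : ℝ) + 1) ^ (p + 2) * Real.exp (-((n : ℝ) / 800))) := by
            calc B * Real.exp (-(i : ℝ) / 20) *
                (((n : ℝ) + 1) ^ (p + 2) * Real.exp (-((n : ℝ) / 800))) * YN ≤
                B * Real.exp (-(i : ℝ) / 20) *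
                (((n : ℝ) + 1) ^ (p + 2) * Real.exp (-((n : ℝ) / 800))) * C1 ^ (1 / 2 : ℝ) := by gcongr
              _ = _ := by rw [hBη]; ring
          have h7 : 0 ≤ B * Real.exp (-(i : ℝ) / 20) *
              (((n : ℝ) + 1) ^ (p + 2) * Real.exp (-((n : ℝ) / 800))) * z ^ (1 / 2 : ℝ) := by
            positivity
          linarith
        · have y1 := hz N hcase hNn
          have y2 : YN ≤ z ^ (1 / 2 : ℝ) := by
            rw [hYN]
            exact Real.rpow_le_rpow (mul_nonneg hPp.le nY) y1 (by norm_num)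
          have h6 : B * Real.exp (-(i : ℝ) / 20) *
              (((n : ℝ) + 1) ^ (p + 2) * Real.exp (-((n : ℝ) / 800))) * YN ≤
              B * Real.exp (-(i : ℝ) / 20) *
              (((n : ℝ) + 1) ^ (p + 2) * Real.exp (-((n : ℝ) / 800))) * z ^ (1 / 2 : ℝ) := by gcongr
          have h7 : 0 ≤ Bη * Real.exp (-(i : ℝ) / 20) *
              (((n : ℝ) + 1) ^ (p + 2) * Real.exp (-((n : ℝ) / 800))) := by positivity
          linarith)
      m hm8.le
    have key' : P * Xr (7 / 5) i u v (101 / 200) m ≤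
        2 * Real.exp 2 * (C1 * Real.exp (-(i : ℝ) / 20) + Bη * Real.exp (-(i : ℝ) / 20) * Sg) +
          (Real.exp 2 * (B * Real.exp (-(i : ℝ) / 20) * Sg)) ^ 2 := key
    refine key'.trans ?_
    set e : ℝ := Real.exp (-(i : ℝ) / 20) with he
    have he0 : 0 ≤ e := (Real.exp_pos _).le
    have h8 : (Real.exp 2 * (B * e * Sg)) ^ 2 ≤ (Real.exp 2 * (B * Sg)) ^ 2 * e := by
      have : (Real.exp 2 * (B * e * Sg)) ^ 2 = (Real.exp 2 * (B * Sg)) ^ 2 * e * e := by ring
      rw [this]
      calc (Real.exp 2 * (B * Sg)) ^ 2 * e * e ≤ (Real.exp 2 * (B * Sg)) ^ 2 * e * 1 := by gcongr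
        _ = _ := mul_one _
    have h9 : 0 ≤ C1 * e := by positivity
    calc 2 * Real.exp 2 * (C1 * e + Bη * e * Sg) + (Real.exp 2 * (B * e * Sg)) ^ 2
        ≤ 2 * Real.exp 2 * (C1 * e + Bη * e * Sg) + (Real.exp 2 * (B * Sg)) ^ 2 * e := by linarith
      _ ≤ _ := by linarith

end Pool.Agent.FCQ
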