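import Pool.Agent.FCQ.Stmts

/-!
# Module LAM: the hat of radius `89/100 + t` is excessive
-/

set_option autoImplicit false

namespace Pool.Agent.FCQ

open MeasureTheory Set

namespace LAM

theorem hat_pos_arg {c y : ℝ} (h : 0 ≤ y) : c - y ≤ hat c y := by
  have := hat_ge c y
  rwa [abs_of_nonneg h] at this

theorem hat_neg_arg {c y : ℝ} (h : y ≤ 0) : c + y ≤ hat c y := by
  have := hat_ge c y
  rw [abs_of_nonpos h] at this
  linarith

theorem main {t x : ℝ} (h1 : 1 / 2 ≤ t) (h2 : t ≤ 1) (hx : 0 ≤ x) :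
    13 / 50 * hat (89 / 100 + t) x ≤ T t (hat (89 / 100 + t)) x := by
  rcases le_total (89 / 100 + t) x with hxc | hxc
  · rw [hat_of_lt (by rw [abs_of_nonneg hx]; exact hxc), mul_zero]
    exact T_nonneg (hat_nonneg _) t x
  have hl : hat (89 / 100 + t) x = 89 / 100 + t - x := by
    unfold hat
    rw [abs_of_nonneg hx]
    exact max_eq_left (by linarith)
  rw [hl, T_apply]
  have n1 := hat_nonneg (89 / 100 + t) (4 * x - 3 - 3 * t)
  have n2 := hat_nonneg (89 / 100 + t) (4 * x - 3)
  have n3 := hat_nonneg (89 / 100 + t) (4 * x - 3 * t)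
  have n4 := hat_nonneg (89 / 100 + t) (4 * x)
  have n5 := hat_nonneg (89 / 100 + t) (4 * x - 3 + 3 * t)
  have n6 := hat_nonneg (89 / 100 + t) (4 * x + 3 - 3 * t)
  have n7 := hat_nonneg (89 / 100 + t) (4 * x + 3 * t)
  have n8 := hat_nonneg (89 / 100 + t) (4 * x + 3)
  have n9 := hat_nonneg (89 / 100 + t) (4 * x + 3 + 3 * t)
  have p4 : 89 / 100 + t - 4 * x ≤ hat (89 / 100 + t) (4 * x) := hat_pos_arg (by linarith)
  have p6 : 89 / 100 + t - (4 * x + 3 - 3 * t) ≤ hat (89 / 100 + t) (4 * x + 3 - 3 * t) :=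
    hat_pos_arg (by linarith)
  rcases le_total 0 (4 * x - 3 - 3 * t) with s1 | s1
  · have p1 := hat_pos_arg (c := 89 / 100 + t) s1
    linarith
  have p1 := hat_neg_arg (c := 89 / 100 + t) s1
  rcases le_total 0 (4 * x - 3) with s2 | s2
  · have p2 := hat_pos_arg (c := 89 / 100 + t) s2
    have p3 := hat_pos_arg (c := 89 / 100 + t) (y := 4 * x - 3 * t) (by linarith)
    have p5 := hat_pos_arg (c := 89 / 100 + t) (y := 4 * x - 3 + 3 * t) (by linarith)
    linarith
  have p2 := hat_neg_arg (c := 89 / 100 + t) s2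
  rcases le_total 0 (4 * x - 3 * t) with s3 | s3
  · have p3 := hat_pos_arg (c := 89 / 100 + t) s3
    rcases le_total 0 (4 * x - 3 + 3 * t) with s5 | s5
    · have p5 := hat_pos_arg (c := 89 / 100 + t) s5
      linarith
    · have p5 := hat_neg_arg (c := 89 / 100 + t) s5
      linarith
  · have p3 := hat_neg_arg (c := 89 / 100 + t) s3
    rcases le_total 0 (4 * x - 3 + 3 * t) with s5 | s5
    · have p5 := hat_pos_arg (c := 89 / 100 + t) s5
      linarith
    · have p5 := hat_neg_arg (c := 89 / 100 + t) s5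
      linarith

end LAM

theorem LAM_thm : Stmt_LAM := by
  intro t x h1 h2
  rcases le_total 0 x with hx | hx
  · exact LAM.main h1 h2 hx
  · have h := LAM.main h1 h2 (x := -x) (by linarith)
    rw [hat_even, T_even (hat_even _)] at h
    exact h

end Pool.Agent.FCQ
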