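import Pool.Agent.FCQ.Stmts

/-!
# Four corner Cantor sets, the exponent one half: comparisons at the roots (W1)
-/

set_option autoImplicit false

namespace Pool.Agent.FCQ

open MeasureTheory Set

namespace W1

/-- one step of the large indicator function -/
theorem T_ind_le {t : ℝ} (ht : 0 ≤ t) (x : ℝ) :
    T t (ind (5 / 4 + t)) x ≤ 4 * ind (5 / 4 + t) x := by
  by_cases h : |x| ≤ 5 / 4 + t
  · rw [ind_of_le h]
    calc T t (ind (5 / 4 + t)) x ≤ T t (fun _ => 1) x := T_mono (fun y => ind_le_one _ y) t x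
      _ = 4 * 1 := T_const 1 t x
  · push Not at h
    rw [ind_of_lt h, mul_zero]
    refine le_of_eq ?_
    show ∑ a : Fin 3, ∑ b : Fin 3,
      wt a * wt b * ind (5 / 4 + t) (4 * x - dv a - t * dv b) = 0
    refine Finset.sum_eq_zero fun a _ => Finset.sum_eq_zero fun b _ => ?_
    have h1 := abs_dv_le a
    have h2 := abs_dv_le b
    have h3 : |t * dv b| ≤ 3 * t := by
      rw [abs_mul, abs_of_nonneg ht]; nlinarith
    have h4 : |4 * x| = 4 * |x| := by rw [abs_mul]; norm_num
    have h5 := abs_sub_abs_le_abs_sub (4 * x) (dv a + t * dv b)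
    have h6 := abs_add_le (dv a) (t * dv b)
    have h7 : 4 * x - dv a - t * dv b = 4 * x - (dv a + t * dv b) := by ring
    rw [ind_of_lt, mul_zero]
    rw [h7]
    linarith

/-- the smooth base function is below the large indicator function -/
theorem Phi_le {b t : ℝ} (h : Rg b t) (x : ℝ) : Phi b x ≤ ind (5 / 4 + t) x := by
  obtain ⟨h1, -, h3, -, -⟩ := Rg_le h
  exact Phi_le_ind (by linarith) (by linarith) x

/-- the hat is below one step of the base function -/
theorem hat_le_T (hc : Stmt_COV) {b t : ℝ} (h : Rg b t) (x : ℝ) :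
    hat (89 / 100 + t) x ≤ 8 * T t (Phi b) x := by
  obtain ⟨h1, -, -, h4, h5⟩ := Rg_le h
  have h0 : 0 ≤ T t (Phi b) x := T_nonneg (Phi_nonneg b) t x
  by_cases hx : |x| ≤ 9 / 10 + t
  · have h6 := (hc b t h).1 x hx
    have h7 : T t (chi b) x ≤ T t (Phi b) x :=
      T_mono (fun y => chi_le_Phi (by linarith) y) t x
    have h8 : hat (89 / 100 + t) x ≤ 2 := by
      unfold hat
      refine max_le ?_ (by norm_num)
      linarith [abs_nonneg x]
    linarith
  · push Not at hx
    rw [hat_of_lt (by linarith)]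
    linarith

/-- shifting the direction moves the nodes by at most `1/64` -/
theorem shift {i n : ℕ} {t t' u v : ℝ} (hv : |v| ≤ 4 ^ n - 1) (ht : |t - t'| ≤ ell (n + i)) :
    |(4 ^ n * rho i t - u - t * v) - (4 ^ n * rho i t' - u - t' * v)| ≤ 1 / 64 := by
  have h1 : (4 ^ n * rho i t - u - t * v) - (4 ^ n * rho i t' - u - t' * v) =
      (t - t') * (4 ^ n * (1 - 4 ^ (i + 1)) - v) := by
    have := rho_sub i t t'
    linear_combination 4 ^ n * this
  have h2 : (1 : ℝ) ≤ 4 ^ (i + 1) := one_le_pow₀ (by norm_num)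
  have h3 : (0 : ℝ) < 4 ^ n := by positivity
  have h4 : |(4 : ℝ) ^ n * (1 - 4 ^ (i + 1)) - v| ≤ 4 ^ (n + i + 1) := by
    have e : (4 : ℝ) ^ (n + i + 1) = 4 ^ n * 4 ^ (i + 1) := by rw [← pow_add]; congr 1
    rw [e]
    have h5 := abs_le.1 hv
    rw [abs_le]
    constructor
    · nlinarith [h5.2]
    · nlinarith [h5.1]
  have h6 : (0 : ℝ) < 4 ^ (n + i) := by positivity
  rw [h1, abs_mul]
  calc |t - t'| * |(4 : ℝ) ^ n * (1 - 4 ^ (i + 1)) - v| ≤ ell (n + i) * 4 ^ (n + i + 1) :=
        mul_le_mul ht h4 (abs_nonneg _) (by unfold ell; positivity)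
    _ = 1 / 64 := by
        unfold ell
        rw [pow_succ]
        field_simp
        norm_num

/-- the main quantity in a nearby direction is below the iterate of the indicator function -/
theorem near (h2 : Stmt_EXP2) {b : ℝ} {i n : ℕ} {t t' : ℝ} (h : Rg b t)
    (ht : |t - t'| ≤ ell (n + i)) :
    E b i n t' ≤ (T t)^[n] (ind (5 / 4 + t)) (rho i t) := by
  obtain ⟨m, w, u, v, hw, -, hv, -, hT⟩ := h2 n
  obtain ⟨hb, -, hbt, -, -⟩ := Rg_le h
  unfold E
  rw [hT, hT]
  refine Finset.sum_le_sum fun d _ => mul_le_mul_of_nonneg_left ?_ (hw d).le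
  have h3 := shift (i := i) (u := u d) (hv d) ht
  by_cases h4 : b ≤ |4 ^ n * rho i t' - u d - t' * v d|
  · rw [Phi_eq_zero (by linarith) h4]
    exact ind_nonneg _ _
  · push Not at h4
    rw [ind_of_le]
    · exact Phi_le_one _ _
    · have h5 := abs_sub_abs_le_abs_sub (4 ^ n * rho i t - u d - t * v d)
        (4 ^ n * rho i t' - u d - t' * v d)
      linarith

end W1

/-- W1. -/
theorem W1_thm (h2 : Stmt_EXP2) (hc : Stmt_COV) (hp : Stmt_COMP) : Stmt_W1 := by
  obtain ⟨C, hC, hcomp⟩ := hp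
  refine ⟨32 * C, by positivity, ?_⟩
  intro b i n t hn hR hx
  obtain ⟨hb1, -, hbt, ht1, ht2⟩ := Rg_le hR
  have ht0 : 0 ≤ t := by linarith
  -- the first comparison
  have h1 : (T t)^[n] (ind (5 / 4 + t)) (rho i t) ≤ 32 * C * E b i n t := by
    obtain ⟨k, rfl⟩ : ∃ k, n = k + 1 := ⟨n - 1, by omega⟩
    calc (T t)^[k + 1] (ind (5 / 4 + t)) (rho i t)
        = (T t)^[k] (T t (ind (5 / 4 + t))) (rho i t) := by rw [iter_succ]
      _ ≤ (T t)^[k] (fun y => 4 * ind (5 / 4 + t) y) (rho i t) :=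
          iter_mono (W1.T_ind_le ht0) t k _
      _ = 4 * (T t)^[k] (ind (5 / 4 + t)) (rho i t) := iter_smul _ _ _ _ _
      _ ≤ 4 * (C * (T t)^[k] (hat (89 / 100 + t)) (rho i t)) := by
          have := hcomp t (rho i t) k ht1 ht2 hx
          linarith
      _ ≤ 4 * (C * (8 * (T t)^[k] (T t (Phi b)) (rho i t))) := by
          have h3 : (T t)^[k] (hat (89 / 100 + t)) (rho i t) ≤
              8 * (T t)^[k] (T t (Phi b)) (rho i t) := by
            rw [← iter_smul]
            exact iter_mono (W1.hat_le_T hc hR) t k _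
          have h4 := mul_le_mul_of_nonneg_left h3 hC.le
          linarith
      _ = 32 * C * E b i (k + 1) t := by
          unfold E
          rw [iter_succ]
          ring
  refine ⟨h1, ?_, ?_, ?_⟩
  · -- the second comparison
    have h3 : E b i n t ≤ (T t)^[n] (ind (5 / 4 + t)) (rho i t) :=
      iter_mono (W1.Phi_le hR) t n _
    have h4 := hcomp t (rho i t) n ht1 ht2 hx
    have h5 : 0 ≤ (T t)^[n] (hat (89 / 100 + t)) (rho i t) :=
      iter_nonneg (hat_nonneg _) t n _
    nlinarith [mul_nonneg hC.le h5]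
  · -- the lower bound
    have h3 := (hc b t hR).2.2 n hn (rho i t) (by linarith)
    refine h3.trans ?_
    exact iter_mono (fun y => chi_le_Phi (by linarith) y) t n _
  · -- nearby directions
    intro t' _ _ ht'
    exact (W1.near h2 hR ht').trans h1

end Pool.Agent.FCQ
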