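import Pool.Agent.FCQ.MAINQ
import Pool.Agent.FCQ.LAM
import Pool.Agent.FCQ.COMP
import Pool.Agent.FCQ.W1
import Pool.Agent.FCQ.HALF2
import Pool.Agent.FCQ.C.CO
import Pool.Agent.FCQ.C.GONE

/-!
# The average length of the projections of the four corner Cantor generations
-/

set_option autoImplicit false

namespace Pool.Agent.FCQ

/-- The average length of the projections is at most `C / √n`. -/
theorem AVERQ : ∃ C : ℝ, 0 < C ∧ ∀ n : ℕ, 1 ≤ n → ∫ t in (0 : ℝ)..1, FCC.L n t ≤ C / √n := by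
  have hW1 : Stmt_W1 := W1_thm EXP2_thm COV_thm (COMP_thm LAM_thm)
  have hW2 : Stmt_W2 := W2_thm EXP2_thm hW1 JEN_thm
  have hDER : Stmt_DER := DER_thm EXP2_thm
  have hW3 : Stmt_W3 := W3_thm EXP2_thm hW1 hDER SOB_thm
  have hFINX : Stmt_FINX := FINX_thm hW1
  have hGRO : Stmt_GRO := GRO_thm (REC1_thm hW2 COVW_thm hFINX)
  have hNRB : Stmt_NRB := NRB_thm PLN_thm (FTG_thm FTR_thm hDER) PSI_thm hDER
  have hREC3 : Stmt_REC3 :=
    REC3_thm (REC2_thm (LOCB_thm hW2 hW3 hFINX) COVW_thm (RATE_thm hNRB SHORT_thm) hFINX) hFINX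
  exact AVERQ_thm hW1 (HALF2_thm (HALF1_thm hGRO hFINX) hREC3 hGRO SEQ_thm hFINX) C.co C.gone

end Pool.Agent.FCQ
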