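import Pool.Agent.FCQ.Stmts

/-!
# Four corner Cantor sets, the exponent one half: AUT1
-/

set_option autoImplicit false

namespace Pool.Agent.FCQ

open MeasureTheory Set

namespace AUT1

/-- The autocorrelation of the multiplicity. -/
noncomputable def G (N : ℕ) (t x : ℝ) : ℝ := ∫ y, FCC.f N t y * FCC.f N t (y + x)

theorem integrable_mul (N : ℕ) (t x a b : ℝ) :
    Integrable fun y => FCC.f N t (4 ^ 1 * (y - a)) * FCC.f N t (4 ^ 1 * (y + x - b)) := by
  have h1 : Integrable fun y => 4 ^ N * FCC.f N t (4 ^ 1 * (y - a)) :=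
    (FCC.integrable_scale (FCC.integrable_f N t) 1 a).const_mul _
  have hm := FCC.measurable_f N t
  refine h1.mono' ?_ (Filter.Eventually.of_forall fun y => ?_)
  · exact ((hm.comp (by fun_prop)).mul (hm.comp (by fun_prop))).aestronglyMeasurable
  · rw [Real.norm_eq_abs, abs_of_nonneg (mul_nonneg (FCC.f_nonneg _ _ _) (FCC.f_nonneg _ _ _)),
      mul_comm]
    exact mul_le_mul_of_nonneg_right (FCC.f_le _ _ _) (FCC.f_nonneg _ _ _)

theorem integral_mul (N : ℕ) (t x a b : ℝ) :
    ∫ y, FCC.f N t (4 ^ 1 * (y - a)) * FCC.f N t (4 ^ 1 * (y + x - b)) =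
      G N t (4 * x - (4 * b - 4 * a)) / 4 := by
  have h := FCC.integral_scale
    (fun z => FCC.f N t z * FCC.f N t (z + (4 * x - (4 * b - 4 * a)))) 1 a
  rw [pow_one] at h
  rw [pow_one]
  rw [show G N t (4 * x - (4 * b - 4 * a)) =
    ∫ z, FCC.f N t z * FCC.f N t (z + (4 * x - (4 * b - 4 * a))) from rfl, ← h]
  congr 1
  funext y
  congr 2
  ring

theorem pr_one (t : ℝ) (u : FCC.Wd 1) :
    4 * FCC.pr t u = FCC.bv (u 0).1 + t * FCC.bv (u 0).2 := by
  unfold FCC.pr FCC.px FCC.py
  simp only [Finset.univ_unique, Fin.default_eq_zero, Fin.isValue, Fin.val_eq_zero, zero_add,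
    pow_one, Finset.sum_singleton]
  ring

theorem sum_Wd {M : Type*} [AddCommMonoid M] (g : FCC.Wd 1 → M) :
    ∑ u : FCC.Wd 1, g u = ∑ p : Bool × Bool, g (fun _ => p) := by
  refine (Fintype.sum_equiv (Equiv.funUnique (Fin 1) (Bool × Bool)).symm _ _ ?_).symm
  intro p
  rfl

theorem step (N : ℕ) (t x : ℝ) : G (1 + N) t x = T t (G N t) x := by
  have h1 : G (1 + N) t x = ∑ u : FCC.Wd 1, ∑ u' : FCC.Wd 1,
      G N t (4 * x - (4 * FCC.pr t u' - 4 * FCC.pr t u)) / 4 := by
    unfold G
    simp only [FCC.f_add 1 N, Finset.sum_mul_sum]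
    rw [integral_finsetSum _ fun u _ => integrable_finsetSum _ fun u' _ => integrable_mul _ _ _ _ _]
    refine Finset.sum_congr rfl fun u _ => ?_
    rw [integral_finsetSum _ fun u' _ => integrable_mul _ _ _ _ _]
    exact Finset.sum_congr rfl fun u' _ => integral_mul _ _ _ _ _
  rw [h1, T_apply]
  simp only [sum_Wd, pr_one, Fintype.sum_prod_type, Fintype.sum_bool]
  have ht : FCC.bv true = 3 := by unfold FCC.bv; rfl
  have hf : FCC.bv false = 0 := by unfold FCC.bv; rfl
  simp only [ht, hf]
  ring_nf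

theorem base (t x : ℝ) (ht : 0 ≤ t) : G 0 t x = tent t x := by
  have hf : ∀ y, FCC.f 0 t y = (Icc 0 (1 + t)).indicator (fun _ => (1 : ℝ)) y := by
    intro y
    unfold FCC.f FCC.psq FCC.pr FCC.px FCC.py
    simp
  have h2 : ∀ y, FCC.f 0 t y * FCC.f 0 t (y + x) =
      (Icc (max 0 (-x)) (min (1 + t) (1 + t - x))).indicator (fun _ => (1 : ℝ)) y := by
    intro y
    rw [hf, hf]
    by_cases h : y ∈ Icc 0 (1 + t)
    · by_cases h' : y + x ∈ Icc 0 (1 + t)
      · rw [indicator_of_mem h, indicator_of_mem h', indicator_of_mem, one_mul]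
        exact ⟨max_le h.1 (by linarith [h'.1]), le_min h.2 (by linarith [h'.2])⟩
      · rw [indicator_of_notMem h', mul_zero]
        symm
        apply indicator_of_notMem
        rintro ⟨h3, h4⟩
        exact h' ⟨by linarith [le_max_right 0 (-x)], by linarith [min_le_right (1 + t) (1 + t - x)]⟩
    · rw [indicator_of_notMem h, zero_mul]
      symm
      apply indicator_of_notMem
      rintro ⟨h3, h4⟩
      exact h ⟨by linarith [le_max_left 0 (-x)], by linarith [min_le_left (1 + t) (1 + t - x)]⟩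
  unfold G
  rw [integral_congr_ae (Filter.Eventually.of_forall h2), integral_indicator measurableSet_Icc,
    setIntegral_const, smul_eq_mul, mul_one, Measure.real, Real.volume_Icc, ENNReal.toReal_ofReal']
  unfold tent
  congr 1
  rcases le_total 0 x with h | h
  · rw [max_eq_left (by linarith), min_eq_right (by linarith), abs_of_nonneg h, sub_zero]
  · rw [max_eq_right (by linarith), min_eq_left (by linarith), abs_of_nonpos h]

theorem key (t : ℝ) (ht : 0 ≤ t) (N : ℕ) : ∀ x, G N t x = (T t)^[N] (tent t) x := by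
  induction N with
  | zero => exact fun x => base t x ht
  | succ N ih =>
    intro x
    rw [Nat.add_comm, step, Nat.add_comm, iter_succ', funext ih]

end AUT1

theorem AUT1_thm : Stmt_AUT1 := by
  intro N t ht _
  rw [← AUT1.key t ht N 0]
  unfold FCC.S AUT1.G
  congr 1
  funext y
  rw [add_zero, sq]

end Pool.Agent.FCQ
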