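import Pool.Agent.FCQ.Stmts

set_option autoImplicit false

namespace Pool.Agent.FCQ

open MeasureTheory Set

namespace AUT2

theorem iter_zero' {φ : ℝ → ℝ} {t : ℝ} (ht : 0 ≤ t)
    (h : ∀ y, 1 + t ≤ |y| → φ y = 0) (n : ℕ) : ∀ x, 1 + t ≤ |x| → (T t)^[n] φ x = 0 := by
  induction n with
  | zero => intro x hx; exact h x hx
  | succ n ih =>
    intro x hx
    rw [iter_succ']
    show ∑ a : Fin 3, ∑ b : Fin 3, wt a * wt b * (T t)^[n] φ (4 * x - dv a - t * dv b) = 0
    refine Finset.sum_eq_zero fun a _ => Finset.sum_eq_zero fun b _ => ?_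
    rw [ih _ ?_, mul_zero]
    have h1 := abs_dv_le a
    have h2 := abs_dv_le b
    have h3 : |t * dv b| ≤ 3 * t := by
      rw [abs_mul, abs_of_nonneg ht]; nlinarith
    have h4 : |4 * x| = 4 * |x| := by rw [abs_mul]; norm_num
    have h5 := abs_sub_abs_le_abs_sub (4 * x) (dv a + t * dv b)
    have h6 := abs_add_le (dv a) (t * dv b)
    have h7 : 4 * x - dv a - t * dv b = 4 * x - (dv a + t * dv b) := by ring
    rw [h7]
    linarith

end AUT2

open AUT2 in
theorem AUT2_thm : Stmt_AUT2 := by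
  intro N t ht ht1
  have hz : ∀ x, 1 + t ≤ |x| → (T t)^[N] (tent t) x = 0 :=
    iter_zero' (by linarith) (fun y hy => by unfold tent; exact max_eq_right (by linarith)) N
  have he : ∀ x, (T t)^[N] (tent t) (-x) = (T t)^[N] (tent t) x :=
    iter_even (fun y => by unfold tent; rw [abs_neg]) t N
  rw [iter_succ', T_apply, rho_zero]
  have e1 : (T t)^[N] (tent t) (4 * 0 + 3 + 3 * t) = 0 :=
    hz _ (by rw [abs_of_nonneg (by linarith)]; linarith)
  have e2 : (T t)^[N] (tent t) (4 * 0 + 3) = 0 :=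
    hz _ (by rw [abs_of_nonneg (by linarith)]; linarith)
  have e3 : (T t)^[N] (tent t) (4 * 0 + 3 * t) = 0 :=
    hz _ (by rw [abs_of_nonneg (by linarith)]; linarith)
  have e4 : (T t)^[N] (tent t) (4 * 0 - 3 * t) = 0 :=
    hz _ (by rw [abs_of_nonpos (by linarith)]; linarith)
  have e5 : (T t)^[N] (tent t) (4 * 0 - 3) = 0 :=
    hz _ (by rw [abs_of_nonpos (by linarith)]; linarith)
  have e6 : (T t)^[N] (tent t) (4 * 0 - 3 - 3 * t) = 0 :=
    hz _ (by rw [abs_of_nonpos (by linarith)]; linarith)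
  have e7 : (T t)^[N] (tent t) (4 * 0 - 3 + 3 * t) = (T t)^[N] (tent t) (3 - 3 * t) := by
    rw [← he, show -(4 * 0 - 3 + 3 * t) = 3 - 3 * t by ring]
  have e8 : (4 * 0 + 3 - 3 * t : ℝ) = 3 - 3 * t := by ring
  have e9 : (4 * 0 : ℝ) = 0 := by ring
  rw [e1, e2, e3, e4, e5, e6, e7, e8, e9]
  ring

end Pool.Agent.FCQ
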