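import Pool.Agent.FCQ.Defs

/-!
# Four corner Cantor sets, the exponent one half: basic facts
-/

set_option autoImplicit false

namespace Pool.Agent.FCQ

open MeasureTheory Set

theorem wt_zero : wt 0 = 1 / 2 := by unfold wt; rw [if_neg (by decide)]
theorem wt_one : wt 1 = 1 := by unfold wt; rw [if_pos rfl]
theorem wt_two : wt 2 = 1 / 2 := by unfold wt; rw [if_neg (by decide)]
theorem wt_pos (a : Fin 3) : 0 < wt a := by unfold wt; split <;> norm_num
theorem wt_nonneg (a : Fin 3) : 0 ≤ wt a := (wt_pos a).le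
theorem wt_ge (a : Fin 3) : 1 / 2 ≤ wt a := by unfold wt; split <;> norm_num
theorem wt_le (a : Fin 3) : wt a ≤ 1 := by unfold wt; split <;> norm_num
theorem sum_wt : ∑ a : Fin 3, wt a = 2 := by
  rw [Fin.sum_univ_three, wt_zero, wt_one, wt_two]; norm_num

theorem dv_zero : dv 0 = -3 := by unfold dv; norm_num
theorem dv_one : dv 1 = 0 := by unfold dv; norm_num
theorem dv_two : dv 2 = 3 := by unfold dv; norm_num
theorem abs_dv_le (a : Fin 3) : |dv a| ≤ 3 := by
  fin_cases a
  · show |dv 0| ≤ 3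
    rw [dv_zero]; norm_num
  · show |dv 1| ≤ 3
    rw [dv_one]; norm_num
  · show |dv 2| ≤ 3
    rw [dv_two]; norm_num

/-- `T` written out. -/
theorem T_apply (t : ℝ) (φ : ℝ → ℝ) (x : ℝ) : T t φ x =
    1 / 4 * φ (4 * x + 3 + 3 * t) + 1 / 2 * φ (4 * x + 3) + 1 / 4 * φ (4 * x + 3 - 3 * t) +
    1 / 2 * φ (4 * x + 3 * t) + φ (4 * x) + 1 / 2 * φ (4 * x - 3 * t) +
    1 / 4 * φ (4 * x - 3 + 3 * t) + 1 / 2 * φ (4 * x - 3) + 1 / 4 * φ (4 * x - 3 - 3 * t) := by
  unfold T
  simp only [Fin.sum_univ_three, wt_zero, wt_one, wt_two, dv_zero, dv_one, dv_two]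
  ring_nf

theorem T_nonneg {φ : ℝ → ℝ} (h : ∀ y, 0 ≤ φ y) (t x : ℝ) : 0 ≤ T t φ x :=
  Finset.sum_nonneg fun a _ => Finset.sum_nonneg fun b _ =>
    mul_nonneg (mul_nonneg (wt_nonneg a) (wt_nonneg b)) (h _)

theorem T_mono {φ ψ : ℝ → ℝ} (h : ∀ y, φ y ≤ ψ y) (t x : ℝ) : T t φ x ≤ T t ψ x :=
  Finset.sum_le_sum fun a _ => Finset.sum_le_sum fun b _ =>
    mul_le_mul_of_nonneg_left (h _) (mul_nonneg (wt_nonneg a) (wt_nonneg b))

theorem T_add (φ ψ : ℝ → ℝ) (t x : ℝ) :
    T t (fun y => φ y + ψ y) x = T t φ x + T t ψ x := by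
  unfold T
  simp only [mul_add, Finset.sum_add_distrib]

theorem T_sub (φ ψ : ℝ → ℝ) (t x : ℝ) :
    T t (fun y => φ y - ψ y) x = T t φ x - T t ψ x := by
  unfold T
  simp only [mul_sub, Finset.sum_sub_distrib]

theorem T_smul (c : ℝ) (φ : ℝ → ℝ) (t x : ℝ) : T t (fun y => c * φ y) x = c * T t φ x := by
  unfold T
  simp only [Finset.mul_sum]
  exact Finset.sum_congr rfl fun a _ => Finset.sum_congr rfl fun b _ => by ring

theorem T_const (c t x : ℝ) : T t (fun _ => c) x = 4 * c := by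
  rw [T_apply]; ring

/-- One digit. -/
theorem T_ge {φ : ℝ → ℝ} (h : ∀ y, 0 ≤ φ y) (t x : ℝ) (a b : Fin 3) :
    wt a * wt b * φ (4 * x - dv a - t * dv b) ≤ T t φ x := by
  unfold T
  have h0 : ∀ a b : Fin 3, 0 ≤ wt a * wt b * φ (4 * x - dv a - t * dv b) := fun a b =>
    mul_nonneg (mul_nonneg (wt_nonneg a) (wt_nonneg b)) (h _)
  refine le_trans ?_ (Finset.single_le_sum (f := fun a => ∑ b : Fin 3,
    wt a * wt b * φ (4 * x - dv a - t * dv b)) (fun a _ => Finset.sum_nonneg fun b _ => h0 a b)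
    (Finset.mem_univ a))
  exact Finset.single_le_sum (f := fun b => wt a * wt b * φ (4 * x - dv a - t * dv b))
    (fun b _ => h0 a b) (Finset.mem_univ b)

theorem T_even {φ : ℝ → ℝ} (h : ∀ y, φ (-y) = φ y) (t x : ℝ) : T t φ (-x) = T t φ x := by
  rw [T_apply, T_apply]
  have e : ∀ y z : ℝ, y = -z → φ y = φ z := fun y z hy => by rw [hy, h]
  rw [e (4 * -x + 3 + 3 * t) (4 * x - 3 - 3 * t) (by ring), e (4 * -x + 3) (4 * x - 3) (by ring),
    e (4 * -x + 3 - 3 * t) (4 * x - 3 + 3 * t) (by ring),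
    e (4 * -x + 3 * t) (4 * x - 3 * t) (by ring), e (4 * -x) (4 * x) (by ring),
    e (4 * -x - 3 * t) (4 * x + 3 * t) (by ring),
    e (4 * -x - 3 + 3 * t) (4 * x + 3 - 3 * t) (by ring), e (4 * -x - 3) (4 * x + 3) (by ring),
    e (4 * -x - 3 - 3 * t) (4 * x + 3 + 3 * t) (by ring)]
  ring

theorem iter_succ (t : ℝ) (n : ℕ) (φ : ℝ → ℝ) : (T t)^[n + 1] φ = (T t)^[n] (T t φ) :=
  Function.iterate_succ_apply _ _ _

theorem iter_succ' (t : ℝ) (n : ℕ) (φ : ℝ → ℝ) : (T t)^[n + 1] φ = T t ((T t)^[n] φ) :=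
  Function.iterate_succ_apply' _ _ _

theorem iter_add_apply (t : ℝ) (n r : ℕ) (φ : ℝ → ℝ) :
    (T t)^[n + r] φ = (T t)^[n] ((T t)^[r] φ) := Function.iterate_add_apply _ _ _ _

theorem iter_nonneg {φ : ℝ → ℝ} (h : ∀ y, 0 ≤ φ y) (t : ℝ) (n : ℕ) :
    ∀ x, 0 ≤ (T t)^[n] φ x := by
  induction n with
  | zero => exact h
  | succ n ih => intro x; rw [iter_succ']; exact T_nonneg ih t x

theorem iter_mono {φ ψ : ℝ → ℝ} (h : ∀ y, φ y ≤ ψ y) (t : ℝ) (n : ℕ) :
    ∀ x, (T t)^[n] φ x ≤ (T t)^[n] ψ x := by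
  induction n with
  | zero => exact h
  | succ n ih => intro x; rw [iter_succ', iter_succ']; exact T_mono ih t x

theorem iter_add (φ ψ : ℝ → ℝ) (t : ℝ) (n : ℕ) :
    ∀ x, (T t)^[n] (fun y => φ y + ψ y) x = (T t)^[n] φ x + (T t)^[n] ψ x := by
  induction n with
  | zero => intro x; rfl
  | succ n ih =>
    intro x
    rw [iter_succ', iter_succ', iter_succ', ← T_add]
    congr 1
    funext y
    exact ih y

theorem iter_sub (φ ψ : ℝ → ℝ) (t : ℝ) (n : ℕ) :
    ∀ x, (T t)^[n] (fun y => φ y - ψ y) x = (T t)^[n] φ x - (T t)^[n] ψ x := by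
  induction n with
  | zero => intro x; rfl
  | succ n ih =>
    intro x
    rw [iter_succ', iter_succ', iter_succ', ← T_sub]
    congr 1
    funext y
    exact ih y

theorem iter_smul (c : ℝ) (φ : ℝ → ℝ) (t : ℝ) (n : ℕ) :
    ∀ x, (T t)^[n] (fun y => c * φ y) x = c * (T t)^[n] φ x := by
  induction n with
  | zero => intro x; rfl
  | succ n ih =>
    intro x
    rw [iter_succ', iter_succ', ← T_smul]
    congr 1
    funext y
    exact ih y

theorem iter_even {φ : ℝ → ℝ} (h : ∀ y, φ (-y) = φ y) (t : ℝ) (n : ℕ) :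
    ∀ x, (T t)^[n] φ (-x) = (T t)^[n] φ x := by
  induction n with
  | zero => exact h
  | succ n ih => intro x; rw [iter_succ']; exact T_even ih t x

theorem measurable_T {φ : ℝ → ℝ} (h : Measurable φ) (t : ℝ) : Measurable (T t φ) := by
  unfold T
  exact Finset.measurable_sum _ fun a _ => Finset.measurable_sum _ fun b _ =>
    (h.comp (by fun_prop)).const_mul _

theorem measurable_iter {φ : ℝ → ℝ} (h : Measurable φ) (t : ℝ) (n : ℕ) :
    Measurable ((T t)^[n] φ) := by
  induction n with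
  | zero => exact h
  | succ n ih => rw [iter_succ']; exact measurable_T ih t

/-- Joint measurability of the iterates in the direction and the point. -/
theorem measurable_iter_joint {φ : ℝ → ℝ} (h : Measurable φ) (n : ℕ) :
    Measurable fun p : ℝ × ℝ => (T p.1)^[n] φ p.2 := by
  induction n with
  | zero => exact h.comp measurable_snd
  | succ n ih =>
    have : (fun p : ℝ × ℝ => (T p.1)^[n + 1] φ p.2) = fun p : ℝ × ℝ =>
        ∑ a : Fin 3, ∑ b : Fin 3, wt a * wt b *
          (T p.1)^[n] φ (4 * p.2 - dv a - p.1 * dv b) := by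
      funext p
      rw [iter_succ']
      rfl
    rw [this]
    refine Finset.measurable_sum _ fun a _ => Finset.measurable_sum _ fun b _ => ?_
    refine Measurable.const_mul ?_ _
    exact ih.comp (f := fun p : ℝ × ℝ => (p.1, 4 * p.2 - dv a - p.1 * dv b)) (by fun_prop)

/-- Joint continuity of the iterates in the direction and the point. -/
theorem continuous_iter_joint {φ : ℝ → ℝ} (h : Continuous φ) (n : ℕ) :
    Continuous fun p : ℝ × ℝ => (T p.1)^[n] φ p.2 := by
  induction n with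
  | zero => exact h.comp continuous_snd
  | succ n ih =>
    have : (fun p : ℝ × ℝ => (T p.1)^[n + 1] φ p.2) = fun p : ℝ × ℝ =>
        ∑ a : Fin 3, ∑ b : Fin 3, wt a * wt b *
          (T p.1)^[n] φ (4 * p.2 - dv a - p.1 * dv b) := by
      funext p
      rw [iter_succ']
      rfl
    rw [this]
    refine continuous_finsetSum _ fun a _ => continuous_finsetSum _ fun b _ => ?_
    refine Continuous.mul continuous_const ?_
    exact ih.comp (f := fun p : ℝ × ℝ => (p.1, 4 * p.2 - dv a - p.1 * dv b)) (by fun_prop)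

/-! ### The starting points and the base functions -/

theorem rho_zero (t : ℝ) : rho 0 t = 3 - 3 * t := by unfold rho; ring

theorem rho_succ (i : ℕ) (t : ℝ) : rho (i + 1) t = 4 * rho i t - 3 - 3 * t := by
  unfold rho; ring

theorem rho_sub (i : ℕ) (t t' : ℝ) : rho i t - rho i t' = (1 - 4 ^ (i + 1)) * (t - t') := by
  unfold rho; ring

theorem continuous_rho (i : ℕ) : Continuous (rho i) := by unfold rho; fun_prop

theorem Phi_nonneg (b x : ℝ) : 0 ≤ Phi b x := Real.smoothTransition.nonneg _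

theorem Phi_le_one (b x : ℝ) : Phi b x ≤ 1 := Real.smoothTransition.le_one _

theorem Phi_even (b x : ℝ) : Phi b (-x) = Phi b x := by unfold Phi; rw [neg_sq]

theorem Phi_den {b : ℝ} (hb : 1 ≤ b) : 0 < b ^ 2 - (b - 1 / 100) ^ 2 := by nlinarith

theorem Phi_eq_one {b x : ℝ} (hb : 1 ≤ b) (hx : |x| ≤ b - 1 / 100) : Phi b x = 1 := by
  unfold Phi
  refine Real.smoothTransition.one_of_one_le ?_
  rw [le_div_iff₀ (Phi_den hb), one_mul]
  have h1 : x ^ 2 ≤ (b - 1 / 100) ^ 2 := sq_le_sq' (by linarith [neg_abs_le x]) (by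
    linarith [le_abs_self x])
  linarith

theorem Phi_eq_zero {b x : ℝ} (hb : 1 ≤ b) (hx : b ≤ |x|) : Phi b x = 0 := by
  unfold Phi
  refine Real.smoothTransition.zero_of_nonpos ?_
  refine div_nonpos_of_nonpos_of_nonneg ?_ (Phi_den hb).le
  have h1 : b ^ 2 ≤ |x| ^ 2 := by nlinarith [abs_nonneg x]
  rw [sq_abs] at h1
  linarith

theorem contDiff_Phi (b : ℝ) (n : ℕ∞) : ContDiff ℝ n (Phi b) := by
  unfold Phi
  exact Real.smoothTransition.contDiff.comp (by fun_prop)

theorem continuous_Phi (b : ℝ) : Continuous (Phi b) := (contDiff_Phi b 0).continuous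

theorem chi_nonneg (b x : ℝ) : 0 ≤ chi b x := by unfold chi; split <;> norm_num

theorem chi_le_one (b x : ℝ) : chi b x ≤ 1 := by unfold chi; split <;> norm_num

theorem chi_le_Phi {b : ℝ} (hb : 1 ≤ b) (x : ℝ) : chi b x ≤ Phi b x := by
  unfold chi
  split
  · rename_i h
    rw [Phi_eq_one hb (by linarith)]
  · exact Phi_nonneg b x

theorem measurable_chi (b : ℝ) : Measurable (chi b) := by
  unfold chi
  exact Measurable.ite (measurableSet_le (by fun_prop) (by fun_prop)) measurable_const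
    measurable_const

theorem ind_nonneg (c x : ℝ) : 0 ≤ ind c x := by unfold ind; split <;> norm_num

theorem ind_le_one (c x : ℝ) : ind c x ≤ 1 := by unfold ind; split <;> norm_num

theorem ind_of_le {c x : ℝ} (h : |x| ≤ c) : ind c x = 1 := by unfold ind; rw [if_pos h]

theorem ind_of_lt {c x : ℝ} (h : c < |x|) : ind c x = 0 := by
  unfold ind; rw [if_neg (not_le.2 h)]

theorem measurable_ind (c : ℝ) : Measurable (ind c) := by
  unfold ind
  exact Measurable.ite (measurableSet_le (by fun_prop) (by fun_prop)) measurable_const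
    measurable_const

theorem Phi_le_ind {b c : ℝ} (hb : 1 ≤ b) (hc : b ≤ c) (x : ℝ) : Phi b x ≤ ind c x := by
  by_cases h : |x| ≤ c
  · rw [ind_of_le h]; exact Phi_le_one b x
  · rw [Phi_eq_zero hb (by linarith [not_le.1 h])]; exact ind_nonneg c x

theorem hat_nonneg (c x : ℝ) : 0 ≤ hat c x := le_max_right _ _

theorem hat_ge (c x : ℝ) : c - |x| ≤ hat c x := le_max_left _ _

theorem hat_of_lt {c x : ℝ} (h : c ≤ |x|) : hat c x = 0 := max_eq_right (by linarith)

theorem hat_even (c x : ℝ) : hat c (-x) = hat c x := by unfold hat; rw [abs_neg]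

theorem hat_mono {c c' : ℝ} (h : c ≤ c') (x : ℝ) : hat c x ≤ hat c' x :=
  max_le_max (by linarith) le_rfl

theorem continuous_hat (c : ℝ) : Continuous (hat c) := by unfold hat; fun_prop

theorem tent_eq (t : ℝ) : tent t = hat (1 + t) := rfl

/-- The base function vanishes outside `|x| ≤ 1 + t`. -/
theorem Rg_le {b t : ℝ} (h : Rg b t) : 7 / 5 ≤ b ∧ b ≤ 169 / 100 ∧ b ≤ 1 + t ∧ 1 / 2 ≤ t ∧
    t ≤ 1 := by
  rcases h with ⟨rfl, h1, h2⟩ | ⟨rfl, h1, h2⟩
  · exact ⟨by norm_num, by norm_num, by linarith, h1, by linarith⟩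
  · exact ⟨by norm_num, by norm_num, by linarith, by linarith, h2⟩

theorem E_nonneg (b : ℝ) (i n : ℕ) (t : ℝ) : 0 ≤ E b i n t := iter_nonneg (Phi_nonneg b) t n _

theorem continuous_E (b : ℝ) (i n : ℕ) : Continuous (E b i n) :=
  (continuous_iter_joint (continuous_Phi b) n).comp (f := fun t => (t, rho i t))
    (continuous_id.prodMk (continuous_rho i))

theorem measurable_E (b : ℝ) (i n : ℕ) : Measurable (E b i n) := (continuous_E b i n).measurable

/-- The value at a point depends on the values at `|4 y| ≤ ..` only: if `φ` vanishes for `|y| > c`,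
`c ≤ 1 + t`, then the iterates vanish for `|x| > 1 + t`. -/
theorem iter_zero {φ : ℝ → ℝ} {t c : ℝ} (ht : 0 ≤ t) (hc : c ≤ 1 + t)
    (h : ∀ y, c < |y| → φ y = 0) (n : ℕ) : ∀ x, 1 + t < |x| → (T t)^[n] φ x = 0 := by
  induction n with
  | zero => intro x hx; exact h x (lt_of_le_of_lt hc hx)
  | succ n ih =>
    intro x hx
    rw [iter_succ']
    show ∑ a : Fin 3, ∑ b : Fin 3, wt a * wt b * (T t)^[n] φ (4 * x - dv a - t * dv b) = 0
    refine Finset.sum_eq_zero fun a _ => Finset.sum_eq_zero fun b _ => ?_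
    rw [ih _ ?_, mul_zero]
    have h1 := abs_dv_le a
    have h2 := abs_dv_le b
    have h3 : |t * dv b| ≤ 3 * t := by
      rw [abs_mul, abs_of_nonneg ht]; nlinarith
    have h4 : |4 * x| = 4 * |x| := by rw [abs_mul]; norm_num
    have h5 := abs_sub_abs_le_abs_sub (4 * x) (dv a + t * dv b)
    have h6 := abs_add_le (dv a) (t * dv b)
    have h7 : 4 * x - dv a - t * dv b = 4 * x - (dv a + t * dv b) := by ring
    rw [h7]
    linarith

end Pool.Agent.FCQ
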