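import Pool.Agent.FCQ.Stmts

/-!
# Four corner Cantor sets: growth from the certificate in one variable
-/

set_option autoImplicit false

namespace Pool.Agent.FCQ

open MeasureTheory Set

namespace GMID

/-- change of variables -/
theorem cov (H : ℝ → ENNReal) (hH : Measurable H) (d : ℝ) :
    ∫⁻ x, H (4 * x - d) = ENNReal.ofReal (1 / 4) * ∫⁻ y, H y := by
  have h1 : ∫⁻ x, H (4 * x - d) =
      ∫⁻ z, H (z - d) ∂(Measure.map (fun x : ℝ => 4 * x) volume) := by
    rw [lintegral_map (f := fun z => H (z - d)) (hH.comp (by fun_prop)) (by fun_prop)]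
  rw [h1, Real.map_volume_mul_left (by norm_num : (4 : ℝ) ≠ 0), lintegral_smul_measure,
    lintegral_sub_right_eq_self (fun y => H y) d]
  have h2 : |(4 : ℝ)⁻¹| = 1 / 4 := by rw [abs_of_pos (by norm_num)]; norm_num
  rw [h2]
  rfl

theorem sum9 {M : Type*} [AddCommMonoid M] (F : Fin 3 → Fin 3 → M) :
    ∑ d : Fin (3 * 3), F (finProdFinEquiv.symm d).1 (finProdFinEquiv.symm d).2 =
      ∑ a : Fin 3, ∑ b : Fin 3, F a b :=
  (Equiv.sum_comp (finProdFinEquiv (m := 3) (n := 3)).symm (fun q => F q.1 q.2)).trans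
    (Fintype.sum_prod_type _)

/-- Jensen for one step -/
theorem jen2 (hJ : Stmt_JEN) (t : ℝ) (h B : ℝ → ℝ) (h0 : ∀ y, 0 ≤ h y) (B0 : ∀ y, 0 ≤ B y)
    (x : ℝ) (hp : 0 < T t h x) :
    (ENNReal.ofReal (T t B x))⁻¹ ^ 2 ≤ ENNReal.ofReal (1 / (T t h x) ^ 3) *
      ∑ a : Fin 3, ∑ b : Fin 3,
        ENNReal.ofReal (wt a * wt b * h (4 * x - dv a - t * dv b) ^ 3) *
          (ENNReal.ofReal (B (4 * x - dv a - t * dv b)))⁻¹ ^ 2 := by
  let e := (finProdFinEquiv (m := 3) (n := 3)).symm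
  have e1 : ∀ φ : ℝ → ℝ, ∑ d : Fin (3 * 3), (wt (e d).1 * wt (e d).2) *
      φ (4 * x - dv (e d).1 - t * dv (e d).2) = T t φ x := fun φ =>
    sum9 (fun a b => wt a * wt b * φ (4 * x - dv a - t * dv b))
  have e2 := sum9 (fun a b => ENNReal.ofReal (wt a * wt b * h (4 * x - dv a - t * dv b) ^ 3) *
    (ENNReal.ofReal (B (4 * x - dv a - t * dv b)))⁻¹ ^ 2)
  have h1 := hJ (3 * 3) (fun d => wt (e d).1 * wt (e d).2)
    (fun d => h (4 * x - dv (e d).1 - t * dv (e d).2))
    (fun d => B (4 * x - dv (e d).1 - t * dv (e d).2))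
    (fun d => mul_nonneg (wt_nonneg _) (wt_nonneg _)) (fun d => h0 _) (fun d => B0 _)
    (by rw [e1 h]; exact hp)
  rw [e1 B, e1 h] at h1
  rw [← e2]
  exact h1

/-- the functional -/
noncomputable def M (b t : ℝ) (V : ℝ → ℝ) (n : ℕ) : ENNReal :=
  ∫⁻ x, ENNReal.ofReal (V x) * (ENNReal.ofReal ((T t)^[n] (chi b) x))⁻¹ ^ 2

theorem meas_F (b t : ℝ) (n : ℕ) :
    Measurable fun y => (ENNReal.ofReal ((T t)^[n] (chi b) y))⁻¹ ^ 2 :=
  ((measurable_iter (measurable_chi b) t n).ennreal_ofReal.inv).pow_const 2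

theorem meas_VF (b t : ℝ) {V : ℝ → ℝ} (mV : Measurable V) (n : ℕ) :
    Measurable fun x => ENNReal.ofReal (V x) * (ENNReal.ofReal ((T t)^[n] (chi b) x))⁻¹ ^ 2 :=
  mV.ennreal_ofReal.mul (meas_F b t n)

/-- one step -/
theorem step (hJ : Stmt_JEN) {b t c0 C0 G : ℝ} {h V : ℝ → ℝ} (hG : 1 ≤ G)
    (hc : Cm t c0 C0 G h V) (n : ℕ) :
    M b t V (n + 1) ≤ ENNReal.ofReal G * M b t V n := by
  have hT := measurable_T hc.mh t
  have hF := meas_F b t n
  have hTn : ∀ x, 0 ≤ T t h x := T_nonneg hc.h0 t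
  -- pointwise bound
  have h1 : M b t V (n + 1) ≤ ∫⁻ x, ∑ a : Fin 3, ∑ c : Fin 3,
      (fun y => ENNReal.ofReal (wt a * wt c * (h y / T t h ((y + dv a + t * dv c) / 4)) ^ 3 *
        V ((y + dv a + t * dv c) / 4)) * (ENNReal.ofReal ((T t)^[n] (chi b) y))⁻¹ ^ 2)
        (4 * x - (dv a + t * dv c)) := by
    refine lintegral_mono fun x => ?_
    by_cases hV : V x = 0
    · show ENNReal.ofReal (V x) * _ ≤ _
      rw [hV, ENNReal.ofReal_zero, zero_mul]
      exact zero_le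
    · have hp := hc.pos x hV
      have h2 := jen2 hJ t h ((T t)^[n] (chi b)) hc.h0 (iter_nonneg (chi_nonneg b) t n) x hp
      have h3 : (T t)^[n + 1] (chi b) x = T t ((T t)^[n] (chi b)) x := by rw [iter_succ']
      show ENNReal.ofReal (V x) * (ENNReal.ofReal ((T t)^[n + 1] (chi b) x))⁻¹ ^ 2 ≤ _
      rw [h3]
      refine (mul_le_mul_right h2 _).trans (le_of_eq ?_)
      rw [Finset.mul_sum, Finset.mul_sum]
      refine Finset.sum_congr rfl fun a _ => ?_
      rw [Finset.mul_sum, Finset.mul_sum]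
      refine Finset.sum_congr rfl fun c _ => ?_
      have h4 : (4 * x - (dv a + t * dv c) + dv a + t * dv c) / 4 = x := by ring
      have h5 : 4 * x - dv a - t * dv c = 4 * x - (dv a + t * dv c) := by ring
      show _ = ENNReal.ofReal (wt a * wt c * (h (4 * x - (dv a + t * dv c)) /
        T t h ((4 * x - (dv a + t * dv c) + dv a + t * dv c) / 4)) ^ 3 *
        V ((4 * x - (dv a + t * dv c) + dv a + t * dv c) / 4)) * _
      rw [h4, h5, ← mul_assoc, ← mul_assoc, ← ENNReal.ofReal_mul (hc.V0 x),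
        ← ENNReal.ofReal_mul (mul_nonneg (hc.V0 x) (by have := hTn x; positivity))]
      congr 2
      rw [div_pow]
      ring
  refine h1.trans ?_
  have hm : ∀ a c : Fin 3, Measurable (fun y => ENNReal.ofReal (wt a * wt c *
      (h y / T t h ((y + dv a + t * dv c) / 4)) ^ 3 * V ((y + dv a + t * dv c) / 4)) *
        (ENNReal.ofReal ((T t)^[n] (chi b) y))⁻¹ ^ 2) := by
    intro a c
    refine Measurable.mul ?_ hF
    refine Measurable.ennreal_ofReal ?_
    have m1 : Measurable fun y : ℝ => (y + dv a + t * dv c) / 4 := by fun_prop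
    exact (((hc.mh.div (hT.comp m1)).pow_const 3).const_mul _).mul (hc.mV.comp m1)
  have hm2 : ∀ a c : Fin 3, Measurable (fun x => (fun y => ENNReal.ofReal (wt a * wt c *
      (h y / T t h ((y + dv a + t * dv c) / 4)) ^ 3 * V ((y + dv a + t * dv c) / 4)) *
        (ENNReal.ofReal ((T t)^[n] (chi b) y))⁻¹ ^ 2) (4 * x - (dv a + t * dv c))) := by
    intro a c
    exact (hm a c).comp (by fun_prop)
  rw [lintegral_finsetSum _ fun a _ => Finset.measurable_sum _ fun c _ => hm2 a c]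
  have h6 : ∀ a : Fin 3, ∫⁻ x, ∑ c : Fin 3,
      (fun y => ENNReal.ofReal (wt a * wt c * (h y / T t h ((y + dv a + t * dv c) / 4)) ^ 3 *
        V ((y + dv a + t * dv c) / 4)) * (ENNReal.ofReal ((T t)^[n] (chi b) y))⁻¹ ^ 2)
        (4 * x - (dv a + t * dv c)) =
      ∑ c : Fin 3, ∫⁻ y, ENNReal.ofReal (wt a * wt c / 4 *
        (h y / T t h ((y + dv a + t * dv c) / 4)) ^ 3 * V ((y + dv a + t * dv c) / 4)) *
          (ENNReal.ofReal ((T t)^[n] (chi b) y))⁻¹ ^ 2 := by
    intro a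
    rw [lintegral_finsetSum _ fun c _ => hm2 a c]
    refine Finset.sum_congr rfl fun c _ => ?_
    rw [cov _ (hm a c), ← lintegral_const_mul _ (hm a c)]
    refine lintegral_congr fun y => ?_
    rw [← mul_assoc, ← ENNReal.ofReal_mul (by norm_num)]
    congr 2
    ring
  rw [Finset.sum_congr rfl fun a _ => h6 a]
  have hm3 : ∀ a c : Fin 3, Measurable (fun y => ENNReal.ofReal (wt a * wt c / 4 *
      (h y / T t h ((y + dv a + t * dv c) / 4)) ^ 3 * V ((y + dv a + t * dv c) / 4)) *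
        (ENNReal.ofReal ((T t)^[n] (chi b) y))⁻¹ ^ 2) := by
    intro a c
    refine Measurable.mul ?_ hF
    refine Measurable.ennreal_ofReal ?_
    have m1 : Measurable fun y : ℝ => (y + dv a + t * dv c) / 4 := by fun_prop
    exact (((hc.mh.div (hT.comp m1)).pow_const 3).const_mul _).mul (hc.mV.comp m1)
  have h7 : ∀ a : Fin 3, ∑ c : Fin 3, ∫⁻ y, ENNReal.ofReal (wt a * wt c / 4 *
        (h y / T t h ((y + dv a + t * dv c) / 4)) ^ 3 * V ((y + dv a + t * dv c) / 4)) *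
          (ENNReal.ofReal ((T t)^[n] (chi b) y))⁻¹ ^ 2 =
      ∫⁻ y, ∑ c : Fin 3, ENNReal.ofReal (wt a * wt c / 4 *
        (h y / T t h ((y + dv a + t * dv c) / 4)) ^ 3 * V ((y + dv a + t * dv c) / 4)) *
          (ENNReal.ofReal ((T t)^[n] (chi b) y))⁻¹ ^ 2 := fun a =>
    (lintegral_finsetSum _ fun c _ => hm3 a c).symm
  rw [Finset.sum_congr rfl fun a _ => h7 a,
    ← lintegral_finsetSum _ fun a _ => Finset.measurable_sum _ fun c _ => hm3 a c]
  unfold M
  rw [← lintegral_const_mul _ (meas_VF b t hc.mV n)]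
  refine lintegral_mono fun y => ?_
  have h8 : ∀ a c : Fin 3, 0 ≤ wt a * wt c / 4 *
      (h y / T t h ((y + dv a + t * dv c) / 4)) ^ 3 * V ((y + dv a + t * dv c) / 4) := by
    intro a c
    have a1 := wt_nonneg a
    have a2 := wt_nonneg c
    have a3 := hc.h0 y
    have a4 := hTn ((y + dv a + t * dv c) / 4)
    have a5 := hc.V0 ((y + dv a + t * dv c) / 4)
    positivity
  calc ∑ a : Fin 3, ∑ c : Fin 3, ENNReal.ofReal (wt a * wt c / 4 *
        (h y / T t h ((y + dv a + t * dv c) / 4)) ^ 3 * V ((y + dv a + t * dv c) / 4)) *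
          (ENNReal.ofReal ((T t)^[n] (chi b) y))⁻¹ ^ 2 =
      ENNReal.ofReal (∑ a : Fin 3, ∑ c : Fin 3, wt a * wt c / 4 *
        (h y / T t h ((y + dv a + t * dv c) / 4)) ^ 3 * V ((y + dv a + t * dv c) / 4)) *
          (ENNReal.ofReal ((T t)^[n] (chi b) y))⁻¹ ^ 2 := by
        rw [ENNReal.ofReal_sum_of_nonneg fun a _ => Finset.sum_nonneg fun c _ => h8 a c,
          Finset.sum_mul]
        refine Finset.sum_congr rfl fun a _ => ?_
        rw [ENNReal.ofReal_sum_of_nonneg fun c _ => h8 a c, Finset.sum_mul]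
    _ ≤ ENNReal.ofReal (G * V y) * (ENNReal.ofReal ((T t)^[n] (chi b) y))⁻¹ ^ 2 :=
        mul_le_mul_left (ENNReal.ofReal_le_ofReal (hc.ineq y)) _
    _ = _ := by
        rw [ENNReal.ofReal_mul (by linarith), mul_assoc]

theorem iter (hJ : Stmt_JEN) {b t c0 C0 G : ℝ} {h V : ℝ → ℝ} (hG : 1 ≤ G)
    (hc : Cm t c0 C0 G h V) (n : ℕ) :
    M b t V (n + 2) ≤ ENNReal.ofReal (G ^ n) * M b t V 2 := by
  induction n with
  | zero => rw [pow_zero, ENNReal.ofReal_one, one_mul]
  | succ n ih =>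
    have h1 := step (b := b) hJ hG hc (n + 2)
    refine h1.trans ((mul_le_mul_right ih _).trans (le_of_eq ?_))
    rw [← mul_assoc, ← ENNReal.ofReal_mul (by linarith), pow_succ']

/-- upper bound for the inverse square -/
theorem inv_sq_le {x c : ℝ} (hc : 0 < c) (h : 1 / c ≤ x) :
    (ENNReal.ofReal x)⁻¹ ^ 2 ≤ ENNReal.ofReal (c ^ 2) := by
  have hx : 0 < x := lt_of_lt_of_le (by positivity) h
  rw [← ENNReal.ofReal_inv_of_pos hx, ← ENNReal.ofReal_pow (by positivity)]
  apply ENNReal.ofReal_le_ofReal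
  have h1 : x⁻¹ ≤ c := by
    rw [inv_le_comm₀ hx hc, ← one_div]
    exact h
  exact pow_le_pow_left₀ (by positivity) h1 2

theorem base (hcov : Stmt_COV) {b t c0 C0 G : ℝ} {h V : ℝ → ℝ} (hr : Rg b t)
    (hC0 : 0 < C0) (hc : Cm t c0 C0 G h V) :
    M b t V 2 ≤ ENNReal.ofReal (1024 * C0) := by
  obtain ⟨_, _, _, ht1, ht2⟩ := Rg_le hr
  have h1 : M b t V 2 ≤ ∫⁻ x in Icc (-2 : ℝ) 2, ENNReal.ofReal (C0 * 16 ^ 2) := by
    rw [← lintegral_indicator measurableSet_Icc]
    refine lintegral_mono fun x => ?_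
    by_cases hV : V x = 0
    · show ENNReal.ofReal (V x) * _ ≤ _
      rw [hV, ENNReal.ofReal_zero, zero_mul]
      exact zero_le
    · have h2 := hc.sup x hV
      have h3 := (hcov b t hr).2.1 x h2
      have h4 : x ∈ Icc (-2 : ℝ) 2 := by
        rw [mem_Icc]
        rw [abs_le] at h2
        constructor <;> linarith
      rw [indicator_of_mem h4]
      show ENNReal.ofReal (V x) * (ENNReal.ofReal ((T t)^[2] (chi b) x))⁻¹ ^ 2 ≤ _
      rw [ENNReal.ofReal_mul hC0.le]
      exact mul_le_mul' (ENNReal.ofReal_le_ofReal (hc.VC x)) (inv_sq_le (by norm_num) h3)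
  refine h1.trans ?_
  rw [lintegral_const, Measure.restrict_apply MeasurableSet.univ, univ_inter, Real.volume_Icc,
    ← ENNReal.ofReal_mul (by positivity)]
  apply ENNReal.ofReal_le_ofReal
  linarith

end GMID

theorem GMID_thm (hcov : Stmt_COV) (hJ : Stmt_JEN) : Stmt_GMID := by
  intro c0 C0 hc0 hC0
  have hq : 0 < C0 / c0 := div_pos hC0 hc0
  refine ⟨1024 * (C0 / c0) + 64, by linarith, ?_⟩
  intro b t G h V hr hG hc r hr1
  obtain ⟨_, _, _, ht1, ht2⟩ := Rg_le hr
  have hGr : 1 ≤ G ^ r := one_le_pow₀ hG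
  rcases Nat.lt_or_ge r 2 with h2 | h2
  · have h1 : r = 1 := by omega
    subst h1
    have h3 : ∫⁻ x in Icc (-(9 / 10 + t)) (9 / 10 + t),
        (ENNReal.ofReal ((T t)^[1] (chi b) x))⁻¹ ^ 2 ≤
        ∫⁻ x in Icc (-(9 / 10 + t)) (9 / 10 + t), ENNReal.ofReal (4 ^ 2) := by
      refine setLIntegral_mono' measurableSet_Icc fun x hx => ?_
      have h4 : |x| ≤ 9 / 10 + t := abs_le.2 ⟨hx.1, hx.2⟩
      exact GMID.inv_sq_le (by norm_num) ((hcov b t hr).1 x h4)
    refine h3.trans ?_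
    rw [lintegral_const, Measure.restrict_apply MeasurableSet.univ, univ_inter, Real.volume_Icc,
      ← ENNReal.ofReal_mul (by positivity)]
    apply ENNReal.ofReal_le_ofReal
    nlinarith
  · obtain ⟨n, rfl⟩ : ∃ n, r = n + 2 := ⟨r - 2, by omega⟩
    have h3 : ∫⁻ x in Icc (-(9 / 10 + t)) (9 / 10 + t),
        (ENNReal.ofReal ((T t)^[n + 2] (chi b) x))⁻¹ ^ 2 ≤
        ENNReal.ofReal (1 / c0) * GMID.M b t V (n + 2) := by
      unfold GMID.M
      rw [← lintegral_const_mul _ (GMID.meas_VF b t hc.mV (n + 2)),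
        ← lintegral_indicator measurableSet_Icc]
      refine lintegral_mono fun x => ?_
      by_cases hx : x ∈ Icc (-(9 / 10 + t)) (9 / 10 + t)
      · rw [indicator_of_mem hx]
        have h4 : |x| ≤ 9 / 10 + t := abs_le.2 ⟨hx.1, hx.2⟩
        have h5 := hc.lo x h4
        have h6 : 1 ≤ ENNReal.ofReal (1 / c0) * ENNReal.ofReal (V x) := by
          rw [← ENNReal.ofReal_mul (by positivity), ← ENNReal.ofReal_one]
          apply ENNReal.ofReal_le_ofReal
          rw [one_div, ← div_eq_inv_mul, le_div_iff₀ hc0, one_mul]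
          exact h5
        show _ ≤ ENNReal.ofReal (1 / c0) * (ENNReal.ofReal (V x) * _)
        rw [← mul_assoc]
        exact le_mul_of_one_le_left zero_le h6
      · rw [indicator_of_notMem hx]
        exact zero_le
    have h7 := GMID.iter (b := b) hJ hG hc n
    have h8 := GMID.base hcov hr hC0 hc
    refine h3.trans ((mul_le_mul_right (h7.trans (mul_le_mul_right h8 _)) _).trans ?_)
    rw [← ENNReal.ofReal_mul (by positivity), ← ENNReal.ofReal_mul (by positivity)]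
    apply ENNReal.ofReal_le_ofReal
    have h9 : G ^ n ≤ G ^ (n + 2) := pow_le_pow_right₀ hG (by omega)
    have h10 : 1 / c0 * (G ^ n * (1024 * C0)) = 1024 * (C0 / c0) * G ^ n := by
      field_simp
    rw [h10]
    nlinarith [mul_le_mul_of_nonneg_left h9 (by positivity : (0 : ℝ) ≤ 1024 * (C0 / c0))]

end Pool.Agent.FCQ
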