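import Pool.Agent.FCQ.Stmts

/-!
# Four corner Cantor sets: the inequality of Jensen for the inverse squares (module JEN)
-/

set_option autoImplicit false

namespace Pool.Agent.FCQ

open MeasureTheory Set

namespace JEN

/-- tangent line -/
theorem tangent {h B M : ℝ} (hh : 0 ≤ h) (hB : 0 < B) (hM : 0 < M) :
    3 * h / M ^ 2 - 2 * B / M ^ 3 ≤ h ^ 3 / B ^ 2 := by
  have h1 : h ^ 3 / B ^ 2 - (3 * h / M ^ 2 - 2 * B / M ^ 3) =
      (h * M - B) ^ 2 * (h * M + 2 * B) / (B ^ 2 * M ^ 3) := by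
    field_simp
    ring
  have h2 : 0 ≤ (h * M - B) ^ 2 * (h * M + 2 * B) / (B ^ 2 * M ^ 3) := by positivity
  linarith

end JEN

theorem JEN_thm : Stmt_JEN := by
  intro m p h B hp hh hB hZ
  set Z : ℝ := ∑ d, p d * h d with hZdef
  have hZ3 : (0 : ℝ) < 1 / Z ^ 3 := by positivity
  by_cases hex : ∃ d, 0 < p d * h d ∧ B d = 0
  · obtain ⟨d, hd, hBd⟩ := hex
    have h1 : 0 < p d * h d ^ 3 := by
      have hp' : p d ≠ 0 := fun h0 => by rw [h0, zero_mul] at hd; exact lt_irrefl _ hd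
      have hh' : h d ≠ 0 := fun h0 => by rw [h0, mul_zero] at hd; exact lt_irrefl _ hd
      have := (hp d).lt_of_ne' hp'
      have := (hh d).lt_of_ne' hh'
      positivity
    have h2 : ENNReal.ofReal (p d * h d ^ 3) * (ENNReal.ofReal (B d))⁻¹ ^ 2 = ⊤ := by
      rw [hBd, ENNReal.ofReal_zero, ENNReal.inv_zero, ENNReal.top_pow two_ne_zero]
      exact ENNReal.mul_top (ENNReal.ofReal_pos.2 h1).ne'
    have h3 : ∑ d, ENNReal.ofReal (p d * h d ^ 3) * (ENNReal.ofReal (B d))⁻¹ ^ 2 = ⊤ := by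
      rw [eq_top_iff, ← h2]
      exact Finset.single_le_sum (f := fun d => ENNReal.ofReal (p d * h d ^ 3) *
        (ENNReal.ofReal (B d))⁻¹ ^ 2) (fun _ _ => zero_le) (Finset.mem_univ d)
    rw [h3, ENNReal.mul_top (ENNReal.ofReal_pos.2 hZ3).ne']
    exact le_top
  push Not at hex
  -- if `B d = 0` then `p d * h d = 0`
  have hzero : ∀ d, B d = 0 → p d * h d = 0 := by
    intro d hd
    by_contra hne
    exact hex d ((mul_nonneg (hp d) (hh d)).lt_of_ne' hne) hd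
  have hterm : ∀ d, ENNReal.ofReal (p d * h d ^ 3) * (ENNReal.ofReal (B d))⁻¹ ^ 2 =
      ENNReal.ofReal (p d * h d ^ 3 / B d ^ 2) := by
    intro d
    rcases (hB d).eq_or_lt with h0 | h0
    · have h1 : p d * h d ^ 3 = 0 := by
        have : p d * h d ^ 3 = (p d * h d) * h d ^ 2 := by ring
        rw [this, hzero d h0.symm, zero_mul]
      rw [h1, zero_div, ENNReal.ofReal_zero, zero_mul]
    · rw [div_eq_mul_inv, ENNReal.ofReal_mul (mul_nonneg (hp d) (pow_nonneg (hh d) 3)),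
        ← ENNReal.ofReal_inv_of_pos h0, ← ENNReal.ofReal_pow (inv_nonneg.2 h0.le), inv_pow]
  set S : ℝ := ∑ d, p d * B d with hSdef
  have hS0 : 0 ≤ S := Finset.sum_nonneg fun d _ => mul_nonneg (hp d) (hB d)
  have hS : 0 < S := by
    refine hS0.lt_of_ne' ?_
    intro hS
    have h1 : ∀ d ∈ Finset.univ, p d * B d = 0 :=
      (Finset.sum_eq_zero_iff_of_nonneg fun d _ => mul_nonneg (hp d) (hB d)).1 hS
    have h2 : Z = 0 := by
      rw [hZdef]
      refine Finset.sum_eq_zero fun d _ => ?_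
      rcases mul_eq_zero.1 (h1 d (Finset.mem_univ d)) with h3 | h3
      · rw [h3, zero_mul]
      · exact hzero d h3
    exact hZ.ne' h2
  rw [Finset.sum_congr rfl fun d _ => hterm d, ← ENNReal.ofReal_sum_of_nonneg (fun d _ =>
      div_nonneg (mul_nonneg (hp d) (pow_nonneg (hh d) 3)) (sq_nonneg _)),
    ← ENNReal.ofReal_mul hZ3.le, ← ENNReal.ofReal_inv_of_pos hS,
    ← ENNReal.ofReal_pow (inv_nonneg.2 hS.le)]
  apply ENNReal.ofReal_le_ofReal
  -- the real inequality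
  set M : ℝ := S / Z with hMdef
  have hM : 0 < M := div_pos hS hZ
  have h1 : ∀ d, 3 * (p d * h d) / M ^ 2 - 2 * (p d * B d) / M ^ 3 ≤
      p d * h d ^ 3 / B d ^ 2 := by
    intro d
    rcases (hB d).eq_or_lt with h0 | h0
    · rw [hzero d h0.symm, ← h0]
      simp
    · have h2 := mul_le_mul_of_nonneg_left (JEN.tangent (hh d) h0 hM) (hp d)
      calc 3 * (p d * h d) / M ^ 2 - 2 * (p d * B d) / M ^ 3 =
          p d * (3 * h d / M ^ 2 - 2 * B d / M ^ 3) := by ring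
        _ ≤ p d * (h d ^ 3 / B d ^ 2) := h2
        _ = p d * h d ^ 3 / B d ^ 2 := by ring
  have h2 : 3 * Z / M ^ 2 - 2 * S / M ^ 3 ≤ ∑ d, p d * h d ^ 3 / B d ^ 2 := by
    refine le_trans (le_of_eq ?_) (Finset.sum_le_sum fun d _ => h1 d)
    rw [Finset.sum_sub_distrib, ← Finset.sum_div, ← Finset.sum_div, ← Finset.mul_sum,
      ← Finset.mul_sum]
  have h3 : 3 * Z / M ^ 2 - 2 * S / M ^ 3 = Z ^ 3 / S ^ 2 := by
    rw [hMdef]
    field_simp
    ring
  rw [h3] at h2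
  calc S⁻¹ ^ 2 = 1 / Z ^ 3 * (Z ^ 3 / S ^ 2) := by
        field_simp
    _ ≤ 1 / Z ^ 3 * ∑ d, p d * h d ^ 3 / B d ^ 2 := mul_le_mul_of_nonneg_left h2 hZ3.le

end Pool.Agent.FCQ
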