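import Pool.Agent.FCQ.CMc.Sound4
import Pool.Agent.FCQ.CMc.DA
import Pool.Agent.FCQ.CMc.DB
import Pool.Agent.FCQ.CMc.DC
import Pool.Agent.FCQ.CMc.DD
import Pool.Agent.FCQ.CMc.DE
import Pool.Agent.FCQ.CMc.DF

/-!
# The certificates in one variable
-/

set_option autoImplicit false

namespace Pool.Agent.FCQ

open CMc

theorem CM.use (D i G : ℕ) (G' t : ℝ) (hD : 0 < D) (h : ∃ M hr vr, chk D i M G hr vr = true)
    (hG : (G : ℝ) / 1000 ≤ G') (ht1 : (i : ℝ) ≤ 3 * D * t) (ht2 : 3 * D * t ≤ i + 1)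
    (h12 : 1 / 2 ≤ t) (ht : t ≤ 1) : ∃ h V, Cm t 1 (2 ^ 24) G' h V := by
  obtain ⟨M, hr, vr, hc⟩ := h
  obtain ⟨h, V, hcm⟩ := sound D i M G hr vr hD hc t ht1 ht2 h12 ht
  exact ⟨h, V, Cm_mono hcm hG⟩

theorem CM_thm : Stmt_CM := by
  refine ⟨1, 2 ^ 24, by norm_num, by norm_num, ?_, ?_⟩
  · intro t h1 h2
    have hf1 : ((⌊96 * t⌋₊ : ℕ) : ℝ) ≤ 96 * t := Nat.floor_le (by linarith)
    have hf2 : 96 * t < (⌊96 * t⌋₊ : ℕ) + 1 := Nat.lt_floor_add_one _
    set i := ⌊96 * t⌋₊ with hi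
    have hi1 : 48 ≤ i := by
      rw [hi]; exact Nat.le_floor (by push_cast; linarith)
    by_cases hi2 : i < 89
    · have a1 : (i : ℝ) ≤ 3 * (32 : ℕ) * t := by push_cast; linarith
      have a2 : 3 * (32 : ℕ) * t ≤ (i : ℝ) + 1 := by push_cast; linarith
      by_cases k1 : i < 56
      · exact CM.use 32 i 1200 _ t (by norm_num) (c_DA i hi1 k1) (by norm_num) a1 a2 h1
          (by linarith)
      by_cases k2 : i < 67
      · exact CM.use 32 i 1310 _ t (by norm_num) (c_DB i (by omega) k2) (by norm_num) a1 a2 h1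
          (by linarith)
      by_cases k3 : i < 78
      · exact CM.use 32 i 1310 _ t (by norm_num) (c_DC i (by omega) k3) (by norm_num) a1 a2 h1
          (by linarith)
      · exact CM.use 32 i 1310 _ t (by norm_num) (c_DD i (by omega) hi2) (by norm_num) a1 a2 h1
          (by linarith)
    · have hb : (89 : ℝ) ≤ i := by exact_mod_cast not_lt.1 hi2
      have hg1 : ((⌊192 * t⌋₊ : ℕ) : ℝ) ≤ 192 * t := Nat.floor_le (by linarith)
      have hg2 : 192 * t < (⌊192 * t⌋₊ : ℕ) + 1 := Nat.lt_floor_add_one _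
      set k := ⌊192 * t⌋₊ with hk
      have hk1 : 178 ≤ k := by
        rw [hk]; exact Nat.le_floor (by push_cast; linarith)
      have hk2 : k < 187 := by
        have : (k : ℝ) < 187 := by linarith
        exact_mod_cast this
      have a1 : (k : ℝ) ≤ 3 * (64 : ℕ) * t := by push_cast; linarith
      have a2 : 3 * (64 : ℕ) * t ≤ (k : ℝ) + 1 := by push_cast; linarith
      by_cases k1 : k < 182
      · exact CM.use 64 k 1310 _ t (by norm_num) (c_DE k hk1 k1) (by norm_num) a1 a2 h1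
          (by linarith)
      · exact CM.use 64 k 1310 _ t (by norm_num) (c_DF k (by omega) hk2) (by norm_num) a1 a2 h1
          (by linarith)
  · intro t h1 h2
    have hf1 : ((⌊96 * t⌋₊ : ℕ) : ℝ) ≤ 96 * t := Nat.floor_le (by linarith)
    have hf2 : 96 * t < (⌊96 * t⌋₊ : ℕ) + 1 := Nat.lt_floor_add_one _
    set i := ⌊96 * t⌋₊ with hi
    have hi1 : 48 ≤ i := by
      rw [hi]; exact Nat.le_floor (by push_cast; linarith)
    have hi2 : i < 56 := by
      have : (i : ℝ) < 56 := by linarith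
      exact_mod_cast this
    exact CM.use 32 i 1200 _ t (by norm_num) (c_DA i hi1 hi2) (by norm_num)
      (by push_cast; linarith) (by push_cast; linarith) h1 (by linarith)

end Pool.Agent.FCQ
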