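import Pool.Agent.FCQ.Stmts

/-!
# Four corner Cantor sets, the exponent one half: covering by the digits
-/

set_option autoImplicit false

namespace Pool.Agent.FCQ

namespace COV

/-- the digits are `3t`-dense, `x ≥ 0` -/
theorem digit_nonneg (t x e : ℝ) (ht0 : 1 / 2 ≤ t) (ht1 : t ≤ 1) (hx0 : 0 ≤ x) (hx : x ≤ e) :
    ∃ a b : Fin 3, |4 * x - dv a - t * dv b| ≤ max (3 * t / 2) (4 * e - 3 - 3 * t) := by
  have hm1 := le_max_left (3 * t / 2) (4 * e - 3 - 3 * t)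
  have hm2 := le_max_right (3 * t / 2) (4 * e - 3 - 3 * t)
  by_cases h1 : 4 * x ≤ 3 * t / 2
  · refine ⟨1, 1, ?_⟩
    rw [dv_one, abs_le]
    constructor <;> linarith
  · by_cases h2 : 4 * x ≤ (3 + 3 * t) / 2
    · refine ⟨1, 2, ?_⟩
      rw [dv_one, dv_two, abs_le]
      constructor <;> linarith
    · by_cases h3 : 4 * x ≤ 3 + 3 * t / 2
      · refine ⟨2, 1, ?_⟩
        rw [dv_one, dv_two, abs_le]
        constructor <;> linarith
      · refine ⟨2, 2, ?_⟩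
        rw [dv_two, abs_le]
        constructor <;> linarith

/-- the mirror image of a digit -/
theorem dv_rev (a : Fin 3) : dv (Fin.rev a) = - dv a := by
  fin_cases a
  · show dv 2 = - dv 0
    rw [dv_two, dv_zero]; norm_num
  · show dv 1 = - dv 1
    rw [dv_one]; norm_num
  · show dv 0 = - dv 2
    rw [dv_two, dv_zero]

theorem digit (t x e : ℝ) (ht0 : 1 / 2 ≤ t) (ht1 : t ≤ 1) (hx : |x| ≤ e) :
    ∃ a b : Fin 3, |4 * x - dv a - t * dv b| ≤ max (3 * t / 2) (4 * e - 3 - 3 * t) := by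
  rcases le_total 0 x with h | h
  · exact digit_nonneg t x e ht0 ht1 h (le_trans (le_abs_self x) hx)
  · obtain ⟨a, b, hab⟩ := digit_nonneg t (-x) e ht0 ht1 (by linarith)
      (le_trans (neg_le_abs x) hx)
    refine ⟨Fin.rev a, Fin.rev b, ?_⟩
    rw [dv_rev, dv_rev, ← abs_neg]
    have h1 : -(4 * x - -dv a - t * -dv b) = 4 * -x - dv a - t * dv b := by ring
    rw [h1]
    exact hab

/-- one step -/
theorem step {φ : ℝ → ℝ} (hφ : ∀ y, 0 ≤ φ y) {t e c L : ℝ} (ht0 : 1 / 2 ≤ t) (ht1 : t ≤ 1)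
    (hc1 : 3 * t / 2 ≤ c) (hc2 : 4 * e - 3 - 3 * t ≤ c) (hL0 : 0 ≤ L)
    (hL : ∀ y, |y| ≤ c → L ≤ φ y) (x : ℝ) (hx : |x| ≤ e) : L / 4 ≤ T t φ x := by
  obtain ⟨a, b, hab⟩ := digit t x e ht0 ht1 hx
  have h1 := hL _ (hab.trans (max_le hc1 hc2))
  refine le_trans ?_ (T_ge hφ t x a b)
  have ha := wt_ge a
  have hb := wt_ge b
  have hw : 1 / 4 ≤ wt a * wt b := by nlinarith
  have h2 : 1 / 4 * L ≤ wt a * wt b * φ (4 * x - dv a - t * dv b) :=
    mul_le_mul hw h1 hL0 (by linarith)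
  linarith

theorem chi_one {b y : ℝ} (h : |y| ≤ b - 1 / 50) : chi b y = 1 := by
  unfold chi
  rw [if_pos h]

/-- the first level -/
theorem one {b t : ℝ} (hR : Rg b t) (x : ℝ) (hx : |x| ≤ 9 / 10 + t) :
    1 / 4 ≤ T t (chi b) x := by
  obtain ⟨-, -, -, ht0, ht1⟩ := Rg_le hR
  have h1 : 3 * t / 2 ≤ b - 1 / 50 := by
    rcases hR with ⟨rfl, h1, h2⟩ | ⟨rfl, h1, h2⟩
    · linarith
    · linarith
  have h2 : 4 * (9 / 10 + t) - 3 - 3 * t ≤ b - 1 / 50 := by
    rcases hR with ⟨rfl, h1, h2⟩ | ⟨rfl, h1, h2⟩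
    · linarith
    · linarith
  exact step (chi_nonneg b) ht0 ht1 h1 h2 zero_le_one (fun y hy => (chi_one hy).ge) x hx

/-- all levels -/
theorem all {b t : ℝ} (hR : Rg b t) (n : ℕ) : 1 ≤ n → ∀ x, |x| ≤ 9 / 10 + t →
    1 / 4 ^ n ≤ (T t)^[n] (chi b) x := by
  obtain ⟨-, -, -, ht0, ht1⟩ := Rg_le hR
  induction n with
  | zero => intro h; exact absurd h (by norm_num)
  | succ n ih =>
    intro _ x hx
    rcases Nat.eq_zero_or_pos n with h0 | h0
    · subst h0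
      have h1 := one hR x hx
      simpa using h1
    · have h1 := step (iter_nonneg (chi_nonneg b) t n) ht0 ht1 (c := 9 / 10 + t)
        (e := 9 / 10 + t) (L := 1 / 4 ^ n) (by linarith) (by linarith) (by positivity)
        (ih h0) x hx
      rw [iter_succ']
      have h2 : (1 : ℝ) / 4 ^ (n + 1) = 1 / 4 ^ n / 4 := by
        rw [pow_succ]; field_simp
      rw [h2]
      exact h1

end COV

theorem COV_thm : Stmt_COV := by
  intro b t hR
  refine ⟨COV.one hR, ?_, COV.all hR⟩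
  intro x hx
  obtain ⟨-, -, -, ht0, ht1⟩ := Rg_le hR
  have h1 := COV.step (T_nonneg (chi_nonneg b) t) ht0 ht1 (c := 9 / 10 + t)
    (e := 31 / 32 + t) (L := 1 / 4) (by linarith) (by linarith) (by norm_num)
    (COV.one hR) x hx
  rw [iter_succ', iter_succ', Function.iterate_zero, id]
  linarith

end Pool.Agent.FCQ
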