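import Pool.Agent.FCQ.Stmts

set_option autoImplicit false

namespace Pool.Agent.FCQ

open MeasureTheory Set

namespace COVW

theorem vol_ge (u v l t : ℝ) (hl : 0 < l) (huv : l ≤ v - u) (ht : t ∈ Icc u v) :
    ENNReal.ofReal l ≤ volume (Icc (t - l) (t + l) ∩ Icc u v) := by
  rw [mem_Icc] at ht
  by_cases h1 : t + l ≤ v
  · have hsub : Icc t (t + l) ⊆ Icc (t - l) (t + l) ∩ Icc u v := by
      intro x hx
      rw [mem_Icc] at hx
      exact ⟨⟨by linarith [hx.1], hx.2⟩, ⟨by linarith [hx.1, ht.1], by linarith [hx.2]⟩⟩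
    calc ENNReal.ofReal l = volume (Icc t (t + l)) := by
          rw [Real.volume_Icc, add_sub_cancel_left]
      _ ≤ _ := measure_mono hsub
  · by_cases h2 : u ≤ t - l
    · have hsub : Icc (t - l) t ⊆ Icc (t - l) (t + l) ∩ Icc u v := by
        intro x hx
        rw [mem_Icc] at hx
        exact ⟨⟨hx.1, by linarith [hx.2]⟩, ⟨by linarith [hx.1], by linarith [hx.2, ht.2]⟩⟩
      calc ENNReal.ofReal l = volume (Icc (t - l) t) := by
            rw [Real.volume_Icc, sub_sub_cancel]
        _ ≤ _ := measure_mono hsub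
    · push Not at h1 h2
      have hsub : Icc u v ⊆ Icc (t - l) (t + l) ∩ Icc u v := by
        intro x hx
        have hx' := hx
        rw [mem_Icc] at hx'
        exact ⟨⟨by linarith [hx'.1], by linarith [hx'.2]⟩, hx⟩
      calc ENNReal.ofReal l ≤ ENNReal.ofReal (v - u) := ENNReal.ofReal_le_ofReal huv
        _ = volume (Icc u v) := by rw [Real.volume_Icc]
        _ ≤ _ := measure_mono hsub

theorem measurable_F (f : ℝ → ENNReal) (l : ℝ) (hf : Measurable f) :
    Measurable (Function.uncurry fun t0 t : ℝ => (Icc (t0 - l) (t0 + l)).indicator f t) := by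
  have h1 : (Function.uncurry fun t0 t : ℝ => (Icc (t0 - l) (t0 + l)).indicator f t) =
      {p : ℝ × ℝ | p.1 - l ≤ p.2 ∧ p.2 ≤ p.1 + l}.indicator (fun p => f p.2) := by
    funext p
    simp only [Function.uncurry, indicator, mem_Icc, mem_setOf_eq]
  rw [h1]
  refine (hf.comp measurable_snd).indicator ?_
  have hA : MeasurableSet {p : ℝ × ℝ | p.1 - l ≤ p.2} :=
    measurableSet_le (by fun_prop) (by fun_prop)
  have hB : MeasurableSet {p : ℝ × ℝ | p.2 ≤ p.1 + l} :=
    measurableSet_le (by fun_prop) (by fun_prop)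
  exact hA.inter hB

end COVW

open COVW in
theorem COVW_thm : Stmt_COVW := by
  intro f u v l hf hl huv
  have h1 : ∀ t0 : ℝ, ∫⁻ t in Iw u v t0 l, f t =
      ∫⁻ t in Icc u v, (Icc (t0 - l) (t0 + l)).indicator f t := by
    intro t0
    rw [setLIntegral_indicator measurableSet_Icc]
    unfold Iw
    rw [inter_comm]
  simp only [h1]
  rw [lintegral_lintegral_swap (measurable_F f l hf).aemeasurable, ← lintegral_const_mul _ hf]
  apply setLIntegral_mono' measurableSet_Icc
  intro t ht
  have h2 : ∀ t0 : ℝ, (Icc (t0 - l) (t0 + l)).indicator f t =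
      (Icc (t - l) (t + l)).indicator (fun _ => f t) t0 := by
    intro t0
    simp only [indicator, mem_Icc]
    congr 1
    apply propext
    constructor
    · rintro ⟨ha, hb⟩
      exact ⟨by linarith, by linarith⟩
    · rintro ⟨ha, hb⟩
      exact ⟨by linarith, by linarith⟩
  simp only [h2]
  rw [setLIntegral_indicator measurableSet_Icc, setLIntegral_const, mul_comm]
  gcongr
  exact vol_ge u v l t hl huv ht

end Pool.Agent.FCQ
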