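import Pool.Agent.FCQ.Stmts

/-!
# The admissible families
-/

set_option autoImplicit false

namespace Pool.Agent.FCQ

open MeasureTheory Set

namespace DATS

theorem grw_mono {b t K K' G : ℝ} (hG : 1 ≤ G) (hK : K ≤ K') (h : Grw b t K G) :
    Grw b t K' G := fun r hr => (h r hr).trans (ENNReal.ofReal_le_ofReal
  (mul_le_mul_of_nonneg_right hK (pow_nonneg (by linarith) r)))

theorem pow4 (j : ℕ) : (1 : ℝ) ≤ 4 ^ j := one_le_pow₀ (by norm_num)

theorem pow4' {j : ℕ} (hj : 2 ≤ j) : (16 : ℝ) ≤ 4 ^ j := by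
  calc (16 : ℝ) = 4 ^ 2 := by norm_num
    _ ≤ 4 ^ j := pow_le_pow_right₀ (by norm_num) hj

/-- the direction `tau j c` in another form -/
theorem tau_eq {j : ℕ} {c : ℝ} (hc : 0 ≤ c) : tau j c = (4 ^ j - c) / (4 ^ j + c) := by
  have h := pow4 j
  have h1 : (4 : ℝ) ^ j ≠ 0 := by positivity
  have h2 : (4 : ℝ) ^ j + c ≠ 0 := by positivity
  unfold tau
  field_simp

theorem tau_anti {j : ℕ} {c c' : ℝ} (hc : 0 ≤ c) (h : c ≤ c') : tau j c' ≤ tau j c := by
  have h4 := pow4 j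
  rw [tau_eq hc, tau_eq (hc.trans h), div_le_div_iff₀ (by linarith) (by linarith)]
  nlinarith

theorem tau_le {j : ℕ} {c : ℝ} (hc : 0 ≤ c) : tau j c ≤ 1 := by
  have h4 := pow4 j
  rw [tau_eq hc, div_le_one (by linarith)]
  linarith

theorem tau_ge {j : ℕ} {c : ℝ} (hj : 2 ≤ j) (hc : 0 ≤ c) (hc' : c ≤ 1 / 4) :
    63 / 65 ≤ tau j c := by
  have h4 := pow4' hj
  rw [tau_eq hc, div_le_div_iff₀ (by norm_num) (by linarith)]
  linarith

/-- every direction is of the form `tau j c` -/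
theorem tau_inv {j : ℕ} {t : ℝ} (ht : 0 ≤ t) : tau j (4 ^ j * (1 - t) / (1 + t)) = t := by
  have h4 : (4 : ℝ) ^ j ≠ 0 := by positivity
  have h1 : 1 + t ≠ 0 := by positivity
  unfold tau
  have h2 : (4 : ℝ) ^ j * (1 - t) / (1 + t) / 4 ^ j = (1 - t) / (1 + t) := by
    field_simp
  rw [h2]
  have h3 : 1 + (1 - t) / (1 + t) ≠ 0 := by
    have : 1 + (1 - t) / (1 + t) = 2 / (1 + t) := by field_simp; ring
    rw [this]
    positivity
  field_simp
  ring

/-- bounds for the parameter -/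
theorem inv_bd {j : ℕ} {a a' t : ℝ} (ha : 0 ≤ a) (h : a ≤ a') (ht0 : 0 ≤ t)
    (h1 : tau j a' ≤ t) (h2 : t ≤ tau j a) :
    a ≤ 4 ^ j * (1 - t) / (1 + t) ∧ 4 ^ j * (1 - t) / (1 + t) ≤ a' := by
  have h4 := pow4 j
  rw [tau_eq (ha.trans h), div_le_iff₀ (by linarith)] at h1
  rw [tau_eq ha, le_div_iff₀ (by linarith)] at h2
  constructor
  · rw [le_div_iff₀ (by linarith)]
    linarith
  · rw [div_le_iff₀ (by linarith)]
    linarith

/-- the length -/
theorem tau_sub {j : ℕ} {a a' : ℝ} (ha : 0 ≤ a) (h : a ≤ a') :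
    tau j a - tau j a' = 2 * (a' - a) * 4 ^ j / ((4 ^ j + a) * (4 ^ j + a')) := by
  have h4 := pow4 j
  have h1 : (4 : ℝ) ^ j + a ≠ 0 := by positivity
  have h2 : (4 : ℝ) ^ j + a' ≠ 0 := by
    have : 0 ≤ a' := ha.trans h
    positivity
  rw [tau_eq ha, tau_eq (ha.trans h)]
  field_simp
  ring

theorem Pr_bd {G GA : ℝ} (h : Pr G GA) : 1 ≤ G ∧ G ≤ GA := by
  rcases h with ⟨rfl, rfl⟩ | ⟨rfl, rfl⟩ | ⟨rfl, rfl⟩ | ⟨rfl, rfl⟩ <;> norm_num

theorem blk0 {t : ℝ} (h1 : 23 / 40 ≤ t) (h2 : t ≤ 1) : |rho 0 t| ≤ 7 / 10 + t := by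
  rw [rho_zero, abs_le]
  constructor <;> linarith

theorem mono_seq {m : ℕ} {a : ℕ → ℝ} (h : ∀ k < m, a k + 1 / 1000 ≤ a (k + 1)) :
    ∀ k l : ℕ, k ≤ l → l ≤ m → a k ≤ a l := by
  intro k l hkl
  induction l, hkl using Nat.le_induction with
  | base => intro _; exact le_rfl
  | succ l hl ih =>
    intro hm
    have h1 := ih (by omega)
    have h2 := h l (by omega)
    linarith

theorem len_aux {q x y : ℝ} (h4 : 16 ≤ q) (hx : 0 ≤ x) (hs : x + 1 / 1000 ≤ y) (hy : y ≤ 1 / 4) :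
    1 * ((q + x) * (q + y)) ≤ 2 * (y - x) * q * (256 * (4 * q)) := by
  have h1 : q + x ≤ 65 / 64 * q := by linarith
  have h2 : q + y ≤ 65 / 64 * q := by linarith
  have h3 : (q + x) * (q + y) ≤ (65 / 64 * q) * (65 / 64 * q) :=
    mul_le_mul h1 h2 (by linarith) (by linarith)
  have h5 : 1 / 1000 * (q * q) ≤ (y - x) * (q * q) :=
    mul_le_mul_of_nonneg_right (by linarith) (by positivity)
  have h6 : 0 ≤ q * q := by positivity
  linarith

theorem len_aux' {q x y : ℝ} (h4 : 16 ≤ q) (hx : 0 ≤ x) (hs : x + 1 / 1000 ≤ y) (hy : y ≤ 1 / 4) :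
    2 * (y - x) * q * q ≤ 2 * ((q + x) * (q + y)) := by
  have h3 : q * q ≤ (q + x) * (q + y) :=
    mul_le_mul (by linarith) (by linarith) (by linarith) (by linarith)
  have h5 : (y - x) * (q * q) ≤ 1 * (q * q) :=
    mul_le_mul_of_nonneg_right (by linarith) (by positivity)
  linarith

end DATS

open DATS in
theorem DATS_thm : Stmt_DATS := by
  intro hCM hGM hCO hGO
  obtain ⟨c0, C0, hc0, hC0, hcm1, hcm2⟩ := hCM
  obtain ⟨K1, hK1, hG1⟩ := hGM c0 C0 hc0 hC0
  obtain ⟨c0', C0', hc0', hC0', m, a, g, gA, ha0, ham, hco⟩ := hCO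
  obtain ⟨K2, hK2, hG2⟩ := hGO c0' C0' hc0' hC0'
  have hK : 1 ≤ max K1 K2 := hK1.trans (le_max_left _ _)
  refine ⟨max K1 K2, hK, ?_, ?_, ?_, m, a, g, gA, ha0, ham, ?_⟩
  · refine ⟨?_, ?_, ?_, ?_, ?_, ?_, ?_, hK, ?_⟩
    · intro t ht
      exact Or.inl ⟨rfl, by linarith [ht.1], ht.2⟩
    · intro t ht
      exact blk0 ht.1 (by linarith [ht.2])
    · intro t ht
      obtain ⟨h, V, hc⟩ := hcm1 t (by linarith [ht.1]) (by linarith [ht.2])
      exact grw_mono (by norm_num) (le_max_left _ _)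
        (hG1 _ t _ h V (Or.inl ⟨rfl, by linarith [ht.1], ht.2⟩) (by norm_num) hc)
    all_goals norm_num
  · refine ⟨?_, ?_, ?_, ?_, ?_, ?_, ?_, hK, ?_⟩
    · intro t ht
      exact Or.inr ⟨rfl, ht.1, by linarith [ht.2]⟩
    · intro t ht
      exact blk0 (by linarith [ht.1]) (by linarith [ht.2])
    · intro t ht
      obtain ⟨h, V, hc⟩ := hcm1 t (by linarith [ht.1]) ht.2
      exact grw_mono (by norm_num) (le_max_left _ _)
        (hG1 _ t _ h V (Or.inr ⟨rfl, ht.1, by linarith [ht.2]⟩) (by norm_num) hc)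
    all_goals norm_num
  · intro i hi
    have h4 : (4 : ℝ) ≤ 4 ^ i := by
      calc (4 : ℝ) = 4 ^ 1 := by norm_num
        _ ≤ 4 ^ i := pow_le_pow_right₀ (by norm_num) hi
    have hp : (0 : ℝ) < 4 ^ i := by positivity
    have e1 : (0 : ℝ) ≤ 3 / 40 / 4 ^ i := by positivity
    have e2 : (3 / 10 : ℝ) / 4 ^ i ≤ 3 / 40 := by
      rw [div_le_iff₀ hp]
      linarith
    have hbd : ∀ t ∈ Icc (1 / 2 + 3 / 40 / 4 ^ i : ℝ) (1 / 2 + 3 / 10 / 4 ^ i),
        1 / 2 ≤ t ∧ t ≤ 23 / 40 := fun t ht => ⟨by linarith [ht.1], by linarith [ht.2]⟩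
    have hl : (1 / 2 + 3 / 10 / 4 ^ i : ℝ) - (1 / 2 + 3 / 40 / 4 ^ i) = 9 / 40 / 4 ^ i := by
      ring
    refine ⟨?_, ?_, ?_, ?_, ?_, ?_, ?_, hK, ?_⟩
    · intro t ht
      have := hbd t ht
      exact Or.inl ⟨rfl, this.1, by linarith⟩
    · intro t ht
      have h0 := hbd t ht
      have h1 : 3 / 40 ≤ 4 ^ i * (t - 1 / 2) := by
        have := ht.1
        have h2 : 3 / 40 / 4 ^ i ≤ t - 1 / 2 := by linarith
        rw [div_le_iff₀ hp] at h2
        linarith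
      have h3 : 4 ^ i * (t - 1 / 2) ≤ 3 / 10 := by
        have := ht.2
        have h2 : t - 1 / 2 ≤ 3 / 10 / 4 ^ i := by linarith
        rw [le_div_iff₀ hp] at h2
        linarith
      have h5 : rho i t = 1 + t - 4 * (4 ^ i * (t - 1 / 2)) := by
        unfold rho
        ring
      rw [h5, abs_le]
      constructor <;> linarith
    · intro t ht
      have h0 := hbd t ht
      obtain ⟨h, V, hc⟩ := hcm2 t h0.1 h0.2
      exact grw_mono (by norm_num) (le_max_left _ _)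
        (hG1 _ t _ h V (Or.inl ⟨rfl, h0.1, by linarith [h0.2]⟩) (by norm_num) hc)
    · rw [hl, div_le_div_iff₀ (by positivity) hp]
      have h5 : (4 : ℝ) ^ (1 + i) = 4 * 4 ^ i := by ring
      rw [h5]
      linarith
    · rw [hl]
      have : (9 / 40 : ℝ) / 4 ^ i ≤ 9 / 40 := div_le_self (by norm_num) (by linarith)
      have h5 : (2 : ℝ) / 4 ^ 0 = 2 := by norm_num
      rw [h5]
      linarith
    all_goals norm_num
  · intro k hk
    have hm := mono_seq fun l hl => (hco l hl).1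
    obtain ⟨hs, hpr, hcert⟩ := hco k hk
    have ak0 : 1 / 16 ≤ a k := by
      rw [← ha0]
      exact hm 0 k (Nat.zero_le _) hk.le
    have ak1 : a (k + 1) ≤ 1 / 4 := by
      rw [← ham]
      exact hm (k + 1) m hk le_rfl
    have hpr' := Pr_bd hpr
    have hak : a k ≤ a (k + 1) := by linarith
    refine ⟨ak0, hak, ak1, hpr, ?_⟩
    intro j hj
    have h4 := pow4' hj
    have hbd : ∀ t ∈ Icc (tau j (a (k + 1))) (tau j (a k)), 63 / 65 ≤ t ∧ t ≤ 1 := fun t ht =>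
      ⟨(tau_ge hj (by linarith) ak1).trans ht.1, ht.2.trans (tau_le (by linarith))⟩
    have hq : 1 ≤ (gA k / g k) ^ j := one_le_pow₀ ((one_le_div (by linarith)).2 hpr'.2)
    have hl := tau_sub (j := j) (show (0 : ℝ) ≤ a k by linarith) hak
    refine ⟨?_, ?_, ?_, ?_, ?_, ?_, ?_, ?_, hpr'.1⟩
    · intro t ht
      have := hbd t ht
      exact Or.inr ⟨rfl, by linarith, this.2⟩
    · intro t ht
      have := hbd t ht
      exact blk0 (by linarith) this.2
    · intro t ht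
      have h0 := hbd t ht
      have h1 := inv_bd (j := j) (show (0 : ℝ) ≤ a k by linarith) hak (by linarith) ht.1 ht.2
      obtain ⟨h, V, hA, VA, bb, hc⟩ := hcert _ h1.1 h1.2
      have h2 := hG2 _ _ _ j h V hA VA bb (by linarith) (by linarith) hj hpr'.1 hpr'.2 hc
      rw [tau_inv (by linarith)] at h2
      exact grw_mono hpr'.1 (mul_le_mul_of_nonneg_right (le_max_right _ _) (by linarith)) h2
    · have h6 : 0 < (4 ^ j + a k) * (4 ^ j + a (k + 1)) :=
        mul_pos (by linarith) (by linarith)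
      rw [hl, div_le_div_iff₀ (by positivity) h6]
      have h5 : (4 : ℝ) ^ (j + 1 + 0) = 4 * 4 ^ j := by ring
      rw [h5]
      exact len_aux h4 (by linarith) hs ak1
    · have h6 : 0 < (4 ^ j + a k) * (4 ^ j + a (k + 1)) :=
        mul_pos (by linarith) (by linarith)
      rw [hl, div_le_div_iff₀ h6 (by positivity)]
      exact len_aux' h4 (by linarith) hs ak1
    · omega
    · exact le_rfl
    · exact one_le_mul_of_one_le_of_one_le hK hq

end Pool.Agent.FCQ
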