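import Pool.Agent.FCQ.Stmts

/-!
# Four corner Cantor sets, the exponent one half: DER   (helper12)
-/

set_option autoImplicit false

namespace Pool.Agent.FCQ

open MeasureTheory Set Filter Topology

namespace DER

theorem hasDerivAt_Phi (b y : ℝ) : HasDerivAt (Phi b) (deriv (Phi b) y) y :=
  ((contDiff_Phi b 1).differentiable (by norm_num) y).hasDerivAt

theorem continuous_deriv_Phi (b : ℝ) : Continuous (deriv (Phi b)) :=
  (contDiff_Phi b 1).continuous_deriv (by norm_num)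

/-- a finite sum of translates -/
theorem sum_deriv (b : ℝ) {m : ℕ} (w u v : Fin m → ℝ) (c x t : ℝ) :
    HasDerivAt (fun τ => ∑ d, w d * Phi b (c * x - u d - τ * v d))
      (∑ d, w d * (deriv (Phi b) (c * x - u d - t * v d) * -v d)) t := by
  refine HasDerivAt.fun_sum fun d _ => ?_
  refine HasDerivAt.const_mul _ ?_
  have h1 : HasDerivAt (fun τ : ℝ => c * x - u d - τ * v d) (-v d) t := by
    have h2 := ((hasDerivAt_id t).mul_const (v d)).const_sub (c * x - u d)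
    simpa using h2
  exact (hasDerivAt_Phi b _).comp t h1

theorem sum_cont (b : ℝ) {m : ℕ} (w u v : Fin m → ℝ) (c : ℝ) :
    Continuous (fun p : ℝ × ℝ => ∑ d, w d * Phi b (c * p.1 - u d - p.2 * v d)) := by
  refine continuous_finsetSum _ fun d _ => ?_
  exact continuous_const.mul ((continuous_Phi b).comp (by fun_prop))

theorem sum_cont' (b : ℝ) {m : ℕ} (w u v : Fin m → ℝ) (c : ℝ) :
    Continuous (fun p : ℝ × ℝ => ∑ d, w d * (deriv (Phi b) (c * p.1 - u d - p.2 * v d) * -v d)) := by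
  refine continuous_finsetSum _ fun d _ => ?_
  exact continuous_const.mul (((continuous_deriv_Phi b).comp (by fun_prop)).mul continuous_const)

theorem sum_zero {b : ℝ} (hb1 : 1 ≤ b) (hb2 : b ≤ 2) {m : ℕ} (w u v : Fin m → ℝ) (r : ℕ)
    (hu : ∀ d, |u d| ≤ 4 ^ r - 1) (hv : ∀ d, |v d| ≤ 4 ^ r - 1) {x t : ℝ} (hx : 10 ≤ |x|)
    (ht : |t| ≤ 3) : ∑ d, w d * Phi b (4 ^ r * x - u d - t * v d) = 0 := by
  refine Finset.sum_eq_zero fun d _ => ?_
  rw [Phi_eq_zero hb1, mul_zero]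
  have h4 : (1 : ℝ) ≤ 4 ^ r := one_le_pow₀ (by norm_num)
  have h1 : |(4 : ℝ) ^ r * x| = 4 ^ r * |x| := by
    rw [abs_mul, abs_of_pos (by positivity)]
  have h2 : |t * v d| ≤ 3 * (4 ^ r - 1) := by
    rw [abs_mul]
    exact mul_le_mul ht (hv d) (abs_nonneg _) (by norm_num)
  have h3 := abs_sub_abs_le_abs_sub ((4 : ℝ) ^ r * x) (u d + t * v d)
  have h5 := abs_add_le (u d) (t * v d)
  have h6 : (4 : ℝ) ^ r * x - u d - t * v d = 4 ^ r * x - (u d + t * v d) := by ring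
  have h7 : (4 : ℝ) ^ r * 10 ≤ 4 ^ r * |x| := mul_le_mul_of_nonneg_left hx (by positivity)
  have h8 := hu d
  rw [h6]
  linarith

end DER

theorem DER_thm (hE : Stmt_EXP2) : Stmt_DER := by
  intro b hb r
  have hb1 : 1 ≤ b := by rcases hb with rfl | rfl <;> norm_num
  have hb2 : b ≤ 2 := by rcases hb with rfl | rfl <;> norm_num
  obtain ⟨m, w, u, v, -, hu, hv, -, h⟩ := hE r
  obtain ⟨m', w', u', v', -, hu', hv', -, h'⟩ := hE (r + 1)
  have hgr : ∀ x t, gr b r x t = ∑ d, w' d * Phi b (4 ^ (r + 1) * x - u' d - t * v' d) -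
      ∑ d, w d * Phi b (4 ^ r * x - u d - t * v d) := by
    intro x t
    unfold gr
    rw [h, h']
  have hd : ∀ x t, HasDerivAt (fun τ => gr b r x τ)
      (∑ d, w' d * (deriv (Phi b) (4 ^ (r + 1) * x - u' d - t * v' d) * -v' d) -
        ∑ d, w d * (deriv (Phi b) (4 ^ r * x - u d - t * v d) * -v d)) t := by
    intro x t
    have h1 : (fun τ => gr b r x τ) = fun τ =>
        ∑ d, w' d * Phi b (4 ^ (r + 1) * x - u' d - τ * v' d) -
          ∑ d, w d * Phi b (4 ^ r * x - u d - τ * v d) := funext fun τ => hgr x τ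
    rw [h1]
    exact (DER.sum_deriv b w' u' v' _ x t).sub (DER.sum_deriv b w u v _ x t)
  have hdgr : ∀ x t, dgr b r x t =
      ∑ d, w' d * (deriv (Phi b) (4 ^ (r + 1) * x - u' d - t * v' d) * -v' d) -
        ∑ d, w d * (deriv (Phi b) (4 ^ r * x - u d - t * v d) * -v d) := fun x t => (hd x t).deriv
  have hz : ∀ x t : ℝ, 10 ≤ |x| → |t| ≤ 3 → gr b r x t = 0 := by
    intro x t hx ht
    rw [hgr, DER.sum_zero hb1 hb2 w' u' v' (r + 1) hu' hv' hx ht,
      DER.sum_zero hb1 hb2 w u v r hu hv hx ht, sub_zero]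
  refine ⟨?_, ?_, ?_, ?_⟩
  · have h1 : (fun p : ℝ × ℝ => gr b r p.1 p.2) = fun p : ℝ × ℝ =>
        ∑ d, w' d * Phi b (4 ^ (r + 1) * p.1 - u' d - p.2 * v' d) -
          ∑ d, w d * Phi b (4 ^ r * p.1 - u d - p.2 * v d) := funext fun p => hgr p.1 p.2
    rw [h1]
    exact (DER.sum_cont b w' u' v' _).sub (DER.sum_cont b w u v _)
  · have h1 : (fun p : ℝ × ℝ => dgr b r p.1 p.2) = fun p : ℝ × ℝ =>
        ∑ d, w' d * (deriv (Phi b) (4 ^ (r + 1) * p.1 - u' d - p.2 * v' d) * -v' d) -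
          ∑ d, w d * (deriv (Phi b) (4 ^ r * p.1 - u d - p.2 * v d) * -v d) :=
      funext fun p => hdgr p.1 p.2
    rw [h1]
    exact (DER.sum_cont' b w' u' v' _).sub (DER.sum_cont' b w u v _)
  · intro x t
    rw [hdgr]
    exact hd x t
  · intro x t h0 h2 hx
    refine ⟨hz x t hx (abs_le.2 ⟨by linarith, by linarith⟩), ?_⟩
    have h3 : (fun τ => gr b r x τ) =ᶠ[𝓝 t] fun _ => (0 : ℝ) := by
      filter_upwards [Ioo_mem_nhds (show (-3 : ℝ) < t by linarith) (show t < 3 by linarith)]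
        with τ hτ
      exact hz x τ hx (abs_le.2 ⟨hτ.1.le, hτ.2.le⟩)
    unfold dgr
    rw [h3.deriv_eq, deriv_const]

end Pool.Agent.FCQ
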