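import Pool.Agent.FCQ.Stmts
import Pool.Agent.FCC.STOP
import Pool.Agent.FCC.VIT
import Pool.Agent.FCC.REC

/-!
# DICH2: the dichotomy without logarithm
-/

set_option autoImplicit false

namespace Pool.Agent.FCQ

open MeasureTheory Set

namespace DICH2

theorem exp_ge : (3 : ℝ) ≤ Real.exp (11 / 10) := by
  refine le_trans ?_ (Real.sum_le_exp_of_nonneg (by norm_num : (0 : ℝ) ≤ 11 / 10) 6)
  simp only [Finset.sum_range_succ, Finset.sum_range_zero, Nat.factorial]
  norm_num

/-- The recursion for one stopping scale. -/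
theorem one_scale (hstop : FCC.Stmt_STOP) (hvit : FCC.Stmt_VIT) (hrec : FCC.Stmt_REC) (N K : ℕ)
    (t : ℝ) (ht0 : 0 ≤ t) (ht1 : t ≤ 1) (hK : 2 ≤ K) (hS : 4 * K < FCC.S N t) :
    ∃ η : ℝ, 1 / (640 * (K : ℝ)) ≤ η ∧ η ≤ 1 ∧
      ∀ M : ℕ, FCC.L (N + M) t ≤ 5 / K * η + (1 - η) * FCC.L M t := by
  have ha := hstop N K t ht0 ht1 hK hS
  obtain ⟨B, hB, hdis, hA⟩ := hvit N K t ht0 ht1 (by omega)
  obtain ⟨η, hη1, hη2, hL⟩ := hrec N K t B ht0 ht1 hB hdis
  set s : ℝ := ∑ b ∈ B, (1 : ℝ) / 4 ^ b.1 with hs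
  have hK' : (2 : ℝ) ≤ K := by exact_mod_cast hK
  have hK0 : (0 : ℝ) < K := by linarith
  have hs1 : 1 / (32 * (K : ℝ) ^ 2) ≤ 20 * s := ha.trans hA
  have hη3 : 1 / (640 * (K : ℝ)) ≤ η := by
    refine le_trans ?_ hη1
    have e : 1 / (640 * (K : ℝ)) = K * (1 / (32 * (K : ℝ) ^ 2) / 20) := by
      field_simp
      try norm_num
    rw [e]
    exact mul_le_mul_of_nonneg_left (by linarith) hK0.le
  refine ⟨η, hη3, hη2, fun M => ?_⟩
  have h1 := hL M
  have h2 : 5 * s ≤ 5 / K * η := by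
    have : s ≤ η / K := by
      rw [le_div_iff₀ hK0]
      linarith
    calc 5 * s ≤ 5 * (η / K) := by linarith
      _ = 5 / K * η := by ring
  linarith

/-- Iteration of the recursion. -/
theorem rec_bound (u : ℕ → ℝ) (c d η : ℝ) (hη : η ≤ 1) (h0 : u 0 ≤ c + d)
    (h : ∀ j, u (j + 1) ≤ c * η + (1 - η) * u j) (j : ℕ) : u j ≤ c + d * (1 - η) ^ j := by
  induction j with
  | zero => rw [pow_zero]; linarith
  | succ j ih =>
    have h1 := mul_le_mul_of_nonneg_left ih (sub_nonneg.2 hη)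
    have h2 := h j
    have h3 : c * η + (1 - η) * (c + d * (1 - η) ^ j) = c + d * (1 - η) ^ (j + 1) := by
      rw [pow_succ]; ring
    linarith

/-- From scale `i` to scale `i + 1`. -/
theorem scale_step (hstop : FCC.Stmt_STOP) (hvit : FCC.Stmt_VIT) (hrec : FCC.Stmt_REC) (N K M : ℕ)
    (t : ℝ) (ht0 : 0 ≤ t) (ht1 : t ≤ 1) (hK : 2 ≤ K) (hS : 4 * K < FCC.S N t)
    (hM : FCC.L (M * N) t ≤ 20 / K) : FCC.L ((M + 704 * K) * N) t ≤ 10 / K := by
  obtain ⟨η, hη3, hη2, hL⟩ := one_scale hstop hvit hrec N K t ht0 ht1 hK hS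
  have hK' : (2 : ℝ) ≤ K := by exact_mod_cast hK
  have hK0 : (0 : ℝ) < K := by linarith
  have hstep : ∀ j : ℕ, FCC.L ((M + (j + 1)) * N) t ≤
      5 / K * η + (1 - η) * FCC.L ((M + j) * N) t := by
    intro j
    have h1 := hL ((M + j) * N)
    have e : N + (M + j) * N = (M + (j + 1)) * N := by ring
    rw [e] at h1
    exact h1
  have hu := rec_bound (fun j => FCC.L ((M + j) * N) t) (5 / K) (15 / K) η hη2 (by
    have e : (5 : ℝ) / K + 15 / K = 20 / K := by ring
    rw [e]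
    exact hM) hstep (704 * K)
  have hpow : (1 - η) ^ (704 * K) ≤ 1 / 3 := by
    have h1 : 1 - η ≤ Real.exp (-η) := by
      have := Real.add_one_le_exp (-η)
      linarith
    calc (1 - η) ^ (704 * K) ≤ Real.exp (-η) ^ (704 * K) :=
          pow_le_pow_left₀ (sub_nonneg.2 hη2) h1 _
      _ = Real.exp ((704 * K : ℕ) * (-η)) := by rw [← Real.exp_nat_mul]
      _ ≤ Real.exp (-(11 / 10)) := by
          apply Real.exp_le_exp.2
          have h3 : (704 * K : ℝ) * (1 / (640 * K)) ≤ 704 * K * η :=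
            mul_le_mul_of_nonneg_left hη3 (by positivity)
          have h4 : (704 * K : ℝ) * (1 / (640 * K)) = 11 / 10 := by
            field_simp
            norm_num
          rw [h4] at h3
          push_cast
          linarith
      _ ≤ 1 / 3 := by
          rw [Real.exp_neg, ← one_div]
          exact one_div_le_one_div_of_le (by norm_num) exp_ge
  have h5 : (15 : ℝ) / K * (1 - η) ^ (704 * K) ≤ 15 / K * (1 / 3) :=
    mul_le_mul_of_nonneg_left hpow (by positivity)
  calc FCC.L ((M + 704 * K) * N) t ≤ 5 / K + 15 / K * (1 - η) ^ (704 * K) := hu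
    _ ≤ 5 / K + 15 / K * (1 / 3) := by linarith
    _ = 10 / K := by ring

end DICH2

open DICH2

theorem DICH2_thm : FCC.Stmt_STOP → FCC.Stmt_VIT → FCC.Stmt_REC → Stmt_DICH2 := by
  intro hstop hvit hrec N k t ht0 ht1 _ hS n hn
  have key : ∀ i : ℕ, i ≤ k → ∃ j : ℕ, j + 1408 = 1408 * 2 ^ i ∧
      FCC.L (j * N) t ≤ 10 / 2 ^ i := by
    intro i
    induction i with
    | zero =>
      intro _
      refine ⟨0, by norm_num, ?_⟩
      have h1 := FCC.L_le (0 * N) ht0
      rw [pow_zero, div_one]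
      linarith
    | succ i ih =>
      intro hi
      obtain ⟨j, hj1, hj2⟩ := ih (by omega)
      have hS' : 4 * ((2 ^ (i + 1) : ℕ) : ℝ) < FCC.S N t := by
        refine lt_of_le_of_lt ?_ hS
        have h1 : (2 : ℝ) ^ (i + 1) ≤ 2 ^ k := pow_le_pow_right₀ (by norm_num) hi
        push_cast
        linarith
      have h2 := scale_step hstop hvit hrec N (2 ^ (i + 1)) j t ht0 ht1
        (by
          calc 2 = 2 ^ 1 := (pow_one 2).symm
            _ ≤ 2 ^ (i + 1) := Nat.pow_le_pow_right (by norm_num) (by omega)) hS' (by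
          refine hj2.trans (le_of_eq ?_)
          push_cast
          rw [pow_succ]
          field_simp
          norm_num)
      refine ⟨j + 704 * 2 ^ (i + 1), ?_, ?_⟩
      · rw [pow_succ]
        omega
      · push_cast at h2
        exact h2
  obtain ⟨j, hj1, hj2⟩ := key k le_rfl
  have hjn : j * N ≤ n := by
    refine le_trans ?_ hn
    rw [mul_comm]
    refine Nat.mul_le_mul_left _ ?_
    have : j ≤ 1408 * 2 ^ k := by omega
    omega
  exact (FCC.L_anti ht0 hjn).trans hj2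

theorem DICH2_full : Stmt_DICH2 := DICH2_thm FCC.STOP_thm FCC.VIT_thm FCC.REC_thm

end Pool.Agent.FCQ
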