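import Pool.Agent.FCC.Basic

/-!
# Four corner Cantor sets, the exponent one half: definitions

See `Stmts.lean` for the theorem and the plan of the proof.
-/

set_option autoImplicit false

namespace Pool.Agent.FCQ

open MeasureTheory Set

/-- The weights `1/2, 1, 1/2` of the digits `-3, 0, 3`. -/
noncomputable def wt (a : Fin 3) : ℝ := if a = 1 then 1 else 1 / 2

/-- The digits `-3, 0, 3`. -/
noncomputable def dv (a : Fin 3) : ℝ := 3 * (a.val : ℝ) - 3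

/-- One step in the direction `t`: `(T φ)(x) = ∑ wt a * wt b * φ (4 x - dv a - t dv b)`; the total
weight is `4`. -/
noncomputable def T (t : ℝ) (φ : ℝ → ℝ) : ℝ → ℝ := fun x =>
  ∑ a : Fin 3, ∑ b : Fin 3, wt a * wt b * φ (4 * x - dv a - t * dv b)

/-- The tent function. -/
noncomputable def tent (t x : ℝ) : ℝ := max (1 + t - |x|) 0

/-- The starting points: `rho 0 t = 3 - 3 t`, `rho (i + 1) t = 4 * rho i t - 3 - 3 t`. -/
noncomputable def rho (i : ℕ) (t : ℝ) : ℝ := 1 + t - 4 ^ i * (4 * t - 2)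

/-- A smooth even function, `1` for `|x| ≤ b - 1/100`, `0` for `|x| ≥ b`. -/
noncomputable def Phi (b x : ℝ) : ℝ :=
  Real.smoothTransition ((b ^ 2 - x ^ 2) / (b ^ 2 - (b - 1 / 100) ^ 2))

/-- The indicator function of `|x| ≤ b - 1/50`. -/
noncomputable def chi (b x : ℝ) : ℝ := if |x| ≤ b - 1 / 50 then 1 else 0

/-- The two ranges of directions with their base functions. -/
def Rg (b t : ℝ) : Prop :=
  (b = 7 / 5 ∧ 1 / 2 ≤ t ∧ t ≤ 7 / 10) ∨ (b = 169 / 100 ∧ 7 / 10 ≤ t ∧ t ≤ 1)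

/-- The main quantity: weight of the nodes of level `n` over the point `rho i t`. -/
noncomputable def E (b : ℝ) (i n : ℕ) (t : ℝ) : ℝ := (T t)^[n] (Phi b) (rho i t)

/-- The increments `T^(r+1) Φ - T^r Φ`. -/
noncomputable def gr (b : ℝ) (r : ℕ) (x t : ℝ) : ℝ :=
  (T t)^[r + 1] (Phi b) x - (T t)^[r] (Phi b) x

/-- The derivative of the increments in the direction. -/
noncomputable def dgr (b : ℝ) (r : ℕ) (x t : ℝ) : ℝ := deriv (fun τ => gr b r x τ) t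

/-- The square norm of the increments and of their derivatives, scaled. -/
noncomputable def Nr (b : ℝ) (r : ℕ) (t : ℝ) : ENNReal :=
  ∫⁻ x, ENNReal.ofReal (gr b r x t ^ 2 + dgr b r x t ^ 2 / 16 ^ r)

/-- Growth of the inverse square moment in the direction `t`. -/
def Grw (b t K G : ℝ) : Prop := ∀ r : ℕ, 1 ≤ r →
  ∫⁻ x in Icc (-(9 / 10 + t)) (9 / 10 + t), (ENNReal.ofReal ((T t)^[r] (chi b) x))⁻¹ ^ 2 ≤
    ENNReal.ofReal (K * G ^ r)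

/-- The negative moment of order `γ` over the interval `[u, v]` of directions. -/
noncomputable def X (b : ℝ) (i : ℕ) (u v γ : ℝ) (n : ℕ) : ENNReal :=
  ∫⁻ t in Icc u v, (ENNReal.ofReal (E b i n t)) ^ (-γ)

/-- The same as a real number. -/
noncomputable def Xr (b : ℝ) (i : ℕ) (u v γ : ℝ) (n : ℕ) : ℝ := (X b i u v γ n).toReal

/-- Half the length of the windows of level `n`. -/
noncomputable def ell (n : ℕ) : ℝ := 1 / (256 * 4 ^ n)

/-- The window about `t0`. -/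
def Iw (u v t0 l : ℝ) : Set ℝ := Icc u v ∩ Icc (t0 - l) (t0 + l)

/-- The indicator function of `|x| ≤ c`. -/
noncomputable def ind (c x : ℝ) : ℝ := if |x| ≤ c then 1 else 0

/-- The hat of radius `c`. -/
noncomputable def hat (c x : ℝ) : ℝ := max (c - |x|) 0

/-- The direction with `(1 - t) / (1 + t) = c / 4 ^ j`. -/
noncomputable def tau (j : ℕ) (c : ℝ) : ℝ := (1 - c / 4 ^ j) / (1 + c / 4 ^ j)

/-- The Fourier transform. -/
noncomputable def Ft (f : ℝ → ℝ) (ξ : ℝ) : ℂ :=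
  ∫ x, (f x : ℂ) * Complex.exp (((-(ξ * x) : ℝ) : ℂ) * Complex.I)

/-- `∏_{i<r} cos² (4^i z)` -/
noncomputable def P2 (r : ℕ) (z : ℝ) : ℝ := ∏ i ∈ Finset.range r, Real.cos (4 ^ i * z) ^ 2

/-- The Fourier transform of `T Φ - Φ`. -/
noncomputable def Ps (b t ω : ℝ) : ℂ :=
  ((Real.cos (3 * ω / 8) ^ 2 * Real.cos (3 * t * ω / 8) ^ 2 : ℝ) : ℂ) * Ft (Phi b) (ω / 4) -
    Ft (Phi b) ω

/-- `∏_{i<r} cos⁴ (4^i z)` -/
noncomputable def Q4 (r : ℕ) (z : ℝ) : ℝ := ∏ i ∈ Finset.range r, Real.cos (4 ^ i * z) ^ 4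

/-- `cos⁴` with the exponent `2` at one place, weighted sum. -/
noncomputable def Dr (r : ℕ) (z : ℝ) : ℝ := Q4 r z +
  ∑ i ∈ Finset.range r, (4 : ℝ) ^ i / 4 ^ r *
    (Real.cos (4 ^ i * z) ^ 2 * ∏ l ∈ (Finset.range r).erase i, Real.cos (4 ^ l * z) ^ 4)

/-- The admissible intervals of directions. -/
structure Dat (b : ℝ) (i j n0 : ℕ) (u v K G : ℝ) : Prop where
  rg : ∀ t ∈ Icc u v, Rg b t
  blk : ∀ t ∈ Icc u v, |rho i t| ≤ 7 / 10 + t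
  grw : ∀ t ∈ Icc u v, Grw b t K G
  len : 1 / (256 * 4 ^ (n0 + i)) ≤ v - u
  len' : v - u ≤ 2 / 4 ^ j
  hn : 1 ≤ n0
  hj : j + 1 ≤ n0
  hK : 1 ≤ K
  hG : 1 ≤ G

/-! ### The certificates -/

/-- A certificate in one variable for the growth factor `G`. -/
structure Cm (t c0 C0 G : ℝ) (h V : ℝ → ℝ) : Prop where
  mh : Measurable h
  mV : Measurable V
  h0 : ∀ x, 0 ≤ h x
  hC : ∀ x, h x ≤ C0
  V0 : ∀ x, 0 ≤ V x
  VC : ∀ x, V x ≤ C0
  lo : ∀ x, |x| ≤ 9 / 10 + t → c0 ≤ V x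
  sup : ∀ x, V x ≠ 0 → |x| ≤ 31 / 32 + t
  pos : ∀ x, V x ≠ 0 → 0 < T t h x
  ineq : ∀ r, ∑ a : Fin 3, ∑ b : Fin 3, wt a * wt b / 4 *
    (h r / T t h ((r + dv a + t * dv b) / 4)) ^ 3 * V ((r + dv a + t * dv b) / 4) ≤ G * V r

/-- The sums `-6, -3, 0, 3, 6` of two digits. -/
noncomputable def sv (k : Fin 5) : ℝ := 3 * (k.val : ℝ) - 6

/-- Their weights `1/4, 1, 3/2, 1, 1/4`. -/
noncomputable def W (k : Fin 5) : ℝ := ![1 / 4, 1, 3 / 2, 1, 1 / 4] k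

/-- The class `|s| / 3` of the sum. -/
def cl (k : Fin 5) : Fin 3 := ![2, 1, 0, 1, 2] k

/-- The differences of the two digits, given the class of the sum. -/
noncomputable def dl (Q e : Fin 3) : ℝ := ((e.val : ℝ) - 1) * ![6, 3, 0] Q

/-- Their probabilities. -/
noncomputable def pd (Q e : Fin 3) : ℝ := ![![1 / 6, 2 / 3, 1 / 6], ![1 / 2, 0, 1 / 2], ![0, 1, 0]] Q e

/-- One step of the delayed chain, `Q` = class of the sum `j` levels before. -/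
noncomputable def TD (t' : ℝ) (Q : Fin 3) (φ : ℝ → ℝ) : ℝ → ℝ := fun x =>
  ∑ k : Fin 5, ∑ e : Fin 3, W k * pd Q e * φ (4 * x - sv k - t' * dl Q e)

/-- One step of the chain in the direction `1` (no difference). -/
noncomputable def TA (φ : ℝ → ℝ) : ℝ → ℝ := fun x => ∑ k : Fin 5, W k * φ (4 * x - sv k)

/-- A certificate for the delayed chain: growth factor `G`, and `GA` in the filling phase. -/
structure Co (t' c0 C0 G GA : ℝ) (h : Fin 3 → ℝ → ℝ) (V : Fin 3 → Fin 3 → ℝ → ℝ) (hA : ℝ → ℝ)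
    (VA : Fin 3 → ℝ → ℝ) (bb : Fin 3 → ℝ) : Prop where
  mh : ∀ Q, Measurable (h Q)
  mV : ∀ Q c, Measurable (V Q c)
  mhA : Measurable hA
  mVA : ∀ c, Measurable (VA c)
  h0 : ∀ Q x, 0 ≤ h Q x
  hC : ∀ Q x, h Q x ≤ C0
  V0 : ∀ Q c x, 0 ≤ V Q c x
  VC : ∀ Q c x, V Q c x ≤ C0
  hA0 : ∀ x, 0 ≤ hA x
  hAC : ∀ x, hA x ≤ C0
  VA0 : ∀ c x, 0 ≤ VA c x
  VAC : ∀ c x, VA c x ≤ C0
  lo : ∀ Q c x, |x| ≤ 19 / 10 → c0 ≤ V Q c x
  loA : ∀ c x, |x| ≤ 19 / 10 → c0 ≤ VA c x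
  dom : ∀ Q c x, VA c x ≤ C0 * V Q c x
  sup : ∀ Q c x, V Q c x ≠ 0 → |x| ≤ 63 / 32
  supA : ∀ c x, VA c x ≠ 0 → |x| ≤ 63 / 32
  bp : ∀ c, c0 ≤ bb c
  bs : ∑ c, bb c ≤ 1
  pos : ∀ Q1 Q2 c x, V Q1 c x ≠ 0 → 0 < TD t' Q1 (h Q2) x
  posA : ∀ c x, VA c x ≠ 0 → 0 < TA hA x
  ineq : ∀ (Q2 k0 c : Fin 3) (r : ℝ),
    ∑ k ∈ Finset.univ.filter (fun k => cl k = k0), ∑ Q1 : Fin 3, ∑ e : Fin 3,
      W k / 4 * pd Q1 e * bb Q1 *
        (h Q2 r / TD t' Q1 (h Q2) ((r + sv k + t' * dl Q1 e) / 4)) ^ 3 *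
          V Q1 c ((r + sv k + t' * dl Q1 e) / 4) ≤ G * bb c * V Q2 k0 r
  ineqA : ∀ (k0 c : Fin 3) (r : ℝ),
    ∑ k ∈ Finset.univ.filter (fun k => cl k = k0),
      W k / 4 * (hA r / TA hA ((r + sv k) / 4)) ^ 3 * VA c ((r + sv k) / 4) ≤
        GA * bb c * VA k0 r

/-- The admissible pairs `(G, GA)`. -/
def Pr (G GA : ℝ) : Prop :=
  (G = 132 / 100 ∧ GA = 190 / 100) ∨ (G = 131 / 100 ∧ GA = 205 / 100) ∨
  (G = 125 / 100 ∧ GA = 265 / 100) ∨ (G = 120 / 100 ∧ GA = 305 / 100)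

end Pool.Agent.FCQ
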