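import Pool.Agent.FCQ.Stmts

/-!
# Four corner Cantor sets, the exponent one half: EDGE
-/

set_option autoImplicit false

namespace Pool.Agent.FCQ

open MeasureTheory Set

namespace EDGE

/-- Several steps along the edge. -/
theorem step {φ : ℝ → ℝ} (h : ∀ y, 0 ≤ φ y) (t : ℝ) : ∀ (i k : ℕ),
    φ (rho (k + i) t) / 4 ^ i ≤ (T t)^[i] φ (rho k t) := by
  intro i
  induction i with
  | zero => intro k; simp
  | succ i ih =>
    intro k
    rw [iter_succ']
    have h1 := T_ge (iter_nonneg h t i) t (rho k t) 2 2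
    rw [wt_two, dv_two] at h1
    have e : 4 * rho k t - 3 - t * 3 = rho (k + 1) t := by rw [rho_succ]; ring
    rw [e] at h1
    have h2 := ih (k + 1)
    have e2 : k + 1 + i = k + (i + 1) := by ring
    rw [e2] at h2
    refine le_trans ?_ h1
    have e3 : φ (rho (k + (i + 1)) t) / 4 ^ (i + 1) =
        1 / 2 * (1 / 2) * (φ (rho (k + (i + 1)) t) / 4 ^ i) := by
      rw [pow_succ]
      field_simp
      norm_num
    rw [e3]
    exact mul_le_mul_of_nonneg_left h2 (by norm_num)

theorem tent_nonneg (t y : ℝ) : 0 ≤ tent t y := le_max_right _ _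

theorem Phi_le_tent {b t : ℝ} (h : Rg b t) (y : ℝ) : 1 / 100 * Phi b y ≤ tent t y := by
  obtain ⟨h1, -, -, -, -⟩ := Rg_le h
  have hb : (1 : ℝ) ≤ b := by linarith
  by_cases hy : b ≤ |y|
  · rw [Phi_eq_zero hb hy, mul_zero]
    exact tent_nonneg t y
  · push Not at hy
    have h2 : 1 / 100 ≤ 1 + t - |y| := by
      rcases h with ⟨rfl, h3, h4⟩ | ⟨rfl, h3, h4⟩ <;> linarith
    have h3 := Phi_le_one b y
    have h4 : 1 + t - |y| ≤ tent t y := le_max_left _ _
    linarith

end EDGE

open EDGE in
theorem EDGE_thm : Stmt_EDGE := by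
  intro t _ _
  refine ⟨fun b i n hR => ?_, fun m hm => ?_⟩
  · rw [add_comm n i, iter_add_apply]
    have h1 := step (φ := (T t)^[n] (tent t)) (iter_nonneg (tent_nonneg t) t n) t i 0
    rw [zero_add] at h1
    refine le_trans ?_ h1
    have h2 : 1 / 100 * E b i n t ≤ (T t)^[n] (tent t) (rho i t) := by
      have h3 := iter_mono (Phi_le_tent hR) t n (rho i t)
      rw [iter_smul] at h3
      exact h3
    have e : E b i n t / (100 * 4 ^ i) = 1 / 100 * E b i n t / 4 ^ i := by
      field_simp
    rw [e]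
    exact div_le_div_of_nonneg_right h2 (by positivity)
  · have h1 := step (tent_nonneg t) t m 0
    rw [zero_add] at h1
    refine le_trans ?_ h1
    rw [le_div_iff₀ (by positivity)]
    have h2 : 1 + t - |rho m t| ≤ tent t (rho m t) := le_max_left _ _
    rw [abs_of_nonneg hm] at h2
    refine le_trans (le_of_eq ?_) h2
    unfold rho
    ring

end Pool.Agent.FCQ
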