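import Pool.Agent.FCQ.Stmts

/-!
# EXP2: the iterates of the operator as sums over words
-/

set_option autoImplicit false

namespace Pool.Agent.FCQ

open MeasureTheory Set

namespace EXP2

/-- The statement with an arbitrary finite index type. -/
theorem gen (r : ℕ) : ∃ (ι : Type) (_ : Fintype ι) (w u v : ι → ℝ), (∀ d, 0 < w d) ∧
    (∀ d, |u d| ≤ 4 ^ r - 1) ∧ (∀ d, |v d| ≤ 4 ^ r - 1) ∧ ∑ d, w d = 4 ^ r ∧
    ∀ (t : ℝ) (φ : ℝ → ℝ) (x : ℝ),
      (T t)^[r] φ x = ∑ d, w d * φ (4 ^ r * x - u d - t * v d) := by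
  induction r with
  | zero =>
    refine ⟨Unit, inferInstance, fun _ => 1, fun _ => 0, fun _ => 0, fun _ => one_pos, ?_, ?_, ?_,
      ?_⟩
    · intro d; simp
    · intro d; simp
    · simp
    · intro t φ x; simp
  | succ r ih =>
    obtain ⟨ι, inst, w, u, v, hw, hu, hv, hs, hT⟩ := ih
    refine ⟨(Fin 3 × Fin 3) × ι, inferInstance, fun d => wt d.1.1 * wt d.1.2 * w d.2,
      fun d => 4 ^ r * dv d.1.1 + u d.2, fun d => 4 ^ r * dv d.1.2 + v d.2, ?_, ?_, ?_, ?_, ?_⟩
    · intro d
      exact mul_pos (mul_pos (wt_pos _) (wt_pos _)) (hw _)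
    · intro d
      refine (abs_add_le _ _).trans ?_
      rw [abs_mul, abs_of_pos (show (0 : ℝ) < 4 ^ r by positivity)]
      have h1 := abs_dv_le d.1.1
      have h2 := hu d.2
      have h3 : (4 : ℝ) ^ r * |dv d.1.1| ≤ 4 ^ r * 3 := mul_le_mul_of_nonneg_left h1 (by positivity)
      rw [pow_succ]
      linarith
    · intro d
      refine (abs_add_le _ _).trans ?_
      rw [abs_mul, abs_of_pos (show (0 : ℝ) < 4 ^ r by positivity)]
      have h1 := abs_dv_le d.1.2
      have h2 := hv d.2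
      have h3 : (4 : ℝ) ^ r * |dv d.1.2| ≤ 4 ^ r * 3 := mul_le_mul_of_nonneg_left h1 (by positivity)
      rw [pow_succ]
      linarith
    · rw [Fintype.sum_prod_type, Fintype.sum_prod_type]
      have h1 : ∀ a b : Fin 3, ∑ y : ι, wt a * wt b * w y = wt a * wt b * 4 ^ r := by
        intro a b
        rw [← Finset.mul_sum, hs]
      have h2 : ∑ a : Fin 3, ∑ b : Fin 3, ∑ y : ι, wt a * wt b * w y =
          (∑ a : Fin 3, wt a) * (∑ b : Fin 3, wt b) * 4 ^ r := by
        rw [Finset.sum_mul_sum, Finset.sum_mul]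
        refine Finset.sum_congr rfl fun a _ => ?_
        rw [Finset.sum_mul]
        exact Finset.sum_congr rfl fun b _ => h1 a b
      rw [h2, sum_wt, pow_succ]
      ring
    · intro t φ x
      rw [Function.iterate_succ_apply']
      show ∑ a : Fin 3, ∑ b : Fin 3, wt a * wt b * (T t)^[r] φ (4 * x - dv a - t * dv b) = _
      rw [Fintype.sum_prod_type, Fintype.sum_prod_type]
      refine Finset.sum_congr rfl fun a _ => Finset.sum_congr rfl fun b _ => ?_
      rw [hT, Finset.mul_sum]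
      refine Finset.sum_congr rfl fun d _ => ?_
      rw [mul_assoc (wt a * wt b)]
      congr 2
      simp only
      congr 1
      rw [pow_succ]
      ring

end EXP2

theorem EXP2_thm : Stmt_EXP2 := by
  intro r
  obtain ⟨ι, inst, w, u, v, hw, hu, hv, hs, hT⟩ := EXP2.gen r
  let e : Fin (Fintype.card ι) ≃ ι := (Fintype.equivFin ι).symm
  refine ⟨Fintype.card ι, fun d => w (e d), fun d => u (e d), fun d => v (e d), fun d => hw _,
    fun d => hu _, fun d => hv _, ?_, ?_⟩
  · rw [← hs]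
    exact Equiv.sum_comp e w
  · intro t φ x
    rw [hT]
    exact (Equiv.sum_comp e fun d => w d * φ (4 ^ r * x - u d - t * v d)).symm

end Pool.Agent.FCQ
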