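import Pool.Agent.FCQ.Stmts

/-!
# Numerical inequalities between logarithms

Upper and lower bounds of `log a`, `a ≥ 1`, by partial sums of the logarithmic series at
`1 - 1/a`.
-/

namespace Pool.Agent.FCQ

namespace EXPO

open Finset

lemma abs_aux {a : ℝ} (ha : 1 ≤ a) : |1 - a⁻¹| < 1 ∧ 0 ≤ 1 - a⁻¹ := by
  have h0 : 0 < a⁻¹ := by positivity
  have h1 : a⁻¹ ≤ 1 := inv_le_one_of_one_le₀ ha
  refine ⟨?_, by linarith⟩
  rw [abs_of_nonneg (by linarith)]
  linarith

lemma up {a : ℝ} (ha : 1 ≤ a) (n : ℕ) :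
    Real.log a ≤ (∑ i ∈ range n, (1 - a⁻¹) ^ (i + 1) / ((i : ℝ) + 1)) +
      (1 - a⁻¹) ^ (n + 1) * a := by
  obtain ⟨h1, h0⟩ := abs_aux ha
  have h := Real.abs_log_sub_add_sum_range_le h1 n
  have h2 : Real.log (1 - (1 - a⁻¹)) = -Real.log a := by
    rw [sub_sub_cancel, Real.log_inv]
  rw [h2, abs_of_nonneg h0, sub_sub_cancel, div_inv_eq_mul] at h
  have h3 := (abs_le.1 h).1
  linarith

lemma lo {a : ℝ} (ha : 1 ≤ a) (n : ℕ) :
    (∑ i ∈ range n, (1 - a⁻¹) ^ (i + 1) / ((i : ℝ) + 1)) ≤ Real.log a := by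
  obtain ⟨h1, h0⟩ := abs_aux ha
  have h := Real.hasSum_pow_div_log_of_abs_lt_one h1
  have h2 : -Real.log (1 - (1 - a⁻¹)) = Real.log a := by
    rw [sub_sub_cancel, Real.log_inv, neg_neg]
  rw [h2] at h
  exact sum_le_hasSum _ (fun i _ => by positivity) h

lemma u1 : Real.log (33 / 25) ≤ 0.277637 :=
  (up (by norm_num) 10).trans (by simp only [sum_range_succ, range_zero, sum_empty]; norm_num)

lemma u2 : Real.log (131 / 100) ≤ 0.270031 :=
  (up (by norm_num) 10).trans (by simp only [sum_range_succ, range_zero, sum_empty]; norm_num)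

lemma u3 : Real.log (5 / 4) ≤ 0.223148 :=
  (up (by norm_num) 8).trans (by simp only [sum_range_succ, range_zero, sum_empty]; norm_num)

lemma u4 : Real.log (6 / 5) ≤ 0.182326 :=
  (up (by norm_num) 8).trans (by simp only [sum_range_succ, range_zero, sum_empty]; norm_num)

lemma u5 : Real.log (95 / 66) ≤ 0.364232 :=
  (up (by norm_num) 12).trans (by simp only [sum_range_succ, range_zero, sum_empty]; norm_num)

lemma u6 : Real.log (205 / 131) ≤ 0.44782 :=
  (up (by norm_num) 12).trans (by simp only [sum_range_succ, range_zero, sum_empty]; norm_num)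

lemma u7 : Real.log (53 / 25) ≤ 0.751425 := by
  have h : (53 / 25 : ℝ) = 2 * (53 / 50) := by norm_num
  have h1 : Real.log (53 / 50) ≤ 0.058277 :=
    (up (by norm_num) 4).trans (by simp only [sum_range_succ, range_zero, sum_empty]; norm_num)
  rw [h, Real.log_mul (by norm_num) (by norm_num)]
  have := Real.log_two_lt_d9
  norm_num at *
  linarith

lemma u8 : Real.log (61 / 24) ≤ 0.932827 := by
  have h : (61 / 24 : ℝ) = 2 * (61 / 48) := by norm_num
  have h1 : Real.log (61 / 48) ≤ 0.239679 :=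
    (up (by norm_num) 8).trans (by simp only [sum_range_succ, range_zero, sum_empty]; norm_num)
  rw [h, Real.log_mul (by norm_num) (by norm_num)]
  have := Real.log_two_lt_d9
  norm_num at *
  linarith

lemma l1 : 0.405461 ≤ Real.log (3 / 2) :=
  le_trans (by simp only [sum_range_succ, range_zero, sum_empty]; norm_num)
    (lo (by norm_num) 10)

lemma l2 : 0.575358 ≤ Real.log (16 / 9) := by
  have h : (16 / 9 : ℝ) = (4 / 3) ^ 2 := by norm_num
  have h1 : 0.287679 ≤ Real.log (4 / 3) :=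
    le_trans (by simp only [sum_range_succ, range_zero, sum_empty]; norm_num)
      (lo (by norm_num) 8)
  rw [h, Real.log_pow]
  push_cast
  linarith

lemma l3 : 1.38629 ≤ Real.log 4 := by
  have h : (4 : ℝ) = 2 ^ 2 := by norm_num
  rw [h, Real.log_pow]
  push_cast
  have := Real.log_two_gt_d9
  norm_num at *
  linarith

end EXPO

open EXPO in
theorem EXPO_thm : Stmt_EXPO := by
  intro G GA h
  have h1 := u1
  have h2 := u2
  have h3 := u3
  have h4 := u4
  have h5 := u5
  have h6 := u6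
  have h7 := u7
  have h8 := u8
  have k1 := l1
  have k2 := l2
  have k3 := l3
  rcases h with ⟨rfl, rfl⟩ | ⟨rfl, rfl⟩ | ⟨rfl, rfl⟩ | ⟨rfl, rfl⟩
  · have e1 : (132 / 100 : ℝ) = 33 / 25 := by norm_num
    have e2 : (190 / 100 / (33 / 25) : ℝ) = 95 / 66 := by norm_num
    rw [e1, e2]
    norm_num at h1 h5 k1 k2 k3
    refine ⟨by linarith, by linarith, by linarith, ?_⟩
    rintro x (rfl | rfl) <;> linarith
  · have e2 : (205 / 100 / (131 / 100) : ℝ) = 205 / 131 := by norm_num
    rw [e2]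
    norm_num at h2 h6 k1 k2 k3
    refine ⟨by linarith, by linarith, by linarith, ?_⟩
    rintro x (rfl | rfl) <;> linarith
  · have e1 : (125 / 100 : ℝ) = 5 / 4 := by norm_num
    have e2 : (265 / 100 / (5 / 4) : ℝ) = 53 / 25 := by norm_num
    rw [e1, e2]
    norm_num at h3 h7 k1 k2 k3
    refine ⟨by linarith, by linarith, by linarith, ?_⟩
    rintro x (rfl | rfl) <;> linarith
  · have e1 : (120 / 100 : ℝ) = 6 / 5 := by norm_num
    have e2 : (305 / 100 / (6 / 5) : ℝ) = 61 / 24 := by norm_num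
    rw [e1, e2]
    norm_num at h4 h8 k1 k2 k3
    refine ⟨by linarith, by linarith, by linarith, ?_⟩
    rintro x (rfl | rfl) <;> linarith

end Pool.Agent.FCQ
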