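import Pool.Agent.FCQ.Stmts

/-!
# FINX: finiteness and interpolation of the negative moments
-/

set_option autoImplicit false

namespace Pool.Agent.FCQ

open MeasureTheory Set

namespace FINX

/-- Pointwise bound from `1 / 4 ^ n ≤ E`. -/
theorem pt {x γ c : ℝ} {n : ℕ} (hx : 1 / 4 ^ n ≤ x) (hγ : 0 ≤ γ)
    (hc : ((4 : ℝ) ^ n) ^ γ ≤ c) : (ENNReal.ofReal x) ^ (-γ) ≤ ENNReal.ofReal c := by
  have h4 : (0 : ℝ) < 4 ^ n := by positivity
  have h0 : 0 < x := lt_of_lt_of_le (by positivity) hx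
  rw [ENNReal.ofReal_rpow_of_pos h0]
  refine ENNReal.ofReal_le_ofReal (le_trans ?_ hc)
  rw [Real.rpow_neg h0.le, ← Real.inv_rpow h0.le]
  refine Real.rpow_le_rpow (by positivity) ?_ hγ
  rw [inv_le_comm₀ h0 h4, inv_eq_one_div]
  exact hx

/-- The integral of a bounded function. -/
theorem bnd {f : ℝ → ENNReal} {u v c : ℝ} (huv : u ≤ v) (hc : 0 ≤ c)
    (hf : ∀ t ∈ Icc u v, f t ≤ ENNReal.ofReal c) :
    ∫⁻ t in Icc u v, f t ≤ ENNReal.ofReal ((v - u) * c) := by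
  calc ∫⁻ t in Icc u v, f t ≤ ∫⁻ _ in Icc u v, ENNReal.ofReal c :=
        setLIntegral_mono' measurableSet_Icc hf
    _ = ENNReal.ofReal ((v - u) * c) := by
        rw [setLIntegral_const, Real.volume_Icc, ← ENNReal.ofReal_mul hc, mul_comm]

/-- Hölder. -/
theorem hol {f : ℝ → ENNReal} (hf : Measurable f) {u v : ℝ} :
    ∫⁻ t in Icc u v, (f t) ^ (-(101 / 200 : ℝ)) ≤
      (ENNReal.ofReal (v - u)) ^ (299 / 400 : ℝ) *
        (∫⁻ t in Icc u v, (f t) ^ (-(2 : ℝ))) ^ (101 / 400 : ℝ) := by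
  have hpq : Real.HolderConjugate (400 / 101 : ℝ) (400 / 299 : ℝ) := by
    rw [Real.holderConjugate_iff]
    constructor <;> norm_num
  have h := ENNReal.lintegral_mul_le_Lp_mul_Lq (volume.restrict (Icc u v)) hpq
    (f := fun t => (f t) ^ (-(101 / 200 : ℝ))) (g := fun _ => 1)
    (hf.pow_const _).aemeasurable aemeasurable_const
  have e1 : ∀ t, ((f t) ^ (-(101 / 200 : ℝ))) ^ (400 / 101 : ℝ) = (f t) ^ (-(2 : ℝ)) := by
    intro t
    rw [← ENNReal.rpow_mul]
    norm_num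
  have e2 : ∫⁻ _ in Icc u v, (1 : ENNReal) = ENNReal.ofReal (v - u) := by
    rw [setLIntegral_const, Real.volume_Icc, one_mul]
  simp only [Pi.mul_apply, mul_one, e1, ENNReal.one_rpow, e2] at h
  rw [mul_comm]
  refine h.trans (le_of_eq ?_)
  norm_num

end FINX

theorem FINX_thm : Stmt_W1 → Stmt_FINX := by
  rintro ⟨C, -, hW⟩ b i j n0 u v K G hD n hn
  have hlow : ∀ t ∈ Icc u v, 1 / 4 ^ n ≤ E b i n t := fun t ht =>
    (hW b i n t hn (hD.rg t ht) (hD.blk t ht)).2.2.1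
  have huv0 : 0 < v - u := lt_of_lt_of_le (by positivity) hD.len
  have huv : u ≤ v := by linarith
  have huv2 : v - u ≤ 2 := by
    refine hD.len'.trans ?_
    have h1 : (1 : ℝ) ≤ 4 ^ j := one_le_pow₀ (by norm_num)
    rw [div_le_iff₀ (by positivity)]
    linarith
  have h4n : (1 : ℝ) ≤ 4 ^ n := one_le_pow₀ (by norm_num)
  have hb1 : X b i u v (101 / 200) n ≤ ENNReal.ofReal ((v - u) * 4 ^ n) := by
    refine FINX.bnd huv (by positivity) fun t ht => FINX.pt (hlow t ht) (by norm_num) ?_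
    calc ((4 : ℝ) ^ n) ^ (101 / 200 : ℝ) ≤ ((4 : ℝ) ^ n) ^ (1 : ℝ) :=
          Real.rpow_le_rpow_of_exponent_le h4n (by norm_num)
      _ = 4 ^ n := Real.rpow_one _
  have hb2 : X b i u v 2 n ≤ ENNReal.ofReal ((v - u) * 16 ^ n) := by
    refine FINX.bnd huv (by positivity) fun t ht => FINX.pt (hlow t ht) (by norm_num) ?_
    rw [show (2 : ℝ) = ((2 : ℕ) : ℝ) by norm_num, Real.rpow_natCast, ← pow_mul, mul_comm n 2,
      pow_mul]
    norm_num
  have hf1 : X b i u v (101 / 200) n ≠ ⊤ := ne_top_of_le_ne_top ENNReal.ofReal_ne_top hb1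
  have hf2 : X b i u v 2 n ≠ ⊤ := ne_top_of_le_ne_top ENNReal.ofReal_ne_top hb2
  refine ⟨continuous_E b i n, hf1, hf2, ?_, ?_, ?_⟩
  · have h := ENNReal.toReal_mono ENNReal.ofReal_ne_top hb1
    rw [ENNReal.toReal_ofReal (by positivity)] at h
    exact h.trans (mul_le_mul_of_nonneg_right huv2 (by positivity))
  · have h := ENNReal.toReal_mono ENNReal.ofReal_ne_top hb2
    rw [ENNReal.toReal_ofReal (by positivity)] at h
    exact h
  · have h := FINX.hol (f := fun t => ENNReal.ofReal (E b i n t))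
      (measurable_E b i n).ennreal_ofReal (u := u) (v := v)
    have hfin : (ENNReal.ofReal (v - u)) ^ (299 / 400 : ℝ) *
        (X b i u v 2 n) ^ (101 / 400 : ℝ) ≠ ⊤ :=
      ENNReal.mul_ne_top (ENNReal.rpow_ne_top_of_nonneg (by norm_num) ENNReal.ofReal_ne_top)
        (ENNReal.rpow_ne_top_of_nonneg (by norm_num) hf2)
    have h' := ENNReal.toReal_mono hfin h
    rw [ENNReal.toReal_mul, ← ENNReal.toReal_rpow, ← ENNReal.toReal_rpow,
      ENNReal.toReal_ofReal huv0.le] at h'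
    exact h'

end Pool.Agent.FCQ
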