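import Pool.Agent.FCQ.Stmts

/-!
# Four corner Cantor sets, the exponent one half: FTG
-/

set_option autoImplicit false

namespace Pool.Agent.FCQ

open MeasureTheory Set

namespace FTG

theorem integrable_Phi {b : ℝ} (hb : 1 ≤ b) : Integrable (Phi b) := by
  refine (continuous_Phi b).integrable_of_hasCompactSupport ?_
  refine HasCompactSupport.intro (K := Icc (-b) b) isCompact_Icc fun x hx => ?_
  refine Phi_eq_zero hb ?_
  by_contra h
  exact hx (abs_le.1 (not_le.1 h).le)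

theorem integrable_T {φ : ℝ → ℝ} (h : Integrable φ) (t : ℝ) : Integrable (T t φ) := by
  unfold T
  refine integrable_finsetSum _ fun a _ => integrable_finsetSum _ fun b _ => ?_
  refine Integrable.const_mul ?_ _
  have h1 : Integrable fun y : ℝ => φ (y - (dv a + t * dv b)) := h.comp_sub_right _
  have h2 := h1.comp_mul_left' (R := 4) (by norm_num)
  refine h2.congr (Filter.Eventually.of_forall fun x => ?_)
  show φ (4 * x - (dv a + t * dv b)) = φ (4 * x - dv a - t * dv b)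
  congr 1
  ring

theorem integrable_iter {φ : ℝ → ℝ} (h : Integrable φ) (t : ℝ) (n : ℕ) :
    Integrable ((T t)^[n] φ) := by
  induction n with
  | zero => exact h
  | succ n ih => rw [iter_succ']; exact integrable_T ih t

theorem norm_ex (ξ x : ℝ) : ‖Complex.exp (((-(ξ * x) : ℝ) : ℂ) * Complex.I)‖ = 1 :=
  Complex.norm_exp_ofReal_mul_I _

theorem cont_ex (ξ : ℝ) : Continuous fun x : ℝ =>
    Complex.exp (((-(ξ * x) : ℝ) : ℂ) * Complex.I) := by fun_prop

theorem integrable_ex {f : ℝ → ℝ} (h : Integrable f) (ξ : ℝ) :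
    Integrable fun x => (f x : ℂ) * Complex.exp (((-(ξ * x) : ℝ) : ℂ) * Complex.I) :=
  h.ofReal.mul_bdd (c := 1) (cont_ex ξ).aestronglyMeasurable
    (Filter.Eventually.of_forall fun x => (norm_ex ξ x).le)

theorem Ft_sub {f g : ℝ → ℝ} (hf : Integrable f) (hg : Integrable g) (ξ : ℝ) :
    Ft (fun x => f x - g x) ξ = Ft f ξ - Ft g ξ := by
  unfold Ft
  rw [← integral_sub (integrable_ex hf ξ) (integrable_ex hg ξ)]
  refine integral_congr_ae (Filter.Eventually.of_forall fun x => ?_)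
  show ((f x - g x : ℝ) : ℂ) * _ = _
  rw [Complex.ofReal_sub, sub_mul]

theorem P2_one (z : ℝ) : P2 1 z = Real.cos z ^ 2 := by
  unfold P2
  rw [Finset.prod_range_one, pow_zero, one_mul]

theorem partA (hFTR : Stmt_FTR) {b : ℝ} (hb : 1 ≤ b) (r : ℕ) (t ξ : ℝ) :
    Ft (fun x => gr b r x t) ξ =
      ((P2 r (3 * (ξ / 4 ^ r) / 2) * P2 r (3 * t * (ξ / 4 ^ r) / 2) : ℝ) : ℂ) *
        Ps b t (ξ / 4 ^ r) := by
  have hΦ := integrable_Phi hb
  have hΨ := integrable_T hΦ t
  have e1 : Ft (fun x => gr b r x t) ξ =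
      Ft ((T t)^[r] (T t (Phi b))) ξ - Ft ((T t)^[r] (Phi b)) ξ := by
    rw [← Ft_sub (integrable_iter hΨ t r) (integrable_iter hΦ t r)]
    rfl
  have e2 : Ft (T t (Phi b)) (ξ / 4 ^ r) =
      ((Real.cos (3 * (ξ / 4 ^ r) / 8) ^ 2 * Real.cos (3 * t * (ξ / 4 ^ r) / 8) ^ 2 : ℝ) : ℂ) *
        Ft (Phi b) (ξ / 4 ^ r / 4) := by
    have h := hFTR (Phi b) hΦ t (ξ / 4 ^ r) 1
    rw [P2_one, P2_one, pow_one] at h
    have e3 : (T t)^[1] (Phi b) = T t (Phi b) := rfl
    rw [e3] at h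
    rw [h]
    congr 5
    · ring
    · ring
  rw [e1, hFTR _ hΨ, hFTR _ hΦ, e2]
  unfold Ps
  ring

theorem partB (hDER : Stmt_DER) {b : ℝ} (hb : b = 7 / 5 ∨ b = 169 / 100) (r : ℕ) {t : ℝ} (ξ : ℝ)
    (h1 : 1 / 4 ≤ t) (h2 : t ≤ 5 / 4) :
    HasDerivAt (fun τ => Ft (fun x => gr b r x τ) ξ) (Ft (fun x => dgr b r x t) ξ) t := by
  obtain ⟨c1, c2, c3, c4⟩ := hDER b hb r
  obtain ⟨M, hM⟩ := ((isCompact_Icc (a := (-10 : ℝ)) (b := 10)).prod
    (isCompact_Icc (a := (0 : ℝ)) (b := 2))).exists_bound_of_continuousOn c2.continuousOn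
  have hM0 : 0 ≤ M := (norm_nonneg _).trans (hM (0, 0) ⟨by norm_num, by norm_num⟩)
  have hgi : ∀ τ : ℝ, 0 ≤ τ → τ ≤ 2 → Integrable fun x => gr b r x τ := by
    intro τ ht0 ht2
    refine (c1.comp (continuous_id.prodMk continuous_const)).integrable_of_hasCompactSupport ?_
    refine HasCompactSupport.intro (K := Icc (-10) 10) isCompact_Icc fun x hx => ?_
    refine (c4 x τ ht0 ht2 ?_).1
    by_contra h
    exact hx (abs_le.1 (not_le.1 h).le)
  refine (hasDerivAt_integral_of_dominated_loc_of_deriv_le (𝕜 := ℝ)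
    (F := fun τ x => (gr b r x τ : ℂ) * Complex.exp (((-(ξ * x) : ℝ) : ℂ) * Complex.I))
    (F' := fun τ x => (dgr b r x τ : ℂ) * Complex.exp (((-(ξ * x) : ℝ) : ℂ) * Complex.I))
    (bound := (Icc (-10 : ℝ) 10).indicator fun _ => M) (s := Icc 0 2) (x₀ := t)
    (Icc_mem_nhds (by linarith) (by linarith)) ?_ ?_ ?_ ?_ ?_ ?_).2
  · refine Filter.Eventually.of_forall fun τ => ?_
    have h3 : Continuous fun x : ℝ => gr b r x τ :=
      c1.comp (continuous_id.prodMk continuous_const)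
    exact ((Complex.continuous_ofReal.comp h3).mul (cont_ex ξ)).aestronglyMeasurable
  · exact integrable_ex (hgi t (by linarith) (by linarith)) ξ
  · have h3 : Continuous fun x : ℝ => dgr b r x t :=
      c2.comp (continuous_id.prodMk continuous_const)
    exact ((Complex.continuous_ofReal.comp h3).mul (cont_ex ξ)).aestronglyMeasurable
  · refine Filter.Eventually.of_forall fun x τ hτ => ?_
    rw [norm_mul, norm_ex, mul_one, Complex.norm_real]
    by_cases hx : x ∈ Icc (-10 : ℝ) 10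
    · rw [indicator_of_mem hx]
      exact hM (x, τ) ⟨hx, hτ⟩
    · rw [indicator_of_notMem hx]
      have h4 : 10 ≤ |x| := by
        by_contra h
        exact hx (abs_le.1 (not_le.1 h).le)
      rw [(c4 x τ hτ.1 hτ.2 h4).2, norm_zero]
  · exact (integrable_indicator_iff measurableSet_Icc).2 (integrableOn_const (by simp))
  · refine Filter.Eventually.of_forall fun x τ _ => ?_
    exact ((c3 x τ).ofReal_comp).mul_const _

end FTG

open FTG in
theorem FTG_thm (hFTR : Stmt_FTR) (hDER : Stmt_DER) : Stmt_FTG := by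
  intro b hb r t ξ h1 h2
  have hb1 : 1 ≤ b := by
    rcases hb with rfl | rfl <;> norm_num
  refine ⟨partA hFTR hb1 r t ξ, ?_⟩
  have h3 := partB hDER hb r ξ h1 h2
  have e : (fun τ => Ft (fun x => gr b r x τ) ξ) = fun τ =>
      ((P2 r (3 * (ξ / 4 ^ r) / 2) * P2 r (3 * τ * (ξ / 4 ^ r) / 2) : ℝ) : ℂ) *
        Ps b τ (ξ / 4 ^ r) := by
    funext τ
    exact partA hFTR hb1 r τ ξ
  rw [e] at h3
  exact h3.deriv.symm

end Pool.Agent.FCQ
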