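import Mathlib
import Pool.Agent.FCQ.Stmts

/-!
# The Fourier transform of the iterates
-/

set_option autoImplicit false

namespace Pool.Agent.FCQ

open MeasureTheory Set

namespace FTR

lemma integrable_aff {φ : ℝ → ℝ} (hφ : Integrable φ) (c : ℝ) :
    Integrable (fun x => φ (4 * x - c)) :=
  (hφ.comp_sub_right c).comp_mul_left' (by norm_num : (4 : ℝ) ≠ 0)

lemma integrable_mul {φ : ℝ → ℝ} (hφ : Integrable φ) (ξ : ℝ) :
    Integrable (fun x => (φ x : ℂ) * Complex.exp (((-(ξ * x) : ℝ) : ℂ) * Complex.I)) := by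
  refine (hφ.ofReal (𝕜 := ℂ)).mul_bdd (c := 1) ?_ ?_
  · apply Continuous.aestronglyMeasurable
    fun_prop
  · filter_upwards with x
    rw [Complex.norm_exp_ofReal_mul_I]

lemma integrable_T {φ : ℝ → ℝ} (hφ : Integrable φ) (t : ℝ) : Integrable (T t φ) := by
  unfold T
  refine integrable_finsetSum _ (fun a _ => integrable_finsetSum _ (fun b _ => ?_))
  have h := (integrable_aff hφ (dv a + t * dv b)).const_mul (wt a * wt b)
  refine h.congr (Filter.Eventually.of_forall (fun x => ?_))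
  simp only
  congr 2
  ring

lemma one_term (φ : ℝ → ℝ) (c ξ : ℝ) :
    ∫ x, ((φ (4 * x - c) : ℝ) : ℂ) * Complex.exp (((-(ξ * x) : ℝ) : ℂ) * Complex.I) =
      (1 / 4 : ℂ) * Complex.exp (((-(ξ * c / 4) : ℝ) : ℂ) * Complex.I) * Ft φ (ξ / 4) := by
  set g : ℝ → ℂ := fun y => ((φ (y - c) : ℝ) : ℂ) *
    Complex.exp (((-(ξ / 4 * y) : ℝ) : ℂ) * Complex.I) with hg
  have h0 : ∀ x : ℝ, ((φ (4 * x - c) : ℝ) : ℂ) *
      Complex.exp (((-(ξ * x) : ℝ) : ℂ) * Complex.I) = g (4 * x) := by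
    intro x
    simp only [hg]
    congr 4
    ring
  have h1 : ∫ x, g (4 * x) = |(4 : ℝ)⁻¹| • ∫ y, g y := Measure.integral_comp_mul_left g 4
  have h2 : ∫ y, g (y + c) = ∫ y, g y := integral_add_right_eq_self g c
  have h3 : ∀ y : ℝ, g (y + c) = Complex.exp (((-(ξ * c / 4) : ℝ) : ℂ) * Complex.I) *
      ((φ y : ℂ) * Complex.exp (((-(ξ / 4 * y) : ℝ) : ℂ) * Complex.I)) := by
    intro y
    simp only [hg, add_sub_cancel_right]
    have e1 : (((-(ξ / 4 * (y + c)) : ℝ) : ℂ) * Complex.I) =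
        (((-(ξ * c / 4) : ℝ) : ℂ) * Complex.I) + (((-(ξ / 4 * y) : ℝ) : ℂ) * Complex.I) := by
      push_cast
      ring
    rw [e1, Complex.exp_add]
    ring
  calc ∫ x, ((φ (4 * x - c) : ℝ) : ℂ) * Complex.exp (((-(ξ * x) : ℝ) : ℂ) * Complex.I)
      = ∫ x, g (4 * x) := integral_congr_ae (Filter.Eventually.of_forall h0)
    _ = |(4 : ℝ)⁻¹| • ∫ y, g (y + c) := by rw [h1, h2]
    _ = |(4 : ℝ)⁻¹| • (Complex.exp (((-(ξ * c / 4) : ℝ) : ℂ) * Complex.I) * Ft φ (ξ / 4)) := by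
        congr 1
        unfold Ft
        rw [← integral_const_mul]
        exact integral_congr_ae (Filter.Eventually.of_forall h3)
    _ = _ := by
        rw [abs_of_pos (by norm_num : (0 : ℝ) < 4⁻¹), Complex.real_smul]
        push_cast
        ring

lemma sum_wt (η : ℝ) : ∑ a : Fin 3, (wt a : ℂ) *
    Complex.exp (((-(η * dv a / 4) : ℝ) : ℂ) * Complex.I) =
      ((2 * Real.cos (3 * η / 8) ^ 2 : ℝ) : ℂ) := by
  have e0 : wt 0 = 1 / 2 := by simp [wt]
  have e1 : wt 1 = 1 := by simp [wt]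
  have e2 : wt 2 = 1 / 2 := by simp [wt]
  have d0 : dv 0 = -3 := by simp [dv]
  have d1 : dv 1 = 0 := by simp [dv]
  have d2 : dv 2 = 3 := by simp [dv]; norm_num
  rw [Fin.sum_univ_three, e0, e1, e2, d0, d1, d2]
  have h1 : Real.cos (3 * η / 4) = 2 * Real.cos (3 * η / 8) ^ 2 - 1 := by
    rw [← Real.cos_two_mul]; congr 1; ring
  have h2 : (2 * Real.cos (3 * η / 8) ^ 2 : ℝ) = 1 + Real.cos (3 * η / 4) := by rw [h1]; ring
  rw [h2]
  push_cast
  have h3 : Complex.cos (3 * (η : ℂ) / 4) = (Complex.exp (3 * (η : ℂ) / 4 * Complex.I) +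
      Complex.exp (-(3 * (η : ℂ) / 4) * Complex.I)) / 2 := rfl
  rw [h3]
  have a1 : -((η : ℂ) * -3 / 4) * Complex.I = 3 * (η : ℂ) / 4 * Complex.I := by ring
  have a2 : -((η : ℂ) * 0 / 4) * Complex.I = 0 := by ring
  have a3 : -((η : ℂ) * 3 / 4) * Complex.I = -(3 * (η : ℂ) / 4) * Complex.I := by ring
  rw [a1, a2, a3, Complex.exp_zero]
  ring

lemma step {φ : ℝ → ℝ} (hφ : Integrable φ) (t ξ : ℝ) :
    Ft (T t φ) ξ = ((Real.cos (3 * ξ / 8) ^ 2 * Real.cos (3 * (t * ξ) / 8) ^ 2 : ℝ) : ℂ) *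
      Ft φ (ξ / 4) := by
  have h1 : Ft (T t φ) ξ = ∑ a : Fin 3, ∑ b : Fin 3, (wt a : ℂ) * (wt b : ℂ) *
      ∫ x, ((φ (4 * x - (dv a + t * dv b)) : ℝ) : ℂ) *
        Complex.exp (((-(ξ * x) : ℝ) : ℂ) * Complex.I) := by
    have hint : ∀ a b : Fin 3, Integrable (fun x => (wt a : ℂ) * (wt b : ℂ) *
        (((φ (4 * x - (dv a + t * dv b)) : ℝ) : ℂ) *
        Complex.exp (((-(ξ * x) : ℝ) : ℂ) * Complex.I))) := fun a b =>
      (integrable_mul (integrable_aff hφ (dv a + t * dv b)) ξ).const_mul _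
    simp_rw [← integral_const_mul]
    have h2 : ∀ a : Fin 3, ∑ b : Fin 3, ∫ x, (wt a : ℂ) * (wt b : ℂ) *
        (((φ (4 * x - (dv a + t * dv b)) : ℝ) : ℂ) *
        Complex.exp (((-(ξ * x) : ℝ) : ℂ) * Complex.I)) =
        ∫ x, ∑ b : Fin 3, (wt a : ℂ) * (wt b : ℂ) *
        (((φ (4 * x - (dv a + t * dv b)) : ℝ) : ℂ) *
        Complex.exp (((-(ξ * x) : ℝ) : ℂ) * Complex.I)) := fun a =>
      (integral_finsetSum _ (fun b _ => hint a b)).symm
    simp_rw [h2]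
    rw [← integral_finsetSum _ (fun a _ => integrable_finsetSum _ (fun b _ => hint a b))]
    unfold Ft T
    refine integral_congr_ae (Filter.Eventually.of_forall (fun x => ?_))
    simp only
    push_cast
    rw [Finset.sum_mul]
    refine Finset.sum_congr rfl (fun a _ => ?_)
    rw [Finset.sum_mul]
    refine Finset.sum_congr rfl (fun b _ => ?_)
    have : 4 * x - dv a - t * dv b = 4 * x - (dv a + t * dv b) := by ring
    rw [this]
    ring
  rw [h1]
  simp_rw [one_term]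
  have h4 : ∀ a b : Fin 3, (wt a : ℂ) * (wt b : ℂ) *
      ((1 / 4 : ℂ) * Complex.exp (((-(ξ * (dv a + t * dv b) / 4) : ℝ) : ℂ) * Complex.I) *
        Ft φ (ξ / 4)) =
      ((wt a : ℂ) * Complex.exp (((-(ξ * dv a / 4) : ℝ) : ℂ) * Complex.I)) *
      ((wt b : ℂ) * Complex.exp (((-((t * ξ) * dv b / 4) : ℝ) : ℂ) * Complex.I)) *
      ((1 / 4 : ℂ) * Ft φ (ξ / 4)) := by
    intro a b
    have e1 : (((-(ξ * (dv a + t * dv b) / 4) : ℝ) : ℂ) * Complex.I) =
        (((-(ξ * dv a / 4) : ℝ) : ℂ) * Complex.I) +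
        (((-((t * ξ) * dv b / 4) : ℝ) : ℂ) * Complex.I) := by
      push_cast
      ring
    rw [e1, Complex.exp_add]
    ring
  simp_rw [h4]
  rw [← Finset.sum_congr rfl (fun a _ => Finset.sum_mul _ _ _), ← Finset.sum_mul]
  rw [← Finset.sum_mul_sum, sum_wt, sum_wt]
  push_cast
  ring

end FTR

theorem FTR_thm : Stmt_FTR := by
  intro φ hφ t ξ r
  have hI : ∀ r : ℕ, Integrable ((T t)^[r] φ) := by
    intro r
    induction r with
    | zero => exact hφ
    | succ r ih =>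
      rw [Function.iterate_succ_apply']
      exact FTR.integrable_T ih t
  induction r generalizing ξ with
  | zero => simp [P2]
  | succ r ih =>
    rw [Function.iterate_succ_apply', FTR.step (hI r), ih (ξ / 4)]
    have h1 : ξ / 4 / 4 ^ r = ξ / 4 ^ (r + 1) := by
      rw [pow_succ]
      field_simp
    rw [h1]
    unfold P2
    rw [Finset.prod_range_succ, Finset.prod_range_succ]
    have h2 : (4 : ℝ) ^ r * (3 * (ξ / 4 ^ (r + 1)) / 2) = 3 * ξ / 8 := by
      rw [pow_succ]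
      field_simp
      ring
    have h3 : (4 : ℝ) ^ r * (3 * t * (ξ / 4 ^ (r + 1)) / 2) = 3 * (t * ξ) / 8 := by
      rw [pow_succ]
      field_simp
      ring
    rw [h2, h3]
    push_cast
    ring

end Pool.Agent.FCQ
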