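import Pool.Agent.FCQ.Stmts

/-!
# GRO: the recursion REC1 iterated
-/

set_option autoImplicit false

namespace Pool.Agent.FCQ

open MeasureTheory Set

theorem GRO_thm (hR : Stmt_REC1) : Stmt_GRO := by
  obtain ⟨A, hA, hrec⟩ := hR
  refine ⟨A, hA, ?_⟩
  intro b i j n0 u v K G hD l
  have hK := hD.hK
  have hG := hD.hG
  have hn0 := hD.hn
  have hAK : 1 ≤ A * K := one_le_mul_of_one_le_of_one_le hA hK
  have hX : ∀ m, 0 ≤ Xr b i u v 2 m := fun m => ENNReal.toReal_nonneg
  induction l with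
  | zero =>
    intro n h1 h2
    have h3 : n = n0 := by
      rw [pow_zero, one_mul] at h2
      omega
    subst h3
    simp
  | succ l ih =>
    intro n h1 h2
    rcases Nat.lt_or_ge (2 ^ l * n0) n with h | h
    · have hp : 1 ≤ 2 ^ l := Nat.one_le_two_pow
      have h4 : n0 ≤ 2 ^ l * n0 := Nat.le_mul_of_pos_left _ hp
      have h5 : 2 ^ (l + 1) * n0 = 2 * (2 ^ l * n0) := by ring
      obtain ⟨n', hn', h6, h7, h8⟩ : ∃ n', n0 ≤ n' ∧ n' + 1 ≤ n ∧ n ≤ 2 * n' ∧
          n' ≤ 2 ^ l * n0 := by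
        refine ⟨max n0 ((n + 1) / 2), le_max_left _ _, ?_, ?_, ?_⟩ <;> omega
      have h9 := hrec b i j n0 u v K G hD n' (n - n') hn' (by omega) (by omega)
      have h10 : n' + (n - n') = n := by omega
      rw [h10] at h9
      have h11 := ih n' hn' h8
      have h12 : G ^ (n - n0) = G ^ (n - n') * G ^ (n' - n0) := by
        rw [← pow_add]
        congr 1
        omega
      calc Xr b i u v 2 n ≤ A * K * G ^ (n - n') * Xr b i u v 2 n' := h9
        _ ≤ A * K * G ^ (n - n') * ((A * K) ^ l * G ^ (n' - n0) * Xr b i u v 2 n0) :=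
            mul_le_mul_of_nonneg_left h11 (by positivity)
        _ = (A * K) ^ (l + 1) * G ^ (n - n0) * Xr b i u v 2 n0 := by
            rw [h12]
            ring
    · refine (ih n h1 h).trans ?_
      have h3 : (A * K) ^ l ≤ (A * K) ^ (l + 1) := pow_le_pow_right₀ hAK (Nat.le_succ l)
      have h4 : 0 ≤ G ^ (n - n0) * Xr b i u v 2 n0 := mul_nonneg (by positivity) (hX _)
      rw [mul_assoc, mul_assoc]
      exact mul_le_mul_of_nonneg_right h3 h4

end Pool.Agent.FCQ
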