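import Pool.Agent.FCQ.Stmts

/-!
# INT2: the average length of the projections in the main range   (helper31)
-/

set_option autoImplicit false

namespace Pool.Agent.FCQ

open MeasureTheory Set

namespace INT2

/-- The level used for the size `2 ^ k`. -/
def lev (n k : ℕ) : ℕ := n / (1410 * 2 ^ k)

/-- The bad directions. -/
def Bad (n k : ℕ) : Set ℝ := {t : ℝ | t ∈ Icc (1 / 2 : ℝ) 1 ∧ FCC.S (lev n k) t ≤ 4 * 2 ^ k}

theorem measurableSet_Bad (n k : ℕ) : MeasurableSet (Bad n k) := by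
  have : Bad n k = Icc (1 / 2 : ℝ) 1 ∩ (FCC.S (lev n k)) ⁻¹' (Iic (4 * 2 ^ k)) := rfl
  rw [this]
  exact measurableSet_Icc.inter (FCC.measurable_S _ measurableSet_Iic)

theorem vol_Bad_le (n k : ℕ) : (volume (Bad n k)).toReal ≤ 1 := by
  have h : volume (Bad n k) ≤ volume (Icc (1 / 2 : ℝ) 1) := measure_mono fun t ht => ht.1
  rw [Real.volume_Icc] at h
  calc (volume (Bad n k)).toReal ≤ (ENNReal.ofReal (1 - 1 / 2)).toReal :=
        ENNReal.toReal_mono ENNReal.ofReal_ne_top h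
    _ ≤ 1 := by rw [ENNReal.toReal_ofReal (by norm_num)]; norm_num

theorem good (hD : Stmt_DICH2) (n k : ℕ) {t : ℝ} (ht : t ∈ Icc (1 / 2 : ℝ) 1)
    (h : t ∉ Bad n k) : FCC.L n t ≤ 10 / 2 ^ k := by
  have ht0 : 0 ≤ t := by linarith [ht.1]
  rcases Nat.eq_zero_or_pos k with rfl | hk
  · have := FCC.L_le n ht0
    rw [pow_zero]
    linarith [ht.2]
  have hS : 4 * 2 ^ k < FCC.S (lev n k) t := by
    by_contra hc
    exact h ⟨ht, not_lt.1 hc⟩
  exact hD (lev n k) k t ht0 ht.2 hk hS n (Nat.div_mul_le_self _ _)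

/-- The exponent. -/
theorem vol_Bad (hT : ∃ C : ℝ, 0 < C ∧ ∀ (N : ℕ) (y : ℝ), 1 ≤ N → 0 < y →
    (volume {t : ℝ | t ∈ Icc (1 / 2 : ℝ) 1 ∧ FCC.S N t ≤ y}).toReal ≤
      C * (y / N) ^ (101 / 200 : ℝ)) :
    ∃ C : ℝ, 0 < C ∧ ∀ n k : ℕ, 1 ≤ n →
      (volume (Bad n k)).toReal ≤ C * (4 ^ k / n) ^ (101 / 200 : ℝ) := by
  obtain ⟨C, hC, hCT⟩ := hT
  refine ⟨C * 11280 + 1410, by positivity, fun n k hn => ?_⟩
  have hn0 : (0 : ℝ) < n := by exact_mod_cast hn
  have hX : (0 : ℝ) < 4 ^ k / n := by positivity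
  rcases Nat.eq_zero_or_pos (lev n k) with h0 | hpos
  · have h1 : n < 1410 * 2 ^ k := by
      rcases Nat.div_eq_zero_iff.1 h0 with h | h
      · exfalso
        have : 0 < 1410 * 2 ^ k := by positivity
        omega
      · exact h
    have h2 : (n : ℝ) ≤ 1410 * 2 ^ k := by exact_mod_cast h1.le
    have h3 : 1 / 1410 ≤ (4 : ℝ) ^ k / n := by
      rw [div_le_div_iff₀ (by norm_num) hn0]
      have h24 : (2 : ℝ) ^ k ≤ 4 ^ k := pow_le_pow_left₀ (by norm_num) (by norm_num) k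
      linarith
    have h4 : (1 : ℝ) / 1410 ≤ (4 ^ k / n) ^ (101 / 200 : ℝ) := by
      calc (1 : ℝ) / 1410 = (1 / 1410) ^ (1 : ℝ) := (Real.rpow_one _).symm
        _ ≤ (1 / 1410) ^ (101 / 200 : ℝ) :=
            Real.rpow_le_rpow_of_exponent_ge (by norm_num) (by norm_num) (by norm_num)
        _ ≤ _ := Real.rpow_le_rpow (by norm_num) h3 (by norm_num)
    have h5 := vol_Bad_le n k
    have h6 : 0 ≤ C * 11280 * (4 ^ k / n : ℝ) ^ (101 / 200 : ℝ) := by positivity
    rw [add_mul]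
    linarith
  · have h1 := hCT (lev n k) (4 * 2 ^ k) hpos (by positivity)
    have hB : {t : ℝ | t ∈ Icc (1 / 2 : ℝ) 1 ∧ FCC.S (lev n k) t ≤ 4 * 2 ^ k} = Bad n k := rfl
    rw [hB] at h1
    refine h1.trans ?_
    have h2 : (n : ℝ) ≤ lev n k * (2820 * 2 ^ k) := by
      have h3 : n < (lev n k + 1) * (1410 * 2 ^ k) := by
        unfold lev
        rw [mul_comm]
        exact Nat.lt_mul_div_succ _ (by positivity)
      have h4 : (lev n k + 1) * (1410 * 2 ^ k) ≤ lev n k * (2820 * 2 ^ k) := by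
        have : (lev n k + 1) ≤ lev n k * 2 := by omega
        calc (lev n k + 1) * (1410 * 2 ^ k) ≤ (lev n k * 2) * (1410 * 2 ^ k) :=
              Nat.mul_le_mul_right _ this
          _ = lev n k * (2820 * 2 ^ k) := by ring
      exact_mod_cast (h3.le.trans h4)
    have hl : (0 : ℝ) < lev n k := by exact_mod_cast hpos
    have h5 : 4 * (2 : ℝ) ^ k / lev n k ≤ 11280 * (4 ^ k / n) := by
      have h44 : (4 : ℝ) ^ k = 2 ^ k * 2 ^ k := by rw [← mul_pow]; norm_num
      rw [h44, ← mul_div_assoc, div_le_div_iff₀ hl hn0]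
      have h8 : (0 : ℝ) ≤ 4 * 2 ^ k := by positivity
      calc 4 * (2 : ℝ) ^ k * n ≤ 4 * 2 ^ k * (lev n k * (2820 * 2 ^ k)) :=
            mul_le_mul_of_nonneg_left h2 h8
        _ = 11280 * (2 ^ k * 2 ^ k) * lev n k := by ring
    have h6 : (4 * (2 : ℝ) ^ k / lev n k) ^ (101 / 200 : ℝ) ≤
        11280 * (4 ^ k / n) ^ (101 / 200 : ℝ) := by
      calc (4 * (2 : ℝ) ^ k / lev n k) ^ (101 / 200 : ℝ)
          ≤ (11280 * (4 ^ k / n)) ^ (101 / 200 : ℝ) :=
            Real.rpow_le_rpow (by positivity) h5 (by norm_num)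
        _ = 11280 ^ (101 / 200 : ℝ) * (4 ^ k / n) ^ (101 / 200 : ℝ) := by
            rw [Real.mul_rpow (by norm_num) hX.le]
        _ ≤ 11280 * (4 ^ k / n) ^ (101 / 200 : ℝ) := by
            apply mul_le_mul_of_nonneg_right _ (by positivity)
            calc (11280 : ℝ) ^ (101 / 200 : ℝ) ≤ 11280 ^ (1 : ℝ) :=
                  Real.rpow_le_rpow_of_exponent_le (by norm_num) (by norm_num)
              _ = 11280 := Real.rpow_one _
    have h7 : C * (4 * (2 : ℝ) ^ k / lev n k) ^ (101 / 200 : ℝ) ≤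
        C * (11280 * (4 ^ k / n) ^ (101 / 200 : ℝ)) := mul_le_mul_of_nonneg_left h6 hC.le
    have h8 : 0 ≤ 1410 * (4 ^ k / n : ℝ) ^ (101 / 200 : ℝ) := by positivity
    rw [add_mul]
    linarith

theorem pointwise (hD : Stmt_DICH2) (n K : ℕ) {t : ℝ} (ht : t ∈ Icc (1 / 2 : ℝ) 1) :
    FCC.L n t ≤ 10 / 2 ^ K + ∑ k ∈ Finset.range (K + 1),
      20 / 2 ^ k * (Bad n k).indicator (1 : ℝ → ℝ) t := by
  classical
  have ht0 : 0 ≤ t := by linarith [ht.1]
  have hnn : ∀ k ∈ Finset.range (K + 1),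
      0 ≤ 20 / 2 ^ k * (Bad n k).indicator (1 : ℝ → ℝ) t := fun k _ =>
    mul_nonneg (by positivity) (indicator_nonneg (fun _ _ => zero_le_one) _)
  by_cases h : ∃ k, k ≤ K ∧ t ∈ Bad n k
  · have h1 := Nat.find_spec h
    have h2 : ∀ j, j < Nat.find h → ¬ (j ≤ K ∧ t ∈ Bad n j) := fun j hj => Nat.find_min h hj
    set k := Nat.find h with hk
    have h3 : 20 / 2 ^ k * (Bad n k).indicator (1 : ℝ → ℝ) t ≤
        ∑ k ∈ Finset.range (K + 1), 20 / 2 ^ k * (Bad n k).indicator (1 : ℝ → ℝ) t :=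
      Finset.single_le_sum hnn (Finset.mem_range.2 (by omega))
    rw [indicator_of_mem h1.2, Pi.one_apply, mul_one] at h3
    have h4 : FCC.L n t ≤ 20 / 2 ^ k := by
      rcases Nat.eq_zero_or_pos k with h0 | hpos
      · rw [h0, pow_zero]
        have := FCC.L_le n ht0
        linarith [ht.2]
      · have h5 : t ∉ Bad n (k - 1) := fun hc => h2 (k - 1) (by omega) ⟨by omega, hc⟩
        have h6 := good hD n (k - 1) ht h5
        have h7 : (2 : ℝ) ^ k = 2 ^ (k - 1) * 2 := by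
          rw [← pow_succ]; congr 1; omega
        rw [h7]
        have h8 : (0 : ℝ) < 2 ^ (k - 1) := by positivity
        calc FCC.L n t ≤ 10 / 2 ^ (k - 1) := h6
          _ = 20 / (2 ^ (k - 1) * 2) := by field_simp; norm_num
    have h9 : (0 : ℝ) ≤ 10 / 2 ^ K := by positivity
    linarith
  · have h1 : t ∉ Bad n K := fun hc => h ⟨K, le_refl K, hc⟩
    have h2 := good hD n K ht h1
    have h3 := Finset.sum_nonneg hnn
    linarith

theorem integrableOn_L (n : ℕ) : IntegrableOn (FCC.L n) (Icc (1 / 2 : ℝ) 1) := by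
  apply Measure.integrableOn_of_bounded (M := 2)
  · rw [Real.volume_Icc]; exact ENNReal.ofReal_ne_top
  · exact (FCC.measurable_L n).aestronglyMeasurable
  · rw [ae_restrict_iff' measurableSet_Icc]
    refine Filter.Eventually.of_forall fun t ht => ?_
    have ht0 : 0 ≤ t := by linarith [ht.1]
    rw [Real.norm_eq_abs, abs_of_nonneg (FCC.L_nonneg n t)]
    linarith [FCC.L_le n ht0, ht.2]

theorem integrableOn_ind (n k : ℕ) :
    IntegrableOn ((Bad n k).indicator (1 : ℝ → ℝ)) (Icc (1 / 2 : ℝ) 1) := by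
  apply Measure.integrableOn_of_bounded (M := 1)
  · rw [Real.volume_Icc]; exact ENNReal.ofReal_ne_top
  · exact ((measurable_one).indicator (measurableSet_Bad n k)).aestronglyMeasurable
  · refine Filter.Eventually.of_forall fun t => ?_
    by_cases h : t ∈ Bad n k
    · rw [indicator_of_mem h]; simp
    · rw [indicator_of_notMem h]; simp

theorem integral_le (hD : Stmt_DICH2) (n K : ℕ) :
    ∫ t in (1 / 2 : ℝ)..1, FCC.L n t ≤ 10 / 2 ^ K + ∑ k ∈ Finset.range (K + 1),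
      20 / 2 ^ k * (volume (Bad n k)).toReal := by
  rw [intervalIntegral.integral_of_le (by norm_num), ← integral_Icc_eq_integral_Ioc]
  have hi : ∀ k ∈ Finset.range (K + 1), Integrable
      (fun t => 20 / 2 ^ k * (Bad n k).indicator (1 : ℝ → ℝ) t)
      (volume.restrict (Icc (1 / 2 : ℝ) 1)) := fun k _ => (integrableOn_ind n k).const_mul _
  have hs : IntegrableOn (fun t => ∑ k ∈ Finset.range (K + 1),
      20 / 2 ^ k * (Bad n k).indicator (1 : ℝ → ℝ) t) (Icc (1 / 2 : ℝ) 1) :=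
    integrable_finsetSum _ hi
  have hc : IntegrableOn (fun _ : ℝ => (10 / 2 ^ K : ℝ)) (Icc (1 / 2 : ℝ) 1) :=
    integrableOn_const (by rw [Real.volume_Icc]; exact ENNReal.ofReal_ne_top)
  calc ∫ t in Icc (1 / 2 : ℝ) 1, FCC.L n t
      ≤ ∫ t in Icc (1 / 2 : ℝ) 1, (10 / 2 ^ K + ∑ k ∈ Finset.range (K + 1),
          20 / 2 ^ k * (Bad n k).indicator (1 : ℝ → ℝ) t) :=
        setIntegral_mono_on (integrableOn_L n) (hc.add hs) measurableSet_Icc
          fun t ht => pointwise hD n K ht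
    _ = (∫ _ in Icc (1 / 2 : ℝ) 1, (10 / 2 ^ K : ℝ)) + ∑ k ∈ Finset.range (K + 1),
          20 / 2 ^ k * ∫ t in Icc (1 / 2 : ℝ) 1, (Bad n k).indicator (1 : ℝ → ℝ) t := by
        rw [integral_add hc hs, integral_finsetSum _ hi]
        congr 1
        exact Finset.sum_congr rfl fun k _ => integral_const_mul _ _
    _ ≤ _ := by
        apply add_le_add
        · rw [setIntegral_const]
          have h1 : volume.real (Icc (1 / 2 : ℝ) 1) = 1 / 2 := by
            rw [Measure.real, Real.volume_Icc, ENNReal.toReal_ofReal (by norm_num)]; norm_num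
          rw [h1, smul_eq_mul]
          have h2 : (0 : ℝ) ≤ 10 / 2 ^ K := by positivity
          linarith
        · apply Finset.sum_le_sum
          intro k _
          apply mul_le_mul_of_nonneg_left _ (by positivity)
          rw [integral_indicator_one (measurableSet_Bad n k), Measure.real]
          apply ENNReal.toReal_mono
          · exact ne_top_of_le_ne_top (b := volume (Icc (1 / 2 : ℝ) 1))
              (by rw [Real.volume_Icc]; exact ENNReal.ofReal_ne_top)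
              (measure_mono fun t ht => ht.1)
          · exact Measure.restrict_apply_le _ _

end INT2

open INT2 in
theorem INT2_thm : Stmt_INT2 := by
  intro hT hD
  obtain ⟨C, hC, hCB⟩ := vol_Bad hT
  set q : ℝ := 2 ^ (1 / 100 : ℝ) with hq
  have hq0 : 0 < q := by positivity
  have hq1 : 1 < q := Real.one_lt_rpow (by norm_num) (by norm_num)
  have hq2 : (4 : ℝ) ^ (101 / 200 : ℝ) = 2 * q := by
    rw [hq, show (4 : ℝ) = 2 ^ (2 : ℝ) by norm_num, ← Real.rpow_mul (by norm_num)]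
    rw [show (2 : ℝ) * 2 ^ (1 / 100 : ℝ) = 2 ^ (1 : ℝ) * 2 ^ (1 / 100 : ℝ) by
      rw [Real.rpow_one], ← Real.rpow_add (by norm_num)]
    norm_num
  have hq3 : 0 < q - 1 := by linarith
  refine ⟨20 + 20 * C * (q / (q - 1)), by positivity, fun n hn => ?_⟩
  have hn0 : (0 : ℝ) < n := by exact_mod_cast hn
  have hn1 : (1 : ℝ) ≤ n := by exact_mod_cast hn
  set K := Nat.log 4 n with hK
  have hK1 : (4 : ℝ) ^ K ≤ n := by
    have := Nat.pow_log_le_self 4 (show n ≠ 0 by omega)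
    exact_mod_cast this
  have hK2 : (n : ℝ) ≤ 4 ^ (K + 1) := by
    have := Nat.lt_pow_succ_log_self (show 1 < 4 by norm_num) n
    exact_mod_cast this.le
  have hs0 : 0 < √(n : ℝ) := Real.sqrt_pos.2 hn0
  have hK3 : √(n : ℝ) ≤ 2 ^ (K + 1) := by
    rw [Real.sqrt_le_left (by positivity), ← pow_mul, mul_comm, pow_mul]
    norm_num
    exact hK2
  have hK4 : (2 : ℝ) ^ K ≤ √(n : ℝ) := by
    apply Real.le_sqrt_of_sq_le
    rw [← pow_mul, mul_comm, pow_mul]
    norm_num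
    exact hK1
  refine (integral_le hD n K).trans ?_
  have h1 : (10 : ℝ) / 2 ^ K ≤ 20 / √n := by
    rw [div_le_div_iff₀ (by positivity) hs0]
    rw [pow_succ] at hK3
    linarith
  have h2 : ∀ k ∈ Finset.range (K + 1), 20 / 2 ^ k * (volume (Bad n k)).toReal ≤
      20 * C * (n : ℝ) ^ (-(101 / 200) : ℝ) * q ^ k := by
    intro k _
    have h3 := hCB n k hn
    have h4 : ((4 : ℝ) ^ k / n) ^ (101 / 200 : ℝ) =
        2 ^ k * q ^ k * (n : ℝ) ^ (-(101 / 200) : ℝ) := by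
      rw [Real.div_rpow (by positivity) hn0.le, Real.rpow_neg hn0.le, div_eq_mul_inv]
      congr 1
      have h5 : ((4 : ℝ) ^ k) ^ (101 / 200 : ℝ) = (4 ^ (101 / 200 : ℝ)) ^ k := by
        rw [← Real.rpow_natCast, ← Real.rpow_natCast, ← Real.rpow_mul (by norm_num),
          ← Real.rpow_mul (by norm_num), mul_comm]
      rw [h5, hq2, mul_pow]
    rw [h4] at h3
    calc 20 / 2 ^ k * (volume (Bad n k)).toReal
        ≤ 20 / 2 ^ k * (C * (2 ^ k * q ^ k * (n : ℝ) ^ (-(101 / 200) : ℝ))) :=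
          mul_le_mul_of_nonneg_left h3 (by positivity)
      _ = 20 * C * (n : ℝ) ^ (-(101 / 200) : ℝ) * q ^ k := by
          have : (2 : ℝ) ^ k ≠ 0 := by positivity
          field_simp
  have h3 : ∑ k ∈ Finset.range (K + 1), 20 / 2 ^ k * (volume (Bad n k)).toReal ≤
      20 * C * (q / (q - 1)) / √n := by
    refine (Finset.sum_le_sum h2).trans ?_
    rw [← Finset.mul_sum, geom_sum_eq hq1.ne']
    have h4 : (q ^ (K + 1) - 1) / (q - 1) ≤ q / (q - 1) * q ^ K := by
      rw [pow_succ, div_mul_eq_mul_div]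
      apply div_le_div_of_nonneg_right _ hq3.le
      linarith
    have h5 : q ^ K ≤ (n : ℝ) ^ (1 / 200 : ℝ) := by
      have h6 : q ^ K = (2 ^ K : ℝ) ^ (1 / 100 : ℝ) := by
        rw [hq, ← Real.rpow_natCast, ← Real.rpow_natCast, ← Real.rpow_mul (by norm_num),
          ← Real.rpow_mul (by norm_num), mul_comm]
      rw [h6]
      calc (2 ^ K : ℝ) ^ (1 / 100 : ℝ) ≤ (√(n : ℝ)) ^ (1 / 100 : ℝ) :=
            Real.rpow_le_rpow (by positivity) hK4 (by norm_num)
        _ = (n : ℝ) ^ (1 / 200 : ℝ) := by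
            rw [Real.sqrt_eq_rpow, ← Real.rpow_mul hn0.le]
            norm_num
    have h7 : (n : ℝ) ^ (-(101 / 200) : ℝ) * (n : ℝ) ^ (1 / 200 : ℝ) = 1 / √n := by
      have h8 : (1 : ℝ) / √n = (n : ℝ) ^ (-(1 / 2) : ℝ) := by
        rw [Real.sqrt_eq_rpow, Real.rpow_neg hn0.le, inv_eq_one_div]
      rw [← Real.rpow_add hn0, h8]
      norm_num
    calc 20 * C * (n : ℝ) ^ (-(101 / 200) : ℝ) * ((q ^ (K + 1) - 1) / (q - 1))
        ≤ 20 * C * (n : ℝ) ^ (-(101 / 200) : ℝ) * (q / (q - 1) * (n : ℝ) ^ (1 / 200 : ℝ)) := by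
          apply mul_le_mul_of_nonneg_left _ (by positivity)
          exact h4.trans (mul_le_mul_of_nonneg_left h5 (by positivity))
      _ = 20 * C * (q / (q - 1)) * ((n : ℝ) ^ (-(101 / 200) : ℝ) * (n : ℝ) ^ (1 / 200 : ℝ)) := by
          ring
      _ = 20 * C * (q / (q - 1)) / √n := by rw [h7]; ring
  calc 10 / 2 ^ K + ∑ k ∈ Finset.range (K + 1), 20 / 2 ^ k * (volume (Bad n k)).toReal
      ≤ 20 / √n + 20 * C * (q / (q - 1)) / √n := add_le_add h1 h3
    _ = (20 + 20 * C * (q / (q - 1))) / √n := by ring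

end Pool.Agent.FCQ
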