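import Pool.Agent.FCQ.Stmts

/-!
# Four corner Cantor sets, the exponent one half: LOCB   (helper12)
-/

set_option autoImplicit false

namespace Pool.Agent.FCQ

open MeasureTheory Set Filter Topology

namespace LOCB

theorem digit_pos {t y : ℝ} (ht : 1 / 2 ≤ t) (h0 : 0 ≤ y) (hy : y ≤ 4 * (9 / 10 + t)) :
    ∃ a b : Fin 3, (|y - dv a - t * dv b| ≤ 3 * t / 2 ∨ |y - dv a - t * dv b| ≤ 6 / 10 + t) ∧
      (|-y - dv (2 - a) - t * dv (2 - b)| ≤ 3 * t / 2 ∨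
        |-y - dv (2 - a) - t * dv (2 - b)| ≤ 6 / 10 + t) := by
  have e0 : (2 : Fin 3) - 0 = 2 := rfl
  have e1 : (2 : Fin 3) - 1 = 1 := rfl
  have e2 : (2 : Fin 3) - 2 = 0 := rfl
  by_cases h1 : y ≤ 3 * t / 2
  · refine ⟨1, 1, Or.inl ?_, Or.inl ?_⟩
    · rw [dv_one, abs_le]; constructor <;> linarith
    · rw [e1, dv_one, abs_le]; constructor <;> linarith
  · rw [not_le] at h1
    by_cases h2 : y ≤ 9 * t / 2
    · refine ⟨1, 2, Or.inl ?_, Or.inl ?_⟩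
      · rw [dv_one, dv_two, abs_le]; constructor <;> linarith
      · rw [e1, e2, dv_one, dv_zero, abs_le]; constructor <;> linarith
    · rw [not_le] at h2
      by_cases h3 : y ≤ 3 + 3 * t / 2
      · refine ⟨2, 1, Or.inl ?_, Or.inl ?_⟩
        · rw [dv_one, dv_two, abs_le]; constructor <;> linarith
        · rw [e1, e2, dv_one, dv_zero, abs_le]; constructor <;> linarith
      · rw [not_le] at h3
        by_cases h4 : y ≤ 3 + 3 * t
        · refine ⟨2, 2, Or.inl ?_, Or.inl ?_⟩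
          · rw [dv_two, abs_le]; constructor <;> linarith
          · rw [e2, dv_zero, abs_le]; constructor <;> linarith
        · rw [not_le] at h4
          refine ⟨2, 2, Or.inr ?_, Or.inr ?_⟩
          · rw [dv_two, abs_le]; constructor <;> linarith
          · rw [e2, dv_zero, abs_le]; constructor <;> linarith

theorem digit {t x : ℝ} (ht : 1 / 2 ≤ t) (hx : |x| ≤ 9 / 10 + t) :
    ∃ a b : Fin 3, |4 * x - dv a - t * dv b| ≤ 3 * t / 2 ∨
      |4 * x - dv a - t * dv b| ≤ 6 / 10 + t := by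
  rcases le_total 0 x with h | h
  · rw [abs_of_nonneg h] at hx
    obtain ⟨a, b, h1, -⟩ := digit_pos (t := t) (y := 4 * x) ht (by linarith) (by linarith)
    exact ⟨a, b, h1⟩
  · rw [abs_of_nonpos h] at hx
    obtain ⟨a, b, -, h1⟩ := digit_pos (t := t) (y := -(4 * x)) ht (by linarith) (by linarith)
    rw [neg_neg] at h1
    exact ⟨2 - a, 2 - b, h1⟩

theorem Phi_pos {b y : ℝ} (hb : 1 ≤ b) (hy : |y| < b) : 0 < Phi b y := by
  unfold Phi
  refine Real.smoothTransition.pos_of_pos ?_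
  refine div_pos ?_ (Phi_den hb)
  have h1 := abs_nonneg y
  have h2 : |y| ^ 2 < b ^ 2 := by nlinarith
  rw [sq_abs] at h2
  linarith

theorem iter_pos {b t : ℝ} (h : Rg b t) (n : ℕ) :
    ∀ x, |x| ≤ 9 / 10 + t → 0 < (T t)^[n + 1] (Phi b) x := by
  obtain ⟨hb1, -, -, ht1, ht2⟩ := Rg_le h
  have hb : 1 ≤ b := by linarith
  have hge : ∀ (φ : ℝ → ℝ), (∀ y, 0 ≤ φ y) → ∀ (x : ℝ) (a c : Fin 3),
      0 < φ (4 * x - dv a - t * dv c) → 0 < T t φ x := by
    intro φ h0 x a c hpos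
    exact lt_of_lt_of_le (mul_pos (mul_pos (wt_pos a) (wt_pos c)) hpos) (T_ge h0 t x a c)
  induction n with
  | zero =>
    intro x hx
    rw [iter_succ']
    obtain ⟨a, c, hac⟩ := digit ht1 hx
    refine hge _ (iter_nonneg (Phi_nonneg b) t 0) x a c ?_
    refine Phi_pos hb ?_
    rcases h with ⟨rfl, h1, h2⟩ | ⟨rfl, h1, h2⟩ <;> rcases hac with h3 | h3 <;> linarith
  | succ n ih =>
    intro x hx
    rw [iter_succ']
    obtain ⟨a, c, hac⟩ := digit ht1 hx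
    refine hge _ (iter_nonneg (Phi_nonneg b) t (n + 1)) x a c (ih _ ?_)
    rcases hac with h3 | h3 <;> linarith

theorem E_pos {b : ℝ} {i j n0 : ℕ} {u v K G : ℝ} (D : Dat b i j n0 u v K G) {n : ℕ} (hn : 1 ≤ n)
    {t : ℝ} (ht : t ∈ Icc u v) : 0 < E b i n t := by
  obtain ⟨m, rfl⟩ : ∃ m, n = m + 1 := ⟨n - 1, by omega⟩
  exact iter_pos (D.rg t ht) m _ ((D.blk t ht).trans (by linarith))

theorem pw1 (x : ENNReal) : (x ^ (-(2 : ℝ))) ^ (101 / 400 : ℝ) = x ^ (-(101 / 200) : ℝ) := by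
  rw [← ENNReal.rpow_mul]; norm_num

theorem pw3 (x : ENNReal) : (x ^ (-(2 : ℝ))) ^ (299 / 800 : ℝ) = x ^ (-(299 / 400) : ℝ) := by
  rw [← ENNReal.rpow_mul]; norm_num

theorem pw2 (d : ℝ) : ENNReal.ofReal (d ^ 2) ^ (299 / 800 : ℝ) =
    ENNReal.ofReal |d| ^ (299 / 400 : ℝ) := by
  have h : ENNReal.ofReal (d ^ 2) = ENNReal.ofReal |d| ^ (2 : ℝ) := by
    rw [← sq_abs, ENNReal.ofReal_pow (abs_nonneg d)]
    norm_cast
  rw [h, ← ENNReal.rpow_mul]; norm_num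

/-- the constants -/
theorem consts {C q M M' c2 c3 : ℝ} (hq : 0 < q) (hC : 0 < C) (h2 : c2 ≤ C) (h3 : c3 ≤ C)
    (h20 : 0 < c2) (h30 : 0 < c3) (hM' : 0 < M') (hM : M' ≤ M) :
    (c2 / q * M) ^ (101 / 400 : ℝ) * (c3 / q) ^ (299 / 800 : ℝ) * (c2 / q * M') ^ (299 / 800 : ℝ) ≤
      C / q * M ^ (501 / 800 : ℝ) := by
  have hM0 : 0 < M := lt_of_lt_of_le hM' hM
  have hCq : 0 < C / q := div_pos hC hq
  have e1 : c2 / q ≤ C / q := div_le_div_of_nonneg_right h2 hq.le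
  have e3 : c3 / q ≤ C / q := div_le_div_of_nonneg_right h3 hq.le
  have p2 : 0 < c2 / q := div_pos h20 hq
  have p3 : 0 < c3 / q := div_pos h30 hq
  calc (c2 / q * M) ^ (101 / 400 : ℝ) * (c3 / q) ^ (299 / 800 : ℝ) *
        (c2 / q * M') ^ (299 / 800 : ℝ)
      ≤ (C / q * M) ^ (101 / 400 : ℝ) * (C / q) ^ (299 / 800 : ℝ) *
        (C / q * M) ^ (299 / 800 : ℝ) := by
        gcongr
    _ = (C / q) ^ (101 / 400 : ℝ) * M ^ (101 / 400 : ℝ) * (C / q) ^ (299 / 800 : ℝ) *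
        ((C / q) ^ (299 / 800 : ℝ) * M ^ (299 / 800 : ℝ)) := by
        rw [Real.mul_rpow hCq.le hM0.le, Real.mul_rpow hCq.le hM0.le]
    _ = ((C / q) ^ (101 / 400 : ℝ) * (C / q) ^ (299 / 800 : ℝ) * (C / q) ^ (299 / 800 : ℝ)) *
        (M ^ (101 / 400 : ℝ) * M ^ (299 / 800 : ℝ)) := by ring
    _ = C / q * M ^ (501 / 800 : ℝ) := by
        rw [← Real.rpow_add hCq, ← Real.rpow_add hCq, ← Real.rpow_add hM0]
        norm_num

end LOCB

theorem LOCB_thm (hW2 : Stmt_W2) (hW3 : Stmt_W3) (_hF : Stmt_FINX) : Stmt_LOCB := by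
  obtain ⟨c2, hc2, hW2⟩ := hW2
  obtain ⟨c3, hc3, hW3⟩ := hW3
  refine ⟨max c2 c3, lt_max_of_lt_left hc2, ?_⟩
  intro b i j n0 u v K G hD n r t0 hr hrn ht0
  have hE : 0 < E b i n t0 := LOCB.E_pos hD (by omega) ht0
  set ε := E b i n t0 with hε
  set q : ℝ := 4 ^ (n + i) with hq
  have hq0 : 0 < q := by positivity
  set Λ := ∫⁻ τ in Icc (t0 - 1 / 4 ^ r) (t0 + 1 / 4 ^ r), Nr b r τ with hΛ
  have hK : 0 < K := lt_of_lt_of_le one_pos hD.hK
  have hG : 1 ≤ G := hD.hG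
  have hG0 : 0 < G := lt_of_lt_of_le one_pos hG
  have e0 : ENNReal.ofReal ε ≠ 0 := (ENNReal.ofReal_pos.2 hE).ne'
  have e1 : ENNReal.ofReal ε ≠ ⊤ := ENNReal.ofReal_ne_top
  -- the three integrals
  have i1 := hW2 b i j n0 u v K G hD n (r + 1) t0 (by omega) hrn ht0
  have i3 := hW2 b i j n0 u v K G hD n r t0 hr (by omega) ht0
  have i2 := hW3 b i j n0 u v K G hD n r t0 (by omega) (by omega) ht0
  rw [← add_assoc] at i1
  -- Hölder
  let f : Fin 3 → ℝ → ENNReal := ![fun t => ENNReal.ofReal (E b i (n + r + 1) t) ^ (-(2 : ℝ)),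
    fun t => ENNReal.ofReal ((E b i (n + r + 1) t - E b i (n + r) t) ^ 2),
    fun t => ENNReal.ofReal (E b i (n + r) t) ^ (-(2 : ℝ))]
  let p : Fin 3 → ℝ := ![101 / 400, 299 / 800, 299 / 800]
  have hm1 := measurable_E b i (n + r + 1)
  have hm0 := measurable_E b i (n + r)
  have hH := ENNReal.lintegral_prod_norm_pow_le (μ := volume.restrict (Iw u v t0 (ell (n + i))))
    (Finset.univ : Finset (Fin 3)) (f := f) (p := p)
    (fun k _ => by
      fin_cases k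
      · exact (hm1.ennreal_ofReal.pow_const _).aemeasurable
      · exact ((hm1.sub hm0).pow_const 2).ennreal_ofReal.aemeasurable
      · exact (hm0.ennreal_ofReal.pow_const _).aemeasurable)
    (by
      rw [Fin.sum_univ_three]
      show (101 / 400 : ℝ) + 299 / 800 + 299 / 800 = 1
      norm_num)
    (fun k _ => by
      fin_cases k
      · show (0 : ℝ) ≤ 101 / 400
        norm_num
      · show (0 : ℝ) ≤ 299 / 800
        norm_num
      · show (0 : ℝ) ≤ 299 / 800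
        norm_num)
  simp only [Fin.prod_univ_three] at hH
  have hL : ∀ t, f 0 t ^ p 0 * f 1 t ^ p 1 * f 2 t ^ p 2 =
      (ENNReal.ofReal (E b i (n + r + 1) t)) ^ (-(101 / 200) : ℝ) *
        (ENNReal.ofReal |E b i (n + r + 1) t - E b i (n + r) t|) ^ (299 / 400 : ℝ) *
        (ENNReal.ofReal (E b i (n + r) t)) ^ (-(299 / 400) : ℝ) := by
    intro t
    show (ENNReal.ofReal (E b i (n + r + 1) t) ^ (-(2 : ℝ))) ^ (101 / 400 : ℝ) *
      ENNReal.ofReal ((E b i (n + r + 1) t - E b i (n + r) t) ^ 2) ^ (299 / 800 : ℝ) *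
      (ENNReal.ofReal (E b i (n + r) t) ^ (-(2 : ℝ))) ^ (299 / 800 : ℝ) = _
    rw [LOCB.pw1, LOCB.pw2, LOCB.pw3]
  simp only [hL] at hH
  refine hH.trans ?_
  -- the factors
  set M := K * G ^ (r + 1) with hM
  set M' := K * G ^ r with hM'
  have hM'0 : 0 < M' := by positivity
  have hMM : M' ≤ M := by
    rw [hM, hM']
    exact mul_le_mul_of_nonneg_left (pow_le_pow_right₀ hG (Nat.le_succ r)) hK.le
  have hM0 : 0 < M := lt_of_lt_of_le hM'0 hMM
  have g1 : (∫⁻ t in Iw u v t0 (ell (n + i)), f 0 t) ^ p 0 ≤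
      ENNReal.ofReal ((c2 / q * M) ^ (101 / 400 : ℝ)) *
        ENNReal.ofReal ε ^ (-(101 / 200) : ℝ) := by
    have h1 := ENNReal.rpow_le_rpow (z := (101 / 400 : ℝ)) i1 (by norm_num)
    rw [ENNReal.mul_rpow_of_nonneg _ _ (by norm_num), LOCB.pw1,
      ENNReal.ofReal_rpow_of_nonneg (by positivity) (by norm_num)] at h1
    exact h1
  have g3 : (∫⁻ t in Iw u v t0 (ell (n + i)), f 2 t) ^ p 2 ≤
      ENNReal.ofReal ((c2 / q * M') ^ (299 / 800 : ℝ)) *
        ENNReal.ofReal ε ^ (-(299 / 400) : ℝ) := by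
    have h1 := ENNReal.rpow_le_rpow (z := (299 / 800 : ℝ)) i3 (by norm_num)
    rw [ENNReal.mul_rpow_of_nonneg _ _ (by norm_num), LOCB.pw3,
      ENNReal.ofReal_rpow_of_nonneg (by positivity) (by norm_num)] at h1
    exact h1
  have g2 : (∫⁻ t in Iw u v t0 (ell (n + i)), f 1 t) ^ p 1 ≤
      ENNReal.ofReal ((c3 / q) ^ (299 / 800 : ℝ)) * ENNReal.ofReal ε ^ (299 / 400 : ℝ) *
        (ENNReal.ofReal (4 ^ r) * Λ) ^ (299 / 800 : ℝ) := by
    have h1 := ENNReal.rpow_le_rpow (z := (299 / 800 : ℝ)) i2 (by norm_num)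
    have h2 : ENNReal.ofReal (c3 / q * ε ^ 2 * 4 ^ r) * Λ =
        ENNReal.ofReal (c3 / q) * ENNReal.ofReal (ε ^ 2) * (ENNReal.ofReal (4 ^ r) * Λ) := by
      rw [ENNReal.ofReal_mul (by positivity), ENNReal.ofReal_mul (by positivity)]
      ring
    rw [h2, ENNReal.mul_rpow_of_nonneg _ _ (by norm_num),
      ENNReal.mul_rpow_of_nonneg _ _ (by norm_num), LOCB.pw2, abs_of_pos hE,
      ENNReal.ofReal_rpow_of_nonneg (by positivity) (by norm_num)] at h1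
    exact h1
  refine (mul_le_mul' (mul_le_mul' g1 g2) g3).trans ?_
  have hcancel : ENNReal.ofReal ε ^ (299 / 400 : ℝ) * ENNReal.ofReal ε ^ (-(299 / 400) : ℝ) = 1 := by
    rw [← ENNReal.rpow_add _ _ e0 e1]
    norm_num
  have hre : ENNReal.ofReal ((c2 / q * M) ^ (101 / 400 : ℝ)) *
        ENNReal.ofReal ε ^ (-(101 / 200) : ℝ) *
      (ENNReal.ofReal ((c3 / q) ^ (299 / 800 : ℝ)) * ENNReal.ofReal ε ^ (299 / 400 : ℝ) *
        (ENNReal.ofReal (4 ^ r) * Λ) ^ (299 / 800 : ℝ)) *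
      (ENNReal.ofReal ((c2 / q * M') ^ (299 / 800 : ℝ)) *
        ENNReal.ofReal ε ^ (-(299 / 400) : ℝ)) =
      (ENNReal.ofReal ((c2 / q * M) ^ (101 / 400 : ℝ)) *
        ENNReal.ofReal ((c3 / q) ^ (299 / 800 : ℝ)) *
        ENNReal.ofReal ((c2 / q * M') ^ (299 / 800 : ℝ))) *
      ENNReal.ofReal ε ^ (-(101 / 200) : ℝ) *
      (ENNReal.ofReal (4 ^ r) * Λ) ^ (299 / 800 : ℝ) *
      (ENNReal.ofReal ε ^ (299 / 400 : ℝ) * ENNReal.ofReal ε ^ (-(299 / 400) : ℝ)) := by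
    ring
  rw [hre, hcancel, mul_one, ← ENNReal.ofReal_mul (by positivity),
    ← ENNReal.ofReal_mul (by positivity)]
  refine mul_le_mul' (mul_le_mul' (ENNReal.ofReal_le_ofReal ?_) le_rfl) le_rfl
  exact LOCB.consts hq0 (lt_max_of_lt_left hc2) (le_max_left _ _) (le_max_right _ _) hc2 hc3
    hM'0 hMM

end Pool.Agent.FCQ
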