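import Pool.Agent.FCQ.Stmts

/-!
# Four corner Cantor sets, the exponent one half: LOWJ
-/

set_option autoImplicit false

namespace Pool.Agent.FCQ

open MeasureTheory Set

namespace LOWJ

/-- One step with the three digits of sum zero. -/
theorem one {t c s : ℝ} (ht : t ≤ 1) {φ : ℝ → ℝ} (h0 : ∀ y, 0 ≤ φ y)
    (h : ∀ y, |y| ≤ 4 * s + 3 * (1 - t) → c ≤ φ y) (x : ℝ) (hx : |x| ≤ s) :
    3 / 2 * c ≤ T t φ x := by
  rw [T_apply]
  rw [abs_le] at hx
  have h1 := h (4 * x + 3 - 3 * t) (by rw [abs_le]; constructor <;> linarith)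
  have h2 := h (4 * x) (by rw [abs_le]; constructor <;> linarith)
  have h3 := h (4 * x - 3 + 3 * t) (by rw [abs_le]; constructor <;> linarith)
  have a1 := h0 (4 * x + 3 + 3 * t)
  have a2 := h0 (4 * x + 3)
  have a3 := h0 (4 * x + 3 * t)
  have a4 := h0 (4 * x - 3 * t)
  have a5 := h0 (4 * x - 3)
  have a6 := h0 (4 * x - 3 - 3 * t)
  linarith

/-- `k` steps. -/
theorem many {t : ℝ} (ht : t ≤ 1) (k : ℕ) : ∀ (c : ℝ) (φ : ℝ → ℝ), (∀ y, 0 ≤ φ y) →
    (∀ y, |y| ≤ (4 ^ (k + 1) - 1) * (1 - t) → c ≤ φ y) →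
    ∀ x, |x| ≤ 3 * (1 - t) → (3 / 2) ^ k * c ≤ (T t)^[k] φ x := by
  induction k with
  | zero =>
    intro c φ _ h x hx
    rw [pow_zero, one_mul]
    refine h x (hx.trans (le_of_eq ?_))
    norm_num
  | succ k ih =>
    intro c φ h0 h x hx
    rw [iter_succ, pow_succ, mul_assoc]
    refine ih (3 / 2 * c) (T t φ) (fun y => T_nonneg h0 t y) ?_ x hx
    intro y hy
    refine one ht h0 ?_ y hy
    intro z hz
    refine h z (hz.trans (le_of_eq ?_))
    ring

/-- The bound for the points of level `k`. -/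
theorem lvl {t : ℝ} {j k : ℕ} (hk : k + 1 ≤ j) (h : 1 - 1 / (2 * 4 ^ j) ≤ t) (ht : t ≤ 1) :
    (4 ^ (k + 1) - 1) * (1 - t) ≤ 1 / 2 := by
  have h4 : (0 : ℝ) < 4 ^ j := by positivity
  have h1 : (4 : ℝ) ^ (k + 1) ≤ 4 ^ j := pow_le_pow_right₀ (by norm_num) hk
  have h2 : 1 - t ≤ 1 / (2 * 4 ^ j) := by linarith
  calc (4 ^ (k + 1) - 1) * (1 - t) ≤ 4 ^ j * (1 - t) :=
        mul_le_mul_of_nonneg_right (by linarith) (by linarith)
    _ ≤ 4 ^ j * (1 / (2 * 4 ^ j)) := mul_le_mul_of_nonneg_left h2 h4.le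
    _ = 1 / 2 := by field_simp

theorem main (hcov : Stmt_COV) (j n : ℕ) (t : ℝ) (hj : 1 ≤ j) (hn : n ≤ j + 1)
    (h : 1 - 1 / (2 * 4 ^ j) ≤ t) (ht : t ≤ 1) :
    (3 / 2) ^ n / 36 ≤ E (169 / 100) 0 n t := by
  have h4 : (4 : ℝ) ≤ 4 ^ j := by
    calc (4 : ℝ) = 4 ^ 1 := by norm_num
      _ ≤ 4 ^ j := pow_le_pow_right₀ (by norm_num) hj
  have h78 : 7 / 8 ≤ t := by
    have : 1 / (2 * 4 ^ j) ≤ (1 : ℝ) / 8 :=
      one_div_le_one_div_of_le (by norm_num) (by linarith)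
    linarith
  have hR : Rg (169 / 100) t := Or.inr ⟨rfl, by linarith, ht⟩
  obtain ⟨c1, c2, -⟩ := hcov _ _ hR
  have hx : |rho 0 t| ≤ 3 * (1 - t) := by
    rw [rho_zero, abs_of_nonneg (by linarith)]
    linarith
  have hb : (1 : ℝ) ≤ 169 / 100 := by norm_num
  unfold E
  have hpos : ∀ y, 0 ≤ Phi (169 / 100) y := Phi_nonneg _
  rcases Nat.lt_or_ge n j with hlt | hge
  · -- `n ≤ j - 1`
    have h1 := many ht n 1 (Phi (169 / 100)) hpos (fun y hy => by
      rw [Phi_eq_one hb]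
      have := hy.trans (lvl hlt h ht)
      linarith) (rho 0 t) hx
    have h2 : (0 : ℝ) < (3 / 2) ^ n := by positivity
    linarith
  · obtain ⟨k, rfl⟩ := Nat.exists_eq_add_of_le' hj
    have hk : k + 1 ≤ k + 1 := le_rfl
    have h2 : (0 : ℝ) < (3 / 2) ^ k := by positivity
    rcases Nat.eq_or_lt_of_le hge with heq | hgt
    · subst heq
      have h1 := many ht k (1 / 4) (T t (Phi (169 / 100))) (fun y => T_nonneg hpos t y)
        (fun y hy => by
          have hy' := hy.trans (lvl hk h ht)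
          exact (c1 y (by linarith)).trans (T_mono (chi_le_Phi hb) t y)) (rho 0 t) hx
      rw [iter_succ, pow_succ]
      linarith
    · have : n = k + 2 := by omega
      subst this
      have h1 := many ht k (1 / 16) ((T t)^[2] (Phi (169 / 100)))
        (fun y => iter_nonneg hpos t 2 y)
        (fun y hy => by
          have hy' := hy.trans (lvl hk h ht)
          exact (c2 y (by linarith)).trans (iter_mono (chi_le_Phi hb) t 2 y)) (rho 0 t) hx
      rw [iter_add_apply, pow_add]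
      linarith

end LOWJ

theorem LOWJ_thm : Stmt_COV → Stmt_LOWJ := LOWJ.main

end Pool.Agent.FCQ
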