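import Pool.Agent.FCQ.Stmts

/-!
# Module MIDF: the middle family
-/

set_option autoImplicit false

namespace Pool.Agent.FCQ

open MeasureTheory Set

namespace MIDF

/-- The decay rate of the error terms. -/
noncomputable def kap : ℝ := (131 / 100 : ℝ) ^ (602 / 800 : ℝ) * (9 / 16 : ℝ) ^ (299 / 800 : ℝ)

theorem kap_pos : 0 < kap := by unfold kap; positivity

theorem kap_lt_one : kap < 1 := by
  have h : kap ^ 800 < 1 := by
    unfold kap
    rw [mul_pow, ← Real.rpow_natCast, ← Real.rpow_natCast, ← Real.rpow_mul (by norm_num),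
      ← Real.rpow_mul (by norm_num)]
    have e1 : (602 / 800 : ℝ) * ((800 : ℕ) : ℝ) = ((602 : ℕ) : ℝ) := by norm_num
    have e2 : (299 / 800 : ℝ) * ((800 : ℕ) : ℝ) = ((299 : ℕ) : ℝ) := by norm_num
    rw [e1, e2, Real.rpow_natCast, Real.rpow_natCast]
    have e3 : (131 / 100 : ℝ) ^ 602 * (9 / 16) ^ 299 =
        (154449 / 160000) ^ 40 * (131 / 100) ^ 4 * (154449 / 160000) ^ 259 := by
      have e4 : (154449 / 160000 : ℝ) = (131 / 100) ^ 2 * (9 / 16) := by norm_num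
      have e9 : ∀ a b : ℝ, a ^ 602 * b ^ 299 = (a ^ 2 * b) ^ 40 * a ^ 4 * (a ^ 2 * b) ^ 259 := by
        intro a b
        ring
      rw [e4]
      exact e9 _ _
    have e5 : (154449 / 160000 : ℝ) ^ 40 * (131 / 100) ^ 4 < 1 := by norm_num
    have e6 : (154449 / 160000 : ℝ) ^ 259 ≤ 1 := pow_le_one₀ (by norm_num) (by norm_num)
    have e7 : (0 : ℝ) ≤ (154449 / 160000 : ℝ) ^ 40 * (131 / 100) ^ 4 := by positivity
    have e8 : (0 : ℝ) < (154449 / 160000 : ℝ) ^ 259 := by positivity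
    rw [e3]
    calc (154449 / 160000 : ℝ) ^ 40 * (131 / 100) ^ 4 * (154449 / 160000) ^ 259 ≤
        (154449 / 160000 : ℝ) ^ 40 * (131 / 100) ^ 4 * 1 :=
          mul_le_mul_of_nonneg_left e6 e7
      _ < 1 := by rw [mul_one]; exact e5
  by_contra hcon
  push Not at hcon
  have := one_le_pow₀ hcon (n := 800)
  linarith

/-- The square root of the rate. -/
noncomputable def rr : ℝ := Real.sqrt kap

theorem rr_pos : 0 < rr := Real.sqrt_pos.mpr kap_pos

theorem rr_lt_one : rr < 1 := by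
  unfold rr
  rw [Real.sqrt_lt' (by norm_num)]
  simpa using kap_lt_one

theorem rr_sq : rr ^ 2 = kap := Real.sq_sqrt kap_pos.le

theorem summ_eps (p : ℕ) : Summable (fun m : ℕ => ((m : ℝ) + 2) ^ p * rr ^ m) := by
  have h := summable_pow_mul_geometric_of_norm_lt_one (R := ℝ) p (r := rr)
    (by rw [Real.norm_eq_abs, abs_of_pos rr_pos]; exact rr_lt_one)
  have h2 := (summable_nat_add_iff 2).mpr h
  have h3 := h2.mul_left (rr ^ 2)⁻¹
  refine h3.congr fun m => ?_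
  have hr : rr ^ 2 ≠ 0 := (pow_pos rr_pos 2).ne'
  push_cast
  calc (rr ^ 2)⁻¹ * (((m : ℝ) + 2) ^ p * rr ^ (m + 2)) =
      ((m : ℝ) + 2) ^ p * rr ^ m * ((rr ^ 2)⁻¹ * rr ^ 2) := by rw [pow_add]; ring
    _ = ((m : ℝ) + 2) ^ p * rr ^ m := by rw [inv_mul_cancel₀ hr, mul_one]

theorem summ_d : Summable (fun m : ℕ => 2 / ((m : ℝ) + 1) ^ 2) := by
  have h : Summable (fun n : ℕ => 1 / (n : ℝ) ^ 2) :=
    Real.summable_one_div_nat_pow.mpr (by norm_num)
  have h2 := ((summable_nat_add_iff 1).mpr h).mul_left 2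
  refine h2.congr fun m => ?_
  push_cast
  ring

theorem rpow_le_self' {x a : ℝ} (hx : 1 ≤ x) (ha : a ≤ 1) : x ^ a ≤ x := by
  calc x ^ a ≤ x ^ (1 : ℝ) := Real.rpow_le_rpow_of_exponent_le hx ha
    _ = x := Real.rpow_one x

/-- The geometric factors. -/
theorem geo (N : ℕ) : ((131 / 100 : ℝ) ^ N) ^ (501 / 800 : ℝ) *
    ((9 / 16 : ℝ) ^ N) ^ (299 / 800 : ℝ) * ((131 / 100 : ℝ) ^ N) ^ (101 / 800 : ℝ) = kap ^ N := by
  unfold kap
  rw [mul_pow, Real.rpow_pow_comm (by norm_num), Real.rpow_pow_comm (by norm_num)]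
  have h : ((131 / 100 : ℝ) ^ N) ^ (602 / 800 : ℝ) =
      ((131 / 100 : ℝ) ^ N) ^ (501 / 800 : ℝ) * ((131 / 100 : ℝ) ^ N) ^ (101 / 800 : ℝ) := by
    rw [← Real.rpow_add (by positivity)]
    norm_num
  rw [h]
  ring

end MIDF

open MIDF in
theorem MIDF_thm : Stmt_REC3 → Stmt_GRO → Stmt_SEQ → Stmt_FINX → Stmt_MIDF := by
  rintro ⟨A, hA, hrec⟩ ⟨A', hA', hgro⟩ hseq hfin K hK
  -- the power of two above `A' K`
  obtain ⟨p, hp⟩ := pow_unbounded_of_one_lt (A' * K) (by norm_num : (1 : ℝ) < 2)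
  set ε : ℕ → ℝ := fun m => 32 * A * K * (((m : ℝ) + 2) ^ (p + 2) * rr ^ m) with hε
  set d : ℕ → ℝ := fun m => 2 / ((m : ℝ) + 1) ^ 2 with hd
  have hε0 : ∀ m, 0 ≤ ε m := by
    intro m
    have := rr_pos
    simp only [hε]
    positivity
  have hd0 : ∀ m, 0 ≤ d m := by
    intro m
    simp only [hd]
    positivity
  have hεs : Summable ε := (summ_eps (p + 2)).mul_left _
  have hds : Summable d := summ_d
  set S : ℝ := ∑' m, ε m with hS
  set D : ℝ := ∑' m, d m with hD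
  have hS0 : 0 ≤ S := tsum_nonneg hε0
  refine ⟨512 + 2 * Real.exp D * (512 + 512 * S) + (Real.exp D * S) ^ 2, by positivity, ?_⟩
  intro b u v hdat m hm
  have hfinx := hfin b 0 0 1 u v K (131 / 100) hdat
  have hvu : v - u ≤ 2 := by
    have := hdat.len'
    simpa using this
  have hY0 : ∀ n, 0 ≤ Xr b 0 u v (101 / 200) n := fun n => ENNReal.toReal_nonneg
  have hX0 : ∀ n, 0 ≤ Xr b 0 u v 2 n := fun n => ENNReal.toReal_nonneg
  have hX1 : Xr b 0 u v 2 1 ≤ 32 := by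
    have := (hfinx 1 le_rfl).2.2.2.2.1
    nlinarith
  have hsmall : ∀ n, 1 ≤ n → n ≤ 4 → Xr b 0 u v (101 / 200) n ≤ 512 := by
    intro n h1 h4
    have h := (hfinx n h1).2.2.2.1
    have h5 : (4 : ℝ) ^ n ≤ 4 ^ 4 := pow_le_pow_right₀ (by norm_num) h4
    calc _ ≤ 2 * (4 : ℝ) ^ n := h
      _ ≤ 2 * 4 ^ 4 := by linarith
      _ = 512 := by norm_num
  have hX2 : ∀ N : ℕ, 1 ≤ N → Xr b 0 u v 2 N ≤
      (2 * (N : ℝ)) ^ p * 32 * (131 / 100) ^ N := by
    intro N hN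
    have hl1 : N ≤ 2 ^ Nat.clog 2 N * 1 := by
      rw [mul_one]
      exact Nat.le_pow_clog (by norm_num) N
    have hl2 : (2 : ℝ) ^ Nat.clog 2 N ≤ 2 * N := by
      rcases Nat.lt_or_ge 1 N with h | h
      · have := Nat.pow_pred_clog_lt_self (by norm_num : 1 < 2) h
        have h3 : 0 < Nat.clog 2 N := Nat.clog_pos (by norm_num) h
        have h4 : 2 ^ Nat.clog 2 N = 2 * 2 ^ (Nat.clog 2 N).pred := by
          conv_lhs => rw [← Nat.succ_pred_eq_of_pos h3]
          rw [pow_succ']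
        have h5 : 2 ^ Nat.clog 2 N ≤ 2 * N := by
          rw [h4]
          omega
        exact_mod_cast h5
      · have h1 : N = 1 := by omega
        subst h1
        simp
    have h1 := hgro b 0 0 1 u v K (131 / 100) hdat (Nat.clog 2 N) N hN hl1
    have h2 : (A' * K) ^ Nat.clog 2 N ≤ (2 * (N : ℝ)) ^ p := by
      calc (A' * K) ^ Nat.clog 2 N ≤ ((2 : ℝ) ^ p) ^ Nat.clog 2 N :=
            pow_le_pow_left₀ (by positivity) hp.le _
        _ = ((2 : ℝ) ^ Nat.clog 2 N) ^ p := by rw [← pow_mul, ← pow_mul, mul_comm]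
        _ ≤ (2 * (N : ℝ)) ^ p := pow_le_pow_left₀ (by positivity) hl2 _
    have h3 : ((131 : ℝ) / 100) ^ (N - 1) ≤ (131 / 100) ^ N :=
      pow_le_pow_right₀ (by norm_num) (Nat.sub_le _ _)
    calc Xr b 0 u v 2 N ≤ (A' * K) ^ Nat.clog 2 N * (131 / 100) ^ (N - 1) * Xr b 0 u v 2 1 := h1
      _ ≤ (2 * (N : ℝ)) ^ p * (131 / 100) ^ N * 32 := by
          refine mul_le_mul (mul_le_mul h2 h3 (by positivity) (by positivity)) hX1 (hX0 1)
            (by positivity)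
      _ = _ := by ring
  -- the recursion
  have hstep : ∀ m : ℕ, 4 ≤ m → Xr b 0 u v (101 / 200) (m + 1) ≤
      (1 + d m) * Xr b 0 u v (101 / 200) m +
        ε m * Xr b 0 u v (101 / 200) ((m + 2) / 2) ^ (1 / 2 : ℝ) := by
    intro m hm4
    have h := hrec b 0 0 1 u v K (131 / 100) hdat m (by omega)
    set N := (m + 2) / 2 with hN
    have hN1 : 1 ≤ N := by omega
    have hNr : (1 : ℝ) ≤ N := by exact_mod_cast hN1
    have h2N : m + 1 ≤ 2 * N := by omega
    have h2N' : 2 * N ≤ m + 2 := by omega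
    have h2Nr : 2 * (N : ℝ) ≤ m + 2 := by exact_mod_cast h2N'
    refine h.trans ?_
    have e1 : (1 + 2 / ((m : ℝ) + 1) ^ 2) * Xr b 0 u v (101 / 200) m =
        (1 + d m) * Xr b 0 u v (101 / 200) m := rfl
    rw [e1]
    have hb1 : (K * (131 / 100 : ℝ) ^ N) ^ (501 / 800 : ℝ) ≤
        K * ((131 / 100 : ℝ) ^ N) ^ (501 / 800 : ℝ) := by
      rw [Real.mul_rpow (by positivity) (by positivity)]
      exact mul_le_mul_of_nonneg_right (rpow_le_self' hK (by norm_num)) (by positivity)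
    have hb2 : ((2 / 3 : ℝ) ^ 0 * (9 / 16) ^ N) ^ (299 / 800 : ℝ) =
        ((9 / 16 : ℝ) ^ N) ^ (299 / 800 : ℝ) := by rw [pow_zero, one_mul]
    have hb3 : Xr b 0 u v 2 N ^ (101 / 800 : ℝ) ≤
        (2 * (N : ℝ)) ^ p * 32 * ((131 / 100 : ℝ) ^ N) ^ (101 / 800 : ℝ) := by
      calc Xr b 0 u v 2 N ^ (101 / 800 : ℝ) ≤
          ((2 * (N : ℝ)) ^ p * 32 * (131 / 100) ^ N) ^ (101 / 800 : ℝ) :=
            Real.rpow_le_rpow (hX0 N) (hX2 N hN1) (by norm_num)
        _ = ((2 * (N : ℝ)) ^ p * 32) ^ (101 / 800 : ℝ) *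
            ((131 / 100 : ℝ) ^ N) ^ (101 / 800 : ℝ) :=
            Real.mul_rpow (by positivity) (by positivity)
        _ ≤ _ := by
            refine mul_le_mul_of_nonneg_right (rpow_le_self' ?_ (by norm_num)) (by positivity)
            have : (1 : ℝ) ≤ (2 * (N : ℝ)) ^ p := one_le_pow₀ (by linarith)
            linarith
    have hYN : 0 ≤ Xr b 0 u v (101 / 200) N ^ (1 / 2 : ℝ) := Real.rpow_nonneg (hY0 N) _
    have hrr := rr_pos
    have hkN : kap ^ N ≤ rr ^ m := by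
      rw [← rr_sq, ← pow_mul]
      exact pow_le_pow_of_le_one rr_pos.le rr_lt_one.le (by omega)
    have hpoly : ((m : ℝ) + 1) ^ 2 * (2 * (N : ℝ)) ^ p ≤ ((m : ℝ) + 2) ^ (p + 2) := by
      calc ((m : ℝ) + 1) ^ 2 * (2 * (N : ℝ)) ^ p ≤ ((m : ℝ) + 2) ^ 2 * ((m : ℝ) + 2) ^ p := by
            refine mul_le_mul (pow_le_pow_left₀ (by positivity) (by linarith) _)
              (pow_le_pow_left₀ (by positivity) h2Nr _) (by positivity) (by positivity)
        _ = ((m : ℝ) + 2) ^ (p + 2) := by ring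
    have hmain : A * ((m : ℝ) + 1) ^ 2 * (K * (131 / 100 : ℝ) ^ N) ^ (501 / 800 : ℝ) *
        ((2 / 3 : ℝ) ^ 0 * (9 / 16) ^ N) ^ (299 / 800 : ℝ) *
        Xr b 0 u v (101 / 200) N ^ (1 / 2 : ℝ) * Xr b 0 u v 2 N ^ (101 / 800 : ℝ) ≤
        ε m * Xr b 0 u v (101 / 200) N ^ (1 / 2 : ℝ) := by
      rw [hb2]
      calc A * ((m : ℝ) + 1) ^ 2 * (K * (131 / 100 : ℝ) ^ N) ^ (501 / 800 : ℝ) *
          ((9 / 16 : ℝ) ^ N) ^ (299 / 800 : ℝ) *
          Xr b 0 u v (101 / 200) N ^ (1 / 2 : ℝ) * Xr b 0 u v 2 N ^ (101 / 800 : ℝ) ≤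
          A * ((m : ℝ) + 1) ^ 2 * (K * ((131 / 100 : ℝ) ^ N) ^ (501 / 800 : ℝ)) *
          ((9 / 16 : ℝ) ^ N) ^ (299 / 800 : ℝ) *
          Xr b 0 u v (101 / 200) N ^ (1 / 2 : ℝ) *
          ((2 * (N : ℝ)) ^ p * 32 * ((131 / 100 : ℝ) ^ N) ^ (101 / 800 : ℝ)) := by
            have hA0 : 0 ≤ A := by linarith
            refine mul_le_mul ?_ hb3 (Real.rpow_nonneg (hX0 N) _) (by positivity)
            refine mul_le_mul_of_nonneg_right ?_ hYN
            refine mul_le_mul_of_nonneg_right ?_ (by positivity)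
            exact mul_le_mul_of_nonneg_left hb1 (by positivity)
        _ = 32 * A * K * (((m : ℝ) + 1) ^ 2 * (2 * (N : ℝ)) ^ p) *
            (((131 / 100 : ℝ) ^ N) ^ (501 / 800 : ℝ) *
              ((9 / 16 : ℝ) ^ N) ^ (299 / 800 : ℝ) *
              ((131 / 100 : ℝ) ^ N) ^ (101 / 800 : ℝ)) *
            Xr b 0 u v (101 / 200) N ^ (1 / 2 : ℝ) := by ring
        _ = 32 * A * K * (((m : ℝ) + 1) ^ 2 * (2 * (N : ℝ)) ^ p) * kap ^ N *
            Xr b 0 u v (101 / 200) N ^ (1 / 2 : ℝ) := by rw [geo]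
        _ ≤ 32 * A * K * ((m : ℝ) + 2) ^ (p + 2) * rr ^ m *
            Xr b 0 u v (101 / 200) N ^ (1 / 2 : ℝ) := by
            have hA0 : 0 ≤ A := by linarith
            have hk0 := kap_pos
            refine mul_le_mul_of_nonneg_right ?_ hYN
            refine mul_le_mul ?_ hkN (by positivity) (by positivity)
            exact mul_le_mul_of_nonneg_left hpoly (by positivity)
        _ = ε m * Xr b 0 u v (101 / 200) N ^ (1 / 2 : ℝ) := by
            simp only [hε]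
            ring
    linarith
  rcases Nat.lt_or_ge m 4 with hm4 | hm4
  · have h := hsmall m hm hm4.le
    have h1 : 0 ≤ 2 * Real.exp D * (512 + 512 * S) + (Real.exp D * S) ^ 2 := by positivity
    linarith
  have hfinal := hseq (fun n => Xr b 0 u v (101 / 200) n) d ε (fun m => 512 * ε m) 4 D 512 S
    (512 * S) hY0 hd0 hε0 (fun n => by have := hε0 n; positivity)
    (fun n => hds.sum_le_tsum _ (fun i _ => hd0 i))
    (fun n => hεs.sum_le_tsum _ (fun i _ => hε0 i))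
    (fun n => by
      rw [← Finset.mul_sum]
      exact mul_le_mul_of_nonneg_left (hεs.sum_le_tsum _ (fun i _ => hε0 i)) (by norm_num))
    (hsmall 4 (by norm_num) le_rfl)
    (by
      intro m hm z hz
      have hz0 : 0 ≤ z := (hY0 4).trans (hz 4 le_rfl hm)
      have h := hstep m hm
      rcases Nat.lt_or_ge ((m + 2) / 2) 4 with hN | hN
      · have h1 := hsmall ((m + 2) / 2) (by omega) hN.le
        have h2 : Xr b 0 u v (101 / 200) ((m + 2) / 2) ^ (1 / 2 : ℝ) ≤ 512 :=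
          (Real.rpow_le_rpow (hY0 _) h1 (by norm_num)).trans
            (rpow_le_self' (by norm_num) (by norm_num))
        have h3 := mul_le_mul_of_nonneg_left h2 (hε0 m)
        have h4 : 0 ≤ ε m * z ^ (1 / 2 : ℝ) := mul_nonneg (hε0 m) (Real.rpow_nonneg hz0 _)
        linarith
      · have h1 := hz ((m + 2) / 2) hN (by omega)
        have h2 : Xr b 0 u v (101 / 200) ((m + 2) / 2) ^ (1 / 2 : ℝ) ≤ z ^ (1 / 2 : ℝ) :=
          Real.rpow_le_rpow (hY0 _) h1 (by norm_num)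
        have h3 := mul_le_mul_of_nonneg_left h2 (hε0 m)
        have h4 : 0 ≤ 512 * ε m := by have := hε0 m; positivity
        linarith)
    m hm4
  linarith

end Pool.Agent.FCQ
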