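import Pool.Agent.FCQ.Stmts

/-!
# Four corner Cantor sets, the exponent one half: module MOM
-/

set_option autoImplicit false

namespace Pool.Agent.FCQ

open MeasureTheory Set

namespace MOM

/-- The integrand. -/
noncomputable def F (m : ℕ) (t : ℝ) : ENNReal :=
  (ENNReal.ofReal ((T t)^[m] (tent t) (rho 0 t))) ^ (-(101 / 200) : ℝ)

theorem rpow_neg_anti {x y : ENNReal} (h : x ≤ y) {s : ℝ} (hs : 0 ≤ s) : y ^ (-s) ≤ x ^ (-s) := by
  rw [ENNReal.rpow_neg, ENNReal.rpow_neg]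
  exact ENNReal.inv_le_inv.2 (ENNReal.rpow_le_rpow h hs)

theorem scale {e E c s : ℝ} (hs : 0 ≤ s) (hc : 0 < c) (h : E / c ≤ e) :
    (ENNReal.ofReal e) ^ (-s) ≤ ENNReal.ofReal (c ^ s) * (ENNReal.ofReal E) ^ (-s) := by
  have h1 : ENNReal.ofReal E ≤ ENNReal.ofReal c * ENNReal.ofReal e := by
    rw [← ENNReal.ofReal_mul hc.le]
    apply ENNReal.ofReal_le_ofReal
    rw [div_le_iff₀ hc] at h
    linarith
  have h2 := rpow_neg_anti h1 hs
  rw [ENNReal.mul_rpow_of_ne_top ENNReal.ofReal_ne_top ENNReal.ofReal_ne_top] at h2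
  have h3 : ENNReal.ofReal (c ^ s) * ((ENNReal.ofReal c) ^ (-s)) = 1 := by
    rw [ENNReal.ofReal_rpow_of_pos hc, ← ENNReal.ofReal_mul (by positivity), ← Real.rpow_add hc,
      add_neg_cancel, Real.rpow_zero, ENNReal.ofReal_one]
  calc (ENNReal.ofReal e) ^ (-s)
      = ENNReal.ofReal (c ^ s) * ((ENNReal.ofReal c) ^ (-s)) * (ENNReal.ofReal e) ^ (-s) := by
        rw [h3, one_mul]
    _ = ENNReal.ofReal (c ^ s) * ((ENNReal.ofReal c) ^ (-s) * (ENNReal.ofReal e) ^ (-s)) := by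
        rw [mul_assoc]
    _ ≤ _ := by gcongr

/-- The bound over an interval from the moment. -/
theorem part {b u v : ℝ} {i n m : ℕ} {C : ℝ} (hm : m = n + i) (hED : Stmt_EDGE)
    (hrg : ∀ t ∈ Icc u v, Rg b t) (hfin : X b i u v (101 / 200) n ≠ ⊤)
    (hX : Xr b i u v (101 / 200) n ≤ C) :
    ∫⁻ t in Icc u v, F m t ≤ ENNReal.ofReal ((100 * 4 ^ i) ^ (101 / 200 : ℝ) * C) := by
  have hc : (0 : ℝ) < 100 * 4 ^ i := by positivity
  have h1 : ∀ t ∈ Icc u v, F m t ≤ ENNReal.ofReal ((100 * 4 ^ i) ^ (101 / 200 : ℝ)) *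
      (ENNReal.ofReal (E b i n t)) ^ (-(101 / 200) : ℝ) := by
    intro t ht
    have h2 := Rg_le (hrg t ht)
    have h3 := (hED t h2.2.2.2.1 h2.2.2.2.2).1 b i n (hrg t ht)
    rw [F, hm]
    exact scale (by norm_num) hc h3
  refine (setLIntegral_mono' measurableSet_Icc h1).trans ?_
  rw [lintegral_const_mul' _ _ ENNReal.ofReal_ne_top]
  have h4 : ∫⁻ t in Icc u v, (ENNReal.ofReal (E b i n t)) ^ (-(101 / 200) : ℝ) =
      ENNReal.ofReal (Xr b i u v (101 / 200) n) := by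
    rw [Xr, ENNReal.ofReal_toReal hfin]
    rfl
  rw [h4, ← ENNReal.ofReal_mul (by positivity)]
  exact ENNReal.ofReal_le_ofReal (mul_le_mul_of_nonneg_left hX (by positivity))

/-- The bound over an interval from a lower bound for the increments. -/
theorem low {u v δ : ℝ} {m : ℕ} (hδ : 0 < δ)
    (h : ∀ t ∈ Icc u v, δ ≤ (T t)^[m] (tent t) (rho 0 t)) :
    ∫⁻ t in Icc u v, F m t ≤ ENNReal.ofReal (δ ^ (-(101 / 200) : ℝ) * (v - u)) := by
  have h1 : ∀ t ∈ Icc u v, F m t ≤ ENNReal.ofReal (δ ^ (-(101 / 200) : ℝ)) := by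
    intro t ht
    rw [F, ← ENNReal.ofReal_rpow_of_pos hδ]
    exact rpow_neg_anti (ENNReal.ofReal_le_ofReal (h t ht)) (by norm_num)
  refine (setLIntegral_mono' measurableSet_Icc h1).trans ?_
  rw [lintegral_const, Measure.restrict_apply_univ, Real.volume_Icc,
    ENNReal.ofReal_mul (by positivity)]

/-! ### powers -/

theorem pow4 (i : ℕ) : (100 * (4 : ℝ) ^ i) ^ (101 / 200 : ℝ) ≤
    100 * 4 ^ ((i : ℝ) * (101 / 200)) := by
  rw [Real.mul_rpow (by norm_num) (by positivity)]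
  have h1 : (100 : ℝ) ^ (101 / 200 : ℝ) ≤ 100 := by
    have := Real.rpow_le_rpow_of_exponent_le (show (1 : ℝ) ≤ 100 by norm_num)
      (show (101 / 200 : ℝ) ≤ 1 by norm_num)
    rwa [Real.rpow_one] at this
  have h2 : ((4 : ℝ) ^ i) ^ (101 / 200 : ℝ) = 4 ^ ((i : ℝ) * (101 / 200)) := by
    rw [← Real.rpow_natCast, ← Real.rpow_mul (by norm_num)]
  rw [h2]
  exact mul_le_mul_of_nonneg_right h1 (by positivity)

theorem low4 (i : ℕ) : (3 / 10 / (4 : ℝ) ^ i) ^ (-(101 / 200) : ℝ) * (9 / 40 / 4 ^ i) ≤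
    Real.exp (-(i : ℝ) / 20) := by
  have h0 : (0 : ℝ) < 4 ^ i := by positivity
  have h1 : (3 / 10 / (4 : ℝ) ^ i) ^ (-(101 / 200) : ℝ) =
      (10 / 3 : ℝ) ^ (101 / 200 : ℝ) * (4 ^ i : ℝ) ^ (101 / 200 : ℝ) := by
    rw [Real.rpow_neg (by positivity), ← Real.inv_rpow (by positivity),
      ← Real.mul_rpow (by norm_num) h0.le]
    congr 1
    rw [inv_div]
    ring
  have h2 : (10 / 3 : ℝ) ^ (101 / 200 : ℝ) ≤ 10 / 3 := by
    have := Real.rpow_le_rpow_of_exponent_le (show (1 : ℝ) ≤ 10 / 3 by norm_num)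
      (show (101 / 200 : ℝ) ≤ 1 by norm_num)
    rwa [Real.rpow_one] at this
  have h3 : (4 ^ i : ℝ) ^ (101 / 200 : ℝ) / 4 ^ i ≤ Real.exp (-(i : ℝ) / 20) := by
    have e1 : (4 ^ i : ℝ) ^ (101 / 200 : ℝ) / 4 ^ i = (4 ^ i : ℝ) ^ (101 / 200 - 1 : ℝ) := by
      rw [Real.rpow_sub h0, Real.rpow_one]
    rw [e1, Real.rpow_def_of_pos h0, Real.log_pow]
    apply Real.exp_le_exp.2
    have e2 : (1 : ℝ) ≤ Real.log 4 := by
      have e3 := Real.log_two_gt_d9
      have e4 : Real.log 4 = 2 * Real.log 2 := by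
        rw [show (4 : ℝ) = 2 ^ 2 by norm_num, Real.log_pow]
        push_cast
        ring
      rw [e4]
      linarith
    have e5 : (0 : ℝ) ≤ i := Nat.cast_nonneg i
    nlinarith
  have h4 : (0 : ℝ) ≤ (4 ^ i : ℝ) ^ (101 / 200 : ℝ) / 4 ^ i := by positivity
  calc (3 / 10 / (4 : ℝ) ^ i) ^ (-(101 / 200) : ℝ) * (9 / 40 / 4 ^ i)
      = (10 / 3 : ℝ) ^ (101 / 200 : ℝ) * (9 / 40) * ((4 ^ i : ℝ) ^ (101 / 200 : ℝ) / 4 ^ i) := by
        rw [h1]
        ring
    _ ≤ (10 / 3) * (9 / 40) * ((4 ^ i : ℝ) ^ (101 / 200 : ℝ) / 4 ^ i) := by gcongr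
    _ ≤ 1 * ((4 ^ i : ℝ) ^ (101 / 200 : ℝ) / 4 ^ i) := by
        apply mul_le_mul_of_nonneg_right _ h4
        norm_num
    _ ≤ _ := by rw [one_mul]; exact h3

/-! ### covers -/

theorem cover_half {t : ℝ} (h1 : 1 / 2 < t) (h2 : t ≤ 23 / 40) :
    ∃ i : ℕ, t ∈ Icc (1 / 2 + 3 / 40 / (4 : ℝ) ^ (i + 1)) (1 / 2 + 3 / 10 / 4 ^ (i + 1)) := by
  obtain ⟨n, hn1, hn2⟩ := exists_nat_pow_near_of_lt_one (x := (t - 1 / 2) * (40 / 3))
    (y := (1 / 4 : ℝ)) (by nlinarith) (by linarith) (by norm_num) (by norm_num)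
  refine ⟨n, ?_, ?_⟩
  · have e1 : 3 / 40 / (4 : ℝ) ^ (n + 1) = 3 / 40 * (1 / 4) ^ (n + 1) := by
      rw [one_div_pow]
      ring
    rw [e1]
    linarith
  · have e1 : 3 / 10 / (4 : ℝ) ^ (n + 1) = 3 / 40 * (1 / 4) ^ n := by
      rw [one_div_pow, pow_succ]
      field_simp
      ring
    rw [e1]
    linarith

theorem tau_le {j : ℕ} {c t : ℝ} (hc : 0 ≤ c) (ht : 0 < 1 + t) (h : (1 - t) / (1 + t) ≤ c / 4 ^ j) :
    tau j c ≤ t := by
  have h0 : 0 ≤ c / 4 ^ j := by positivity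
  rw [tau, div_le_iff₀ (by linarith)]
  rw [div_le_iff₀ ht] at h
  linarith

theorem le_tau {j : ℕ} {c t : ℝ} (hc : 0 ≤ c) (ht : 0 < 1 + t) (h : c / 4 ^ j ≤ (1 - t) / (1 + t)) :
    t ≤ tau j c := by
  have h0 : 0 ≤ c / 4 ^ j := by positivity
  rw [tau, le_div_iff₀ (by linarith)]
  rw [le_div_iff₀ ht] at h
  linarith

theorem cover_one {t : ℝ} (h1 : 63 / 65 ≤ t) (h2 : t < 1) :
    ∃ j : ℕ, t ∈ Icc (tau (j + 2) (1 / 4)) (tau (j + 2) (1 / 16)) := by
  have ht : 0 < 1 + t := by linarith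
  have hq0 : 0 < (1 - t) / (1 + t) := div_pos (by linarith) ht
  have hq1 : (1 - t) / (1 + t) ≤ 1 / 64 := by
    rw [div_le_iff₀ ht]
    linarith
  obtain ⟨n, hn1, hn2⟩ := exists_nat_pow_near_of_lt_one (x := 64 * ((1 - t) / (1 + t)))
    (y := (1 / 4 : ℝ)) (by linarith) (by linarith) (by norm_num) (by norm_num)
  refine ⟨n, tau_le (by norm_num) ht ?_, le_tau (by norm_num) ht ?_⟩
  · have e1 : (1 / 4 : ℝ) / 4 ^ (n + 2) = 1 / 64 * (1 / 4) ^ n := by
      rw [one_div_pow, pow_add]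
      field_simp
      norm_num
    rw [e1]
    linarith
  · have e1 : (1 / 16 : ℝ) / 4 ^ (n + 2) = 1 / 64 * (1 / 4) ^ (n + 1) := by
      rw [one_div_pow, pow_add, pow_add]
      field_simp
      norm_num
    rw [e1]
    linarith

theorem tau_range {j : ℕ} {c : ℝ} (hc0 : 0 ≤ c) (hc : c ≤ 1 / 4) :
    1 - 1 / (2 * 4 ^ j) ≤ tau j c ∧ tau j c ≤ 1 := by
  have h4 : (0 : ℝ) < 4 ^ j := by positivity
  have h0 : 0 ≤ c / 4 ^ j := by positivity
  have h1 : c / 4 ^ j ≤ 1 / 4 / 4 ^ j := div_le_div_of_nonneg_right hc h4.le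
  constructor
  · have e1 : (1 : ℝ) / (2 * 4 ^ j) = 2 * (1 / 4 / 4 ^ j) := by
      field_simp
      norm_num
    rw [e1, tau, le_div_iff₀ (by linarith)]
    nlinarith [mul_nonneg h0 h0, mul_nonneg h0 (show (0 : ℝ) ≤ 1 / 4 / 4 ^ j by positivity)]
  · rw [tau, div_le_one (by linarith)]
    linarith

theorem union_Icc (f : ℝ → ENNReal) (x : ℕ → ℝ) (B : ℕ → ENNReal) (m : ℕ)
    (hB : ∀ k < m, ∫⁻ t in Icc (x (k + 1)) (x k), f t ≤ B k) :
    ∫⁻ t in Icc (x m) (x 0), f t ≤ ∑ k ∈ Finset.range m, B k := by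
  induction m with
  | zero =>
    have h : (volume : Measure ℝ) (Icc (x 0) (x 0)) = 0 := by
      rw [Icc_self]
      exact measure_singleton _
    rw [setLIntegral_measure_zero _ _ h]
    exact zero_le
  | succ m ih =>
    have h1 : Icc (x (m + 1)) (x 0) ⊆ Icc (x m) (x 0) ∪ Icc (x (m + 1)) (x m) := by
      intro t ht
      rcases le_total (x m) t with h | h
      · exact Or.inl ⟨h, ht.2⟩
      · exact Or.inr ⟨ht.1, h⟩
    refine (lintegral_mono_set h1).trans ((lintegral_union_le _ _ _).trans ?_)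
    rw [Finset.sum_range_succ]
    exact add_le_add (ih fun k hk => hB k (by omega)) (hB m (by omega))

/-- Summable bounds. -/
theorem exists_sum {A r : ℝ} (hA : 0 ≤ A) (hr : 0 < r) : ∃ S : ℝ, 0 ≤ S ∧
    ∑' i : ℕ, ENNReal.ofReal (A * Real.exp (-(((i : ℕ) : ℝ) * r))) ≤ ENNReal.ofReal S := by
  have h1 : ∀ i : ℕ, A * Real.exp (-(((i : ℕ) : ℝ) * r)) = A * Real.exp (-r) ^ i := by
    intro i
    rw [← Real.exp_nat_mul]
    congr 2
    ring
  have h2 : Summable fun i : ℕ => A * Real.exp (-(((i : ℕ) : ℝ) * r)) := by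
    simp only [h1]
    apply Summable.mul_left
    apply summable_geometric_of_lt_one (Real.exp_pos _).le
    rw [Real.exp_lt_one_iff]
    linarith
  refine ⟨∑' i : ℕ, A * Real.exp (-(((i : ℕ) : ℝ) * r)), tsum_nonneg fun i => by positivity, ?_⟩
  rw [ENNReal.ofReal_tsum_of_nonneg (fun i => by positivity) h2]

end MOM

open MOM in
theorem MOM_thm : Stmt_MOM := by
  intro hD hMID hHALF hONE hED hFIN
  obtain ⟨K, hK, hd1, hd2, hd3, M, a, g, gA, ha0, haM, hd4⟩ := hD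
  obtain ⟨C1, hC1, hM⟩ := hMID K hK
  obtain ⟨C2, hC2, hH⟩ := hHALF K hK
  obtain ⟨C3, hC3, hO⟩ := hONE K hK
  obtain ⟨S1, hS1, hS1b⟩ := exists_sum (A := 1 + 100 * C2) (r := 1 / 20) (by positivity)
    (by norm_num)
  obtain ⟨S2, hS2, hS2b⟩ := exists_sum (A := M * (100 * C3)) (r := 1 / 50) (by positivity)
    (by norm_num)
  refine ⟨S1 + (10 / 3 + 100 * C1 + 100 * C1 + S2) + 1, by positivity, fun m => ?_⟩
  change ∫⁻ t in Icc (1 / 2 : ℝ) 1, F m t ≤ _
  -- the half family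
  have hhalf : ∀ i : ℕ, ∫⁻ t in Icc (1 / 2 + 3 / 40 / (4 : ℝ) ^ (i + 1))
      (1 / 2 + 3 / 10 / 4 ^ (i + 1)), F m t ≤
      ENNReal.ofReal ((1 + 100 * C2) * Real.exp (-(((i : ℕ) : ℝ) * (1 / 20)))) := by
    intro i
    have hdi := hd3 (i + 1) (by omega)
    have hexp : Real.exp (-((i + 1 : ℕ) : ℝ) / 20) ≤ Real.exp (-(((i : ℕ) : ℝ) * (1 / 20))) := by
      apply Real.exp_le_exp.2
      push_cast
      linarith
    have he0 : 0 < Real.exp (-((i + 1 : ℕ) : ℝ) / 20) := Real.exp_pos _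
    by_cases hmi : m ≤ i + 1
    · have h1 := low (u := 1 / 2 + 3 / 40 / (4 : ℝ) ^ (i + 1)) (v := 1 / 2 + 3 / 10 / 4 ^ (i + 1))
        (δ := 3 / 10 / (4 : ℝ) ^ (i + 1)) (m := m) (by positivity) (by
          intro t ht
          have hr := Rg_le (hdi.rg t ht)
          have h2 := (hED t hr.2.2.2.1 hr.2.2.2.2).2 m (by
            unfold rho
            have e1 : (4 : ℝ) ^ m ≤ 4 ^ (i + 1) := pow_le_pow_right₀ (by norm_num) hmi
            have e2 : 4 * t - 2 ≤ 12 / 10 / 4 ^ (i + 1) := by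
              have := ht.2
              have e3 : (12 : ℝ) / 10 / 4 ^ (i + 1) = 4 * (3 / 10 / 4 ^ (i + 1)) := by ring
              rw [e3]
              linarith
            have e3 : (4 : ℝ) ^ m * (4 * t - 2) ≤ 4 ^ (i + 1) * (12 / 10 / 4 ^ (i + 1)) :=
              mul_le_mul e1 e2 (by linarith [hr.2.2.2.1]) (by positivity)
            have e4 : (4 : ℝ) ^ (i + 1) * (12 / 10 / 4 ^ (i + 1)) = 12 / 10 := by
              field_simp
            linarith [hr.2.2.2.1])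
          have h3 := ht.1
          have e3 : (3 : ℝ) / 10 / 4 ^ (i + 1) = 4 * (3 / 40 / 4 ^ (i + 1)) := by ring
          rw [e3]
          linarith)
      refine h1.trans (ENNReal.ofReal_le_ofReal ?_)
      have h2 := low4 (i + 1)
      have h3 : (1 / 2 + 3 / 10 / (4 : ℝ) ^ (i + 1)) - (1 / 2 + 3 / 40 / (4 : ℝ) ^ (i + 1)) =
          9 / 40 / 4 ^ (i + 1) := by ring
      rw [h3]
      nlinarith
    · obtain ⟨n, hn⟩ : ∃ n, m = n + (i + 1) := ⟨m - (i + 1), by omega⟩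
      have hn1 : 1 ≤ n := by omega
      have h1 := part hn hED hdi.rg (hFIN _ _ _ _ _ _ _ _ hdi n hn1).2.1
        (hH (i + 1) (by omega) hdi n hn1)
      refine h1.trans (ENNReal.ofReal_le_ofReal ?_)
      have h2 := pow4 (i + 1)
      have h4 : (0 : ℝ) < 4 ^ (((i + 1 : ℕ) : ℝ) * (101 / 200)) := by positivity
      calc (100 * (4 : ℝ) ^ (i + 1)) ^ (101 / 200 : ℝ) *
            (C2 * Real.exp (-((i + 1 : ℕ) : ℝ) / 20) / 4 ^ (((i + 1 : ℕ) : ℝ) * (101 / 200)))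
          ≤ (100 * 4 ^ (((i + 1 : ℕ) : ℝ) * (101 / 200))) *
            (C2 * Real.exp (-((i + 1 : ℕ) : ℝ) / 20) / 4 ^ (((i + 1 : ℕ) : ℝ) * (101 / 200))) :=
            mul_le_mul_of_nonneg_right h2 (by positivity)
        _ = 100 * C2 * Real.exp (-((i + 1 : ℕ) : ℝ) / 20) := by
            field_simp
        _ ≤ _ := by nlinarith [Real.exp_pos (-(((i : ℕ) : ℝ) * (1 / 20)))]
  have hpartA : ∫⁻ t in Icc (1 / 2 : ℝ) (23 / 40), F m t ≤ ENNReal.ofReal S1 := by
    have hsub : Icc (1 / 2 : ℝ) (23 / 40) ⊆ {(1 / 2 : ℝ)} ∪ ⋃ i : ℕ,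
        Icc (1 / 2 + 3 / 40 / (4 : ℝ) ^ (i + 1)) (1 / 2 + 3 / 10 / 4 ^ (i + 1)) := by
      intro t ht
      rcases eq_or_lt_of_le ht.1 with h | h
      · exact Or.inl h.symm
      · obtain ⟨i, hi⟩ := cover_half h ht.2
        exact Or.inr (mem_iUnion.2 ⟨i, hi⟩)
    refine (lintegral_mono_set hsub).trans ((lintegral_union_le _ _ _).trans ?_)
    rw [setLIntegral_measure_zero _ _ (measure_singleton _), zero_add]
    refine (lintegral_iUnion_le _ _).trans ?_
    exact (ENNReal.tsum_le_tsum hhalf).trans hS1b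
  have hpartB : ∫⁻ t in Icc (23 / 40 : ℝ) 1, F m t ≤
      ENNReal.ofReal (10 / 3 + 100 * C1 + 100 * C1 + S2) := by
    rcases Nat.eq_zero_or_pos m with hm | hm
    · have h1 := low (u := 23 / 40) (v := 1) (δ := 3 / 10) (m := m) (by norm_num) (by
        intro t ht
        have h2 := (hED t (by linarith [ht.1]) ht.2).2 m (by
          rw [hm]
          unfold rho
          linarith [ht.2])
        linarith [ht.1])
      refine h1.trans (ENNReal.ofReal_le_ofReal ?_)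
      have h2 : (3 / 10 : ℝ) ^ (-(101 / 200) : ℝ) ≤ 10 / 3 := by
        rw [Real.rpow_neg (by norm_num), ← Real.inv_rpow (by norm_num)]
        have := Real.rpow_le_rpow_of_exponent_le (show (1 : ℝ) ≤ 10 / 3 by norm_num)
          (show (101 / 200 : ℝ) ≤ 1 by norm_num)
        rw [Real.rpow_one] at this
        rwa [show ((3 : ℝ) / 10)⁻¹ = 10 / 3 by norm_num]
      have h3 : (0 : ℝ) ≤ (3 / 10 : ℝ) ^ (-(101 / 200) : ℝ) := by positivity
      nlinarith
    · have hsub : Icc (23 / 40 : ℝ) 1 ⊆ (Icc (23 / 40 : ℝ) (7 / 10) ∪ Icc (7 / 10 : ℝ) (63 / 65)) ∪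
          ({(1 : ℝ)} ∪ ⋃ j : ℕ, Icc (tau (j + 2) (1 / 4)) (tau (j + 2) (1 / 16))) := by
        intro t ht
        rcases le_total t (7 / 10) with h | h
        · exact Or.inl (Or.inl ⟨ht.1, h⟩)
        · rcases le_total t (63 / 65) with h' | h'
          · exact Or.inl (Or.inr ⟨h, h'⟩)
          · rcases eq_or_lt_of_le ht.2 with h'' | h''
            · exact Or.inr (Or.inl h'')
            · obtain ⟨j, hj⟩ := cover_one h' h''
              exact Or.inr (Or.inr (mem_iUnion.2 ⟨j, hj⟩))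
      have hpow0 : (100 * (4 : ℝ) ^ 0) ^ (101 / 200 : ℝ) ≤ 100 := by
        have := pow4 0
        rwa [Nat.cast_zero, zero_mul, Real.rpow_zero, mul_one] at this
      have hpw : (0 : ℝ) ≤ (100 * (4 : ℝ) ^ 0) ^ (101 / 200 : ℝ) := by positivity
      have q1 : ∫⁻ t in Icc (23 / 40 : ℝ) (7 / 10), F m t ≤ ENNReal.ofReal (100 * C1) := by
        refine (part (i := 0) (n := m) (by omega) hED hd1.rg (hFIN _ _ _ _ _ _ _ _ hd1 m hm).2.1
          (hM _ _ _ hd1 m hm)).trans (ENNReal.ofReal_le_ofReal ?_)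
        exact mul_le_mul_of_nonneg_right hpow0 hC1.le
      have q2 : ∫⁻ t in Icc (7 / 10 : ℝ) (63 / 65), F m t ≤ ENNReal.ofReal (100 * C1) := by
        refine (part (i := 0) (n := m) (by omega) hED hd2.rg (hFIN _ _ _ _ _ _ _ _ hd2 m hm).2.1
          (hM _ _ _ hd2 m hm)).trans (ENNReal.ofReal_le_ofReal ?_)
        exact mul_le_mul_of_nonneg_right hpow0 hC1.le
      have ha : ∀ k ≤ M, 0 ≤ a k ∧ a k ≤ 1 / 4 := by
        intro k hk
        rcases Nat.lt_or_ge k M with h | h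
        · have := hd4 k h
          exact ⟨by linarith [this.1], by linarith [this.2.1, this.2.2.1]⟩
        · have : k = M := le_antisymm hk h
          rw [this, haM]
          norm_num
      have q3 : ∀ j : ℕ, ∫⁻ t in Icc (tau (j + 2) (1 / 4)) (tau (j + 2) (1 / 16)), F m t ≤
          ENNReal.ofReal (M * (100 * C3) * Real.exp (-(((j : ℕ) : ℝ) * (1 / 50)))) := by
        intro j
        have hexp : Real.exp (-((j + 2 : ℕ) : ℝ) / 50) ≤
            Real.exp (-(((j : ℕ) : ℝ) * (1 / 50))) := by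
          apply Real.exp_le_exp.2
          push_cast
          linarith
        have h1 := union_Icc (F m) (fun k => tau (j + 2) (a k))
          (fun _ => ENNReal.ofReal (100 * C3 * Real.exp (-(((j : ℕ) : ℝ) * (1 / 50))))) M (by
            intro k hk
            obtain ⟨h1, h2, h3, h4, h5⟩ := hd4 k hk
            have hdj := h5 (j + 2) (by omega)
            have h6 := (tau_range (j := j + 2) (ha (k + 1) (by omega)).1
              (ha (k + 1) (by omega)).2).1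
            have h7 := (tau_range (j := j + 2) (ha k hk.le).1 (ha k hk.le).2).2
            have h8 := hO (j + 2) _ _ _ _ (by omega) h4 h6 h7 hdj m hm
            refine (part (i := 0) (n := m) (by omega) hED hdj.rg
              (hFIN _ _ _ _ _ _ _ _ hdj m hm).2.1 h8).trans (ENNReal.ofReal_le_ofReal ?_)
            calc (100 * (4 : ℝ) ^ 0) ^ (101 / 200 : ℝ) *
                  (C3 * Real.exp (-((j + 2 : ℕ) : ℝ) / 50))
                ≤ 100 * (C3 * Real.exp (-((j + 2 : ℕ) : ℝ) / 50)) :=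
                  mul_le_mul_of_nonneg_right hpow0 (by positivity)
              _ ≤ 100 * (C3 * Real.exp (-(((j : ℕ) : ℝ) * (1 / 50)))) := by gcongr
              _ = _ := by ring)
        rw [ha0, haM, Finset.sum_const, Finset.card_range, nsmul_eq_mul] at h1
        refine h1.trans (le_of_eq ?_)
        rw [← ENNReal.ofReal_natCast, ← ENNReal.ofReal_mul (by positivity)]
        congr 1
        ring
      have q4 : ∫⁻ t in ({(1 : ℝ)} ∪ ⋃ j : ℕ, Icc (tau (j + 2) (1 / 4)) (tau (j + 2) (1 / 16))),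
          F m t ≤ ENNReal.ofReal S2 := by
        refine (lintegral_union_le _ _ _).trans ?_
        rw [setLIntegral_measure_zero _ _ (measure_singleton _), zero_add]
        refine (lintegral_iUnion_le _ _).trans ?_
        exact (ENNReal.tsum_le_tsum q3).trans hS2b
      have q5 : ∫⁻ t in (Icc (23 / 40 : ℝ) (7 / 10) ∪ Icc (7 / 10 : ℝ) (63 / 65)), F m t ≤
          ENNReal.ofReal (100 * C1) + ENNReal.ofReal (100 * C1) :=
        (lintegral_union_le _ _ _).trans (add_le_add q1 q2)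
      refine (lintegral_mono_set hsub).trans ((lintegral_union_le _ _ _).trans ?_)
      refine (add_le_add q5 q4).trans ?_
      rw [← ENNReal.ofReal_add (by positivity) (by positivity),
        ← ENNReal.ofReal_add (by positivity) hS2]
      apply ENNReal.ofReal_le_ofReal
      linarith
  have hsub : Icc (1 / 2 : ℝ) 1 ⊆ Icc (1 / 2 : ℝ) (23 / 40) ∪ Icc (23 / 40 : ℝ) 1 := by
    intro t ht
    rcases le_total t (23 / 40) with h | h
    · exact Or.inl ⟨ht.1, h⟩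
    · exact Or.inr ⟨h, ht.2⟩
  refine (lintegral_mono_set hsub).trans ((lintegral_union_le _ _ _).trans ?_)
  refine (add_le_add hpartA hpartB).trans ?_
  rw [← ENNReal.ofReal_add hS1 (by positivity)]
  apply ENNReal.ofReal_le_ofReal
  linarith

end Pool.Agent.FCQ
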