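import Pool.Agent.FCQ.Stmts

/-!
# ONE1: small levels near `t = 1`
-/

set_option autoImplicit false

namespace Pool.Agent.FCQ

open MeasureTheory Set

namespace ONE1

theorem X_le {b : ℝ} {i n : ℕ} {u v a γ : ℝ} (ha : 0 < a) (hγ : 0 ≤ γ) (huv : u ≤ v)
    (h : ∀ t ∈ Icc u v, a ≤ E b i n t) : Xr b i u v γ n ≤ (v - u) * a ^ (-γ) := by
  unfold Xr X
  have h1 : ∫⁻ t in Icc u v, (ENNReal.ofReal (E b i n t)) ^ (-γ) ≤
      ENNReal.ofReal ((v - u) * a ^ (-γ)) := by
    calc ∫⁻ t in Icc u v, (ENNReal.ofReal (E b i n t)) ^ (-γ)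
        ≤ ∫⁻ _ in Icc u v, ENNReal.ofReal (a ^ (-γ)) := by
          refine setLIntegral_mono' measurableSet_Icc fun t ht => ?_
          rw [← ENNReal.ofReal_rpow_of_pos ha, ENNReal.rpow_neg, ENNReal.rpow_neg]
          exact ENNReal.inv_le_inv.2 (ENNReal.rpow_le_rpow (ENNReal.ofReal_le_ofReal (h t ht)) hγ)
      _ = ENNReal.ofReal ((v - u) * a ^ (-γ)) := by
          rw [setLIntegral_const, Real.volume_Icc, mul_comm, ← ENNReal.ofReal_mul (by linarith)]
  have := ENNReal.toReal_mono ENNReal.ofReal_ne_top h1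
  rwa [ENNReal.toReal_ofReal (mul_nonneg (by linarith) (Real.rpow_nonneg ha.le _))] at this

theorem Pr_facts {G GA : ℝ} (h : Pr G GA) : 1 ≤ G ∧ 1 ≤ GA / G := by
  rcases h with ⟨rfl, rfl⟩ | ⟨rfl, rfl⟩ | ⟨rfl, rfl⟩ | ⟨rfl, rfl⟩ <;> norm_num

theorem two_div_pow (j : ℕ) : (2 : ℝ) / 4 ^ j = Real.exp (Real.log 2 - j * Real.log 4) := by
  rw [Real.exp_sub, Real.exp_log (by norm_num), mul_comm, ← Real.rpow_def_of_pos (by norm_num),
    Real.rpow_natCast]

theorem pow_exp {x : ℝ} (hx : 0 < x) (n : ℕ) : x ^ n = Real.exp (n * Real.log x) := by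
  rw [mul_comm, ← Real.rpow_def_of_pos hx, Real.rpow_natCast]

end ONE1

open ONE1 in
theorem ONE1_thm (hLOWJ : Stmt_LOWJ) (hGRO : Stmt_GRO) (hFINX : Stmt_FINX) (hEXPO : Stmt_EXPO) :
    Stmt_ONE1 := by
  intro K0 hK0
  obtain ⟨A, hA, hGRO⟩ := hGRO
  have hA0 : 0 < A := by linarith
  have hK00 : 0 < K0 := by linarith
  refine ⟨Real.exp (Real.log 2 + 101 / 400 * (4 * Real.log A + 4 * Real.log K0 +
    2 * Real.log 36)) + 72, by positivity, ?_⟩
  intro j u v G GA hj hPr hu hv hD
  obtain ⟨hG, hq⟩ := Pr_facts hPr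
  have hG0 : 0 < G := by linarith
  have hq0 : 0 < GA / G := by linarith
  have hlG : 0 ≤ Real.log G := Real.log_nonneg hG
  have hl32 : 0 ≤ Real.log (3 / 2) := Real.log_nonneg (by norm_num)
  have huv : u ≤ v := by
    have h1 := hD.len
    have h2 : (0 : ℝ) < 1 / (256 * 4 ^ (j + 1 + 0)) := by positivity
    linarith
  have huv' : v - u ≤ 2 / 4 ^ j := hD.len'
  have hlow : ∀ n, n ≤ j + 1 → ∀ t ∈ Icc u v, (3 / 2 : ℝ) ^ n / 36 ≤ E (169 / 100) 0 n t := by
    intro n hn t ht
    exact hLOWJ j n t (by omega) hn (by linarith [ht.1]) (by linarith [ht.2])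
  -- the first part
  have hA1 : ∀ m : ℕ, j + 1 ≤ m → m ≤ 12 * j → Xr (169 / 100) 0 u v (101 / 200) m ≤
      Real.exp (Real.log 2 + 101 / 400 * (4 * Real.log A + 4 * Real.log K0 + 2 * Real.log 36)) *
        Real.exp (-(j * Real.log 4) + 101 / 400 * (-(2 * j * Real.log (3 / 2)) +
        4 * j * Real.log (GA / G) + ((m : ℝ) - j) * Real.log G)) := by
    intro m hm1 hm2
    have f1 := (hFINX (169 / 100) 0 j (j + 1) u v _ G hD m (by omega)).2.2.2.2.2
    have f2 := hGRO (169 / 100) 0 j (j + 1) u v _ G hD 4 m hm1 (by omega)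
    have f3 : Xr (169 / 100) 0 u v 2 (j + 1) ≤ Real.exp (Real.log 2 - j * Real.log 4 +
        2 * Real.log 36 - 2 * (j + 1) * Real.log (3 / 2)) := by
      refine (X_le (a := (3 / 2 : ℝ) ^ (j + 1) / 36) (by positivity) (by norm_num) huv
        (hlow (j + 1) le_rfl)).trans ?_
      have e1 : ((3 / 2 : ℝ) ^ (j + 1) / 36) ^ (-2 : ℝ) =
          Real.exp (2 * Real.log 36 - 2 * (j + 1) * Real.log (3 / 2)) := by
        rw [Real.rpow_def_of_pos (by positivity), Real.log_div (by positivity) (by norm_num),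
          Real.log_pow]
        congr 1
        push_cast
        ring
      rw [e1]
      calc (v - u) * Real.exp (2 * Real.log 36 - 2 * (j + 1) * Real.log (3 / 2))
          ≤ 2 / 4 ^ j * Real.exp (2 * Real.log 36 - 2 * (j + 1) * Real.log (3 / 2)) :=
            mul_le_mul_of_nonneg_right huv' (Real.exp_pos _).le
        _ = _ := by
            rw [two_div_pow, ← Real.exp_add]
            congr 1
            ring
    have f4 : (A * (K0 * (GA / G) ^ j)) ^ 4 =
        Real.exp (4 * (Real.log A + (Real.log K0 + j * Real.log (GA / G)))) := by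
      rw [pow_exp (by positivity), Real.log_mul (by positivity) (by positivity),
        Real.log_mul (by positivity) (by positivity), Real.log_pow]
      norm_num
    have f5 : G ^ (m - (j + 1)) = Real.exp (((m : ℝ) - (j + 1)) * Real.log G) := by
      rw [pow_exp hG0, Nat.cast_sub hm1]
      push_cast
      rfl
    have f6 : Xr (169 / 100) 0 u v 2 m ≤
        Real.exp (4 * (Real.log A + (Real.log K0 + j * Real.log (GA / G))) +
          ((m : ℝ) - (j + 1)) * Real.log G + (Real.log 2 - j * Real.log 4 +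
        2 * Real.log 36 - 2 * (j + 1) * Real.log (3 / 2))) := by
      refine f2.trans ?_
      rw [f4, f5, ← Real.exp_add]
      refine (mul_le_mul_of_nonneg_left f3 (Real.exp_pos _).le).trans ?_
      rw [← Real.exp_add]
    refine f1.trans ?_
    have f7 : (v - u) ^ (299 / 400 : ℝ) ≤
        Real.exp ((Real.log 2 - j * Real.log 4) * (299 / 400)) := by
      rw [Real.exp_mul, ← two_div_pow]
      exact Real.rpow_le_rpow (by linarith) huv' (by norm_num)
    have f8 : Xr (169 / 100) 0 u v 2 m ^ (101 / 400 : ℝ) ≤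
        Real.exp ((4 * (Real.log A + (Real.log K0 + j * Real.log (GA / G))) +
          ((m : ℝ) - (j + 1)) * Real.log G + (Real.log 2 - j * Real.log 4 +
        2 * Real.log 36 - 2 * (j + 1) * Real.log (3 / 2))) * (101 / 400)) := by
      rw [Real.exp_mul]
      exact Real.rpow_le_rpow ENNReal.toReal_nonneg f6 (by norm_num)
    refine (mul_le_mul f7 f8 (Real.rpow_nonneg ENNReal.toReal_nonneg _)
      (Real.exp_pos _).le).trans ?_
    rw [← Real.exp_add, ← Real.exp_add]
    refine Real.exp_le_exp.2 ?_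
    nlinarith
  have hj0 : (0 : ℝ) ≤ j := Nat.cast_nonneg j
  constructor
  · intro m hm1 hm2
    refine (hA1 m hm1 hm2).trans (mul_le_mul_of_nonneg_right (by linarith) (Real.exp_pos _).le)
  · intro m hm1 hm2
    rcases Nat.lt_or_ge m (j + 1) with h | h
    · have g1 := X_le (b := 169 / 100) (i := 0) (n := m) (a := 1 / 36) (γ := 101 / 200)
        (by norm_num) (by norm_num) huv (fun t ht => by
          refine le_trans ?_ (hlow m (by omega) t ht)
          have : (1 : ℝ) ≤ (3 / 2) ^ m := one_le_pow₀ (by norm_num)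
          linarith)
      have g2 : ((1 : ℝ) / 36) ^ (-(101 / 200) : ℝ) ≤ 36 := by
        rw [one_div, Real.rpow_neg (by norm_num), Real.inv_rpow (by norm_num), inv_inv]
        calc (36 : ℝ) ^ (101 / 200 : ℝ) ≤ 36 ^ (1 : ℝ) :=
              Real.rpow_le_rpow_of_exponent_le (by norm_num) (by norm_num)
          _ = 36 := Real.rpow_one _
      have g3 : (2 : ℝ) / 4 ^ j ≤ 2 * Real.exp (-(j : ℝ) / 10) := by
        rw [two_div_pow, Real.exp_sub, Real.exp_log (by norm_num), div_eq_mul_inv, ← Real.exp_neg]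
        refine mul_le_mul_of_nonneg_left (Real.exp_le_exp.2 ?_) (by norm_num)
        have : (1 : ℝ) / 10 ≤ Real.log 4 := by
          have h4 : Real.log 4 = 2 * Real.log 2 := by
            rw [show (4 : ℝ) = 2 ^ 2 by norm_num, Real.log_pow]
            norm_num
          have := Real.log_two_gt_d9
          rw [h4]
          linarith
        nlinarith
      have g4 : (v - u) * ((1 : ℝ) / 36) ^ (-(101 / 200) : ℝ) ≤ (2 / 4 ^ j) * 36 :=
        mul_le_mul huv' g2 (Real.rpow_nonneg (by norm_num) _) (by positivity)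
      have g5 := Real.exp_pos (-(j : ℝ) / 10)
      have g6 := Real.exp_pos (Real.log 2 + 101 / 400 * (4 * Real.log A + 4 * Real.log K0 +
        2 * Real.log 36))
      nlinarith
    · refine (hA1 m h hm2).trans ?_
      refine mul_le_mul (by linarith) (Real.exp_le_exp.2 ?_) (Real.exp_pos _).le (by positivity)
      have e1 := (hEXPO G GA hPr).1
      have e2 : ((m : ℝ) - j) * Real.log G ≤ 11 * j * Real.log G := by
        refine mul_le_mul_of_nonneg_right ?_ hlG
        have : (m : ℝ) ≤ 12 * j := by exact_mod_cast hm2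
        linarith
      have e3 := mul_le_mul_of_nonneg_left e1 hj0
      linarith

end Pool.Agent.FCQ
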