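import Pool.Agent.FCQ.Stmts

/-!
# Four corner Cantor sets, the exponent one half: PLN
-/

set_option autoImplicit false

namespace Pool.Agent.FCQ

open MeasureTheory Set

namespace PLN

open scoped FourierTransform Convolution

/-- the complex function of a real function -/
noncomputable def cf (h : ℝ → ℝ) : ℝ → ℂ := fun x => (h x : ℂ)

variable {h : ℝ → ℝ}

theorem cf_cont (hc : Continuous h) : Continuous (cf h) := Complex.continuous_ofReal.comp hc

theorem cf_supp (hs : HasCompactSupport h) : HasCompactSupport (cf h) :=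
  hs.comp_left (g := fun y : ℝ => (y : ℂ)) Complex.ofReal_zero

theorem sq_int (hc : Continuous h) (hs : HasCompactSupport h) :
    Integrable (fun x => h x ^ 2) := by
  have e : (fun x => h x ^ 2) = (fun x => h x * h x) := funext fun x => pow_two (h x)
  rw [e]
  exact (hc.mul hc).integrable_of_hasCompactSupport (hs.mul_right)

theorem cf_int (hc : Continuous h) (hs : HasCompactSupport h) : Integrable (cf h) :=
  (cf_cont hc).integrable_of_hasCompactSupport (cf_supp hs)

/-- the Fourier transform of the reflected function -/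
theorem four_neg (h : ℝ → ℝ) (ξ : ℝ) :
    𝓕 (cf (fun x => h (-x))) ξ = (starRingEnd ℂ) (𝓕 (cf h) ξ) := by
  rw [Real.fourier_real_eq_integral_exp_smul, Real.fourier_real_eq_integral_exp_smul,
    ← integral_conj, ← integral_neg_eq_self]
  refine integral_congr_ae (Filter.Eventually.of_forall fun x => ?_)
  simp only [cf, neg_neg, smul_eq_mul, map_mul, Complex.conj_ofReal, ← Complex.exp_conj,
    Complex.conj_I]
  congr 2
  push_cast
  ring

/-- Plancherel for a continuous function with compact support -/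
theorem planch (hc : Continuous h) (hs : HasCompactSupport h) :
    ∫⁻ x, ENNReal.ofReal (h x ^ 2) ≤ ∫⁻ ξ, ENNReal.ofReal (‖𝓕 (cf h) ξ‖ ^ 2) := by
  have hi := cf_int hc hs
  have hc' : Continuous (fun x => h (-x)) := hc.comp continuous_neg
  have hs' : HasCompactSupport (fun x => h (-x)) :=
    hs.comp_homeomorph (Homeomorph.neg ℝ)
  have hi' := cf_int hc' hs'
  by_cases hfin : ∫⁻ ξ, ENNReal.ofReal (‖𝓕 (cf h) ξ‖ ^ 2) = ⊤
  · rw [hfin]
    exact le_top
  have hFc : Continuous (𝓕 (cf h)) :=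
    VectorFourier.fourierIntegral_continuous Real.continuous_fourierChar
      (by exact continuous_inner) hi
  have hsq : Continuous (fun ξ => ‖𝓕 (cf h) ξ‖ ^ 2) := hFc.norm.pow 2
  have hint : Integrable (fun ξ => ‖𝓕 (cf h) ξ‖ ^ 2) := by
    refine ⟨hsq.aestronglyMeasurable, ?_⟩
    rw [hasFiniteIntegral_iff_ofReal (Filter.Eventually.of_forall fun ξ => by positivity)]
    exact lt_top_iff_ne_top.2 hfin
  -- the autocorrelation
  have hg : ∀ ξ, 𝓕 ((cf h) ⋆[ContinuousLinearMap.mul ℂ ℂ] (cf (fun x => h (-x)))) ξ =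
      ((‖𝓕 (cf h) ξ‖ ^ 2 : ℝ) : ℂ) := by
    intro ξ
    rw [Real.fourier_mul_convolution_eq hi hi', four_neg, Complex.mul_conj,
      Complex.normSq_eq_norm_sq]
  have hgc : Continuous ((cf h) ⋆[ContinuousLinearMap.mul ℂ ℂ] (cf (fun x => h (-x)))) :=
    (cf_supp hs').continuous_convolution_right _ hi.locallyIntegrable (cf_cont hc')
  have hgi : Integrable ((cf h) ⋆[ContinuousLinearMap.mul ℂ ℂ] (cf (fun x => h (-x)))) :=
    hi.integrable_convolution _ hi'
  have hgF : Integrable (𝓕 ((cf h) ⋆[ContinuousLinearMap.mul ℂ ℂ] (cf (fun x => h (-x))))) := by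
    have : 𝓕 ((cf h) ⋆[ContinuousLinearMap.mul ℂ ℂ] (cf (fun x => h (-x)))) =
        fun ξ => ((‖𝓕 (cf h) ξ‖ ^ 2 : ℝ) : ℂ) := funext hg
    rw [this]
    exact hint.ofReal
  have h0 := hgi.fourierInv_fourier_eq hgF (v := 0) hgc.continuousAt
  rw [Real.fourierInv_eq'] at h0
  have e1 : ∫ v, Complex.exp (((2 * Real.pi * inner ℝ v (0 : ℝ) : ℝ) : ℂ) * Complex.I) •
      𝓕 ((cf h) ⋆[ContinuousLinearMap.mul ℂ ℂ] (cf (fun x => h (-x)))) v =
      ((∫ ξ, ‖𝓕 (cf h) ξ‖ ^ 2 : ℝ) : ℂ) := by
    rw [← integral_complex_ofReal]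
    refine integral_congr_ae (Filter.Eventually.of_forall fun ξ => ?_)
    simp only [hg ξ]
    simp
  have e2 : ((cf h) ⋆[ContinuousLinearMap.mul ℂ ℂ] (cf (fun x => h (-x)))) 0 =
      ((∫ x, h x ^ 2 : ℝ) : ℂ) := by
    rw [convolution_def, ← integral_complex_ofReal]
    refine integral_congr_ae (Filter.Eventually.of_forall fun x => ?_)
    simp [cf, pow_two]
  rw [e1, e2] at h0
  have h1 : ∫ ξ, ‖𝓕 (cf h) ξ‖ ^ 2 = ∫ x, h x ^ 2 := Complex.ofReal_injective h0
  have hh : Integrable (fun x => h x ^ 2) := sq_int hc hs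
  rw [← ofReal_integral_eq_lintegral_ofReal hh (Filter.Eventually.of_forall fun x => by positivity),
    ← ofReal_integral_eq_lintegral_ofReal hint
      (Filter.Eventually.of_forall fun x => by positivity), h1]

end PLN

open scoped FourierTransform in
theorem PLN_thm : Stmt_PLN := by
  intro f hf hs
  have hpi : (0 : ℝ) < 2 * Real.pi := by positivity
  have hpi1 : (1 : ℝ) ≤ 2 * Real.pi := by linarith [Real.pi_gt_three]
  have hc : Continuous (fun x => f (2 * Real.pi * x)) := hf.comp (continuous_const.mul continuous_id)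
  have hs' : HasCompactSupport (fun x => f (2 * Real.pi * x)) :=
    hs.comp_homeomorph (Homeomorph.mulLeft₀ (2 * Real.pi) hpi.ne')
  have h1 := PLN.planch hc hs'
  have hF : ∀ ξ, Ft f ξ = (2 * Real.pi : ℝ) * 𝓕 (PLN.cf (fun x => f (2 * Real.pi * x))) ξ := by
    intro ξ
    rw [Real.fourier_real_eq_integral_exp_smul]
    have h2 := Measure.integral_comp_mul_left
      (fun x => (f x : ℂ) * Complex.exp (((-(ξ * x) : ℝ) : ℂ) * Complex.I)) (2 * Real.pi)
    have h3 : ∫ v : ℝ, Complex.exp (((-2 * Real.pi * v * ξ : ℝ) : ℂ) * Complex.I) •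
        PLN.cf (fun x => f (2 * Real.pi * x)) v = ∫ x : ℝ, (f (2 * Real.pi * x) : ℂ) *
        Complex.exp (((-(ξ * (2 * Real.pi * x)) : ℝ) : ℂ) * Complex.I) := by
      refine integral_congr_ae (Filter.Eventually.of_forall fun x => ?_)
      simp only [PLN.cf, smul_eq_mul]
      rw [mul_comm]
      congr 3
      push_cast
      ring
    rw [h3, h2, abs_of_pos (inv_pos.2 hpi), Ft, Complex.real_smul, ← mul_assoc,
      ← Complex.ofReal_mul, mul_inv_cancel₀ hpi.ne', Complex.ofReal_one, one_mul]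
  have hh : Integrable (fun x => f x ^ 2) := PLN.sq_int hf hs
  have hh' : Integrable (fun x => f (2 * Real.pi * x) ^ 2) := PLN.sq_int hc hs'
  have e1 : ∫ x, f x ^ 2 = 2 * Real.pi * ∫ x, f (2 * Real.pi * x) ^ 2 := by
    have h2 := Measure.integral_comp_mul_left (fun x => f x ^ 2) (2 * Real.pi)
    rw [h2, abs_of_pos (inv_pos.2 hpi), smul_eq_mul, ← mul_assoc, mul_inv_cancel₀ hpi.ne', one_mul]
  calc ∫⁻ x, ENNReal.ofReal (f x ^ 2) = ENNReal.ofReal (∫ x, f x ^ 2) :=
        (ofReal_integral_eq_lintegral_ofReal hh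
          (Filter.Eventually.of_forall fun x => by positivity)).symm
    _ = ENNReal.ofReal (2 * Real.pi) * ∫⁻ x, ENNReal.ofReal (f (2 * Real.pi * x) ^ 2) := by
        rw [e1, ENNReal.ofReal_mul hpi.le, ofReal_integral_eq_lintegral_ofReal hh'
          (Filter.Eventually.of_forall fun x => by positivity)]
    _ ≤ ENNReal.ofReal (2 * Real.pi) *
        ∫⁻ ξ, ENNReal.ofReal (‖𝓕 (PLN.cf (fun x => f (2 * Real.pi * x))) ξ‖ ^ 2) :=
        mul_le_mul_right h1 _
    _ = ∫⁻ ξ, ENNReal.ofReal (2 * Real.pi) *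
        ENNReal.ofReal (‖𝓕 (PLN.cf (fun x => f (2 * Real.pi * x))) ξ‖ ^ 2) :=
        (lintegral_const_mul' _ _ ENNReal.ofReal_ne_top).symm
    _ ≤ ∫⁻ ξ, ENNReal.ofReal (‖Ft f ξ‖ ^ 2) := by
        refine lintegral_mono fun ξ => ?_
        rw [← ENNReal.ofReal_mul hpi.le]
        apply ENNReal.ofReal_le_ofReal
        rw [hF, norm_mul, mul_pow, Complex.norm_real, Real.norm_of_nonneg hpi.le]
        apply mul_le_mul_of_nonneg_right _ (by positivity)
        nlinarith

end Pool.Agent.FCQ
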