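import Pool.Agent.FCQ.Stmts

/-!
# Four corner Cantor sets, the exponent one half: module PSI

Bounds for `Ps` and its derivative in the direction.
-/

set_option autoImplicit false

namespace Pool.Agent.FCQ

open MeasureTheory Set FourierTransform

namespace PSI

theorem Phi_supp {b : ℝ} (hb : 1 ≤ b) : HasCompactSupport (Phi b) := by
  refine HasCompactSupport.intro (K := Icc (-b) b) isCompact_Icc (fun x hx => ?_)
  refine Phi_eq_zero hb ?_
  by_contra h
  push Not at h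
  rw [abs_lt] at h
  exact hx ⟨h.1.le, h.2.le⟩

/-- the complex valued base function -/
noncomputable def Pc (b x : ℝ) : ℂ := (Phi b x : ℂ)

theorem Pc_contDiff (b : ℝ) : ContDiff ℝ 2 (Pc b) :=
  Complex.ofRealCLM.contDiff.comp (contDiff_Phi b 2)

theorem Pc_supp {b : ℝ} (hb : 1 ≤ b) : HasCompactSupport (Pc b) :=
  (Phi_supp hb).comp_left (g := fun x : ℝ => (x : ℂ)) Complex.ofReal_zero

theorem Ft_eq (b ξ : ℝ) : Ft (Phi b) ξ = 𝓕 (Pc b) (ξ / (2 * Real.pi)) := by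
  rw [Real.fourier_real_eq_integral_exp_smul, Ft]
  apply integral_congr_ae
  refine Filter.Eventually.of_forall (fun x => ?_)
  simp only [smul_eq_mul, Pc]
  rw [mul_comm]
  congr 3
  have h := Real.pi_ne_zero
  field_simp

theorem norm_exp_I (x : ℝ) : ‖Complex.exp ((x : ℂ) * Complex.I)‖ = 1 := Complex.norm_exp_ofReal_mul_I x

theorem fourier_norm_le (g : ℝ → ℂ) (w : ℝ) : ‖𝓕 g w‖ ≤ ∫ x, ‖g x‖ := by
  rw [Real.fourier_real_eq_integral_exp_smul]
  refine (norm_integral_le_integral_norm _).trans (le_of_eq ?_)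
  apply integral_congr_ae
  refine Filter.Eventually.of_forall (fun x => ?_)
  simp only [norm_smul, norm_exp_I, one_mul]

theorem Ft_norm_le (b ξ : ℝ) : ‖Ft (Phi b) ξ‖ ≤ ∫ x, ‖Pc b x‖ := by
  rw [Ft_eq]
  exact fourier_norm_le _ _

theorem Ft_sq_le {b : ℝ} (hb : 1 ≤ b) (ξ : ℝ) :
    ξ ^ 2 * ‖Ft (Phi b) ξ‖ ≤ ∫ x, ‖iteratedDeriv 2 (Pc b) x‖ := by
  have h1 := Real.fourier_iteratedDeriv (f := Pc b) (N := 2) (n := 2) (Pc_contDiff b)
    (fun n hn => by
      have hn2 : n ≤ 2 := by exact_mod_cast hn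
      have h2 : Continuous (iteratedDeriv n (Pc b)) :=
        (Pc_contDiff b).continuous_iteratedDeriv n (by exact_mod_cast hn)
      refine h2.integrable_of_hasCompactSupport ?_
      have h3 : ∀ m : ℕ, HasCompactSupport (iteratedDeriv m (Pc b)) := by
        intro m
        induction m with
        | zero => rw [iteratedDeriv_zero]; exact Pc_supp hb
        | succ m ih => rw [iteratedDeriv_succ]; exact ih.deriv
      exact h3 n) le_rfl
  have h2 := fourier_norm_le (iteratedDeriv 2 (Pc b)) (ξ / (2 * Real.pi))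
  rw [h1] at h2
  simp only [norm_smul] at h2
  rw [← Ft_eq] at h2
  have h3 : ‖((2 * Real.pi * Complex.I * ((ξ / (2 * Real.pi) : ℝ) : ℂ)) ^ 2 : ℂ)‖ = ξ ^ 2 := by
    have h4 : (2 * Real.pi * Complex.I * ((ξ / (2 * Real.pi) : ℝ) : ℂ) : ℂ) =
        (ξ : ℂ) * Complex.I := by
      push_cast
      have h := Real.pi_ne_zero
      have h' : (Real.pi : ℂ) ≠ 0 := by exact_mod_cast h
      field_simp
    rw [h4, norm_pow, norm_mul, Complex.norm_I, mul_one, Complex.norm_real, Real.norm_eq_abs,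
      sq_abs]
  rw [h3] at h2
  exact h2

theorem Ft_bound {b : ℝ} (hb : 1 ≤ b) : ∃ C : ℝ, 0 < C ∧ ∀ ξ, ‖Ft (Phi b) ξ‖ ≤ C / (1 + ξ ^ 2) := by
  refine ⟨(∫ x, ‖Pc b x‖) + (∫ x, ‖iteratedDeriv 2 (Pc b) x‖) + 1, ?_, fun ξ => ?_⟩
  · have h1 : 0 ≤ ∫ x, ‖Pc b x‖ := integral_nonneg fun _ => norm_nonneg _
    have h2 : 0 ≤ ∫ x, ‖iteratedDeriv 2 (Pc b) x‖ := integral_nonneg fun _ => norm_nonneg _
    linarith
  · rw [le_div_iff₀ (by positivity)]
    have h1 := Ft_norm_le b ξ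
    have h2 := Ft_sq_le hb ξ
    nlinarith

theorem Ft_lip {b : ℝ} (hb : 1 ≤ b) : ∃ C : ℝ, 0 < C ∧
    ∀ ξ ξ', ‖Ft (Phi b) ξ - Ft (Phi b) ξ'‖ ≤ C * |ξ - ξ'| := by
  have hint : ∀ ξ : ℝ, Integrable (fun x : ℝ => (Phi b x : ℂ) *
      Complex.exp (((-(ξ * x) : ℝ) : ℂ) * Complex.I)) := by
    intro ξ
    have h1 : Continuous (fun x : ℝ => (Phi b x : ℂ) *
        Complex.exp (((-(ξ * x) : ℝ) : ℂ) * Complex.I)) := by
      have h2 : Continuous (fun x : ℝ => (Phi b x : ℂ)) :=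
        Complex.continuous_ofReal.comp (continuous_Phi b)
      exact h2.mul (by fun_prop)
    refine h1.integrable_of_hasCompactSupport ?_
    exact (Pc_supp hb).mul_right
  have hPc : Integrable (fun x => ‖Pc b x‖) :=
    ((Pc_contDiff b).continuous.integrable_of_hasCompactSupport (Pc_supp hb)).norm
  refine ⟨(∫ x, ‖Pc b x‖) * b + 1, ?_, fun ξ ξ' => ?_⟩
  · have h1 : 0 ≤ ∫ x, ‖Pc b x‖ := integral_nonneg fun _ => norm_nonneg _
    have h2 : 0 ≤ b := by linarith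
    positivity
  · rw [Ft, Ft, ← integral_sub (hint ξ) (hint ξ')]
    refine (norm_integral_le_integral_norm _).trans ?_
    have h1 : ∀ x : ℝ, ‖(Phi b x : ℂ) * Complex.exp (((-(ξ * x) : ℝ) : ℂ) * Complex.I) -
        (Phi b x : ℂ) * Complex.exp (((-(ξ' * x) : ℝ) : ℂ) * Complex.I)‖ ≤
        ‖Pc b x‖ * (b * |ξ - ξ'|) := by
      intro x
      rw [← mul_sub, norm_mul]
      by_cases hx : b ≤ |x|
      · rw [Pc, Phi_eq_zero hb hx]
        simp
      · push Not at hx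
        refine mul_le_mul_of_nonneg_left ?_ (norm_nonneg _)
        have h2 : Complex.exp (((-(ξ * x) : ℝ) : ℂ) * Complex.I) -
            Complex.exp (((-(ξ' * x) : ℝ) : ℂ) * Complex.I) =
            Complex.exp (((-(ξ' * x) : ℝ) : ℂ) * Complex.I) *
              (Complex.exp (Complex.I * (((ξ' - ξ) * x : ℝ) : ℂ)) - 1) := by
          rw [mul_sub, mul_one, ← Complex.exp_add]
          congr 2
          push_cast
          ring
        rw [h2, norm_mul, norm_exp_I, one_mul]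
        refine (Real.norm_exp_I_mul_ofReal_sub_one_le).trans ?_
        rw [Real.norm_eq_abs, abs_mul, mul_comm, abs_sub_comm]
        exact mul_le_mul_of_nonneg_right hx.le (abs_nonneg _)
    refine (integral_mono_of_nonneg (Filter.Eventually.of_forall fun _ => norm_nonneg _)
      (hPc.mul_const _) (Filter.Eventually.of_forall h1)).trans ?_
    rw [integral_mul_const]
    have h2 := abs_nonneg (ξ - ξ')
    nlinarith

/-- the derivative in the direction -/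
theorem Ps_deriv (b t ω : ℝ) : HasDerivAt (fun τ => Ps b τ ω)
    (((Real.cos (3 * ω / 8) ^ 2 * (2 * Real.cos (3 * t * ω / 8) *
      (-Real.sin (3 * t * ω / 8) * (3 * ω / 8))) : ℝ) : ℂ) * Ft (Phi b) (ω / 4)) t := by
  have h1 : HasDerivAt (fun τ : ℝ => 3 * τ * ω / 8) (3 * ω / 8) t := by
    have h2 := ((hasDerivAt_id t).const_mul (3 : ℝ)).mul_const (ω / 8)
    have e1 : (fun τ : ℝ => 3 * id τ * (ω / 8)) = fun τ : ℝ => 3 * τ * ω / 8 := by
      funext τ
      simp only [id]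
      ring
    rw [e1] at h2
    have e2 : 3 * 1 * (ω / 8) = 3 * ω / 8 := by ring
    rw [e2] at h2
    exact h2
  have h2 := (h1.cos.pow 2).const_mul (Real.cos (3 * ω / 8) ^ 2)
  have h3 : HasDerivAt (fun τ : ℝ => Real.cos (3 * ω / 8) ^ 2 * Real.cos (3 * τ * ω / 8) ^ 2)
      (Real.cos (3 * ω / 8) ^ 2 * (2 * Real.cos (3 * t * ω / 8) *
        (-Real.sin (3 * t * ω / 8) * (3 * ω / 8)))) t := by
    refine h2.congr_deriv ?_
    norm_num
  have h4 := h3.ofReal_comp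
  exact (h4.mul_const (Ft (Phi b) (ω / 4))).sub_const (Ft (Phi b) ω)

theorem one_sub_cos_sq_le (x : ℝ) : 1 - Real.cos x ^ 2 ≤ |x| := by
  have h1 : 1 - Real.cos x ^ 2 = |Real.sin x| * |Real.sin x| := by
    rw [← abs_mul, ← sq, abs_of_nonneg (sq_nonneg _)]
    linarith [Real.sin_sq_add_cos_sq x]
  rw [h1]
  have h2 : |Real.sin x| ≤ |x| := Real.abs_sin_le_abs
  have h3 : |Real.sin x| ≤ 1 := Real.abs_sin_le_one x
  nlinarith [abs_nonneg (Real.sin x), abs_nonneg x]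

theorem one_b {b : ℝ} (hb : 1 ≤ b) : ∃ C : ℝ, 0 < C ∧ ∀ t ω : ℝ, 1 / 4 ≤ t → t ≤ 5 / 4 →
    ‖Ps b t ω‖ ≤ C * |ω| / (1 + ω ^ 2) ∧ ‖Ps b t ω‖ ≤ C / (1 + ω ^ 2) ∧
    DifferentiableAt ℝ (fun τ => Ps b τ ω) t ∧
    ‖deriv (fun τ => Ps b τ ω) t‖ ≤ C * |ω| / (1 + ω ^ 2) := by
  obtain ⟨C1, hC1, h1⟩ := Ft_bound hb
  obtain ⟨C2, hC2, h2⟩ := Ft_lip hb
  refine ⟨61 * C1 + 2 * C2, by positivity, fun t ω ht1 ht2 => ?_⟩
  have hd : 0 < 1 + ω ^ 2 := by positivity
  have hω := abs_nonneg ω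
  -- the two values
  have hA : ‖Ft (Phi b) (ω / 4)‖ ≤ 16 * C1 / (1 + ω ^ 2) := by
    refine (h1 (ω / 4)).trans ?_
    rw [div_le_div_iff₀ (by positivity) hd]
    nlinarith [sq_nonneg ω, mul_nonneg hC1.le (sq_nonneg ω)]
  have hB := h1 ω
  have hA' : ‖Ft (Phi b) (ω / 4)‖ ≤ 16 * C1 := by
    refine hA.trans ?_
    rw [div_le_iff₀ hd]
    nlinarith [mul_nonneg hC1.le (sq_nonneg ω)]
  set A := Ft (Phi b) (ω / 4) with hAd
  set B := Ft (Phi b) ω with hBd
  set q := Real.cos (3 * ω / 8) ^ 2 * Real.cos (3 * t * ω / 8) ^ 2 with hq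
  have hPs : Ps b t ω = (q : ℂ) * A - B := rfl
  have c1 : Real.cos (3 * ω / 8) ^ 2 ≤ 1 := Real.cos_sq_le_one _
  have c2 : Real.cos (3 * t * ω / 8) ^ 2 ≤ 1 := Real.cos_sq_le_one _
  have c3 : 0 ≤ Real.cos (3 * ω / 8) ^ 2 := sq_nonneg _
  have c4 : 0 ≤ Real.cos (3 * t * ω / 8) ^ 2 := sq_nonneg _
  have hq0 : 0 ≤ q := mul_nonneg c3 c4
  have hq1 : q ≤ 1 := by nlinarith
  have hqn : ‖(q : ℂ)‖ ≤ 1 := by
    rw [Complex.norm_real, Real.norm_eq_abs, abs_of_nonneg hq0]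
    exact hq1
  have hP2 : ‖Ps b t ω‖ ≤ 17 * C1 / (1 + ω ^ 2) := by
    rw [hPs]
    refine (norm_sub_le _ _).trans ?_
    rw [norm_mul]
    have h3 : ‖(q : ℂ)‖ * ‖A‖ ≤ 1 * ‖A‖ := mul_le_mul_of_nonneg_right hqn (norm_nonneg _)
    have h4 : 16 * C1 / (1 + ω ^ 2) + C1 / (1 + ω ^ 2) = 17 * C1 / (1 + ω ^ 2) := by
      rw [← add_div]
      ring
    linarith
  refine ⟨?_, ?_, (Ps_deriv b t ω).differentiableAt, ?_⟩
  · rcases le_or_gt 1 |ω| with h | h
    · refine hP2.trans ?_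
      apply div_le_div_of_nonneg_right _ hd.le
      nlinarith
    · have h3 : Ps b t ω = (A - B) - ((1 - q : ℝ) : ℂ) * A := by
        rw [hPs]
        push_cast
        ring
      have h4 : ‖Ps b t ω‖ ≤ ‖A - B‖ + ‖((1 - q : ℝ) : ℂ) * A‖ := by
        rw [h3]
        exact norm_sub_le _ _
      have h5 : ‖A - B‖ ≤ C2 * |ω| := by
        refine (h2 (ω / 4) ω).trans ?_
        have h6 : |ω / 4 - ω| = 3 / 4 * |ω| := by
          have h7 : ω / 4 - ω = -(3 / 4) * ω := by ring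
          rw [h7, abs_mul]
          norm_num
        rw [h6]
        nlinarith [mul_nonneg hC2.le hω]
      have h6 : 1 - q ≤ |ω| := by
        have h7 := one_sub_cos_sq_le (3 * ω / 8)
        have h8 := one_sub_cos_sq_le (3 * t * ω / 8)
        have h9 : 1 - q ≤ (1 - Real.cos (3 * ω / 8) ^ 2) + (1 - Real.cos (3 * t * ω / 8) ^ 2) := by
          rw [hq]
          nlinarith [mul_nonneg (sub_nonneg.2 c1) (sub_nonneg.2 c2)]
        have h10 : |3 * ω / 8| = 3 / 8 * |ω| := by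
          have h11 : 3 * ω / 8 = 3 / 8 * ω := by ring
          rw [h11, abs_mul]
          norm_num
        have h12 : |3 * t * ω / 8| = 3 / 8 * t * |ω| := by
          have h11 : 3 * t * ω / 8 = 3 / 8 * t * ω := by ring
          rw [h11, abs_mul, abs_of_nonneg (by linarith)]
        rw [h10] at h7
        rw [h12] at h8
        nlinarith
      have h7 : ‖((1 - q : ℝ) : ℂ) * A‖ ≤ |ω| * (16 * C1) := by
        rw [norm_mul, Complex.norm_real, Real.norm_eq_abs, abs_of_nonneg (by linarith)]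
        exact mul_le_mul h6 hA' (norm_nonneg _) hω
      have h8 : ‖Ps b t ω‖ ≤ (C2 + 16 * C1) * |ω| := by linarith
      refine h8.trans ?_
      rw [le_div_iff₀ hd]
      have h9 : 1 + ω ^ 2 ≤ 2 := by
        have : ω ^ 2 = |ω| ^ 2 := (sq_abs ω).symm
        nlinarith
      have h10 : 0 ≤ (C2 + 16 * C1) * |ω| := by positivity
      calc (C2 + 16 * C1) * |ω| * (1 + ω ^ 2) ≤ (C2 + 16 * C1) * |ω| * 2 :=
            mul_le_mul_of_nonneg_left h9 h10
        _ ≤ (61 * C1 + 2 * C2) * |ω| := by nlinarith [mul_nonneg hC1.le hω]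
  · refine hP2.trans ?_
    apply div_le_div_of_nonneg_right _ hd.le
    linarith
  · rw [(Ps_deriv b t ω).deriv, norm_mul, Complex.norm_real, Real.norm_eq_abs]
    have h3 : |Real.cos (3 * ω / 8) ^ 2 * (2 * Real.cos (3 * t * ω / 8) *
        (-Real.sin (3 * t * ω / 8) * (3 * ω / 8)))| ≤ 3 / 4 * |ω| := by
      rw [abs_mul, abs_mul, abs_mul, abs_mul, abs_neg, abs_of_nonneg c3]
      have h4 := Real.abs_cos_le_one (3 * t * ω / 8)
      have h5 := Real.abs_sin_le_one (3 * t * ω / 8)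
      have h6 : |3 * ω / 8| = 3 / 8 * |ω| := by
        have h11 : 3 * ω / 8 = 3 / 8 * ω := by ring
        rw [h11, abs_mul]
        norm_num
      have h7 : |(2 : ℝ)| = 2 := by norm_num
      rw [h6, h7]
      have h8 : |Real.sin (3 * t * ω / 8)| * (3 / 8 * |ω|) ≤ 1 * (3 / 8 * |ω|) :=
        mul_le_mul_of_nonneg_right h5 (by positivity)
      have h9 : 2 * |Real.cos (3 * t * ω / 8)| *
          (|Real.sin (3 * t * ω / 8)| * (3 / 8 * |ω|)) ≤ 2 * 1 * (1 * (3 / 8 * |ω|)) :=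
        mul_le_mul (by linarith) h8 (by positivity) (by norm_num)
      calc Real.cos (3 * ω / 8) ^ 2 * (2 * |Real.cos (3 * t * ω / 8)| *
          (|Real.sin (3 * t * ω / 8)| * (3 / 8 * |ω|)))
          ≤ 1 * (2 * 1 * (1 * (3 / 8 * |ω|))) := mul_le_mul c1 h9 (by positivity) (by norm_num)
        _ = 3 / 4 * |ω| := by ring
    calc |Real.cos (3 * ω / 8) ^ 2 * (2 * Real.cos (3 * t * ω / 8) *
        (-Real.sin (3 * t * ω / 8) * (3 * ω / 8)))| * ‖A‖
        ≤ (3 / 4 * |ω|) * (16 * C1 / (1 + ω ^ 2)) :=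
          mul_le_mul h3 hA (norm_nonneg _) (by positivity)
      _ = 12 * C1 * |ω| / (1 + ω ^ 2) := by ring
      _ ≤ (61 * C1 + 2 * C2) * |ω| / (1 + ω ^ 2) := by
          apply div_le_div_of_nonneg_right _ hd.le
          nlinarith [mul_nonneg hC1.le hω, mul_nonneg hC2.le hω]

end PSI

open PSI in
theorem PSI_thm : Stmt_PSI := by
  obtain ⟨C1, hC1, h1⟩ := one_b (b := 7 / 5) (by norm_num)
  obtain ⟨C2, hC2, h2⟩ := one_b (b := 169 / 100) (by norm_num)
  refine ⟨C1 + C2, by positivity, fun b t ω hb ht1 ht2 => ?_⟩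
  have hd : 0 < 1 + ω ^ 2 := by positivity
  have hω := abs_nonneg ω
  have m1 : ∀ C : ℝ, C ≤ C1 + C2 → C * |ω| / (1 + ω ^ 2) ≤ (C1 + C2) * |ω| / (1 + ω ^ 2) :=
    fun C hC => div_le_div_of_nonneg_right (mul_le_mul_of_nonneg_right hC hω) hd.le
  have m2 : ∀ C : ℝ, C ≤ C1 + C2 → C / (1 + ω ^ 2) ≤ (C1 + C2) / (1 + ω ^ 2) :=
    fun C hC => div_le_div_of_nonneg_right hC hd.le
  rcases hb with rfl | rfl
  · obtain ⟨a1, a2, a3, a4⟩ := h1 t ω ht1 ht2
    exact ⟨a1.trans (m1 _ (by linarith)), a2.trans (m2 _ (by linarith)), a3,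
      a4.trans (m1 _ (by linarith))⟩
  · obtain ⟨a1, a2, a3, a4⟩ := h2 t ω ht1 ht2
    exact ⟨a1.trans (m1 _ (by linarith)), a2.trans (m2 _ (by linarith)), a3,
      a4.trans (m1 _ (by linarith))⟩

end Pool.Agent.FCQ
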