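import Pool.Agent.FCQ.Stmts

set_option autoImplicit false

namespace Pool.Agent.FCQ

open MeasureTheory Set

namespace RATE

lemma Q4_nonneg (r : ℕ) (z : ℝ) : 0 ≤ Q4 r z :=
  Finset.prod_nonneg fun _ _ => by positivity

lemma Q4_cont (r : ℕ) : Continuous (Q4 r) := by
  unfold Q4
  fun_prop

lemma Dr_cont (r : ℕ) : Continuous (Dr r) := by
  unfold Dr Q4
  fun_prop

lemma Q4_le_Dr (r : ℕ) (z : ℝ) : Q4 r z ≤ Dr r z := by
  unfold Dr
  have : 0 ≤ ∑ i ∈ Finset.range r, (4 : ℝ) ^ i / 4 ^ r *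
    (Real.cos (4 ^ i * z) ^ 2 * ∏ l ∈ (Finset.range r).erase i, Real.cos (4 ^ l * z) ^ 4) :=
    Finset.sum_nonneg fun i _ => mul_nonneg (by positivity)
      (mul_nonneg (sq_nonneg _) (Finset.prod_nonneg fun _ _ => by positivity))
  linarith

lemma Dr_nonneg (r : ℕ) (z : ℝ) : 0 ≤ Dr r z := (Q4_nonneg r z).trans (Q4_le_Dr r z)

lemma Dr_neg (r : ℕ) (z : ℝ) : Dr r (-z) = Dr r z := by
  unfold Dr Q4
  simp only [mul_neg, Real.cos_neg]

lemma Dr_abs (r : ℕ) (t ω : ℝ) : Dr r (3 * t * ω / 2) = Dr r (3 * |ω| / 2 * t) := by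
  rcases abs_choice ω with h | h
  · rw [h]
    congr 1
    ring
  · rw [h, ← Dr_neg]
    congr 1
    ring

lemma cover0 (K2 : ℝ) (h : ∀ (l r : ℕ) (x : ℝ), l ≤ r →
    ∫ z in x..(x + 1 / 4 ^ l), Dr r z ≤ K2 * (2 / 3) ^ l * (3 / 8) ^ r)
    (l r : ℕ) (hl : l ≤ r) (x : ℝ) (N : ℕ) :
    ∫ z in x..(x + N / 4 ^ l), Dr r z ≤ N * (K2 * (2 / 3) ^ l * (3 / 8) ^ r) := by
  induction N with
  | zero => simp
  | succ N ih =>
    have h1 := h l r (x + N / 4 ^ l) hl
    have h2 : (x + (N : ℝ) / 4 ^ l) + 1 / 4 ^ l = x + ((N + 1 : ℕ) : ℝ) / 4 ^ l := by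
      push_cast
      ring
    rw [h2] at h1
    rw [← intervalIntegral.integral_add_adjacent_intervals
      ((Dr_cont r).intervalIntegrable x (x + N / 4 ^ l))
      ((Dr_cont r).intervalIntegrable (x + N / 4 ^ l) _)]
    push_cast at h1 ⊢
    linarith

lemma cover (K2 : ℝ) (hK : 0 < K2) (h : ∀ (l r : ℕ) (x : ℝ), l ≤ r →
    ∫ z in x..(x + 1 / 4 ^ l), Dr r z ≤ K2 * (2 / 3) ^ l * (3 / 8) ^ r)
    (l r : ℕ) (hl : l ≤ r) (x L : ℝ) (hL : 0 ≤ L) :
    ∫ z in x..(x + L), Dr r z ≤ (4 ^ l * L + 1) * (K2 * (2 / 3) ^ l * (3 / 8) ^ r) := by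
  set N := ⌈4 ^ l * L⌉₊ with hN
  have h4 : (0 : ℝ) < 4 ^ l := by positivity
  have h1 : L ≤ N / 4 ^ l := by
    rw [le_div_iff₀ h4, mul_comm]
    exact Nat.le_ceil _
  have h2 : (N : ℝ) ≤ 4 ^ l * L + 1 := (Nat.ceil_lt_add_one (by positivity)).le
  have h3 : ∫ z in x..(x + L), Dr r z ≤ ∫ z in x..(x + N / 4 ^ l), Dr r z := by
    apply intervalIntegral.integral_mono_interval le_rfl (by linarith) (by linarith)
    · exact Filter.Eventually.of_forall fun z => Dr_nonneg r z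
    · exact (Dr_cont r).intervalIntegrable _ _
  refine h3.trans ((cover0 K2 h l r hl x N).trans ?_)
  exact mul_le_mul_of_nonneg_right h2 (by positivity)

lemma tint (K2 : ℝ) (hK : 0 < K2) (h : ∀ (l r : ℕ) (x : ℝ), l ≤ r →
    ∫ z in x..(x + 1 / 4 ^ l), Dr r z ≤ K2 * (2 / 3) ^ l * (3 / 8) ^ r)
    (j r : ℕ) (hj : j ≤ r) (u v : ℝ) (huv : u ≤ v) (hv : v - u ≤ 4 / 4 ^ j) (ω : ℝ) (hω : ω ≠ 0) :
    ∫⁻ t in Icc u v, ENNReal.ofReal (Dr r (3 * t * ω / 2)) ≤
      ENNReal.ofReal (2 / (3 * |ω|) * ((6 * |ω| + 1) * (K2 * (2 / 3) ^ j * (3 / 8) ^ r))) := by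
  have hω' : 0 < |ω| := abs_pos.2 hω
  have hc : (0 : ℝ) < 3 * |ω| / 2 := by positivity
  have hcont : Continuous fun t : ℝ => Dr r (3 * |ω| / 2 * t) := (Dr_cont r).comp (by fun_prop)
  have e1 : (fun t : ℝ => ENNReal.ofReal (Dr r (3 * t * ω / 2))) =
      fun t => ENNReal.ofReal (Dr r (3 * |ω| / 2 * t)) := by
    funext t
    rw [Dr_abs]
  rw [e1, ← ofReal_integral_eq_lintegral_ofReal (hcont.integrableOn_Icc)
    (Filter.Eventually.of_forall fun t => Dr_nonneg r _)]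
  apply ENNReal.ofReal_le_ofReal
  rw [integral_Icc_eq_integral_Ioc, ← intervalIntegral.integral_of_le huv,
    intervalIntegral.integral_comp_mul_left (fun z => Dr r z) hc.ne']
  have e2 : 3 * |ω| / 2 * v = 3 * |ω| / 2 * u + 3 * |ω| / 2 * (v - u) := by ring
  rw [e2, smul_eq_mul]
  have h1 := cover K2 hK h j r hj (3 * |ω| / 2 * u) (3 * |ω| / 2 * (v - u))
    (mul_nonneg hc.le (by linarith))
  have h4 : (0 : ℝ) < 4 ^ j := by positivity
  have h2 : (4 : ℝ) ^ j * (3 * |ω| / 2 * (v - u)) + 1 ≤ 6 * |ω| + 1 := by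
    have h3 : (4 : ℝ) ^ j * (v - u) ≤ 4 := by
      rw [le_div_iff₀ h4] at hv
      linarith
    nlinarith
  have h5 : (0 : ℝ) ≤ K2 * (2 / 3) ^ j * (3 / 8) ^ r := by positivity
  have h6 := h1.trans (mul_le_mul_of_nonneg_right h2 h5)
  have h7 : (3 * |ω| / 2)⁻¹ = 2 / (3 * |ω|) := by
    field_simp
  rw [h7]
  exact mul_le_mul_of_nonneg_left h6 (by positivity)

/-- The integral of `Q4` against the Cauchy density. -/
lemma cauchy (K2 : ℝ) (hK : 0 < K2) (h : ∀ (l r : ℕ) (x : ℝ), l ≤ r →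
    ∫ z in x..(x + 1 / 4 ^ l), Dr r z ≤ K2 * (2 / 3) ^ l * (3 / 8) ^ r) (r : ℕ) :
    ∫⁻ ω : ℝ, ENNReal.ofReal (Q4 r (3 * ω / 2) * (1 + ω ^ 2)⁻¹) ≤
      ENNReal.ofReal (3 * (Real.pi * (5 / 3 * (K2 * (3 / 8) ^ r)))) := by
  set g : ℝ → ENNReal := fun y => ENNReal.ofReal ((1 + y ^ 2)⁻¹) with hg
  set Q : ℝ → ENNReal := fun ω => ENNReal.ofReal (Q4 r (3 * ω / 2)) with hQ
  have hgm : Measurable g := by
    have : Continuous fun y : ℝ => (1 + y ^ 2)⁻¹ :=
      Continuous.inv₀ (by fun_prop) (fun y => by positivity)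
    exact this.measurable.ennreal_ofReal
  have hQm : Measurable Q := ((Q4_cont r).comp (by fun_prop)).measurable.ennreal_ofReal
  have hgi : ∫⁻ y, g y = ENNReal.ofReal Real.pi := by
    rw [hg, ← ofReal_integral_eq_lintegral_ofReal integrable_inv_one_add_sq
      (Filter.Eventually.of_forall fun y => by positivity), integral_univ_inv_one_add_sq]
  -- pointwise
  have h1 : ∀ ω : ℝ, ENNReal.ofReal (Q4 r (3 * ω / 2) * (1 + ω ^ 2)⁻¹) ≤
      ENNReal.ofReal 3 * ∫⁻ s in Icc (0 : ℝ) 1, Q ω * g (ω - s) := by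
    intro ω
    have h2 : ∀ s ∈ Icc (0 : ℝ) 1, g ω ≤ ENNReal.ofReal 3 * g (ω - s) := by
      intro s hs
      rw [hg]
      simp only
      rw [← ENNReal.ofReal_mul (by norm_num)]
      apply ENNReal.ofReal_le_ofReal
      rw [← div_eq_mul_inv, inv_eq_one_div, div_le_div_iff₀ (by positivity) (by positivity)]
      nlinarith [hs.1, hs.2, sq_nonneg (ω + s), sq_nonneg ω]
    have h3 : ENNReal.ofReal (Q4 r (3 * ω / 2) * (1 + ω ^ 2)⁻¹) =
        ∫⁻ s in Icc (0 : ℝ) 1, Q ω * g ω := by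
      rw [lintegral_const, Measure.restrict_apply MeasurableSet.univ, univ_inter, Real.volume_Icc]
      simp only [sub_zero, ENNReal.ofReal_one, mul_one]
      rw [ENNReal.ofReal_mul (Q4_nonneg r _)]
    rw [h3, ← lintegral_const_mul' _ _ ENNReal.ofReal_ne_top]
    apply setLIntegral_mono' measurableSet_Icc
    intro s hs
    calc Q ω * g ω ≤ Q ω * (ENNReal.ofReal 3 * g (ω - s)) := by gcongr; exact h2 s hs
      _ = ENNReal.ofReal 3 * (Q ω * g (ω - s)) := by ring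
  have hm2 : Measurable (Function.uncurry fun ω s : ℝ => Q ω * g (ω - s)) := by
    exact (hQm.comp measurable_fst).mul (hgm.comp (measurable_fst.sub measurable_snd))
  calc ∫⁻ ω : ℝ, ENNReal.ofReal (Q4 r (3 * ω / 2) * (1 + ω ^ 2)⁻¹)
      ≤ ∫⁻ ω : ℝ, ENNReal.ofReal 3 * ∫⁻ s in Icc (0 : ℝ) 1, Q ω * g (ω - s) := lintegral_mono h1
    _ = ENNReal.ofReal 3 * ∫⁻ ω : ℝ, ∫⁻ s in Icc (0 : ℝ) 1, Q ω * g (ω - s) :=
        lintegral_const_mul' _ _ ENNReal.ofReal_ne_top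
    _ = ENNReal.ofReal 3 * ∫⁻ s in Icc (0 : ℝ) 1, ∫⁻ ω : ℝ, Q ω * g (ω - s) := by
        rw [lintegral_lintegral_swap hm2.aemeasurable]
    _ = ENNReal.ofReal 3 * ∫⁻ s in Icc (0 : ℝ) 1, ∫⁻ y : ℝ, Q (y + s) * g y := by
        congr 1
        apply lintegral_congr
        intro s
        rw [← lintegral_add_right_eq_self (fun ω => Q ω * g (ω - s)) s]
        simp
    _ = ENNReal.ofReal 3 * ∫⁻ y : ℝ, ∫⁻ s in Icc (0 : ℝ) 1, Q (y + s) * g y := by
        rw [lintegral_lintegral_swap]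
        apply Measurable.aemeasurable
        exact (hQm.comp (measurable_snd.add measurable_fst)).mul (hgm.comp measurable_snd)
    _ ≤ ENNReal.ofReal 3 * ∫⁻ y : ℝ, ENNReal.ofReal (5 / 3 * (K2 * (3 / 8) ^ r)) * g y := by
        gcongr with y
        rw [lintegral_mul_const' _ _ ENNReal.ofReal_ne_top]
        gcongr
        have hcont : Continuous fun s : ℝ => Q4 r (3 * (y + s) / 2) :=
          (Q4_cont r).comp (by fun_prop)
        rw [hQ]
        simp only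
        rw [← ofReal_integral_eq_lintegral_ofReal (hcont.integrableOn_Icc)
          (Filter.Eventually.of_forall fun t => Q4_nonneg r _)]
        apply ENNReal.ofReal_le_ofReal
        rw [integral_Icc_eq_integral_Ioc, ← intervalIntegral.integral_of_le zero_le_one]
        have e3 : (fun s : ℝ => Q4 r (3 * (y + s) / 2)) =
            fun s => Q4 r (3 * y / 2 + 3 / 2 * s) := by
          funext s
          congr 1
          ring
        rw [e3, intervalIntegral.integral_comp_add_mul (fun z => Q4 r z) (by norm_num)]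
        simp only [mul_zero, add_zero, mul_one]
        have h8 : ∫ z in (3 * y / 2)..(3 * y / 2 + 3 / 2), Q4 r z ≤
            ∫ z in (3 * y / 2)..(3 * y / 2 + 3 / 2), Dr r z :=
          intervalIntegral.integral_mono_on (by linarith) ((Q4_cont r).intervalIntegrable _ _)
            ((Dr_cont r).intervalIntegrable _ _) fun z _ => Q4_le_Dr r z
        have h9 := cover K2 hK h 0 r (Nat.zero_le r) (3 * y / 2) (3 / 2) (by norm_num)
        simp only [pow_zero, one_mul, mul_one] at h9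
        rw [smul_eq_mul]
        have h10 := h8.trans h9
        have h11 : ((3 / 2 : ℝ))⁻¹ = 2 / 3 := by norm_num
        rw [h11]
        nlinarith
    _ = ENNReal.ofReal (3 * (Real.pi * (5 / 3 * (K2 * (3 / 8) ^ r)))) := by
        rw [lintegral_const_mul' _ _ ENNReal.ofReal_ne_top, hgi, ← ENNReal.ofReal_mul (by positivity),
          ← ENNReal.ofReal_mul (by norm_num)]
        congr 1
        ring

end RATE

open RATE in
theorem RATE_thm : Stmt_NRB → Stmt_SHORT → Stmt_RATE := by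
  rintro ⟨K1, hK1, hN⟩ ⟨K2, hK2, hS⟩
  refine ⟨K1 * 5 * K2 * (3 * (Real.pi * (5 / 3 * K2))), by positivity, ?_⟩
  intro b j r u v hb hj hu huv hv hlen
  set B : ℝ := K2 * (2 / 3) ^ j * (3 / 8) ^ r with hB
  have hB0 : 0 ≤ B := by positivity
  have hQc := Q4_cont r
  have hDc := Dr_cont r
  have hm : Measurable (Function.uncurry fun t ω : ℝ =>
      ENNReal.ofReal (ω ^ 2 / (1 + ω ^ 2) ^ 2 * Q4 r (3 * ω / 2) * Dr r (3 * t * ω / 2))) := by
    apply Measurable.ennreal_ofReal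
    apply Continuous.measurable
    refine Continuous.mul (Continuous.mul ?_ (hQc.comp (by fun_prop))) (hDc.comp (by fun_prop))
    exact Continuous.div (by fun_prop) (by fun_prop) (fun p => by positivity)
  calc ∫⁻ t in Icc u v, Nr b r t
      ≤ ∫⁻ t in Icc u v, ENNReal.ofReal (K1 * 4 ^ r) *
          ∫⁻ ω, ENNReal.ofReal (ω ^ 2 / (1 + ω ^ 2) ^ 2 * Q4 r (3 * ω / 2) *
            Dr r (3 * t * ω / 2)) := by
        apply setLIntegral_mono' measurableSet_Icc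
        intro t ht
        exact hN b t hb (hu.trans ht.1) (ht.2.trans hv) r
    _ = ENNReal.ofReal (K1 * 4 ^ r) * ∫⁻ t in Icc u v,
          ∫⁻ ω, ENNReal.ofReal (ω ^ 2 / (1 + ω ^ 2) ^ 2 * Q4 r (3 * ω / 2) *
            Dr r (3 * t * ω / 2)) := lintegral_const_mul' _ _ ENNReal.ofReal_ne_top
    _ = ENNReal.ofReal (K1 * 4 ^ r) * ∫⁻ ω, ∫⁻ t in Icc u v,
          ENNReal.ofReal (ω ^ 2 / (1 + ω ^ 2) ^ 2 * Q4 r (3 * ω / 2) *
            Dr r (3 * t * ω / 2)) := by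
        rw [lintegral_lintegral_swap hm.aemeasurable]
    _ ≤ ENNReal.ofReal (K1 * 4 ^ r) * ∫⁻ ω : ℝ,
          ENNReal.ofReal (5 * B) * ENNReal.ofReal (Q4 r (3 * ω / 2) * (1 + ω ^ 2)⁻¹) := by
        gcongr with ω
        have hq : 0 ≤ ω ^ 2 / (1 + ω ^ 2) ^ 2 * Q4 r (3 * ω / 2) :=
          mul_nonneg (by positivity) (Q4_nonneg r _)
        have e1 : ∀ t : ℝ, ENNReal.ofReal (ω ^ 2 / (1 + ω ^ 2) ^ 2 * Q4 r (3 * ω / 2) *
            Dr r (3 * t * ω / 2)) = ENNReal.ofReal (ω ^ 2 / (1 + ω ^ 2) ^ 2 * Q4 r (3 * ω / 2)) *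
              ENNReal.ofReal (Dr r (3 * t * ω / 2)) := fun t => ENNReal.ofReal_mul hq
        simp only [e1]
        rw [lintegral_const_mul' _ _ ENNReal.ofReal_ne_top]
        by_cases hω : ω = 0
        · subst hω
          simp
        · refine (mul_le_mul_right (tint K2 hK2 hS j r hj u v huv hlen ω hω) _).trans ?_
          rw [← ENNReal.ofReal_mul hq, ← ENNReal.ofReal_mul (by positivity)]
          apply ENNReal.ofReal_le_ofReal
          have hω' : 0 < |ω| := abs_pos.2 hω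
          have h1 : ω ^ 2 / (1 + ω ^ 2) ^ 2 * (2 / (3 * |ω|) * (6 * |ω| + 1)) ≤
              5 * (1 + ω ^ 2)⁻¹ := by
            have hsq : ω ^ 2 = |ω| ^ 2 := (sq_abs ω).symm
            rw [hsq]
            set a := |ω| with ha
            have e2 : a ^ 2 / (1 + a ^ 2) ^ 2 * (2 / (3 * a) * (6 * a + 1)) =
                (2 / 3 * a * (6 * a + 1)) / (1 + a ^ 2) ^ 2 := by
              field_simp
            rw [e2, ← div_eq_mul_inv, div_le_div_iff₀ (by positivity) (by positivity)]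
            have h2 : 2 / 3 * a * (6 * a + 1) ≤ 5 * (1 + a ^ 2) := by
              nlinarith [sq_nonneg (a - 1)]
            calc 2 / 3 * a * (6 * a + 1) * (1 + a ^ 2) ≤ 5 * (1 + a ^ 2) * (1 + a ^ 2) :=
                  mul_le_mul_of_nonneg_right h2 (by positivity)
              _ = 5 * (1 + a ^ 2) ^ 2 := by ring
          have h3 := mul_le_mul_of_nonneg_right h1 (mul_nonneg hB0 (Q4_nonneg r (3 * ω / 2)))
          calc ω ^ 2 / (1 + ω ^ 2) ^ 2 * Q4 r (3 * ω / 2) * (2 / (3 * |ω|) * ((6 * |ω| + 1) * B))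
              = ω ^ 2 / (1 + ω ^ 2) ^ 2 * (2 / (3 * |ω|) * (6 * |ω| + 1)) *
                  (B * Q4 r (3 * ω / 2)) := by ring
            _ ≤ 5 * (1 + ω ^ 2)⁻¹ * (B * Q4 r (3 * ω / 2)) := h3
            _ = 5 * B * (Q4 r (3 * ω / 2) * (1 + ω ^ 2)⁻¹) := by ring
    _ = ENNReal.ofReal (K1 * 4 ^ r) * (ENNReal.ofReal (5 * B) *
          ∫⁻ ω : ℝ, ENNReal.ofReal (Q4 r (3 * ω / 2) * (1 + ω ^ 2)⁻¹)) := by
        rw [lintegral_const_mul' _ _ ENNReal.ofReal_ne_top]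
    _ ≤ ENNReal.ofReal (K1 * 4 ^ r) * (ENNReal.ofReal (5 * B) *
          ENNReal.ofReal (3 * (Real.pi * (5 / 3 * (K2 * (3 / 8) ^ r))))) := by
        gcongr
        exact cauchy K2 hK2 hS r
    _ = ENNReal.ofReal (K1 * 5 * K2 * (3 * (Real.pi * (5 / 3 * K2))) * (2 / 3) ^ j *
          (9 / 16) ^ r) := by
        rw [← ENNReal.ofReal_mul (by positivity), ← ENNReal.ofReal_mul (by positivity)]
        congr 1
        have e5 : (9 / 16 : ℝ) ^ r = 4 ^ r * (3 / 8) ^ r * (3 / 8) ^ r := by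
          rw [← mul_pow, ← mul_pow]
          norm_num
        rw [e5, hB]
        ring

end Pool.Agent.FCQ
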