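import Pool.Agent.FCQ.Stmts

/-!
# Four corner Cantor sets: the first recursion (module REC1)
-/

set_option autoImplicit false

namespace Pool.Agent.FCQ

open MeasureTheory Set

namespace REC1

theorem ell_pos (n : ℕ) : 0 < ell n := by
  unfold ell
  positivity

theorem ell_anti {m n : ℕ} (h : m ≤ n) : ell n ≤ ell m := by
  unfold ell
  apply one_div_le_one_div_of_le (by positivity)
  exact mul_le_mul_of_nonneg_left (pow_le_pow_right₀ (by norm_num) h) (by norm_num)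

/-- the recursion for the integrals -/
theorem main {C : ℝ} (hC : 0 < C)
    (hW : ∀ (b : ℝ) (i j n0 : ℕ) (u v K G : ℝ), Dat b i j n0 u v K G →
      ∀ (n r : ℕ) (t0 : ℝ), 1 ≤ r → r ≤ n → t0 ∈ Icc u v →
        ∫⁻ t in Iw u v t0 (ell (n + i)), (ENNReal.ofReal (E b i (n + r) t)) ^ (-(2 : ℝ)) ≤
          ENNReal.ofReal (C / 4 ^ (n + i) * (K * G ^ r)) *
            (ENNReal.ofReal (E b i n t0)) ^ (-(2 : ℝ)))
    (hCov : Stmt_COVW) (hF : Stmt_FINX) {b : ℝ} {i j n0 : ℕ} {u v K G : ℝ}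
    (hD : Dat b i j n0 u v K G) {n r : ℕ} (hn : n0 ≤ n) (hr : 1 ≤ r) (hrn : r ≤ n) :
    X b i u v 2 (n + r) ≤ ENNReal.ofReal (256 * C * (K * G ^ r)) * X b i u v 2 n := by
  have hcr : Continuous (E b i (n + r)) := (hF b i j n0 u v K G hD (n + r) (by omega)).1
  have hcn : Continuous (E b i n) := (hF b i j n0 u v K G hD n (hr.trans hrn)).1
  have hK := hD.hK
  have hG := hD.hG
  have hG0 : 0 ≤ G ^ r := pow_nonneg (by linarith) r
  have hl0 := ell_pos (n + i)
  have hl : ell (n + i) ≤ v - u := (ell_anti (by omega : n0 + i ≤ n + i)).trans hD.len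
  have hm : Measurable (fun t => (ENNReal.ofReal (E b i (n + r) t)) ^ (-(2 : ℝ))) :=
    hcr.measurable.ennreal_ofReal.pow_const _
  have hm' : Measurable (fun t => (ENNReal.ofReal (E b i n t)) ^ (-(2 : ℝ))) :=
    hcn.measurable.ennreal_ofReal.pow_const _
  have h1 := hCov _ u v (ell (n + i)) hm hl0 hl
  have h2 : ∫⁻ t0 in Icc u v, ∫⁻ t in Iw u v t0 (ell (n + i)),
      (ENNReal.ofReal (E b i (n + r) t)) ^ (-(2 : ℝ)) ≤
      ∫⁻ t0 in Icc u v, ENNReal.ofReal (C / 4 ^ (n + i) * (K * G ^ r)) *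
        (ENNReal.ofReal (E b i n t0)) ^ (-(2 : ℝ)) :=
    setLIntegral_mono' measurableSet_Icc fun t0 ht0 => hW b i j n0 u v K G hD n r t0 hr hrn ht0
  rw [lintegral_const_mul _ hm'] at h2
  have h3 : ENNReal.ofReal (ell (n + i)) * X b i u v 2 (n + r) ≤
      ENNReal.ofReal (C / 4 ^ (n + i) * (K * G ^ r)) * X b i u v 2 n := h1.trans h2
  have h4 : ENNReal.ofReal (C / 4 ^ (n + i) * (K * G ^ r)) =
      ENNReal.ofReal (ell (n + i)) * ENNReal.ofReal (256 * C * (K * G ^ r)) := by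
    rw [← ENNReal.ofReal_mul hl0.le]
    congr 1
    unfold ell
    field_simp
  rw [h4, mul_assoc] at h3
  exact (ENNReal.mul_le_mul_iff_right (ENNReal.ofReal_pos.2 hl0).ne' ENNReal.ofReal_ne_top).1 h3

end REC1

theorem REC1_thm (hW : Stmt_W2) (hCov : Stmt_COVW) (hF : Stmt_FINX) : Stmt_REC1 := by
  obtain ⟨C, hC, hW⟩ := hW
  refine ⟨max 1 (256 * C), le_max_left _ _, ?_⟩
  intro b i j n0 u v K G hD n r hn hr hrn
  have hK := hD.hK
  have hG := hD.hG
  have hG0 : 0 ≤ G ^ r := pow_nonneg (by linarith) r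
  have hfin := (hF b i j n0 u v K G hD n (hr.trans hrn)).2.2.1
  have h1 := REC1.main hC hW hCov hF hD hn hr hrn
  have h2 := ENNReal.toReal_mono (ENNReal.mul_ne_top ENNReal.ofReal_ne_top hfin) h1
  rw [ENNReal.toReal_mul, ENNReal.toReal_ofReal (by positivity)] at h2
  refine h2.trans ?_
  have h3 : 0 ≤ Xr b i u v 2 n := ENNReal.toReal_nonneg
  have h4 : 256 * C * (K * G ^ r) ≤ max 1 (256 * C) * K * G ^ r := by
    rw [mul_assoc (max 1 (256 * C)) K]
    exact mul_le_mul_of_nonneg_right (le_max_right _ _) (by positivity)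
  exact mul_le_mul_of_nonneg_right h4 h3

end Pool.Agent.FCQ
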