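import Pool.Agent.FCQ.Stmts

/-!
# Module REC2
-/

set_option autoImplicit false

namespace Pool.Agent.FCQ

open MeasureTheory Set

namespace REC2

theorem anti {a b : ℝ} (hab : a ≤ b) {p : ℝ} (hp : 0 ≤ p) :
    (ENNReal.ofReal b) ^ (-p) ≤ (ENNReal.ofReal a) ^ (-p) := by
  rw [ENNReal.rpow_neg, ENNReal.rpow_neg]
  exact ENNReal.inv_le_inv.2 (ENNReal.rpow_le_rpow (ENNReal.ofReal_le_ofReal hab) hp)

/-- The pointwise inequality. -/
theorem pw (a w δ : ℝ) (hδ : 0 < δ) (hδ2 : δ ≤ 1 / 2) :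
    (ENNReal.ofReal a) ^ (-(101 / 200) : ℝ) ≤
      ENNReal.ofReal (1 + 2 * δ) * (ENNReal.ofReal w) ^ (-(101 / 200) : ℝ) +
      ENNReal.ofReal (1 / δ) * ((ENNReal.ofReal a) ^ (-(101 / 200) : ℝ) *
        (ENNReal.ofReal |a - w|) ^ (299 / 400 : ℝ) * (ENNReal.ofReal w) ^ (-(299 / 400) : ℝ)) := by
  rcases le_or_gt w 0 with hw | hw
  · rw [ENNReal.ofReal_of_nonpos hw, ENNReal.zero_rpow_of_neg (by norm_num : (-(101 / 200) : ℝ) < 0),
      ENNReal.mul_top (by
        rw [Ne, ENNReal.ofReal_eq_zero, not_le]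
        positivity), top_add]
    exact le_top
  · by_cases hc : |a - w| ≤ δ * w
    · refine le_trans ?_ le_self_add
      have ha : (1 - δ) * w ≤ a := by
        have := abs_le.1 hc
        linarith [this.1]
      have h1 : (0 : ℝ) < 1 - δ := by linarith
      refine le_trans (anti ha (by norm_num)) ?_
      rw [ENNReal.ofReal_rpow_of_pos (mul_pos h1 hw), ENNReal.ofReal_rpow_of_pos hw,
        ← ENNReal.ofReal_mul (by linarith)]
      refine ENNReal.ofReal_le_ofReal ?_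
      rw [Real.mul_rpow h1.le hw.le]
      refine mul_le_mul_of_nonneg_right ?_ (Real.rpow_nonneg hw.le _)
      calc (1 - δ) ^ (-(101 / 200) : ℝ) ≤ (1 - δ) ^ (-1 : ℝ) :=
            Real.rpow_le_rpow_of_exponent_ge h1 (by linarith) (by norm_num)
        _ = (1 - δ)⁻¹ := Real.rpow_neg_one _
        _ ≤ 1 + 2 * δ := by
            rw [inv_le_iff_one_le_mul₀ h1]
            nlinarith
    · push Not at hc
      refine le_trans ?_ le_add_self
      have h2 : 1 ≤ ENNReal.ofReal (1 / δ) * ((ENNReal.ofReal |a - w|) ^ (299 / 400 : ℝ) *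
          (ENNReal.ofReal w) ^ (-(299 / 400) : ℝ)) := by
        have h3 : 0 < |a - w| := lt_of_le_of_lt (by positivity) hc
        rw [ENNReal.ofReal_rpow_of_pos h3, ENNReal.ofReal_rpow_of_pos hw,
          ← ENNReal.ofReal_mul (by positivity), ← ENNReal.ofReal_mul (by positivity)]
        rw [← ENNReal.ofReal_one]
        refine ENNReal.ofReal_le_ofReal ?_
        have h4 : (δ * w) ^ (299 / 400 : ℝ) ≤ |a - w| ^ (299 / 400 : ℝ) :=
          Real.rpow_le_rpow (by positivity) hc.le (by norm_num)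
        have h5 : (δ * w) ^ (299 / 400 : ℝ) * w ^ (-(299 / 400) : ℝ) = δ ^ (299 / 400 : ℝ) := by
          rw [Real.mul_rpow hδ.le hw.le, mul_assoc, ← Real.rpow_add hw]
          norm_num
        have h6 : δ ≤ δ ^ (299 / 400 : ℝ) := by
          calc δ = δ ^ (1 : ℝ) := (Real.rpow_one _).symm
            _ ≤ δ ^ (299 / 400 : ℝ) :=
              Real.rpow_le_rpow_of_exponent_ge hδ (by linarith) (by norm_num)
        calc (1 : ℝ) = 1 / δ * δ := by field_simp
          _ ≤ 1 / δ * δ ^ (299 / 400 : ℝ) := mul_le_mul_of_nonneg_left h6 (by positivity)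
          _ = 1 / δ * ((δ * w) ^ (299 / 400 : ℝ) * w ^ (-(299 / 400) : ℝ)) := by rw [h5]
          _ ≤ 1 / δ * (|a - w| ^ (299 / 400 : ℝ) * w ^ (-(299 / 400) : ℝ)) := by
              refine mul_le_mul_of_nonneg_left ?_ (by positivity)
              exact mul_le_mul_of_nonneg_right h4 (Real.rpow_nonneg hw.le _)
      calc (ENNReal.ofReal a) ^ (-(101 / 200) : ℝ) = (ENNReal.ofReal a) ^ (-(101 / 200) : ℝ) * 1 :=
            (mul_one _).symm
        _ ≤ (ENNReal.ofReal a) ^ (-(101 / 200) : ℝ) * (ENNReal.ofReal (1 / δ) *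
            ((ENNReal.ofReal |a - w|) ^ (299 / 400 : ℝ) *
              (ENNReal.ofReal w) ^ (-(299 / 400) : ℝ))) := by gcongr
        _ = _ := by ring

/-! ### Measurability of the square norms -/

theorem contDiff_iter {φ : ℝ → ℝ} (h : ContDiff ℝ 1 φ) (n : ℕ) :
    ContDiff ℝ 1 fun p : ℝ × ℝ => (T p.1)^[n] φ p.2 := by
  induction n with
  | zero => exact h.comp contDiff_snd
  | succ n ih =>
    have : (fun p : ℝ × ℝ => (T p.1)^[n + 1] φ p.2) = fun p : ℝ × ℝ =>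
        ∑ a : Fin 3, ∑ b : Fin 3, wt a * wt b *
          (fun q : ℝ × ℝ => (T q.1)^[n] φ q.2) (p.1, 4 * p.2 - dv a - p.1 * dv b) := by
      funext p
      rw [iter_succ']
      rfl
    rw [this]
    refine ContDiff.sum fun a _ => ContDiff.sum fun b _ => contDiff_const.mul (ih.comp ?_)
    fun_prop

theorem contDiff_gr (b : ℝ) (r : ℕ) : ContDiff ℝ 1 fun p : ℝ × ℝ => gr b r p.2 p.1 := by
  have h : ContDiff ℝ 1 (Phi b) := by
    have := contDiff_Phi b 1
    exact_mod_cast this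
  exact (contDiff_iter h (r + 1)).sub (contDiff_iter h r)

theorem dgr_eq (b : ℝ) (r : ℕ) (p : ℝ × ℝ) : dgr b r p.2 p.1 =
    fderiv ℝ (fun p : ℝ × ℝ => gr b r p.2 p.1) p (1, 0) := by
  have h1 : HasFDerivAt (fun p : ℝ × ℝ => gr b r p.2 p.1)
      (fderiv ℝ (fun p : ℝ × ℝ => gr b r p.2 p.1) p) p :=
    ((contDiff_gr b r).differentiable (by norm_num) p).hasFDerivAt
  have h2 : HasDerivAt (fun τ : ℝ => ((τ, p.2) : ℝ × ℝ)) (1, 0) p.1 :=
    (hasDerivAt_id p.1).prodMk (hasDerivAt_const p.1 p.2)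
  have h3 := HasFDerivAt.comp_hasDerivAt (x := p.1) (f := fun τ : ℝ => ((τ, p.2) : ℝ × ℝ)) (l := fun p : ℝ × ℝ => gr b r p.2 p.1) (by simpa using h1) h2
  exact h3.deriv

theorem meas_Nr (b : ℝ) (r : ℕ) : Measurable (Nr b r) := by
  have h1 : Continuous fun p : ℝ × ℝ => gr b r p.2 p.1 := (contDiff_gr b r).continuous
  have h2 : Continuous fun p : ℝ × ℝ => dgr b r p.2 p.1 := by
    have : (fun p : ℝ × ℝ => dgr b r p.2 p.1) =
        fun p => fderiv ℝ (fun p : ℝ × ℝ => gr b r p.2 p.1) p (1, 0) := by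
      funext p
      exact dgr_eq b r p
    rw [this]
    exact ((contDiff_gr b r).continuous_fderiv (by norm_num)).clm_apply continuous_const
  have h3 : Measurable fun p : ℝ × ℝ =>
      ENNReal.ofReal (gr b r p.2 p.1 ^ 2 + dgr b r p.2 p.1 ^ 2 / 16 ^ r) :=
    ((h1.pow 2).add ((h2.pow 2).div_const _)).measurable.ennreal_ofReal
  exact h3.lintegral_prod_right'

/-! ### Averages over windows -/

theorem win_eq (f : ℝ → ENNReal) (h t0 : ℝ) : ∫⁻ τ in Icc (t0 - h) (t0 + h), f τ =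
    ∫⁻ τ, ({p : ℝ × ℝ | |p.2 - p.1| ≤ h}.indicator (fun p => f p.2)) (t0, τ) := by
  rw [← lintegral_indicator measurableSet_Icc]
  congr 1
  funext τ
  by_cases hτ : |τ - t0| ≤ h
  · have h1 := abs_le.1 hτ
    rw [indicator_of_mem (show τ ∈ Icc (t0 - h) (t0 + h) from ⟨by linarith, by linarith⟩),
      indicator_of_mem (show (t0, τ) ∈ {p : ℝ × ℝ | |p.2 - p.1| ≤ h} from hτ)]
  · rw [indicator_of_notMem (fun hm : τ ∈ Icc (t0 - h) (t0 + h) =>
        hτ (abs_le.2 ⟨by linarith [hm.1], by linarith [hm.2]⟩)),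
      indicator_of_notMem (show (t0, τ) ∉ {p : ℝ × ℝ | |p.2 - p.1| ≤ h} from hτ)]

theorem win_meas_aux (f : ℝ → ENNReal) (hf : Measurable f) (h : ℝ) :
    Measurable ({p : ℝ × ℝ | |p.2 - p.1| ≤ h}.indicator (fun p => f p.2)) := by
  refine (hf.comp measurable_snd).indicator ?_
  exact measurableSet_le (by fun_prop) measurable_const

theorem win_meas (f : ℝ → ENNReal) (hf : Measurable f) (h : ℝ) :
    Measurable fun t0 => ∫⁻ τ in Icc (t0 - h) (t0 + h), f τ := by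
  have : (fun t0 => ∫⁻ τ in Icc (t0 - h) (t0 + h), f τ) = fun t0 =>
      ∫⁻ τ, ({p : ℝ × ℝ | |p.2 - p.1| ≤ h}.indicator (fun p => f p.2)) (t0, τ) := by
    funext t0
    exact win_eq f h t0
  rw [this]
  exact (win_meas_aux f hf h).lintegral_prod_right'

theorem win_int (f : ℝ → ENNReal) (hf : Measurable f) (u v h : ℝ) :
    ∫⁻ t0 in Icc u v, ∫⁻ τ in Icc (t0 - h) (t0 + h), f τ ≤
      ENNReal.ofReal (2 * h) * ∫⁻ τ in Icc (u - h) (v + h), f τ := by
  have h1 : ∫⁻ t0 in Icc u v, ∫⁻ τ in Icc (t0 - h) (t0 + h), f τ =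
      ∫⁻ t0 in Icc u v, ∫⁻ τ,
        ({p : ℝ × ℝ | |p.2 - p.1| ≤ h}.indicator (fun p => f p.2)) (t0, τ) :=
    lintegral_congr fun t0 => win_eq f h t0
  rw [h1]
  have hsw := lintegral_lintegral_swap (μ := volume.restrict (Icc u v)) (ν := (volume : Measure ℝ))
    (f := fun t0 τ => ({p : ℝ × ℝ | |p.2 - p.1| ≤ h}.indicator (fun p => f p.2)) (t0, τ))
    (win_meas_aux f hf h).aemeasurable
  rw [hsw]
  have h2 : ∀ τ, ∫⁻ t0 in Icc u v,
      ({p : ℝ × ℝ | |p.2 - p.1| ≤ h}.indicator (fun p => f p.2)) (t0, τ) ≤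
      ENNReal.ofReal (2 * h) * (Icc (u - h) (v + h)).indicator f τ := by
    intro τ
    by_cases hτ : τ ∈ Icc (u - h) (v + h)
    · rw [indicator_of_mem hτ]
      calc ∫⁻ t0 in Icc u v, ({p : ℝ × ℝ | |p.2 - p.1| ≤ h}.indicator (fun p => f p.2)) (t0, τ)
          ≤ ∫⁻ t0, ({p : ℝ × ℝ | |p.2 - p.1| ≤ h}.indicator (fun p => f p.2)) (t0, τ) :=
            setLIntegral_le_lintegral _ _
        _ = ∫⁻ t0, (Icc (τ - h) (τ + h)).indicator (fun _ => f τ) t0 := by
            refine lintegral_congr fun t0 => ?_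
            by_cases ht : |τ - t0| ≤ h
            · have h3 := abs_le.1 ht
              rw [indicator_of_mem (show t0 ∈ Icc (τ - h) (τ + h) from ⟨by linarith, by linarith⟩),
                indicator_of_mem (show (t0, τ) ∈ {p : ℝ × ℝ | |p.2 - p.1| ≤ h} from ht)]
            · rw [indicator_of_notMem (fun hm : t0 ∈ Icc (τ - h) (τ + h) =>
                  ht (abs_le.2 ⟨by linarith [hm.2], by linarith [hm.1]⟩)),
                indicator_of_notMem (show (t0, τ) ∉ {p : ℝ × ℝ | |p.2 - p.1| ≤ h} from ht)]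
        _ = f τ * volume (Icc (τ - h) (τ + h)) := by
            rw [lintegral_indicator measurableSet_Icc, setLIntegral_const]
        _ = ENNReal.ofReal (2 * h) * f τ := by
            rw [Real.volume_Icc, mul_comm]
            congr 2
            ring
    · have h3 : ∫⁻ t0 in Icc u v,
          ({p : ℝ × ℝ | |p.2 - p.1| ≤ h}.indicator (fun p => f p.2)) (t0, τ) = 0 := by
        rw [← nonpos_iff_eq_zero]
        calc _ ≤ ∫⁻ t0 in Icc u v, (0 : ENNReal) := by
              refine setLIntegral_mono measurable_const fun t0 ht0 => ?_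
              rw [indicator_of_notMem]
              intro hm
              have h4 := abs_le.1 (show |τ - t0| ≤ h from hm)
              exact hτ ⟨by linarith [ht0.1], by linarith [ht0.2]⟩
          _ = 0 := by simp
      rw [h3]
      exact zero_le
  calc ∫⁻ τ, ∫⁻ t0 in Icc u v, ({p : ℝ × ℝ | |p.2 - p.1| ≤ h}.indicator (fun p => f p.2)) (t0, τ)
      ≤ ∫⁻ τ, ENNReal.ofReal (2 * h) * (Icc (u - h) (v + h)).indicator f τ := lintegral_mono h2
    _ = ENNReal.ofReal (2 * h) * ∫⁻ τ in Icc (u - h) (v + h), f τ := by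
        rw [lintegral_const_mul _ (hf.indicator measurableSet_Icc),
          lintegral_indicator measurableSet_Icc]

/-! ### The three function inequality -/

theorem holder3 (μ : Measure ℝ) (e Λ : ℝ → ENNReal) (he : Measurable e) (hΛ : Measurable Λ) :
    ∫⁻ t, (e t) ^ (-(101 / 200) : ℝ) * (Λ t) ^ (299 / 800 : ℝ) ∂μ ≤
      (∫⁻ t, (e t) ^ (-(101 / 200) : ℝ) ∂μ) ^ (1 / 2 : ℝ) *
      (∫⁻ t, (e t) ^ (-2 : ℝ) ∂μ) ^ (101 / 800 : ℝ) * (∫⁻ t, Λ t ∂μ) ^ (299 / 800 : ℝ) := by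
  have h := ENNReal.lintegral_prod_norm_pow_le (μ := μ) (Finset.univ : Finset (Fin 3))
    (f := ![fun t => (e t) ^ (-(101 / 200) : ℝ), fun t => (e t) ^ (-2 : ℝ), Λ])
    (by
      intro i _
      fin_cases i
      · exact (he.pow_const _).aemeasurable
      · exact (he.pow_const _).aemeasurable
      · exact hΛ.aemeasurable)
    (p := ![1 / 2, 101 / 800, 299 / 800])
    (by simp [Fin.sum_univ_three]; norm_num)
    (by
      intro i _
      fin_cases i <;> norm_num)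
  simp only [Fin.prod_univ_three, Matrix.cons_val_zero, Matrix.cons_val_one,
    Matrix.cons_val_two] at h
  refine le_trans (le_of_eq ?_) h
  refine lintegral_congr fun t => ?_
  congr 1
  rw [← ENNReal.rpow_mul, ← ENNReal.rpow_mul]
  have e1 : (-(101 / 200) : ℝ) * (1 / 2) = -(101 / 400) := by norm_num
  have e2 : (-2 : ℝ) * (101 / 800) = -(101 / 400) := by norm_num
  rw [e1, e2, ← sq, ← ENNReal.rpow_natCast, ← ENNReal.rpow_mul]
  norm_num

/-! ### The recursion in `ENNReal` -/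

/-- The bad part. -/
noncomputable def bad (b : ℝ) (i n r : ℕ) (t : ℝ) : ENNReal :=
  (ENNReal.ofReal (E b i (n + r + 1) t)) ^ (-(101 / 200) : ℝ) *
    (ENNReal.ofReal |E b i (n + r + 1) t - E b i (n + r) t|) ^ (299 / 400 : ℝ) *
    (ENNReal.ofReal (E b i (n + r) t)) ^ (-(299 / 400) : ℝ)

theorem bad_meas (b : ℝ) (i n r : ℕ) (h1 : Continuous (E b i (n + r + 1)))
    (h2 : Continuous (E b i (n + r))) : Measurable (bad b i n r) := by
  unfold bad
  exact ((h1.measurable.ennreal_ofReal.pow_const _).mul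
    ((h1.sub h2).abs.measurable.ennreal_ofReal.pow_const _)).mul
    (h2.measurable.ennreal_ofReal.pow_const _)

theorem step1 (b : ℝ) (i n r : ℕ) (u v δ : ℝ) (hδ : 0 < δ) (hδ2 : δ ≤ 1 / 2)
    (h1 : Continuous (E b i (n + r + 1))) (h2 : Continuous (E b i (n + r))) :
    X b i u v (101 / 200) (n + r + 1) ≤ ENNReal.ofReal (1 + 2 * δ) * X b i u v (101 / 200) (n + r) +
      ENNReal.ofReal (1 / δ) * ∫⁻ t in Icc u v, bad b i n r t := by
  unfold X
  rw [← lintegral_const_mul _ (h2.measurable.ennreal_ofReal.pow_const _),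
    ← lintegral_const_mul _ (bad_meas b i n r h1 h2), ← lintegral_add_left
      ((h2.measurable.ennreal_ofReal.pow_const _).const_mul _)]
  exact lintegral_mono fun t => pw _ _ δ hδ hδ2

theorem lam_int (C' b : ℝ) (j r : ℕ) (u v : ℝ) (hb : b = 7 / 5 ∨ b = 169 / 100) (hj : j ≤ r)
    (hr : 1 ≤ r) (hu : 1 / 2 ≤ u) (huv : u ≤ v) (hv : v ≤ 1) (hl : v - u ≤ 2 / 4 ^ j)
    (hrat : ∀ (b : ℝ) (j r : ℕ) (u v : ℝ),
      b = 7 / 5 ∨ b = 169 / 100 → j ≤ r → 1 / 4 ≤ u → u ≤ v → v ≤ 5 / 4 → v - u ≤ 4 / 4 ^ j →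
      ∫⁻ t in Icc u v, Nr b r t ≤ ENNReal.ofReal (C' * (2 / 3) ^ j * (9 / 16) ^ r)) :
    ∫⁻ t0 in Icc u v, (ENNReal.ofReal (4 ^ r) *
      ∫⁻ τ in Icc (t0 - 1 / 4 ^ r) (t0 + 1 / 4 ^ r), Nr b r τ) ≤
      ENNReal.ofReal (2 * (C' * (2 / 3) ^ j * (9 / 16) ^ r)) := by
  have h4 : (0 : ℝ) < 4 ^ r := by positivity
  have hh : (1 : ℝ) / 4 ^ r ≤ 1 / 4 := by
    rw [div_le_div_iff₀ h4 (by norm_num), one_mul, one_mul]
    calc (4 : ℝ) = 4 ^ 1 := (pow_one _).symm
      _ ≤ 4 ^ r := pow_le_pow_right₀ (by norm_num) hr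
  have hh0 : (0 : ℝ) < 1 / 4 ^ r := by positivity
  have hhj : (2 : ℝ) * (1 / 4 ^ r) ≤ 2 / 4 ^ j := by
    rw [mul_one_div]
    exact div_le_div_of_nonneg_left (by norm_num) (by positivity)
      (pow_le_pow_right₀ (by norm_num) hj)
  have e4 : (4 : ℝ) / 4 ^ j = 2 / 4 ^ j + 2 / 4 ^ j := by ring
  rw [lintegral_const_mul _ (win_meas _ (meas_Nr b r) _)]
  calc ENNReal.ofReal (4 ^ r) * ∫⁻ t0 in Icc u v,
        ∫⁻ τ in Icc (t0 - 1 / 4 ^ r) (t0 + 1 / 4 ^ r), Nr b r τ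
      ≤ ENNReal.ofReal (4 ^ r) * (ENNReal.ofReal (2 * (1 / 4 ^ r)) *
          ∫⁻ τ in Icc (u - 1 / 4 ^ r) (v + 1 / 4 ^ r), Nr b r τ) := by
        gcongr
        exact win_int _ (meas_Nr b r) u v _
    _ ≤ ENNReal.ofReal (4 ^ r) * (ENNReal.ofReal (2 * (1 / 4 ^ r)) *
          ENNReal.ofReal (C' * (2 / 3) ^ j * (9 / 16) ^ r)) := by
        gcongr
        exact hrat b j r _ _ hb hj (by linarith) (by linarith) (by linarith) (by linarith)
    _ = ENNReal.ofReal (2 * (C' * (2 / 3) ^ j * (9 / 16) ^ r)) := by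
        rw [← mul_assoc, ← ENNReal.ofReal_mul h4.le, ← ENNReal.ofReal_mul (by positivity)]
        congr 1
        field_simp

end REC2

theorem REC2_thm (hlocb : Stmt_LOCB) (hcovw : Stmt_COVW) (hrate : Stmt_RATE) (hfinx : Stmt_FINX) :
    Stmt_REC2 := by
  obtain ⟨C, hC, hloc⟩ := hlocb
  obtain ⟨C', hC', hrat⟩ := hrate
  refine ⟨max 1 (256 * C * (2 * C') ^ (299 / 800 : ℝ)), le_max_left _ _, ?_⟩
  intro b i j n0 u v K G D n r δ hn0 hjr hr hrn hδ hδ2
  have hn1 : 1 ≤ n := D.hn.trans hn0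
  obtain ⟨-, -, -, -, -, -⟩ := hfinx b i j n0 u v K G D n hn1
  obtain ⟨cn, xs, x2, -, -, -⟩ := hfinx b i j n0 u v K G D n hn1
  obtain ⟨c1, y1, -, -, -, -⟩ := hfinx b i j n0 u v K G D (n + r + 1) (by omega)
  obtain ⟨c2, y2, -, -, -, -⟩ := hfinx b i j n0 u v K G D (n + r) (by omega)
  have hlen : 0 < v - u := lt_of_lt_of_le (by positivity) D.len
  have huv : u ≤ v := by linarith
  have hu : 1 / 2 ≤ u := by
    rcases D.rg u ⟨le_refl _, huv⟩ with h | h <;> linarith [h.2.1]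
  have hv : v ≤ 1 := by
    rcases D.rg v ⟨huv, le_refl _⟩ with h | h <;> linarith [h.2.2]
  have hb : b = 7 / 5 ∨ b = 169 / 100 := by
    rcases D.rg u ⟨le_refl _, huv⟩ with h | h
    · exact Or.inl h.1
    · exact Or.inr h.1
  have hK0 : 0 ≤ K * G ^ (r + 1) := by
    have := D.hK
    have := D.hG
    positivity
  set P : ℝ := (K * G ^ (r + 1)) ^ (501 / 800 : ℝ) with hP
  have hP0 : 0 ≤ P := Real.rpow_nonneg hK0 _
  set q : ℝ := (2 / 3) ^ j * (9 / 16) ^ r with hq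
  have hq0 : 0 < q := by positivity
  -- the bad part
  have hl : 0 < ell (n + i) := by unfold ell; positivity
  have hl2 : ell (n + i) ≤ v - u := by
    refine le_trans ?_ D.len
    unfold ell
    refine div_le_div_of_nonneg_left (by norm_num) (by positivity) ?_
    exact mul_le_mul_of_nonneg_left (pow_le_pow_right₀ (by norm_num) (by omega)) (by norm_num)
  have hbm := REC2.bad_meas b i n r c1 c2
  have k1 := hcovw (REC2.bad b i n r) u v (ell (n + i)) hbm hl hl2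
  have k2 : ∫⁻ t0 in Icc u v, ∫⁻ t in Iw u v t0 (ell (n + i)), REC2.bad b i n r t ≤
      ENNReal.ofReal (C / 4 ^ (n + i) * P) * ∫⁻ t0 in Icc u v,
        (ENNReal.ofReal (E b i n t0)) ^ (-(101 / 200) : ℝ) *
        (ENNReal.ofReal (4 ^ r) *
          ∫⁻ τ in Icc (t0 - 1 / 4 ^ r) (t0 + 1 / 4 ^ r), Nr b r τ) ^ (299 / 800 : ℝ) := by
    rw [← lintegral_const_mul]
    · refine setLIntegral_mono' measurableSet_Icc fun t0 ht0 => ?_
      refine le_trans (hloc b i j n0 u v K G D n r t0 hr hrn ht0) (le_of_eq ?_)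
      rw [mul_assoc]
    · exact (cn.measurable.ennreal_ofReal.pow_const _).mul
        (((REC2.win_meas _ (REC2.meas_Nr b r) _).const_mul _).pow_const _)
  have k3 := REC2.holder3 (volume.restrict (Icc u v)) (fun t => ENNReal.ofReal (E b i n t))
    (fun t0 => ENNReal.ofReal (4 ^ r) *
      ∫⁻ τ in Icc (t0 - 1 / 4 ^ r) (t0 + 1 / 4 ^ r), Nr b r τ)
    cn.measurable.ennreal_ofReal ((REC2.win_meas _ (REC2.meas_Nr b r) _).const_mul _)
  have k4 := REC2.lam_int C' b j r u v hb hjr hr hu huv hv D.len' hrat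
  have e1 : C' * (2 / 3) ^ j * (9 / 16) ^ r = C' * q := by rw [hq]; ring
  rw [e1] at k4
  have X1 : X b i u v (101 / 200) n = ENNReal.ofReal (Xr b i u v (101 / 200) n) :=
    (ENNReal.ofReal_toReal xs).symm
  have X2 : X b i u v 2 n = ENNReal.ofReal (Xr b i u v 2 n) := (ENNReal.ofReal_toReal x2).symm
  have X3 : X b i u v (101 / 200) (n + r + 1) =
      ENNReal.ofReal (Xr b i u v (101 / 200) (n + r + 1)) := (ENNReal.ofReal_toReal y1).symm
  have X4 : X b i u v (101 / 200) (n + r) =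
      ENNReal.ofReal (Xr b i u v (101 / 200) (n + r)) := (ENNReal.ofReal_toReal y2).symm
  have n1 : 0 ≤ Xr b i u v (101 / 200) n := ENNReal.toReal_nonneg
  have n2 : 0 ≤ Xr b i u v 2 n := ENNReal.toReal_nonneg
  have n3 : 0 ≤ Xr b i u v (101 / 200) (n + r) := ENNReal.toReal_nonneg
  have k5 : ∫⁻ t0 in Icc u v, (ENNReal.ofReal (E b i n t0)) ^ (-(101 / 200) : ℝ) *
        (ENNReal.ofReal (4 ^ r) *
          ∫⁻ τ in Icc (t0 - 1 / 4 ^ r) (t0 + 1 / 4 ^ r), Nr b r τ) ^ (299 / 800 : ℝ) ≤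
      ENNReal.ofReal (Xr b i u v (101 / 200) n ^ (1 / 2 : ℝ) * Xr b i u v 2 n ^ (101 / 800 : ℝ) *
        (2 * (C' * q)) ^ (299 / 800 : ℝ)) := by
    refine le_trans k3 ?_
    have r1 : (∫⁻ t in Icc u v, (ENNReal.ofReal (E b i n t)) ^ (-(101 / 200) : ℝ)) ^ (1 / 2 : ℝ) =
        ENNReal.ofReal (Xr b i u v (101 / 200) n ^ (1 / 2 : ℝ)) := by
      rw [← ENNReal.ofReal_rpow_of_nonneg n1 (by norm_num), ← X1]
      rfl
    have r2 : (∫⁻ t in Icc u v, (ENNReal.ofReal (E b i n t)) ^ (-2 : ℝ)) ^ (101 / 800 : ℝ) =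
        ENNReal.ofReal (Xr b i u v 2 n ^ (101 / 800 : ℝ)) := by
      rw [← ENNReal.ofReal_rpow_of_nonneg n2 (by norm_num), ← X2]
      rfl
    have r3 : (∫⁻ t0 in Icc u v, (ENNReal.ofReal (4 ^ r) *
        ∫⁻ τ in Icc (t0 - 1 / 4 ^ r) (t0 + 1 / 4 ^ r), Nr b r τ)) ^ (299 / 800 : ℝ) ≤
        ENNReal.ofReal ((2 * (C' * q)) ^ (299 / 800 : ℝ)) := by
      rw [← ENNReal.ofReal_rpow_of_nonneg (by positivity) (by norm_num)]
      exact ENNReal.rpow_le_rpow k4 (by norm_num)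
    rw [r1, r2, ENNReal.ofReal_mul (by positivity), ENNReal.ofReal_mul (by positivity)]
    gcongr
  set R : ℝ := Xr b i u v (101 / 200) n ^ (1 / 2 : ℝ) * Xr b i u v 2 n ^ (101 / 800 : ℝ) *
        (2 * (C' * q)) ^ (299 / 800 : ℝ) with hR
  have hR0 : 0 ≤ R := by positivity
  have k6 : ∫⁻ t in Icc u v, REC2.bad b i n r t ≤ ENNReal.ofReal (256 * C * P * R) := by
    have a1 : ENNReal.ofReal (ell (n + i)) * ∫⁻ t in Icc u v, REC2.bad b i n r t ≤
        ENNReal.ofReal (ell (n + i)) * ENNReal.ofReal (256 * C * P * R) := by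
      refine k1.trans (k2.trans ?_)
      calc ENNReal.ofReal (C / 4 ^ (n + i) * P) * _ ≤
            ENNReal.ofReal (C / 4 ^ (n + i) * P) * ENNReal.ofReal R := by gcongr
        _ = _ := by
            rw [← ENNReal.ofReal_mul (by positivity), ← ENNReal.ofReal_mul hl.le]
            congr 1
            unfold ell
            field_simp
    have a0 : ENNReal.ofReal (ell (n + i)) ≠ 0 := by
      rw [Ne, ENNReal.ofReal_eq_zero, not_le]
      exact hl
    exact (ENNReal.mul_le_mul_iff_right a0 ENNReal.ofReal_ne_top).1 a1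
  have k7 := REC2.step1 b i n r u v δ hδ hδ2 c1 c2
  rw [X3, X4] at k7
  have k8 : ENNReal.ofReal (Xr b i u v (101 / 200) (n + r + 1)) ≤
      ENNReal.ofReal ((1 + 2 * δ) * Xr b i u v (101 / 200) (n + r) +
        1 / δ * (256 * C * P * R)) := by
    refine k7.trans ?_
    have s1 : ENNReal.ofReal ((1 + 2 * δ) * Xr b i u v (101 / 200) (n + r) +
        1 / δ * (256 * C * P * R)) =
        ENNReal.ofReal (1 + 2 * δ) * ENNReal.ofReal (Xr b i u v (101 / 200) (n + r)) +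
        ENNReal.ofReal (1 / δ) * ENNReal.ofReal (256 * C * P * R) := by
      rw [ENNReal.ofReal_add (by positivity) (by positivity),
        ENNReal.ofReal_mul (p := 1 + 2 * δ) (by positivity),
        ENNReal.ofReal_mul (p := 1 / δ) (by positivity)]
    rw [s1]
    gcongr
  have k9 := (ENNReal.ofReal_le_ofReal_iff (by positivity)).1 k8
  refine k9.trans ?_
  have f1 : 1 / δ * (256 * C * P * R) = (256 * C * (2 * C') ^ (299 / 800 : ℝ)) / δ * P *
      q ^ (299 / 800 : ℝ) * Xr b i u v (101 / 200) n ^ (1 / 2 : ℝ) *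
        Xr b i u v 2 n ^ (101 / 800 : ℝ) := by
    have : (2 * (C' * q)) ^ (299 / 800 : ℝ) = (2 * C') ^ (299 / 800 : ℝ) * q ^ (299 / 800 : ℝ) := by
      rw [← mul_assoc, Real.mul_rpow (by positivity) hq0.le]
    rw [hR, this]
    ring
  rw [f1]
  gcongr
  exact le_max_right _ _

end Pool.Agent.FCQ
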