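import Pool.Agent.FCQ.Stmts

/-!
# REC3: the recursion from one level to the next
-/

set_option autoImplicit false

namespace Pool.Agent.FCQ

open MeasureTheory Set

namespace REC3

theorem Xr_nonneg (b : ℝ) (i : ℕ) (u v γ : ℝ) (n : ℕ) : 0 ≤ Xr b i u v γ n :=
  ENNReal.toReal_nonneg

/-- the growth factor -/
theorem grow {K G : ℝ} (hK : 1 ≤ K) (hG : 1 ≤ G) {r N : ℕ} (h : r + 1 ≤ N) :
    (K * G ^ (r + 1)) ^ (501 / 800 : ℝ) ≤ (K * G ^ N) ^ (501 / 800 : ℝ) := by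
  have hG0 : (0 : ℝ) ≤ G := by linarith
  refine Real.rpow_le_rpow (by positivity) ?_ (by norm_num)
  exact mul_le_mul_of_nonneg_left (pow_le_pow_right₀ hG h) (by linarith)

/-- the decay factor -/
theorem decay (j : ℕ) {r N : ℕ} (h : N ≤ r + 2) :
    ((2 / 3 : ℝ) ^ j * (9 / 16) ^ r) ^ (299 / 800 : ℝ) ≤
      4 * ((2 / 3 : ℝ) ^ j * (9 / 16) ^ N) ^ (299 / 800 : ℝ) := by
  have h1 : (9 / 16 : ℝ) ^ r ≤ 256 / 81 * (9 / 16) ^ N := by
    have h2 : (9 / 16 : ℝ) ^ (r + 2) ≤ (9 / 16) ^ N :=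
      pow_le_pow_of_le_one (by norm_num) (by norm_num) h
    rw [pow_add] at h2
    nlinarith
  have h3 : (0 : ℝ) ≤ (2 / 3 : ℝ) ^ j := by positivity
  calc ((2 / 3 : ℝ) ^ j * (9 / 16) ^ r) ^ (299 / 800 : ℝ) ≤
      (256 / 81 * ((2 / 3 : ℝ) ^ j * (9 / 16) ^ N)) ^ (299 / 800 : ℝ) := by
        refine Real.rpow_le_rpow (by positivity) ?_ (by norm_num)
        calc (2 / 3 : ℝ) ^ j * (9 / 16) ^ r ≤ (2 / 3 : ℝ) ^ j * (256 / 81 * (9 / 16) ^ N) :=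
              mul_le_mul_of_nonneg_left h1 h3
          _ = 256 / 81 * ((2 / 3 : ℝ) ^ j * (9 / 16) ^ N) := by ring
    _ = (256 / 81 : ℝ) ^ (299 / 800 : ℝ) * ((2 / 3 : ℝ) ^ j * (9 / 16) ^ N) ^ (299 / 800 : ℝ) :=
        Real.mul_rpow (by norm_num) (by positivity)
    _ ≤ 4 * ((2 / 3 : ℝ) ^ j * (9 / 16) ^ N) ^ (299 / 800 : ℝ) := by
        refine mul_le_mul_of_nonneg_right ?_ (Real.rpow_nonneg (by positivity) _)
        calc (256 / 81 : ℝ) ^ (299 / 800 : ℝ) ≤ (256 / 81 : ℝ) ^ (1 : ℝ) :=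
              Real.rpow_le_rpow_of_exponent_le (by norm_num) (by norm_num)
          _ ≤ 4 := by
              rw [Real.rpow_one]
              norm_num

end REC3

theorem REC3_thm : Stmt_REC2 → Stmt_FINX → Stmt_REC3 := by
  rintro ⟨A, hA, h2⟩ -
  refine ⟨4 * A, by linarith, ?_⟩
  intro b i j n0 u v K G hD m hm
  have hn := hD.hn
  have hj := hD.hj
  obtain ⟨N, hN⟩ : ∃ N, N = (m + 2) / 2 := ⟨_, rfl⟩
  obtain ⟨r, hr⟩ : ∃ r, r = m - N := ⟨_, rfl⟩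
  rw [← hN]
  have e1 : N + r + 1 = m + 1 := by omega
  have e2 : N + r = m := by omega
  have e3 : r + 1 ≤ N := by omega
  have e4 : N ≤ r + 2 := by omega
  have e5 : n0 ≤ r := by omega
  have hm1 : (2 : ℝ) ≤ ((m : ℝ) + 1) ^ 2 := by
    have h3 : (4 : ℝ) ≤ m := by
      have : 4 ≤ m := by omega
      exact_mod_cast this
    nlinarith
  have h := h2 b i j n0 u v K G hD N r (1 / ((m : ℝ) + 1) ^ 2) (by omega) (by omega) (by omega)
    e3 (by positivity) (by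
      rw [div_le_div_iff₀ (by positivity) (by norm_num)]
      linarith)
  rw [e1, e2] at h
  have g1 := REC3.grow hD.hK hD.hG e3
  have g2 := REC3.decay j e4
  have p1 : 0 ≤ Xr b i u v (101 / 200) N ^ (1 / 2 : ℝ) :=
    Real.rpow_nonneg (REC3.Xr_nonneg _ _ _ _ _ _) _
  have p2 : 0 ≤ Xr b i u v 2 N ^ (101 / 800 : ℝ) :=
    Real.rpow_nonneg (REC3.Xr_nonneg _ _ _ _ _ _) _
  have hG0 : (0 : ℝ) ≤ G := by linarith [hD.hG]
  have hK0 : (0 : ℝ) ≤ K := by linarith [hD.hK]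
  have p3 : 0 ≤ (K * G ^ (r + 1)) ^ (501 / 800 : ℝ) := Real.rpow_nonneg (by positivity) _
  have p4 : 0 ≤ (K * G ^ N) ^ (501 / 800 : ℝ) := Real.rpow_nonneg (by positivity) _
  have p5 : 0 ≤ ((2 / 3 : ℝ) ^ j * (9 / 16) ^ r) ^ (299 / 800 : ℝ) :=
    Real.rpow_nonneg (by positivity) _
  have e6 : A / (1 / ((m : ℝ) + 1) ^ 2) = A * ((m : ℝ) + 1) ^ 2 := by
    rw [div_div_eq_mul_div, div_one]
  rw [e6] at h
  refine h.trans ?_
  refine add_le_add (le_of_eq ?_) ?_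
  · rw [mul_one_div]
  · refine mul_le_mul_of_nonneg_right (mul_le_mul_of_nonneg_right ?_ p1) p2
    calc A * ((m : ℝ) + 1) ^ 2 * (K * G ^ (r + 1)) ^ (501 / 800 : ℝ) *
          ((2 / 3 : ℝ) ^ j * (9 / 16) ^ r) ^ (299 / 800 : ℝ) ≤
        A * ((m : ℝ) + 1) ^ 2 * (K * G ^ N) ^ (501 / 800 : ℝ) *
          (4 * ((2 / 3 : ℝ) ^ j * (9 / 16) ^ N) ^ (299 / 800 : ℝ)) := by
          refine mul_le_mul (mul_le_mul_of_nonneg_left g1 (by positivity)) g2 p5 ?_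
          positivity
      _ = 4 * A * ((m : ℝ) + 1) ^ 2 * (K * G ^ N) ^ (501 / 800 : ℝ) *
          ((2 / 3 : ℝ) ^ j * (9 / 16) ^ N) ^ (299 / 800 : ℝ) := by ring

end Pool.Agent.FCQ
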