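import Pool.Agent.FCQ.Stmts
import Pool.Agent.FCC.SCL
import Pool.Agent.FCC.RED

/-!
# Four corner Cantor sets: from the main range to all directions
-/

set_option autoImplicit false

namespace Pool.Agent.FCQ

open MeasureTheory Set

namespace RED2

theorem image_inv : (fun u : ℝ => 1 / (4 * u)) '' Icc (1 / 2) 1 = Icc (1 / 4) (1 / 2) := by
  ext t
  constructor
  · rintro ⟨u, ⟨h1, h2⟩, rfl⟩
    have h0 : 0 < u := by linarith
    constructor
    · show 1 / 4 ≤ 1 / (4 * u)
      exact one_div_le_one_div_of_le (by linarith) (by linarith)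
    · show 1 / (4 * u) ≤ 1 / 2
      exact one_div_le_one_div_of_le (by norm_num) (by linarith)
  · rintro ⟨h1, h2⟩
    have h0 : 0 < t := by linarith
    refine ⟨1 / (4 * t), ⟨?_, ?_⟩, ?_⟩
    · rw [div_le_div_iff₀ (by norm_num) (by linarith)]
      linarith
    · rw [div_le_one (by linarith)]
      linarith
    · show 1 / (4 * (1 / (4 * t))) = t
      field_simp

theorem hasDeriv {u : ℝ} (hu : 0 < u) :
    HasDerivAt (fun u : ℝ => 1 / (4 * u)) (-(1 / (4 * u ^ 2))) u := by
  have h1 : HasDerivAt (fun u : ℝ => 4 * u) 4 u := by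
    have := (hasDerivAt_id u).const_mul (4 : ℝ)
    simpa using this
  have h2 := h1.fun_inv (by positivity)
  have e : (fun u : ℝ => 1 / (4 * u)) = fun u : ℝ => (4 * u)⁻¹ := by
    funext v
    rw [one_div]
  rw [e]
  have e2 : -(1 / (4 * u ^ 2)) = -4 / (4 * u) ^ 2 := by
    have h3 : (4 * u) ^ 2 = 4 * (4 * u ^ 2) := by ring
    have h4 : 4 * u ^ 2 ≠ 0 := by positivity
    rw [h3, neg_div]
    congr 1
    rw [div_eq_div_iff h4 (mul_ne_zero (by norm_num) h4)]
    ring
  rw [e2]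
  exact h2

theorem intOn_inv (n : ℕ) :
    IntegrableOn (fun t => FCC.L n (1 / (4 * t))) (Icc (1 / 4) (1 / 2)) := by
  refine Measure.integrableOn_of_bounded (M := 2) ?_ ?_ ?_
  · rw [Real.volume_Icc]; exact ENNReal.ofReal_ne_top
  · have hm : Measurable (fun t : ℝ => 1 / (4 * t)) := by
      exact (measurable_id.const_mul (4 : ℝ)).const_div 1
    exact ((FCC.measurable_L n).comp hm).aestronglyMeasurable
  · refine (ae_restrict_iff' measurableSet_Icc).2 (Filter.Eventually.of_forall fun t ht => ?_)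
    rw [Real.norm_eq_abs, abs_of_nonneg (FCC.L_nonneg _ _)]
    have h0 : 0 < t := by linarith [ht.1]
    have h1 : 1 / (4 * t) ≤ 1 := by
      rw [div_le_one (by linarith)]
      linarith [ht.1]
    exact FCC.RED.L_le_two n (by positivity) h1

/-- the change of variables -/
theorem change (n : ℕ) : ∫ t in Icc (1 / 4 : ℝ) (1 / 2), FCC.L n (1 / (4 * t)) ≤
    ∫ u in Icc (1 / 2 : ℝ) 1, FCC.L n u := by
  have hinj : InjOn (fun u : ℝ => 1 / (4 * u)) (Icc (1 / 2) 1) := by
    intro u hu v hv huv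
    have h0 : 0 < u := by linarith [hu.1]
    have h1 : 0 < v := by linarith [hv.1]
    have h2 : 1 / (4 * u) = 1 / (4 * v) := huv
    rw [div_eq_div_iff (by positivity) (by positivity)] at h2
    linarith
  have hc := integral_image_eq_integral_abs_deriv_smul (s := Icc (1 / 2 : ℝ) 1)
    (f := fun u : ℝ => 1 / (4 * u)) (f' := fun u => -(1 / (4 * u ^ 2))) measurableSet_Icc
    (fun u hu => (hasDeriv (by linarith [hu.1])).hasDerivWithinAt) hinj
    (fun t => FCC.L n (1 / (4 * t)))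
  rw [image_inv] at hc
  rw [hc]
  have hL : IntegrableOn (FCC.L n) (Icc (1 / 2 : ℝ) 1) := by
    have := FCC.RED.intOn n (a := 1 / 2) (b := 1) (by norm_num) (by norm_num) le_rfl
    rwa [intervalIntegrable_iff_integrableOn_Icc_of_le (by norm_num)] at this
  refine setIntegral_mono_on ?_ hL measurableSet_Icc ?_
  · refine Measure.integrableOn_of_bounded (M := 2) ?_ ?_ ?_
    · rw [Real.volume_Icc]; exact ENNReal.ofReal_ne_top
    · have hm : Measurable (fun u : ℝ => |(-(1 / (4 * u ^ 2)))| • FCC.L n (1 / (4 * (1 / (4 * u))))) := by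
        have hm0 : Measurable (fun u : ℝ => 1 / (4 * (1 / (4 * u)))) :=
          ((((measurable_id.const_mul (4 : ℝ)).const_div 1)).const_mul 4).const_div 1
        have hm1 : Measurable (fun u : ℝ => |(-(1 / (4 * u ^ 2)))|) :=
          ((((measurable_id.pow_const 2).const_mul (4 : ℝ)).const_div 1).neg).abs
        exact hm1.smul ((FCC.measurable_L n).comp hm0)
      exact hm.aestronglyMeasurable
    · refine (ae_restrict_iff' measurableSet_Icc).2 (Filter.Eventually.of_forall fun u hu => ?_)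
      have h0 : 0 < u := by linarith [hu.1]
      have e1 : 1 / (4 * (1 / (4 * u))) = u := by field_simp
      have h3 : |(-(1 / (4 * u ^ 2)))| ≤ 1 := by
        rw [abs_neg, abs_of_pos (by positivity), div_le_one (by positivity)]
        nlinarith [hu.1]
      rw [e1, smul_eq_mul, Real.norm_eq_abs, abs_mul, abs_abs, abs_of_nonneg (FCC.L_nonneg _ _)]
      have h4 := FCC.RED.L_le_two n (t := u) h0.le hu.2
      have h5 := FCC.L_nonneg n u
      nlinarith [abs_nonneg (-(1 / (4 * u ^ 2)))]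
  · intro u hu
    have h0 : 0 < u := by linarith [hu.1]
    have e1 : 1 / (4 * (1 / (4 * u))) = u := by field_simp
    have h3 : |(-(1 / (4 * u ^ 2)))| ≤ 1 := by
      rw [abs_neg, abs_of_pos (by positivity), div_le_one (by positivity)]
      nlinarith [hu.1]
    simp only [e1, smul_eq_mul]
    have h5 := FCC.L_nonneg n u
    calc |(-(1 / (4 * u ^ 2)))| * FCC.L n u ≤ 1 * FCC.L n u :=
          mul_le_mul_of_nonneg_right h3 h5
      _ = FCC.L n u := one_mul _

/-- the directions between `1/4` and `1/2` -/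
theorem middle (hS : Stmt_SYM) (n : ℕ) (hn : 1 ≤ n) :
    ∫ t in (1 / 4 : ℝ)..(1 / 2), FCC.L n t ≤ ∫ t in (1 / 2 : ℝ)..1, FCC.L (n - 1) t := by
  rw [intervalIntegral.integral_of_le (by norm_num), intervalIntegral.integral_of_le (by norm_num),
    ← integral_Icc_eq_integral_Ioc, ← integral_Icc_eq_integral_Ioc]
  refine le_trans ?_ (change (n - 1))
  refine setIntegral_mono_on ?_ (intOn_inv (n - 1)) measurableSet_Icc ?_
  · have := FCC.RED.intOn n (a := 1 / 4) (b := 1 / 2) (by norm_num) (by norm_num) (by norm_num)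
    rwa [intervalIntegrable_iff_integrableOn_Icc_of_le (by norm_num)] at this
  · intro t ht
    exact hS n t hn ht.1 ht.2

theorem sqrt_le (n : ℕ) (hn : 1 ≤ n) : 1 / √(n : ℝ) ≤ 2 / √((n + 1 : ℕ) : ℝ) := by
  have h1 : (1 : ℝ) ≤ n := by exact_mod_cast hn
  have h2 : 0 < √(n : ℝ) := Real.sqrt_pos.2 (by linarith)
  have h3 : 0 < √((n + 1 : ℕ) : ℝ) := Real.sqrt_pos.2 (by positivity)
  rw [div_le_div_iff₀ h2 h3, one_mul]
  have h4 : √((n + 1 : ℕ) : ℝ) ≤ √(4 * (n : ℝ)) := by
    apply Real.sqrt_le_sqrt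
    push_cast
    linarith
  have h5 : √(4 * (n : ℝ)) = 2 * √(n : ℝ) := by
    rw [Real.sqrt_mul (by norm_num), show (4 : ℝ) = 2 ^ 2 by norm_num,
      Real.sqrt_sq (by norm_num)]
  linarith

theorem trivial_bound (n : ℕ) {a b : ℝ} (ha : 0 ≤ a) (hab : a ≤ b) (hb : b ≤ 1) :
    ∫ t in a..b, FCC.L n t ≤ 2 := by
  have h1 : ∫ t in a..b, FCC.L n t ≤ ∫ _t in a..b, (2 : ℝ) := by
    refine intervalIntegral.integral_mono_on hab (FCC.RED.intOn n ha hab hb) (by simp)
      fun s hs => FCC.RED.L_le_two n (ha.trans hs.1) (hs.2.trans hb)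
  rw [intervalIntegral.integral_const, smul_eq_mul] at h1
  nlinarith

end RED2

open RED2 in
theorem RED2_thm : Stmt_RED2 := by
  rintro ⟨C, hC, hc⟩ hS
  -- the main range together with its mirror image
  have hJ : ∀ n : ℕ, 1 ≤ n → ∫ t in (1 / 4 : ℝ)..1, FCC.L n t ≤ (3 * C + 4) / √(n : ℝ) := by
    intro n hn
    have h1 : ∫ t in (1 / 4 : ℝ)..1, FCC.L n t =
        (∫ t in (1 / 4 : ℝ)..(1 / 2), FCC.L n t) + ∫ t in (1 / 2 : ℝ)..1, FCC.L n t :=
      (intervalIntegral.integral_add_adjacent_intervals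
        (FCC.RED.intOn n (by norm_num) (by norm_num) (by norm_num))
        (FCC.RED.intOn n (by norm_num) (by norm_num) le_rfl)).symm
    have hs : 0 < √(n : ℝ) := Real.sqrt_pos.2 (by exact_mod_cast hn)
    rcases Nat.lt_or_ge n 2 with h2 | h2
    · have h3 : n = 1 := by omega
      subst h3
      have h4 := trivial_bound 1 (a := 1 / 4) (b := 1) (by norm_num) (by norm_num) le_rfl
      rw [Nat.cast_one, Real.sqrt_one, div_one]
      linarith
    · have h3 := middle hS n hn
      obtain ⟨m, rfl⟩ : ∃ m, n = m + 1 := ⟨n - 1, by omega⟩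
      rw [Nat.add_sub_cancel] at h3
      have h4 := hc m (by omega)
      have h5 := hc (m + 1) hn
      have h6 := sqrt_le m (by omega)
      have h7 : C / √(m : ℝ) ≤ 2 * C / √((m + 1 : ℕ) : ℝ) := by
        have := mul_le_mul_of_nonneg_left h6 hC.le
        calc C / √(m : ℝ) = C * (1 / √(m : ℝ)) := by ring
          _ ≤ C * (2 / √((m + 1 : ℕ) : ℝ)) := this
          _ = _ := by ring
      rw [h1]
      have h8 : (3 * C + 4) / √((m + 1 : ℕ) : ℝ) = 2 * C / √((m + 1 : ℕ) : ℝ) +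
          C / √((m + 1 : ℕ) : ℝ) + 4 / √((m + 1 : ℕ) : ℝ) := by ring
      rw [h8]
      have h9 : 0 ≤ 4 / √((m + 1 : ℕ) : ℝ) := by positivity
      linarith
  refine ⟨2 * (3 * C + 4), by positivity, fun n hn => ?_⟩
  induction n, hn using Nat.le_induction with
  | base =>
    have h4 := trivial_bound 1 (a := 0) (b := 1) le_rfl zero_le_one le_rfl
    rw [Nat.cast_one, Real.sqrt_one, div_one]
    linarith
  | succ n hn ih =>
    have h1 : ∫ t in (0 : ℝ)..1, FCC.L (n + 1) t =
        (∫ t in (0 : ℝ)..(1 / 4), FCC.L (n + 1) t) + ∫ t in (1 / 4 : ℝ)..1, FCC.L (n + 1) t :=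
      (intervalIntegral.integral_add_adjacent_intervals
        (FCC.RED.intOn (n + 1) le_rfl (by norm_num) (by norm_num))
        (FCC.RED.intOn (n + 1) (by norm_num) (by norm_num) le_rfl)).symm
    have h2 := FCC.RED.small FCC.SCL_thm n
    have h3 := hJ (n + 1) (by omega)
    have h4 := sqrt_le n hn
    have h5 : 0 < √((n + 1 : ℕ) : ℝ) := Real.sqrt_pos.2 (by positivity)
    have h6 : 2 * (3 * C + 4) / √(n : ℝ) ≤ 2 * (3 * C + 4) * (2 / √((n + 1 : ℕ) : ℝ)) := by
      have := mul_le_mul_of_nonneg_left h4 (by positivity : 0 ≤ 2 * (3 * C + 4))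
      calc 2 * (3 * C + 4) / √(n : ℝ) = 2 * (3 * C + 4) * (1 / √(n : ℝ)) := by ring
        _ ≤ _ := this
    rw [h1]
    have h7 : 2 * (3 * C + 4) * (2 / √((n + 1 : ℕ) : ℝ)) / 8 + (3 * C + 4) / √((n + 1 : ℕ) : ℝ) ≤
        2 * (3 * C + 4) / √((n + 1 : ℕ) : ℝ) := by
      have h8 : 2 * (3 * C + 4) / √((n + 1 : ℕ) : ℝ) -
          (2 * (3 * C + 4) * (2 / √((n + 1 : ℕ) : ℝ)) / 8 + (3 * C + 4) / √((n + 1 : ℕ) : ℝ)) =
          (3 * C + 4) / 2 / √((n + 1 : ℕ) : ℝ) := by
        field_simp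
        ring
      have h9 : 0 ≤ (3 * C + 4) / 2 / √((n + 1 : ℕ) : ℝ) := by positivity
      linarith
    linarith

end Pool.Agent.FCQ
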