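import Pool.Agent.FCQ.Stmts

/-!
# Four corner Cantor sets, the exponent one half: the recursion lemma (module SEQ)
-/

set_option autoImplicit false

namespace Pool.Agent.FCQ

open MeasureTheory Set

theorem SEQ_thm : Stmt_SEQ := by
  intro Y d ε η M D y0 S H hY hd hε hη hD hS hH h0 hrec m hm
  -- the maximum
  obtain ⟨k0, hk0, hmax⟩ := Finset.exists_max_image (Finset.Icc M m) Y
    ⟨M, Finset.mem_Icc.2 ⟨le_rfl, hm⟩⟩
  set z : ℝ := Y k0 with hz
  have hz0 : 0 ≤ z := hY k0
  set q : ℝ := z ^ (1 / 2 : ℝ) with hq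
  have hq0 : 0 ≤ q := Real.rpow_nonneg hz0 _
  have hqq : q * q = z := by
    rw [hq, ← Real.sqrt_eq_rpow]
    exact Real.mul_self_sqrt hz0
  have hD0 : 0 ≤ D := by simpa using hD M
  have hS0 : 0 ≤ S := by simpa using hS M
  have hH0 : 0 ≤ H := by simpa using hH M
  have hy0 : 0 ≤ y0 := (hY M).trans h0
  have key : ∀ k, M ≤ k → k ≤ m → Y k ≤ Real.exp (∑ l ∈ Finset.Ico M k, d l) *
      (y0 + ∑ l ∈ Finset.Ico M k, η l + q * ∑ l ∈ Finset.Ico M k, ε l) := by
    intro k hk
    induction k, hk using Nat.le_induction with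
    | base => intro _; simpa using h0
    | succ k hk ih =>
      intro hkm
      have ih' := ih (by omega)
      have h1 := hrec k hk z (fun l hl hl' => hmax l (Finset.mem_Icc.2 ⟨hl, by omega⟩))
      rw [Finset.sum_Ico_succ_top hk, Finset.sum_Ico_succ_top hk, Finset.sum_Ico_succ_top hk,
        Real.exp_add]
      set P : ℝ := Real.exp (∑ l ∈ Finset.Ico M k, d l) with hP
      set A : ℝ := ∑ l ∈ Finset.Ico M k, η l with hA
      set B : ℝ := ∑ l ∈ Finset.Ico M k, ε l with hB
      have hP1 : 1 ≤ P := Real.one_le_exp (Finset.sum_nonneg fun l _ => hd l)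
      have hA0 : 0 ≤ A := Finset.sum_nonneg fun l _ => hη l
      have hB0 : 0 ≤ B := Finset.sum_nonneg fun l _ => hε l
      have he := Real.add_one_le_exp (d k)
      have he1 : 1 ≤ Real.exp (d k) := Real.one_le_exp (hd k)
      have hX0 : 0 ≤ y0 + A + q * B := by positivity
      have hPE : 1 ≤ P * Real.exp (d k) := by nlinarith
      have h2 : (1 + d k) * Y k ≤ Real.exp (d k) * (P * (y0 + A + q * B)) := by
        have h3 : (1 + d k) * Y k ≤ Real.exp (d k) * Y k :=
          mul_le_mul_of_nonneg_right (by linarith) (hY k)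
        exact h3.trans (mul_le_mul_of_nonneg_left ih' (Real.exp_pos _).le)
      have h4 : ε k * q + η k ≤ P * Real.exp (d k) * (ε k * q + η k) := by
        have h5 : 0 ≤ ε k * q + η k := add_nonneg (mul_nonneg (hε k) hq0) (hη k)
        nlinarith
      have h6 : ε k * z ^ (1 / 2 : ℝ) = ε k * q := by rw [hq]
      rw [h6] at h1
      calc Y (k + 1) ≤ (1 + d k) * Y k + (ε k * q + η k) := by linarith
        _ ≤ Real.exp (d k) * (P * (y0 + A + q * B)) + P * Real.exp (d k) * (ε k * q + η k) :=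
            add_le_add h2 h4
        _ = P * Real.exp (d k) * (y0 + (A + η k) + q * (B + ε k)) := by ring
  have hk0' := Finset.mem_Icc.1 hk0
  have h1 := key k0 hk0'.1 hk0'.2
  have h2 : z ≤ Real.exp D * (y0 + H + q * S) := by
    refine h1.trans (mul_le_mul (Real.exp_le_exp.2 (hD k0)) ?_ ?_ (Real.exp_pos _).le)
    · have := mul_le_mul_of_nonneg_left (hS k0) hq0
      have := hH k0
      linarith
    · have hA0 : 0 ≤ ∑ l ∈ Finset.Ico M k0, η l := Finset.sum_nonneg fun l _ => hη l
      have hB0 : 0 ≤ ∑ l ∈ Finset.Ico M k0, ε l := Finset.sum_nonneg fun l _ => hε l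
      positivity
  have h3 : Y m ≤ z := hmax m (Finset.mem_Icc.2 ⟨hm, le_rfl⟩)
  have h4 : Real.exp D * S * q ≤ q * q / 2 + (Real.exp D * S) ^ 2 / 2 := by
    nlinarith [sq_nonneg (q - Real.exp D * S)]
  rw [hqq] at h4
  have h5 : Real.exp D * (y0 + H + q * S) = Real.exp D * (y0 + H) + Real.exp D * S * q := by ring
  rw [h5] at h2
  linarith

end Pool.Agent.FCQ
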