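import Pool.Agent.FCQ.Stmts

/-!
# Module SHORT: short averages of the products of cosines   (helper37)
-/

set_option autoImplicit false

namespace Pool.Agent.FCQ

open MeasureTheory Set

namespace SHORT

/-! ### the recursion -/

/-- the terms of the sum in `Dr` -/
noncomputable def At (r i : ℕ) (z : ℝ) : ℝ :=
  Real.cos (4 ^ i * z) ^ 2 * ∏ l ∈ (Finset.range r).erase i, Real.cos (4 ^ l * z) ^ 4

theorem prod_erase_eq (s : Finset ℕ) (a : ℕ) (f : ℕ → ℝ) :
    ∏ l ∈ s.erase a, f l = ∏ l ∈ s, (if l = a then 1 else f l) := by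
  rw [← Finset.prod_erase s (f := fun l => if l = a then 1 else f l) (a := a) (by simp)]
  refine Finset.prod_congr rfl fun l hl => ?_
  rw [if_neg (Finset.ne_of_mem_erase hl)]

theorem pow_arg (i : ℕ) (z : ℝ) : (4 : ℝ) ^ (i + 1) * z = 4 ^ i * (4 * z) := by ring

theorem Q4_zero (z : ℝ) : Q4 0 z = 1 := by simp [Q4]

theorem Q4_succ (r : ℕ) (z : ℝ) : Q4 (r + 1) z = Real.cos z ^ 4 * Q4 r (4 * z) := by
  unfold Q4
  rw [Finset.prod_range_succ', mul_comm]
  simp only [pow_arg, pow_zero, one_mul]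

theorem At_zero (r : ℕ) (z : ℝ) : At (r + 1) 0 z = Real.cos z ^ 2 * Q4 r (4 * z) := by
  unfold At Q4
  rw [prod_erase_eq, Finset.prod_range_succ']
  simp only [pow_arg, pow_zero, one_mul, if_true, mul_one, Nat.succ_ne_zero, if_false]

theorem At_succ (r i : ℕ) (z : ℝ) : At (r + 1) (i + 1) z = Real.cos z ^ 4 * At r i (4 * z) := by
  unfold At
  rw [prod_erase_eq, prod_erase_eq, Finset.prod_range_succ']
  have h0 : (0 : ℕ) ≠ i + 1 := by omega
  simp only [pow_arg, pow_zero, one_mul, if_neg h0, add_left_inj]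
  ring

theorem Dr_eq (r : ℕ) (z : ℝ) :
    Dr r z = Q4 r z + ∑ i ∈ Finset.range r, (4 : ℝ) ^ i / 4 ^ r * At r i z := rfl

theorem Dr_zero (z : ℝ) : Dr 0 z = 1 := by simp [Dr_eq, Q4_zero]

theorem Dr_succ (r : ℕ) (z : ℝ) : Dr (r + 1) z =
    Real.cos z ^ 4 * Dr r (4 * z) + 1 / 4 ^ (r + 1) * (Real.cos z ^ 2 * Q4 r (4 * z)) := by
  rw [Dr_eq, Dr_eq, Finset.sum_range_succ', Q4_succ, At_zero, mul_add, Finset.mul_sum]
  have h : ∀ i ∈ Finset.range r, (4 : ℝ) ^ (i + 1) / 4 ^ (r + 1) * At (r + 1) (i + 1) z =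
      Real.cos z ^ 4 * (4 ^ i / 4 ^ r * At r i (4 * z)) := by
    intro i _
    rw [At_succ, pow_succ, pow_succ]
    field_simp
  rw [Finset.sum_congr rfl h]
  ring

theorem Q4_nonneg (r : ℕ) (z : ℝ) : 0 ≤ Q4 r z :=
  Finset.prod_nonneg fun _ _ => by positivity

theorem At_nonneg (r i : ℕ) (z : ℝ) : 0 ≤ At r i z :=
  mul_nonneg (by positivity) (Finset.prod_nonneg fun _ _ => by positivity)

theorem Q4_le_Dr (r : ℕ) (z : ℝ) : Q4 r z ≤ Dr r z := by
  rw [Dr_eq]
  have : 0 ≤ ∑ i ∈ Finset.range r, (4 : ℝ) ^ i / 4 ^ r * At r i z :=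
    Finset.sum_nonneg fun i _ => mul_nonneg (by positivity) (At_nonneg r i z)
  linarith

theorem Dr_nonneg (r : ℕ) (z : ℝ) : 0 ≤ Dr r z := (Q4_nonneg r z).trans (Q4_le_Dr r z)

theorem continuous_Q4 (r : ℕ) : Continuous (Q4 r) := by
  unfold Q4
  fun_prop

theorem continuous_At (r i : ℕ) : Continuous (At r i) := by
  unfold At
  fun_prop

theorem continuous_Dr (r : ℕ) : Continuous (Dr r) := by
  have h : Dr r = fun z => Q4 r z + ∑ i ∈ Finset.range r, (4 : ℝ) ^ i / 4 ^ r * At r i z := rfl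
  rw [h]
  exact (continuous_Q4 r).add (continuous_finsetSum _ fun i _ =>
    continuous_const.mul (continuous_At r i))

/-! ### periodicity -/

theorem cos_sq_add_pi (x : ℝ) : Real.cos (x + Real.pi) ^ 2 = Real.cos x ^ 2 := by
  rw [Real.cos_add_pi]
  ring

theorem cos_four_add_pi (x : ℝ) : Real.cos (x + Real.pi) ^ 4 = Real.cos x ^ 4 := by
  rw [Real.cos_add_pi]
  ring

/-- a `π`-periodic function of `4 z` is `π`-periodic in `z` -/
theorem per_four {G : ℝ → ℝ} (hG : Function.Periodic G Real.pi) (z : ℝ) :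
    G (4 * (z + Real.pi)) = G (4 * z) := by
  have h : 4 * (z + Real.pi) = 4 * z + (4 : ℕ) * Real.pi := by push_cast; ring
  rw [h]
  exact (hG.nat_mul 4) (4 * z)

theorem per_Q4 (r : ℕ) : Function.Periodic (Q4 r) Real.pi := by
  induction r with
  | zero => intro z; rw [Q4_zero, Q4_zero]
  | succ r ih =>
    intro z
    rw [Q4_succ, Q4_succ, per_four ih, cos_four_add_pi]

theorem per_Dr (r : ℕ) : Function.Periodic (Dr r) Real.pi := by
  induction r with
  | zero => intro z; rw [Dr_zero, Dr_zero]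
  | succ r ih =>
    intro z
    rw [Dr_succ, Dr_succ, per_four ih, per_four (per_Q4 r), cos_four_add_pi, cos_sq_add_pi]

/-! ### the mean over a period -/

/-- a weight with constant averages over the shifts by `π / 4` -/
theorem mean {W G : ℝ → ℝ} {κ : ℝ} (hW : Continuous W) (hG : Continuous G)
    (hP : Function.Periodic G Real.pi)
    (hκ : ∀ a : ℝ, W a + W (a + Real.pi / 4) + W (a + Real.pi / 2) + W (a + 3 * Real.pi / 4) = κ) :
    ∫ z in (0 : ℝ)..Real.pi, W z * G (4 * z) = κ / 4 * ∫ z in (0 : ℝ)..Real.pi, G z := by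
  have h1 : ∫ z in (0 : ℝ)..Real.pi, W z * G (4 * z) =
      1 / 4 * ∫ y in (0 : ℝ)..(4 * Real.pi), W (y / 4) * G y := by
    have h2 := intervalIntegral.integral_comp_mul_left (a := 0) (b := Real.pi)
      (fun y => W (y / 4) * G y) (c := 4) (by norm_num)
    have h3 : (fun z : ℝ => W (4 * z / 4) * G (4 * z)) = fun z => W z * G (4 * z) := by
      funext z
      rw [mul_div_cancel_left₀ z (by norm_num : (4 : ℝ) ≠ 0)]
    rw [h3, mul_zero] at h2
    rw [h2]
    simp
  set F : ℝ → ℝ := fun y => W (y / 4) * G y with hF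
  have hFc : Continuous F := (hW.comp (continuous_id.div_const 4)).mul hG
  have hi : ∀ a b : ℝ, IntervalIntegrable F volume a b := fun a b => hFc.intervalIntegrable a b
  have h4 : ∫ y in (0 : ℝ)..(4 * Real.pi), F y =
      (∫ y in (0 : ℝ)..Real.pi, F y) + (∫ y in Real.pi..(2 * Real.pi), F y) +
      (∫ y in (2 * Real.pi)..(3 * Real.pi), F y) + ∫ y in (3 * Real.pi)..(4 * Real.pi), F y := by
    rw [intervalIntegral.integral_add_adjacent_intervals (hi _ _) (hi _ _),
      intervalIntegral.integral_add_adjacent_intervals (hi _ _) (hi _ _),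
      intervalIntegral.integral_add_adjacent_intervals (hi _ _) (hi _ _)]
  have hG1 : ∀ y, G (y + Real.pi) = G y := hP
  have hG2 : ∀ y, G (y + 2 * Real.pi) = G y := by
    intro y
    have : y + 2 * Real.pi = (y + Real.pi) + Real.pi := by ring
    rw [this, hP, hP]
  have hG3 : ∀ y, G (y + 3 * Real.pi) = G y := by
    intro y
    have : y + 3 * Real.pi = (y + 2 * Real.pi) + Real.pi := by ring
    rw [this, hP, hG2]
  have s1 : ∫ y in Real.pi..(2 * Real.pi), F y =
      ∫ y in (0 : ℝ)..Real.pi, W (y / 4 + Real.pi / 4) * G y := by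
    have h := intervalIntegral.integral_comp_add_right (a := 0) (b := Real.pi) F Real.pi
    rw [zero_add, ← two_mul] at h
    rw [← h]
    refine intervalIntegral.integral_congr fun y _ => ?_
    change W ((y + Real.pi) / 4) * G (y + Real.pi) = _
    rw [hG1, add_div]
  have s2 : ∫ y in (2 * Real.pi)..(3 * Real.pi), F y =
      ∫ y in (0 : ℝ)..Real.pi, W (y / 4 + Real.pi / 2) * G y := by
    have h := intervalIntegral.integral_comp_add_right (a := 0) (b := Real.pi) F (2 * Real.pi)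
    have e : Real.pi + 2 * Real.pi = 3 * Real.pi := by ring
    rw [zero_add, e] at h
    rw [← h]
    refine intervalIntegral.integral_congr fun y _ => ?_
    change W ((y + 2 * Real.pi) / 4) * G (y + 2 * Real.pi) = _
    rw [hG2]
    have e2 : (y + 2 * Real.pi) / 4 = y / 4 + Real.pi / 2 := by ring
    rw [e2]
  have s3 : ∫ y in (3 * Real.pi)..(4 * Real.pi), F y =
      ∫ y in (0 : ℝ)..Real.pi, W (y / 4 + 3 * Real.pi / 4) * G y := by
    have h := intervalIntegral.integral_comp_add_right (a := 0) (b := Real.pi) F (3 * Real.pi)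
    have e : Real.pi + 3 * Real.pi = 4 * Real.pi := by ring
    rw [zero_add, e] at h
    rw [← h]
    refine intervalIntegral.integral_congr fun y _ => ?_
    change W ((y + 3 * Real.pi) / 4) * G (y + 3 * Real.pi) = _
    rw [hG3, add_div]
  have hc : ∀ d : ℝ, Continuous fun y : ℝ => W (y / 4 + d) * G y := fun d =>
    (hW.comp ((continuous_id.div_const 4).add continuous_const)).mul hG
  have hi' : ∀ d : ℝ, IntervalIntegrable (fun y : ℝ => W (y / 4 + d) * G y) volume 0 Real.pi :=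
    fun d => (hc d).intervalIntegrable _ _
  rw [h1, h4, s1, s2, s3]
  rw [← intervalIntegral.integral_add (hi _ _) (hi' _),
    ← intervalIntegral.integral_add ((hi _ _).add (hi' _)) (hi' _),
    ← intervalIntegral.integral_add (((hi _ _).add (hi' _)).add (hi' _)) (hi' _)]
  have h5 : ∫ y in (0 : ℝ)..Real.pi, (F y + W (y / 4 + Real.pi / 4) * G y +
      W (y / 4 + Real.pi / 2) * G y + W (y / 4 + 3 * Real.pi / 4) * G y) =
      ∫ y in (0 : ℝ)..Real.pi, κ * G y := by
    refine intervalIntegral.integral_congr fun y _ => ?_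
    have := hκ (y / 4)
    change W (y / 4) * G y + W (y / 4 + Real.pi / 4) * G y + W (y / 4 + Real.pi / 2) * G y +
      W (y / 4 + 3 * Real.pi / 4) * G y = κ * G y
    rw [← this]
    ring
  rw [h5, intervalIntegral.integral_const_mul]
  ring

theorem cos_vals (a : ℝ) : Real.cos (a + Real.pi / 2) = -Real.sin a ∧
    Real.cos (a + Real.pi / 4) = (Real.cos a - Real.sin a) * (Real.sqrt 2 / 2) ∧
    Real.cos (a + 3 * Real.pi / 4) = -((Real.cos a + Real.sin a) * (Real.sqrt 2 / 2)) := by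
  refine ⟨Real.cos_add_pi_div_two a, ?_, ?_⟩
  · rw [Real.cos_add, Real.cos_pi_div_four, Real.sin_pi_div_four]
    ring
  · have h : a + 3 * Real.pi / 4 = (a + Real.pi / 4) + Real.pi / 2 := by ring
    rw [h, Real.cos_add_pi_div_two, Real.sin_add, Real.cos_pi_div_four, Real.sin_pi_div_four]
    ring

theorem sum_cos_four (a : ℝ) : Real.cos a ^ 4 + Real.cos (a + Real.pi / 4) ^ 4 +
    Real.cos (a + Real.pi / 2) ^ 4 + Real.cos (a + 3 * Real.pi / 4) ^ 4 = 3 / 2 := by
  obtain ⟨h1, h2, h3⟩ := cos_vals a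
  rw [h1, h2, h3]
  have hs : Real.sqrt 2 ^ 2 = 2 := Real.sq_sqrt (by norm_num)
  have hs4 : Real.sqrt 2 ^ 4 = 4 := by
    have : Real.sqrt 2 ^ 4 = (Real.sqrt 2 ^ 2) ^ 2 := by ring
    rw [this, hs]
    norm_num
  have hcs := Real.sin_sq_add_cos_sq a
  have e : Real.cos a ^ 4 + ((Real.cos a - Real.sin a) * (Real.sqrt 2 / 2)) ^ 4 +
      (-Real.sin a) ^ 4 + (-((Real.cos a + Real.sin a) * (Real.sqrt 2 / 2))) ^ 4 =
      Real.cos a ^ 4 + Real.sin a ^ 4 + Real.sqrt 2 ^ 4 / 16 *
        ((Real.cos a - Real.sin a) ^ 4 + (Real.cos a + Real.sin a) ^ 4) := by ring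
  rw [e, hs4]
  have h6 : Real.cos a ^ 4 + Real.sin a ^ 4 + 4 / 16 *
        ((Real.cos a - Real.sin a) ^ 4 + (Real.cos a + Real.sin a) ^ 4) =
      3 / 2 * (Real.sin a ^ 2 + Real.cos a ^ 2) ^ 2 := by ring
  rw [h6, hcs]
  norm_num

theorem sum_cos_two (a : ℝ) : Real.cos a ^ 2 + Real.cos (a + Real.pi / 4) ^ 2 +
    Real.cos (a + Real.pi / 2) ^ 2 + Real.cos (a + 3 * Real.pi / 4) ^ 2 = 2 := by
  obtain ⟨h1, h2, h3⟩ := cos_vals a
  rw [h1, h2, h3]
  have hs : Real.sqrt 2 ^ 2 = 2 := Real.sq_sqrt (by norm_num)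
  have hcs := Real.sin_sq_add_cos_sq a
  have e : Real.cos a ^ 2 + ((Real.cos a - Real.sin a) * (Real.sqrt 2 / 2)) ^ 2 +
      (-Real.sin a) ^ 2 + (-((Real.cos a + Real.sin a) * (Real.sqrt 2 / 2))) ^ 2 =
      (Real.sin a ^ 2 + Real.cos a ^ 2) * (1 + Real.sqrt 2 ^ 2 / 2) := by ring
  rw [e, hs, hcs]
  norm_num

theorem int_Q4 (r : ℕ) : ∫ z in (0 : ℝ)..Real.pi, Q4 r z = Real.pi * (3 / 8) ^ r := by
  induction r with
  | zero =>
    simp only [Q4_zero, intervalIntegral.integral_const, pow_zero, sub_zero, smul_eq_mul]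
  | succ r ih =>
    have h := mean (W := fun z => Real.cos z ^ 4) (κ := 3 / 2) (by fun_prop) (continuous_Q4 r)
      (per_Q4 r) sum_cos_four
    simp only [Q4_succ]
    rw [h, ih, pow_succ]
    ring

theorem int_Dr (r : ℕ) : ∫ z in (0 : ℝ)..Real.pi, Dr r z ≤
    Real.pi * (3 / 8) ^ r * (2 - 1 / 4 ^ r) := by
  induction r with
  | zero =>
    simp only [Dr_zero, intervalIntegral.integral_const, pow_zero, sub_zero, smul_eq_mul]
    have := Real.pi_pos
    norm_num
  | succ r ih =>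
    have h1 := mean (W := fun z => Real.cos z ^ 4) (κ := 3 / 2) (by fun_prop) (continuous_Dr r)
      (per_Dr r) sum_cos_four
    have h2 := mean (W := fun z => Real.cos z ^ 2) (κ := 2) (by fun_prop) (continuous_Q4 r)
      (per_Q4 r) sum_cos_two
    have c1 : Continuous fun z => Real.cos z ^ 4 * Dr r (4 * z) :=
      (by fun_prop : Continuous fun z : ℝ => Real.cos z ^ 4).mul
        ((continuous_Dr r).comp (by fun_prop))
    have c2 : Continuous fun z => Real.cos z ^ 2 * Q4 r (4 * z) :=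
      (by fun_prop : Continuous fun z : ℝ => Real.cos z ^ 2).mul
        ((continuous_Q4 r).comp (by fun_prop))
    simp only [Dr_succ]
    rw [intervalIntegral.integral_add (c1.intervalIntegrable _ _)
      ((c2.intervalIntegrable _ _).const_mul _), intervalIntegral.integral_const_mul, h1, h2,
      int_Q4]
    have hpi := Real.pi_pos
    have hp : 0 < Real.pi * (3 / 8 : ℝ) ^ r := by positivity
    have hq : 0 < 1 / (4 : ℝ) ^ r := by positivity
    have e1 : 1 / (4 : ℝ) ^ (r + 1) = 1 / 4 * (1 / 4 ^ r) := by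
      rw [pow_succ]
      field_simp
    have e2 : Real.pi * (3 / 8 : ℝ) ^ (r + 1) = 3 / 8 * (Real.pi * (3 / 8) ^ r) := by
      rw [pow_succ]
      ring
    rw [e1, e2]
    set p := Real.pi * (3 / 8 : ℝ) ^ r
    set q := 1 / (4 : ℝ) ^ r
    nlinarith [mul_pos hp hq]

/-! ### short intervals -/

theorem short (l : ℕ) : ∀ (r : ℕ) (x : ℝ), l ≤ r →
    ∫ z in x..(x + 1 / 4 ^ l), Dr r z ≤
      4 * Real.pi * (1 - 1 / 2 * (1 / 4 ^ r)) * ((2 / 3) ^ l * (3 / 8) ^ r) := by
  induction l with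
  | zero =>
    intro r x _
    have hpi := Real.pi_pos
    have h1 : ∫ z in x..(x + Real.pi), Dr r z = ∫ z in (0 : ℝ)..Real.pi, Dr r z := by
      have := (per_Dr r).intervalIntegral_add_eq x 0
      rw [zero_add] at this
      exact this
    have h2 : ∫ z in x..(x + 1), Dr r z ≤ ∫ z in x..(x + Real.pi), Dr r z := by
      rw [← intervalIntegral.integral_add_adjacent_intervals
        ((continuous_Dr r).intervalIntegrable x (x + 1))
        ((continuous_Dr r).intervalIntegrable (x + 1) (x + Real.pi))]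
      have : 0 ≤ ∫ z in (x + 1)..(x + Real.pi), Dr r z := by
        apply intervalIntegral.integral_nonneg
        · have := Real.pi_gt_three
          linarith
        · intro z _
          exact Dr_nonneg r z
      linarith
    have h3 := int_Dr r
    have hq : 0 < 1 / (4 : ℝ) ^ r := by positivity
    have hq1 : 1 / (4 : ℝ) ^ r ≤ 1 := by
      rw [div_le_one (by positivity)]
      exact one_le_pow₀ (by norm_num)
    have hp : 0 < Real.pi * (3 / 8 : ℝ) ^ r := by positivity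
    rw [pow_zero, div_one, pow_zero, one_mul]
    refine (h2.trans (h1.le.trans h3)).trans ?_
    nlinarith
  | succ l ih =>
    intro r x hlr
    obtain ⟨r, rfl⟩ : ∃ r', r = r' + 1 := ⟨r - 1, by omega⟩
    have hlr' : l ≤ r := by omega
    have hq : 0 < 1 / (4 : ℝ) ^ r := by positivity
    have hb : ∀ z, Dr (r + 1) z ≤ (1 + 1 / 4 ^ (r + 1)) * Dr r (4 * z) := by
      intro z
      rw [Dr_succ]
      have c0 : Real.cos z ^ 2 ≤ 1 := Real.cos_sq_le_one z
      have c0' : 0 ≤ Real.cos z ^ 2 := sq_nonneg _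
      have c1 : Real.cos z ^ 4 ≤ 1 := by
        have : Real.cos z ^ 4 = Real.cos z ^ 2 * Real.cos z ^ 2 := by ring
        rw [this]
        nlinarith
      have d0 := Dr_nonneg r (4 * z)
      have q0 := Q4_nonneg r (4 * z)
      have q1 := Q4_le_Dr r (4 * z)
      have h1 : Real.cos z ^ 4 * Dr r (4 * z) ≤ 1 * Dr r (4 * z) :=
        mul_le_mul_of_nonneg_right c1 d0
      have h2 : Real.cos z ^ 2 * Q4 r (4 * z) ≤ Dr r (4 * z) := by nlinarith
      have h3 : 1 / (4 : ℝ) ^ (r + 1) * (Real.cos z ^ 2 * Q4 r (4 * z)) ≤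
          1 / 4 ^ (r + 1) * Dr r (4 * z) := mul_le_mul_of_nonneg_left h2 (by positivity)
      linarith
    have hx : x ≤ x + 1 / 4 ^ (l + 1) := by
      have : (0 : ℝ) < 1 / 4 ^ (l + 1) := by positivity
      linarith
    have c1 : Continuous fun z => (1 + 1 / 4 ^ (r + 1)) * Dr r (4 * z) :=
      continuous_const.mul ((continuous_Dr r).comp (by fun_prop))
    have h1 : ∫ z in x..(x + 1 / 4 ^ (l + 1)), Dr (r + 1) z ≤
        ∫ z in x..(x + 1 / 4 ^ (l + 1)), (1 + 1 / 4 ^ (r + 1)) * Dr r (4 * z) :=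
      intervalIntegral.integral_mono_on hx ((continuous_Dr (r + 1)).intervalIntegrable _ _)
        (c1.intervalIntegrable _ _) fun z _ => hb z
    have h2 : ∫ z in x..(x + 1 / 4 ^ (l + 1)), Dr r (4 * z) =
        1 / 4 * ∫ z in (4 * x)..(4 * x + 1 / 4 ^ l), Dr r z := by
      have h := intervalIntegral.integral_comp_mul_left (a := x) (b := x + 1 / 4 ^ (l + 1))
        (Dr r) (c := 4) (by norm_num)
      have e : 4 * (x + 1 / 4 ^ (l + 1)) = 4 * x + 1 / (4 : ℝ) ^ l := by
        rw [pow_succ]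
        field_simp
      rw [e] at h
      rw [h]
      simp
    rw [intervalIntegral.integral_const_mul, h2] at h1
    have h3 := ih r (4 * x) hlr'
    have e1 : 1 / (4 : ℝ) ^ (r + 1) = 1 / 4 * (1 / 4 ^ r) := by
      rw [pow_succ]
      field_simp
    have e2 : (2 / 3 : ℝ) ^ (l + 1) * (3 / 8) ^ (r + 1) = 1 / 4 * ((2 / 3) ^ l * (3 / 8) ^ r) := by
      rw [pow_succ, pow_succ]
      ring
    rw [e1] at h1 ⊢
    rw [e2]
    have hpi := Real.pi_pos
    have hm : 0 < (2 / 3 : ℝ) ^ l * (3 / 8) ^ r := by positivity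
    refine h1.trans ?_
    have h4 : (1 + 1 / 4 * (1 / (4 : ℝ) ^ r)) * (1 / 4 * ∫ z in (4 * x)..(4 * x + 1 / 4 ^ l), Dr r z) ≤
        (1 + 1 / 4 * (1 / (4 : ℝ) ^ r)) * (1 / 4 * (4 * Real.pi * (1 - 1 / 2 * (1 / 4 ^ r)) *
          ((2 / 3) ^ l * (3 / 8) ^ r))) := by
      apply mul_le_mul_of_nonneg_left _ (by positivity)
      linarith
    refine h4.trans ?_
    set q := 1 / (4 : ℝ) ^ r
    set m := (2 / 3 : ℝ) ^ l * (3 / 8) ^ r
    have h5 : (1 + 1 / 4 * q) * (1 - 1 / 2 * q) ≤ 1 - 1 / 2 * (1 / 4 * q) := by nlinarith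
    have h6 : 0 < Real.pi * m := by positivity
    nlinarith [mul_le_mul_of_nonneg_left h5 h6.le]

end SHORT

theorem SHORT_thm : Stmt_SHORT := by
  refine ⟨4 * Real.pi, by have := Real.pi_pos; positivity, fun l r x hlr => ?_⟩
  refine (SHORT.short l r x hlr).trans ?_
  have hpi := Real.pi_pos
  have hm : 0 < (2 / 3 : ℝ) ^ l * (3 / 8) ^ r := by positivity
  have hq : 0 < 1 / (4 : ℝ) ^ r := by positivity
  have h1 : 4 * Real.pi * (1 - 1 / 2 * (1 / 4 ^ r)) * ((2 / 3) ^ l * (3 / 8) ^ r) ≤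
      4 * Real.pi * 1 * ((2 / 3) ^ l * (3 / 8) ^ r) := by
    apply mul_le_mul_of_nonneg_right _ hm.le
    apply mul_le_mul_of_nonneg_left _ (by positivity)
    linarith
  refine h1.trans (le_of_eq ?_)
  ring

end Pool.Agent.FCQ
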