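import Pool.Agent.FCQ.Stmts

/-!
# SOB: a one dimensional inequality
-/

set_option autoImplicit false

namespace Pool.Agent.FCQ

open MeasureTheory Set

namespace SOB

/-- Cauchy-Schwarz on an interval. -/
theorem cs {f : ℝ → ℝ} (hf : Continuous f) {p q : ℝ} (hpq : p < q) :
    (∫ x in p..q, f x) ^ 2 ≤ (q - p) * ∫ x in p..q, f x ^ 2 := by
  have hL : 0 < q - p := sub_pos.2 hpq
  have hi : ∀ g : ℝ → ℝ, Continuous g → IntervalIntegrable g volume p q := fun g hg =>
    hg.intervalIntegrable p q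
  obtain ⟨J, hJ⟩ : ∃ J, J = ∫ x in p..q, f x := ⟨_, rfl⟩
  have h1 : 0 ≤ ∫ x in p..q, (f x - J / (q - p)) ^ 2 :=
    intervalIntegral.integral_nonneg hpq.le fun x _ => sq_nonneg _
  have h2 : ∫ x in p..q, (f x - J / (q - p)) ^ 2 =
      (∫ x in p..q, f x ^ 2) - J ^ 2 / (q - p) := by
    have h3 : ∀ x, (f x - J / (q - p)) ^ 2 =
        f x ^ 2 - (2 * (J / (q - p)) * f x - (J / (q - p)) ^ 2) := fun x => by ring
    simp only [h3]
    rw [intervalIntegral.integral_sub (hi _ (by fun_prop)) (hi _ (by fun_prop)),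
      intervalIntegral.integral_sub (hi _ (by fun_prop)) (hi _ (by fun_prop)),
      intervalIntegral.integral_const_mul, intervalIntegral.integral_const, ← hJ, smul_eq_mul]
    field_simp
    ring
  rw [h2] at h1
  have h4 : J ^ 2 / (q - p) ≤ ∫ x in p..q, f x ^ 2 := by linarith
  rw [div_le_iff₀ hL] at h4
  rw [← hJ]
  linarith

theorem incr {u u' : ℝ → ℝ} {a b : ℝ} (hu : ∀ x, HasDerivAt u (u' x) x) (hc : Continuous u')
    {p q : ℝ} (hp : a ≤ p) (hpq : p < q) (hq : q ≤ b) :
    (u q - u p) ^ 2 ≤ (b - a) * ∫ x in a..b, u' x ^ 2 := by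
  have h1 : ∫ x in p..q, u' x = u q - u p :=
    intervalIntegral.integral_eq_sub_of_hasDerivAt (fun x _ => hu x) (hc.intervalIntegrable p q)
  have h2 := cs hc hpq
  rw [h1] at h2
  have hc2 : Continuous fun x => u' x ^ 2 := by fun_prop
  have h3 : ∫ x in p..q, u' x ^ 2 ≤ ∫ x in a..b, u' x ^ 2 :=
    intervalIntegral.integral_mono_interval hp hpq.le hq
      (Filter.Eventually.of_forall fun x => sq_nonneg _) (hc2.intervalIntegrable a b)
  have h4 : 0 ≤ ∫ x in a..b, u' x ^ 2 :=
    intervalIntegral.integral_nonneg (by linarith) fun x _ => sq_nonneg _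
  calc (u q - u p) ^ 2 ≤ (q - p) * ∫ x in p..q, u' x ^ 2 := h2
    _ ≤ (q - p) * ∫ x in a..b, u' x ^ 2 := mul_le_mul_of_nonneg_left h3 (by linarith)
    _ ≤ _ := mul_le_mul_of_nonneg_right (by linarith) h4

end SOB

open SOB

theorem SOB_thm : Stmt_SOB := by
  intro u u' a b t hab hu hc ht
  have hL : 0 < b - a := sub_pos.2 hab
  have hcu : Continuous u := continuous_iff_continuousAt.2 fun x => (hu x).continuousAt
  obtain ⟨D, hD⟩ : ∃ D, D = ∫ x in a..b, u' x ^ 2 := ⟨_, rfl⟩
  have hD0 : 0 ≤ D := by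
    rw [hD]
    exact intervalIntegral.integral_nonneg hab.le fun x _ => sq_nonneg _
  have h1 : ∀ s ∈ Icc a b, u t ^ 2 ≤ 2 * u s ^ 2 + 2 * (b - a) * D := by
    intro s hs
    have h2 : (u t - u s) ^ 2 ≤ (b - a) * D := by
      rcases lt_trichotomy s t with h | h | h
      · rw [hD]
        exact incr hu hc hs.1 h ht.2
      · rw [h, sub_self, zero_pow (by norm_num)]
        exact mul_nonneg hL.le hD0
      · have h3 := incr hu hc ht.1 h hs.2
        rw [← hD] at h3
        calc (u t - u s) ^ 2 = (u s - u t) ^ 2 := by ring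
          _ ≤ _ := h3
    nlinarith [sq_nonneg (u t - 2 * u s)]
  have h2 : ∫ _x in a..b, u t ^ 2 ≤ ∫ x in a..b, (2 * u x ^ 2 + 2 * (b - a) * D) :=
    intervalIntegral.integral_mono_on hab.le (continuous_const.intervalIntegrable a b)
      (Continuous.intervalIntegrable (by fun_prop) a b) fun x hx => h1 x hx
  rw [intervalIntegral.integral_const, smul_eq_mul, intervalIntegral.integral_add
    (Continuous.intervalIntegrable (by fun_prop) a b) (continuous_const.intervalIntegrable a b),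
    intervalIntegral.integral_const_mul, intervalIntegral.integral_const, smul_eq_mul] at h2
  rw [← hD]
  have h3 : 2 / (b - a) * (∫ x in a..b, u x ^ 2) + 2 * (b - a) * D =
      (2 * (∫ x in a..b, u x ^ 2) + (b - a) * (2 * (b - a) * D)) / (b - a) := by
    field_simp
  rw [h3, le_div_iff₀ hL]
  linarith

end Pool.Agent.FCQ
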