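import Pool.Agent.FCQ.Stmts
import Pool.Agent.FCC.GEO

/-!
# Four corner Cantor sets: exchange of the coordinates
-/

set_option autoImplicit false

namespace Pool.Agent.FCQ

open MeasureTheory Set

namespace SYM

theorem cset_sub (m : ℕ) : ∀ x : ℝ, x ∈ FCC.cset (m + 1) → x ∈ FCC.cset m := by
  induction m with
  | zero =>
    intro x hx
    rw [FCC.GEO.mem_succ] at hx
    rcases hx with ⟨h1, h2⟩ | ⟨h1, h2⟩
    · exact ⟨by linarith, by linarith⟩
    · exact ⟨by linarith, by linarith⟩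
  | succ m ih =>
    intro x hx
    rw [FCC.GEO.mem_succ] at hx ⊢
    rcases hx with h | h
    · exact Or.inl (ih _ h)
    · exact Or.inr (ih _ h)

theorem subset (m : ℕ) {t : ℝ} (ht : 0 < t) : FCC.P (m + 1) t ⊆
    {u | t⁻¹ * (u + 0) ∈ FCC.P m (1 / (4 * t))} ∪
      {u | t⁻¹ * (u + (-(3 / 4))) ∈ FCC.P m (1 / (4 * t))} := by
  intro u hu
  rw [(FCC.GEO_thm (m + 1)).2.2.2.2 t ht.le] at hu
  obtain ⟨x, hx, y, hy, rfl⟩ := hu
  have hP := (FCC.GEO_thm m).2.2.2.2 (1 / (4 * t)) (by positivity)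
  rw [FCC.GEO.mem_succ] at hx
  rcases hx with h | h
  · left
    show t⁻¹ * (x + t * y + 0) ∈ FCC.P m (1 / (4 * t))
    rw [hP]
    refine ⟨y, cset_sub m y hy, 4 * x, h, ?_⟩
    field_simp
    ring
  · right
    show t⁻¹ * (x + t * y + (-(3 / 4))) ∈ FCC.P m (1 / (4 * t))
    rw [hP]
    refine ⟨y, cset_sub m y hy, 4 * x - 3, h, ?_⟩
    field_simp
    ring

theorem volume_piece {t : ℝ} (ht : 0 < t) (c : ℝ) (A : Set ℝ) :
    volume {x : ℝ | t⁻¹ * (x + c) ∈ A} = ENNReal.ofReal t * volume A := by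
  have h1 : {x : ℝ | t⁻¹ * (x + c) ∈ A} =
      (fun x => x + c) ⁻¹' ((fun y => t⁻¹ * y) ⁻¹' A) := rfl
  rw [h1, measure_preimage_add_right, Real.volume_preimage_mul_left (inv_ne_zero ht.ne'), inv_inv,
    abs_of_pos ht]

end SYM

theorem SYM_thm : Stmt_SYM := by
  intro n t hn ht ht2
  obtain ⟨m, rfl⟩ : ∃ m, n = m + 1 := ⟨n - 1, by omega⟩
  rw [Nat.add_sub_cancel]
  have ht0 : 0 < t := by linarith
  unfold FCC.L
  have h1 : volume (FCC.P (m + 1) t) ≤ volume (FCC.P m (1 / (4 * t))) := by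
    calc volume (FCC.P (m + 1) t) ≤ _ := measure_mono (SYM.subset m ht0)
      _ ≤ _ := measure_union_le _ _
      _ = ENNReal.ofReal t * volume (FCC.P m (1 / (4 * t))) +
          ENNReal.ofReal t * volume (FCC.P m (1 / (4 * t))) := by
          rw [SYM.volume_piece ht0, SYM.volume_piece ht0]
      _ = ENNReal.ofReal (t + t) * volume (FCC.P m (1 / (4 * t))) := by
          rw [ENNReal.ofReal_add ht0.le ht0.le, add_mul]
      _ ≤ ENNReal.ofReal 1 * volume (FCC.P m (1 / (4 * t))) := by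
          gcongr
          linarith
      _ = _ := by rw [ENNReal.ofReal_one, one_mul]
  exact ENNReal.toReal_mono (FCC.volume_P_ne_top m _) h1

end Pool.Agent.FCQ
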