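import Pool.Agent.FCQ.Stmts

/-!
# TAIL2: directions with small second moment are rare
-/

set_option autoImplicit false

namespace Pool.Agent.FCQ

open MeasureTheory Set

namespace TAIL2

/-- The increments. -/
noncomputable def em (m : ℕ) (t : ℝ) : ℝ := (T t)^[m] (tent t) (rho 0 t)

theorem tent_nonneg (t y : ℝ) : 0 ≤ tent t y := le_max_right _ _

theorem em_nonneg (m : ℕ) (t : ℝ) : 0 ≤ em m t := iter_nonneg (tent_nonneg t) t m _

/-- Joint continuity of the iterates of the tent function. -/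
theorem continuous_tent (n : ℕ) : Continuous fun p : ℝ × ℝ => (T p.1)^[n] (tent p.1) p.2 := by
  induction n with
  | zero =>
    show Continuous fun p : ℝ × ℝ => max (1 + p.1 - |p.2|) 0
    fun_prop
  | succ n ih =>
    have : (fun p : ℝ × ℝ => (T p.1)^[n + 1] (tent p.1) p.2) = fun p : ℝ × ℝ =>
        ∑ a : Fin 3, ∑ b : Fin 3, wt a * wt b *
          (T p.1)^[n] (tent p.1) (4 * p.2 - dv a - p.1 * dv b) := by
      funext p
      rw [iter_succ']
      rfl
    rw [this]
    refine continuous_finsetSum _ fun a _ => continuous_finsetSum _ fun b _ => ?_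
    refine Continuous.mul continuous_const ?_
    exact ih.comp (f := fun p : ℝ × ℝ => (p.1, 4 * p.2 - dv a - p.1 * dv b)) (by fun_prop)

theorem measurable_em (m : ℕ) : Measurable (em m) := by
  have h : Continuous (em m) := (continuous_tent m).comp (f := fun t => (t, rho 0 t))
    (continuous_id.prodMk (continuous_rho 0))
  exact h.measurable

/-- The second moment bounds the sum of the increments. -/
theorem sum_em_le (h1 : Stmt_AUT1) (h2 : Stmt_AUT2) (N : ℕ) (t : ℝ) (ht : 1 / 2 ≤ t) (ht' : t ≤ 1) :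
    ∑ m ∈ Finset.range N, em m t ≤ 2 * FCC.S N t := by
  have key : ∀ N : ℕ, (T t)^[N] (tent t) 0 =
      (T t)^[0] (tent t) 0 + 1 / 2 * ∑ m ∈ Finset.range N, em m t := by
    intro N
    induction N with
    | zero => simp
    | succ N ih =>
      rw [h2 N t ht ht', ih, Finset.sum_range_succ]
      show _ + 1 / 2 * em N t = _
      ring
  rw [h1 N t (by linarith) ht', key N]
  have h3 : 0 ≤ (T t)^[0] (tent t) 0 := tent_nonneg t 0
  linarith

/-- At least half of the increments are small. -/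
theorem count (N : ℕ) (e : ℕ → ℝ) (y : ℝ) (hN : 1 ≤ N) (hy : 0 < y) (he : ∀ m, 0 ≤ e m)
    (h : ∑ m ∈ Finset.range N, e m ≤ 2 * y) :
    (N : ℝ) / 2 ≤ (((Finset.range N).filter (fun m => e m ≤ 4 * y / N)).card : ℝ) := by
  have hN0 : (0 : ℝ) < N := by exact_mod_cast hN
  have h1 : (((Finset.range N).filter (fun m => ¬ e m ≤ 4 * y / N)).card : ℝ) * (4 * y / N) ≤
      2 * y := by
    calc (((Finset.range N).filter (fun m => ¬ e m ≤ 4 * y / N)).card : ℝ) * (4 * y / N)
        = ∑ m ∈ (Finset.range N).filter (fun m => ¬ e m ≤ 4 * y / N), (4 * y / N) := by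
          rw [Finset.sum_const, nsmul_eq_mul]
      _ ≤ ∑ m ∈ (Finset.range N).filter (fun m => ¬ e m ≤ 4 * y / N), e m := by
          apply Finset.sum_le_sum
          intro m hm
          have h2 := (Finset.mem_filter.1 hm).2
          linarith [not_le.1 h2]
      _ ≤ ∑ m ∈ Finset.range N, e m :=
          Finset.sum_le_sum_of_subset_of_nonneg (Finset.filter_subset _ _) fun m _ _ => he m
      _ ≤ 2 * y := h
  have h3 : (((Finset.range N).filter (fun m => ¬ e m ≤ 4 * y / N)).card : ℝ) ≤ N / 2 := by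
    have h4 : (((Finset.range N).filter (fun m => ¬ e m ≤ 4 * y / N)).card : ℝ) * (4 * y / N) ≤
        (N : ℝ) / 2 * (4 * y / N) := by
      have h5 : (N : ℝ) / 2 * (4 * y / N) = 2 * y := by
        field_simp
        ring
      rw [h5]
      exact h1
    exact le_of_mul_le_mul_right h4 (by positivity)
  have h6 := Finset.card_filter_add_card_filter_not (s := Finset.range N)
    (fun m => e m ≤ 4 * y / N)
  rw [Finset.card_range] at h6
  have h7 : (((Finset.range N).filter (fun m => e m ≤ 4 * y / N)).card : ℝ) +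
      (((Finset.range N).filter (fun m => ¬ e m ≤ 4 * y / N)).card : ℝ) = N := by
    exact_mod_cast h6
  linarith

/-- The pointwise bound. -/
theorem point (h1 : Stmt_AUT1) (h2 : Stmt_AUT2) (N : ℕ) (y t s : ℝ) (hN : 1 ≤ N) (hy : 0 < y)
    (hs : 0 ≤ s) (ht : 1 / 2 ≤ t) (ht' : t ≤ 1) (hS : FCC.S N t ≤ y) :
    ENNReal.ofReal ((N : ℝ) / 2 * (4 * y / N) ^ (-s)) ≤
      ∑ m ∈ Finset.range N, (ENNReal.ofReal (em m t)) ^ (-s) := by
  have hN0 : (0 : ℝ) < N := by exact_mod_cast hN
  have hc : (0 : ℝ) < 4 * y / N := by positivity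
  have h3 := count N (fun m => em m t) y hN hy (fun m => em_nonneg m t)
    ((sum_em_le h1 h2 N t ht ht').trans (by linarith))
  calc ENNReal.ofReal ((N : ℝ) / 2 * (4 * y / N) ^ (-s))
      ≤ ENNReal.ofReal ((((Finset.range N).filter (fun m => em m t ≤ 4 * y / N)).card : ℝ) *
          (4 * y / N) ^ (-s)) := by
        apply ENNReal.ofReal_le_ofReal
        exact mul_le_mul_of_nonneg_right h3 (Real.rpow_nonneg hc.le _)
    _ = ∑ m ∈ (Finset.range N).filter (fun m => em m t ≤ 4 * y / N),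
          (ENNReal.ofReal (4 * y / N)) ^ (-s) := by
        rw [Finset.sum_const, nsmul_eq_mul, ENNReal.ofReal_mul (by positivity),
          ENNReal.ofReal_natCast, ENNReal.ofReal_rpow_of_pos hc]
    _ ≤ ∑ m ∈ (Finset.range N).filter (fun m => em m t ≤ 4 * y / N),
          (ENNReal.ofReal (em m t)) ^ (-s) := by
        apply Finset.sum_le_sum
        intro m hm
        have h4 := (Finset.mem_filter.1 hm).2
        rw [ENNReal.rpow_neg, ENNReal.rpow_neg]
        exact ENNReal.inv_le_inv.2 (ENNReal.rpow_le_rpow (ENNReal.ofReal_le_ofReal h4) hs)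
    _ ≤ ∑ m ∈ Finset.range N, (ENNReal.ofReal (em m t)) ^ (-s) :=
        Finset.sum_le_sum_of_subset (Finset.filter_subset _ _)

end TAIL2

theorem TAIL2_thm : Stmt_TAIL2 := by
  intro hM h1 h2
  obtain ⟨C, hC, hM⟩ := hM
  refine ⟨2 * 4 ^ (101 / 200 : ℝ) * C, by positivity, ?_⟩
  intro N y hN hy
  have hN0 : (0 : ℝ) < N := by exact_mod_cast hN
  have hc : (0 : ℝ) < 4 * y / N := by positivity
  set A : Set ℝ := {t : ℝ | t ∈ Icc (1 / 2 : ℝ) 1 ∧ FCC.S N t ≤ y} with hA
  have hAm : MeasurableSet A :=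
    measurableSet_Icc.inter (measurableSet_le (FCC.measurable_S N) measurable_const)
  have hAs : A ⊆ Icc (1 / 2 : ℝ) 1 := fun t ht => ht.1
  have hvol : volume A ≠ ⊤ := by
    refine ne_top_of_le_ne_top ?_ (measure_mono hAs)
    rw [Real.volume_Icc]
    exact ENNReal.ofReal_ne_top
  have key : ENNReal.ofReal ((N : ℝ) / 2 * (4 * y / N) ^ (-(101 / 200) : ℝ)) * volume A ≤
      ENNReal.ofReal (N * C) := by
    calc ENNReal.ofReal ((N : ℝ) / 2 * (4 * y / N) ^ (-(101 / 200) : ℝ)) * volume A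
        = ∫⁻ _ in A, ENNReal.ofReal ((N : ℝ) / 2 * (4 * y / N) ^ (-(101 / 200) : ℝ)) := by
          rw [setLIntegral_const]
      _ ≤ ∫⁻ t in A, ∑ m ∈ Finset.range N,
            (ENNReal.ofReal (TAIL2.em m t)) ^ (-(101 / 200) : ℝ) := by
          apply setLIntegral_mono' hAm
          intro t ht
          exact TAIL2.point h1 h2 N y t (101 / 200) hN hy (by norm_num) ht.1.1 ht.1.2 ht.2
      _ ≤ ∫⁻ t in Icc (1 / 2 : ℝ) 1, ∑ m ∈ Finset.range N,
            (ENNReal.ofReal (TAIL2.em m t)) ^ (-(101 / 200) : ℝ) := lintegral_mono_set hAs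
      _ = ∑ m ∈ Finset.range N, ∫⁻ t in Icc (1 / 2 : ℝ) 1,
            (ENNReal.ofReal (TAIL2.em m t)) ^ (-(101 / 200) : ℝ) := by
          apply lintegral_finsetSum
          intro m _
          exact ((TAIL2.measurable_em m).ennreal_ofReal).pow_const _
      _ ≤ ∑ m ∈ Finset.range N, ENNReal.ofReal C := Finset.sum_le_sum fun m _ => hM m
      _ = ENNReal.ofReal (N * C) := by
          rw [Finset.sum_const, Finset.card_range, nsmul_eq_mul, ENNReal.ofReal_mul (by positivity),
            ENNReal.ofReal_natCast]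
  have h3 : (N : ℝ) / 2 * (4 * y / N) ^ (-(101 / 200) : ℝ) * (volume A).toReal ≤ N * C := by
    have h4 := ENNReal.toReal_mono ENNReal.ofReal_ne_top key
    rwa [ENNReal.toReal_mul, ENNReal.toReal_ofReal (by positivity),
      ENNReal.toReal_ofReal (by positivity)] at h4
  have h5 : (4 * y / N) ^ (-(101 / 200) : ℝ) * (4 * y / N) ^ (101 / 200 : ℝ) = 1 := by
    rw [← Real.rpow_add hc]
    norm_num
  have h6 : (4 * y / N) ^ (101 / 200 : ℝ) = 4 ^ (101 / 200 : ℝ) * (y / N) ^ (101 / 200 : ℝ) := by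
    rw [← Real.mul_rpow (by norm_num) (by positivity)]
    congr 1
    ring
  have h7 : (0 : ℝ) < (4 * y / N) ^ (101 / 200 : ℝ) := Real.rpow_pos_of_pos hc _
  have h8 := mul_le_mul_of_nonneg_right h3 h7.le
  have h9 : (N : ℝ) / 2 * (4 * y / N) ^ (-(101 / 200) : ℝ) * (volume A).toReal *
      (4 * y / N) ^ (101 / 200 : ℝ) = (N : ℝ) / 2 * (volume A).toReal := by
    calc _ = (N : ℝ) / 2 * (volume A).toReal *
        ((4 * y / N) ^ (-(101 / 200) : ℝ) * (4 * y / N) ^ (101 / 200 : ℝ)) := by ring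
      _ = _ := by rw [h5, mul_one]
  rw [h9, h6] at h8
  have h10 : (volume A).toReal * (N / 2) ≤
      (2 * 4 ^ (101 / 200 : ℝ) * C * (y / N) ^ (101 / 200 : ℝ)) * (N / 2) := by
    calc (volume A).toReal * (N / 2) = (N : ℝ) / 2 * (volume A).toReal := by ring
      _ ≤ N * C * (4 ^ (101 / 200 : ℝ) * (y / N) ^ (101 / 200 : ℝ)) := h8
      _ = _ := by ring
  exact le_of_mul_le_mul_right h10 (by positivity)

end Pool.Agent.FCQ
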