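import Pool.Agent.FCQ.Stmts

/-!
# Four corner Cantor sets, the exponent one half: the inverse square moment over a window (W2)
-/

set_option autoImplicit false

namespace Pool.Agent.FCQ

open MeasureTheory Set

namespace W2

theorem rpow_neg_two (x : ENNReal) : x ^ (-(2 : ℝ)) = x⁻¹ ^ 2 := by
  rw [ENNReal.rpow_neg, ← ENNReal.inv_pow]
  congr 1
  exact_mod_cast ENNReal.rpow_natCast x 2

/-- affine change of variables -/
theorem affine {H : ℝ → ENNReal} (hH : Measurable H) {s : ℝ} (hs : s ≠ 0) (c : ℝ) :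
    ∫⁻ t, H (s * t + c) = ENNReal.ofReal |s⁻¹| * ∫⁻ x, H x := by
  have h1 : ∫⁻ t, H (s * t + c) = ∫⁻ y, H (y + c) ∂(Measure.map (s * ·) volume) := by
    rw [lintegral_map (by fun_prop) (by fun_prop)]
  rw [h1, Real.map_volume_mul_left hs, lintegral_smul_measure,
    lintegral_add_right_eq_self (fun y => H y) c]
  rfl

/-- affine change of variables on a set -/
theorem affine_le {H : ℝ → ENNReal} (hH : Measurable H) {s L : ℝ} (hL : 0 < L) (hs : L ≤ |s|)
    (c : ℝ) (I : Set ℝ) :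
    ∫⁻ t in I, H (s * t + c) ≤ ENNReal.ofReal (1 / L) * ∫⁻ x, H x := by
  have hs0 : s ≠ 0 := by
    rintro rfl
    rw [abs_zero] at hs
    linarith
  refine (setLIntegral_le_lintegral _ _).trans ?_
  rw [affine hH hs0]
  refine mul_le_mul_left (ENNReal.ofReal_le_ofReal ?_) _
  rw [abs_inv, one_div]
  exact inv_anti₀ hL hs

theorem ell_pos (n : ℕ) : 0 < ell n := by unfold ell; positivity

theorem pow_mul_ell (n i : ℕ) : 4 ^ (n + i) * ell (n + i) = 1 / 256 := by
  unfold ell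
  field_simp

theorem pow_ell_le {n i r : ℕ} (h : r ≤ n) : 4 ^ r * ell (n + i) ≤ 1 / 256 := by
  rw [← pow_mul_ell n i]
  refine mul_le_mul_of_nonneg_right ?_ (ell_pos _).le
  exact pow_le_pow_right₀ (by norm_num) (by omega)

/-- freezing the direction in the last `r` levels -/
theorem freeze (h2 : Stmt_EXP2) {b : ℝ} (hb : 1 ≤ b) {n i r : ℕ} (hr : r ≤ n) {t t0 : ℝ}
    (ht : |t - t0| ≤ ell (n + i)) (y : ℝ) :
    (T t0)^[r] (chi b) y ≤ (T t)^[r] (Phi b) y := by
  obtain ⟨m, w, u, v, hw, -, hv, -, hT⟩ := h2 r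
  rw [hT, hT]
  refine Finset.sum_le_sum fun d _ => mul_le_mul_of_nonneg_left ?_ (hw d).le
  by_cases h : |4 ^ r * y - u d - t0 * v d| ≤ b - 1 / 50
  · have h1 : |(t0 - t) * v d| ≤ 1 / 256 := by
      rw [abs_mul, abs_sub_comm]
      calc |t - t0| * |v d| ≤ ell (n + i) * (4 ^ r - 1) :=
            mul_le_mul ht (hv d) (abs_nonneg _) (ell_pos _).le
        _ ≤ 4 ^ r * ell (n + i) := by nlinarith [ell_pos (n + i)]
        _ ≤ 1 / 256 := pow_ell_le hr
    have h3 : 4 ^ r * y - u d - t * v d = (4 ^ r * y - u d - t0 * v d) + (t0 - t) * v d := by ring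
    have h4 : |4 ^ r * y - u d - t * v d| ≤ b - 1 / 100 := by
      rw [h3]
      refine (abs_add_le _ _).trans ?_
      linarith
    rw [Phi_eq_one hb h4]
    exact chi_le_one _ _
  · have h1 : chi b (4 ^ r * y - u d - t0 * v d) = 0 := by
      unfold chi
      rw [if_neg h]
    rw [h1]
    exact Phi_nonneg _ _

/-- the integrand in the variable `x` -/
noncomputable def HH (b t0 : ℝ) (r : ℕ) (x : ℝ) : ENNReal :=
  ENNReal.ofReal (hat (9 / 10 + t0) x ^ 3) * (ENNReal.ofReal ((T t0)^[r] (chi b) x))⁻¹ ^ 2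

theorem measurable_HH (b t0 : ℝ) (r : ℕ) : Measurable (HH b t0 r) := by
  unfold HH
  refine Measurable.mul ?_ ?_
  · exact ENNReal.measurable_ofReal.comp ((continuous_hat _).measurable.pow_const 3)
  · exact ((ENNReal.measurable_ofReal.comp
      (measurable_iter (measurable_chi b) t0 r)).inv).pow_const 2

theorem HH_zero {b t0 x : ℝ} {r : ℕ} (h : 9 / 10 + t0 ≤ |x|) : HH b t0 r x = 0 := by
  unfold HH
  rw [hat_of_lt h]
  simp

theorem int_HH {b t0 K G : ℝ} {r : ℕ} (ht : t0 ≤ 1) (hr : 1 ≤ r) (hG : Grw b t0 K G) :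
    ∫⁻ x, HH b t0 r x ≤ ENNReal.ofReal (8 * (K * G ^ r)) := by
  have h1 : ∫⁻ x, HH b t0 r x = ∫⁻ x in Icc (-(9 / 10 + t0)) (9 / 10 + t0), HH b t0 r x := by
    rw [← lintegral_indicator measurableSet_Icc]
    congr 1
    funext x
    by_cases hx : x ∈ Icc (-(9 / 10 + t0)) (9 / 10 + t0)
    · rw [indicator_of_mem hx]
    · rw [indicator_of_notMem hx]
      apply HH_zero
      by_contra hcon
      push Not at hcon
      exact hx ⟨by linarith [neg_abs_le x], by linarith [le_abs_self x]⟩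
  rw [h1]
  calc ∫⁻ x in Icc (-(9 / 10 + t0)) (9 / 10 + t0), HH b t0 r x ≤
      ∫⁻ x in Icc (-(9 / 10 + t0)) (9 / 10 + t0),
        8 * (ENNReal.ofReal ((T t0)^[r] (chi b) x))⁻¹ ^ 2 := by
        refine lintegral_mono fun x => ?_
        unfold HH
        refine mul_le_mul_left ?_ _
        have h2 : hat (9 / 10 + t0) x ≤ 2 := by
          unfold hat
          refine max_le ?_ (by norm_num)
          linarith [abs_nonneg x]
        have h3 : hat (9 / 10 + t0) x ^ 3 ≤ 8 := by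
          have := pow_le_pow_left₀ (hat_nonneg _ _) h2 3
          norm_num at this
          exact this
        calc ENNReal.ofReal (hat (9 / 10 + t0) x ^ 3) ≤ ENNReal.ofReal 8 :=
              ENNReal.ofReal_le_ofReal h3
          _ = 8 := by norm_num
    _ = 8 * ∫⁻ x in Icc (-(9 / 10 + t0)) (9 / 10 + t0),
        (ENNReal.ofReal ((T t0)^[r] (chi b) x))⁻¹ ^ 2 := by
        rw [lintegral_const_mul]
        exact ((ENNReal.measurable_ofReal.comp
          (measurable_iter (measurable_chi b) t0 r)).inv).pow_const 2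
    _ ≤ 8 * ENNReal.ofReal (K * G ^ r) := mul_le_mul_right (hG r hr) _
    _ = ENNReal.ofReal (8 * (K * G ^ r)) := by
        rw [ENNReal.ofReal_mul (by norm_num : (0 : ℝ) ≤ 8)]
        norm_num

/-- the integral over the window along one node -/
theorem node {b t0 K G : ℝ} {n i r : ℕ} {I : Set ℝ} (ht0 : t0 ≤ 1) (hr : 1 ≤ r)
    (hG : Grw b t0 K G) {s c : ℝ} (hs1 : 2 * 4 ^ (n + i) ≤ |s|) (hs2 : |s| ≤ 4 * 4 ^ (n + i))
    (hI : ∀ t ∈ I, |t - t0| ≤ ell (n + i)) (hIm : MeasurableSet I) :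
    ∫⁻ t in I, HH b t0 r (s * t + c) ≤ ENNReal.ofReal (ind (5 / 4 + t0) (s * t0 + c)) *
      ENNReal.ofReal (4 / 4 ^ (n + i) * (K * G ^ r)) := by
  by_cases h : |s * t0 + c| ≤ 5 / 4 + t0
  · rw [ind_of_le h, ENNReal.ofReal_one, one_mul]
    refine (affine_le (measurable_HH b t0 r) (by positivity : (0 : ℝ) < 2 * 4 ^ (n + i)) hs1 c
      I).trans ?_
    refine (mul_le_mul_right (int_HH ht0 hr hG) _).trans ?_
    rw [← ENNReal.ofReal_mul (by positivity)]
    refine ENNReal.ofReal_le_ofReal (le_of_eq ?_)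
    field_simp
    ring
  · have h0 : ∫⁻ t in I, HH b t0 r (s * t + c) = 0 := by
      rw [setLIntegral_congr_fun (g := fun _ => 0) hIm, lintegral_zero]
      intro t ht
      apply HH_zero
      push Not at h
      have h1 : |s * (t - t0)| ≤ 1 / 64 := by
        rw [abs_mul]
        calc |s| * |t - t0| ≤ (4 * 4 ^ (n + i)) * ell (n + i) :=
              mul_le_mul hs2 (hI t ht) (abs_nonneg _) (by positivity)
          _ = 4 * (4 ^ (n + i) * ell (n + i)) := by ring
          _ = 1 / 64 := by rw [pow_mul_ell]; norm_num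
      have h2 : s * t + c = (s * t0 + c) + s * (t - t0) := by ring
      have h3 : |s * t0 + c| ≤ |s * t + c| + |s * (t - t0)| := by
        have e : s * t0 + c = (s * t + c) - s * (t - t0) := by ring
        rw [e]
        exact abs_sub _ _
      linarith
    rw [h0]
    exact bot_le

end W2

open W2 in
theorem W2_thm (h2 : Stmt_EXP2) (hW : Stmt_W1) (hJ : Stmt_JEN) : Stmt_W2 := by
  obtain ⟨C1, hC1, hW1⟩ := hW
  refine ⟨4 * C1 ^ 7, by positivity, ?_⟩
  intro b i j n0 u v K G D n r t0 hr1 hrn ht0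
  have hn : 1 ≤ n := hr1.trans hrn
  obtain ⟨m, w, uu, vv, hw, -, hvv, -, hT⟩ := h2 n
  have rg0 := D.rg t0 ht0
  obtain ⟨hb1, -, -, ht1, ht2⟩ := Rg_le rg0
  have hb : 1 ≤ b := by linarith
  obtain ⟨w1, w2, w3, -⟩ := hW1 b i n t0 hn rg0 (D.blk t0 ht0)
  obtain ⟨E0, hE0⟩ : ∃ E0, E0 = E b i n t0 := ⟨_, rfl⟩
  rw [← hE0] at w1 w2 w3 ⊢
  have hE0p : 0 < E0 := lt_of_lt_of_le (by positivity) w3
  let s : Fin m → ℝ := fun d => 4 ^ n * (1 - 4 ^ (i + 1)) - vv d
  let c : Fin m → ℝ := fun d => 4 ^ n * (1 + 2 * 4 ^ i) - uu d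
  have hx : ∀ d t, 4 ^ n * rho i t - uu d - t * vv d = s d * t + c d := by
    intro d t
    simp only [s, c, rho]
    ring
  have h4i : (1 : ℝ) ≤ 4 ^ i := one_le_pow₀ (by norm_num)
  have h4n : (1 : ℝ) ≤ 4 ^ n := one_le_pow₀ (by norm_num)
  have hs1 : ∀ d, 2 * 4 ^ (n + i) ≤ |s d| := by
    intro d
    have h3 : |(4 : ℝ) ^ n * (1 - 4 ^ (i + 1))| - |vv d| ≤ |s d| :=
      abs_sub_abs_le_abs_sub _ _
    have h4 : |(4 : ℝ) ^ n * (1 - 4 ^ (i + 1))| = 4 ^ n * (4 ^ (i + 1) - 1) := by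
      have h8 : (1 : ℝ) ≤ 4 ^ (i + 1) := one_le_pow₀ (by norm_num)
      rw [abs_mul, abs_of_nonneg (by positivity : (0 : ℝ) ≤ 4 ^ n), abs_sub_comm,
        abs_of_nonneg (by linarith)]
    have h5 := hvv d
    have h6 : (4 : ℝ) ^ (n + i) = 4 ^ n * 4 ^ i := pow_add _ _ _
    have h7 : (4 : ℝ) ^ (i + 1) = 4 ^ i * 4 := pow_succ _ _
    rw [h4, h7] at h3
    rw [h6]
    nlinarith
  have hs2 : ∀ d, |s d| ≤ 4 * 4 ^ (n + i) := by
    intro d
    have h3 : |s d| ≤ |(4 : ℝ) ^ n * (1 - 4 ^ (i + 1))| + |vv d| := abs_sub _ _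
    have h4 : |(4 : ℝ) ^ n * (1 - 4 ^ (i + 1))| = 4 ^ n * (4 ^ (i + 1) - 1) := by
      have h8 : (1 : ℝ) ≤ 4 ^ (i + 1) := one_le_pow₀ (by norm_num)
      rw [abs_mul, abs_of_nonneg (by positivity : (0 : ℝ) ≤ 4 ^ n), abs_sub_comm,
        abs_of_nonneg (by linarith)]
    have h5 := hvv d
    have h6 : (4 : ℝ) ^ (n + i) = 4 ^ n * 4 ^ i := pow_add _ _ _
    have h7 : (4 : ℝ) ^ (i + 1) = 4 ^ i * 4 := pow_succ _ _
    rw [h4, h7] at h3
    rw [h6]
    nlinarith
  have hIm : MeasurableSet (Iw u v t0 (ell (n + i))) := measurableSet_Icc.inter measurableSet_Icc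
  have hI : ∀ t ∈ Iw u v t0 (ell (n + i)), |t - t0| ≤ ell (n + i) := by
    rintro t ⟨-, h3, h4⟩
    rw [abs_le]
    constructor <;> linarith
  -- the pointwise bound
  have hpt : ∀ t ∈ Iw u v t0 (ell (n + i)),
      (ENNReal.ofReal (E b i (n + r) t)) ^ (-(2 : ℝ)) ≤ ENNReal.ofReal (C1 ^ 6 / E0 ^ 3) *
        ∑ d, ENNReal.ofReal (w d) * HH b t0 r (s d * t + c d) := by
    intro t ht
    have htI := hI t ht
    have htuv : t ∈ Icc u v := ht.1
    have rgt := D.rg t htuv
    obtain ⟨-, v2, -, v4⟩ := hW1 b i n t hn rgt (D.blk t htuv)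
    have v5 := v4 t0 rg0 (D.blk t0 ht0) htI
    rw [← hE0] at v5
    have hl : ell (n + i) ≤ 1 / 100 := by
      have h3 := pow_mul_ell n i
      have h4 : (4 : ℝ) ≤ 4 ^ (n + i) := by
        calc (4 : ℝ) = 4 ^ 1 := (pow_one _).symm
          _ ≤ 4 ^ (n + i) := pow_le_pow_right₀ (by norm_num) (by omega)
      nlinarith [ell_pos (n + i)]
    have habs := abs_le.1 htI
    -- lower bound for `Z`
    have hZ : E0 / C1 ^ 2 ≤ ∑ d, w d * hat (9 / 10 + t0) (s d * t + c d) := by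
      have h3 : (T t)^[n] (hat (89 / 100 + t)) (rho i t) ≤
          ∑ d, w d * hat (9 / 10 + t0) (s d * t + c d) := by
        rw [hT]
        refine Finset.sum_le_sum fun d _ => mul_le_mul_of_nonneg_left ?_ (hw d).le
        rw [hx]
        exact hat_mono (by linarith) _
      rw [div_le_iff₀ (by positivity)]
      calc E0 ≤ C1 * E b i n t := v5
        _ ≤ C1 * (C1 * (T t)^[n] (hat (89 / 100 + t)) (rho i t)) :=
            mul_le_mul_of_nonneg_left v2 hC1.le
        _ ≤ C1 * (C1 * ∑ d, w d * hat (9 / 10 + t0) (s d * t + c d)) := by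
            gcongr
        _ = _ := by ring
    have hZp : 0 < ∑ d, w d * hat (9 / 10 + t0) (s d * t + c d) :=
      lt_of_lt_of_le (by positivity) hZ
    have hEge : ∑ d, w d * (T t0)^[r] (chi b) (s d * t + c d) ≤ E b i (n + r) t := by
      unfold E
      rw [iter_add_apply, hT]
      refine Finset.sum_le_sum fun d _ => mul_le_mul_of_nonneg_left ?_ (hw d).le
      rw [hx]
      exact freeze h2 hb hrn htI _
    have hjen := hJ m w (fun d => hat (9 / 10 + t0) (s d * t + c d))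
      (fun d => (T t0)^[r] (chi b) (s d * t + c d)) (fun d => (hw d).le)
      (fun d => hat_nonneg _ _) (fun d => iter_nonneg (chi_nonneg b) t0 r _) hZp
    rw [rpow_neg_two]
    calc (ENNReal.ofReal (E b i (n + r) t))⁻¹ ^ 2 ≤
        (ENNReal.ofReal (∑ d, w d * (T t0)^[r] (chi b) (s d * t + c d)))⁻¹ ^ 2 := by
          gcongr
      _ ≤ _ := hjen
      _ ≤ ENNReal.ofReal (C1 ^ 6 / E0 ^ 3) *
          ∑ d, ENNReal.ofReal (w d * hat (9 / 10 + t0) (s d * t + c d) ^ 3) *
            (ENNReal.ofReal ((T t0)^[r] (chi b) (s d * t + c d)))⁻¹ ^ 2 := by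
          refine mul_le_mul_left (ENNReal.ofReal_le_ofReal ?_) _
          rw [div_le_div_iff₀ (by positivity) (by positivity), one_mul]
          have h3 : E0 ^ 3 ≤ (C1 ^ 2 * ∑ d, w d * hat (9 / 10 + t0) (s d * t + c d)) ^ 3 := by
            refine pow_le_pow_left₀ hE0p.le ?_ 3
            rw [div_le_iff₀ (by positivity)] at hZ
            linarith
          calc E0 ^ 3 ≤ _ := h3
            _ = _ := by ring
      _ = _ := by
          congr 1
          refine Finset.sum_congr rfl fun d _ => ?_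
          rw [ENNReal.ofReal_mul (hw d).le, mul_assoc]
          rfl
  -- integration
  have hmeas : ∀ d, Measurable fun t => ENNReal.ofReal (w d) * HH b t0 r (s d * t + c d) :=
    fun d => ((measurable_HH b t0 r).comp (by fun_prop)).const_mul _
  calc ∫⁻ t in Iw u v t0 (ell (n + i)), (ENNReal.ofReal (E b i (n + r) t)) ^ (-(2 : ℝ)) ≤
      ∫⁻ t in Iw u v t0 (ell (n + i)), ENNReal.ofReal (C1 ^ 6 / E0 ^ 3) *
        ∑ d, ENNReal.ofReal (w d) * HH b t0 r (s d * t + c d) := setLIntegral_mono' hIm hpt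
    _ = ENNReal.ofReal (C1 ^ 6 / E0 ^ 3) * ∑ d, ENNReal.ofReal (w d) *
        ∫⁻ t in Iw u v t0 (ell (n + i)), HH b t0 r (s d * t + c d) := by
        rw [lintegral_const_mul _ (Finset.measurable_sum _ fun d _ => hmeas d),
          lintegral_finsetSum _ fun d _ => hmeas d]
        congr 1
        refine Finset.sum_congr rfl fun d _ => ?_
        have hm : Measurable fun t => HH b t0 r (s d * t + c d) :=
          (measurable_HH b t0 r).comp (by fun_prop)
        rw [lintegral_const_mul _ hm]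
    _ ≤ ENNReal.ofReal (C1 ^ 6 / E0 ^ 3) * ∑ d, ENNReal.ofReal (w d) *
        (ENNReal.ofReal (ind (5 / 4 + t0) (s d * t0 + c d)) *
          ENNReal.ofReal (4 / 4 ^ (n + i) * (K * G ^ r))) := by
        gcongr with d _
        exact node ht2 hr1 (D.grw t0 ht0) (hs1 d) (hs2 d) hI hIm
    _ = ENNReal.ofReal (C1 ^ 6 / E0 ^ 3) *
        (ENNReal.ofReal ((T t0)^[n] (ind (5 / 4 + t0)) (rho i t0)) *
          ENNReal.ofReal (4 / 4 ^ (n + i) * (K * G ^ r))) := by
        congr 1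
        rw [hT, ENNReal.ofReal_sum_of_nonneg
          (fun d _ => mul_nonneg (hw d).le (ind_nonneg _ _)), Finset.sum_mul]
        refine Finset.sum_congr rfl fun d _ => ?_
        rw [hx, ENNReal.ofReal_mul (hw d).le, mul_assoc]
    _ ≤ ENNReal.ofReal (C1 ^ 6 / E0 ^ 3) * (ENNReal.ofReal (C1 * E0) *
          ENNReal.ofReal (4 / 4 ^ (n + i) * (K * G ^ r))) := by
        gcongr
    _ = ENNReal.ofReal (4 * C1 ^ 7 / 4 ^ (n + i) * (K * G ^ r)) *
        (ENNReal.ofReal E0) ^ (-(2 : ℝ)) := by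
        have hK := D.hK
        have hG := D.hG
        rw [rpow_neg_two, ← ENNReal.ofReal_inv_of_pos hE0p, ← ENNReal.ofReal_pow (by positivity),
          ← ENNReal.ofReal_mul (by positivity), ← ENNReal.ofReal_mul (by positivity),
          ← ENNReal.ofReal_mul (by positivity)]
        congr 1
        field_simp

end Pool.Agent.FCQ
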