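import Pool.Agent.FCQ.Stmts

/-!
# Four corner Cantor sets, the exponent one half: module W3, the increments over a window
-/

set_option autoImplicit false

namespace Pool.Agent.FCQ

open MeasureTheory Set

namespace W3

/-- The square integral of the increments over the directions near `t0`. -/
noncomputable def HH (b : ℝ) (r : ℕ) (t0 x : ℝ) : ENNReal :=
  ∫⁻ τ in Icc (t0 - 1 / 4 ^ r) (t0 + 1 / 4 ^ r),
    ENNReal.ofReal (gr b r x τ ^ 2 + dgr b r x τ ^ 2 / 16 ^ r)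

theorem gr_zero {b t : ℝ} (h : Rg b t) (r : ℕ) {x : ℝ} (hx : 1 + t < |x|) : gr b r x t = 0 := by
  obtain ⟨h1, h2, h3, h4, h5⟩ := Rg_le h
  have hz : ∀ y, b < |y| → Phi b y = 0 := fun y hy => Phi_eq_zero (by linarith) hy.le
  unfold gr
  rw [iter_zero (by linarith) h3 hz (r + 1) x hx, iter_zero (by linarith) h3 hz r x hx, sub_zero]

theorem Ediff (b : ℝ) (i n r : ℕ) (t : ℝ) :
    E b i (n + r + 1) t - E b i (n + r) t = (T t)^[n] (fun x => gr b r x t) (rho i t) := by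
  unfold E gr
  rw [show n + r + 1 = n + (r + 1) from by ring, iter_add_apply t n (r + 1),
    iter_add_apply t n r, iter_sub]

theorem lint_affine (H : ℝ → ENNReal) (hH : Measurable H) (s c : ℝ) (hs : s ≠ 0) :
    ∫⁻ t, H (s * t + c) = ENNReal.ofReal |s⁻¹| * ∫⁻ x, H x := by
  have h1 : Measurable (fun y => H (y + c)) := hH.comp (measurable_add_const c)
  have h2 : ∫⁻ t, H (s * t + c) = ∫⁻ y, H (y + c) ∂(Measure.map (fun t => s * t) volume) := by
    rw [lintegral_map h1 (measurable_const_mul s)]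
  rw [h2, Real.map_volume_mul_left hs, lintegral_smul_measure, smul_eq_mul]
  congr 1
  exact lintegral_add_right_eq_self H c

theorem joint_cont (hD : Stmt_DER) {b : ℝ} (hb : b = 7 / 5 ∨ b = 169 / 100) (r : ℕ) :
    Continuous (fun p : ℝ × ℝ => gr b r p.1 p.2 ^ 2 + dgr b r p.1 p.2 ^ 2 / 16 ^ r) := by
  obtain ⟨h1, h2, _, _⟩ := hD b hb r
  exact (h1.pow 2).add ((h2.pow 2).div_const _)

theorem measurable_HH (hD : Stmt_DER) {b : ℝ} (hb : b = 7 / 5 ∨ b = 169 / 100) (r : ℕ)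
    (t0 : ℝ) : Measurable (HH b r t0) := by
  have h := joint_cont hD hb r
  unfold HH
  exact Measurable.lintegral_prod_right' (f := fun p : ℝ × ℝ =>
    ENNReal.ofReal (gr b r p.1 p.2 ^ 2 + dgr b r p.1 p.2 ^ 2 / 16 ^ r)) h.measurable.ennreal_ofReal

theorem lint_HH (hD : Stmt_DER) {b : ℝ} (hb : b = 7 / 5 ∨ b = 169 / 100) (r : ℕ) (t0 : ℝ) :
    ∫⁻ x, HH b r t0 x = ∫⁻ τ in Icc (t0 - 1 / 4 ^ r) (t0 + 1 / 4 ^ r), Nr b r τ := by
  have h := joint_cont hD hb r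
  unfold HH Nr
  exact lintegral_lintegral_swap (f := fun x τ =>
    ENNReal.ofReal (gr b r x τ ^ 2 + dgr b r x τ ^ 2 / 16 ^ r))
    h.measurable.ennreal_ofReal.aemeasurable

theorem sob_bound (hD : Stmt_DER) (hS : Stmt_SOB) {b : ℝ} (hb : b = 7 / 5 ∨ b = 169 / 100)
    (r : ℕ) (t0 t x : ℝ) (ht : |t - t0| ≤ 1 / 4 ^ r) :
    ENNReal.ofReal (gr b r x t ^ 2) ≤ ENNReal.ofReal (4 * 4 ^ r) * HH b r t0 x := by
  obtain ⟨h1, h2, h3, _⟩ := hD b hb r
  have hc1 : Continuous (fun τ => gr b r x τ) :=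
    h1.comp (f := fun τ : ℝ => (x, τ)) (by fun_prop)
  have hc2 : Continuous (fun τ => dgr b r x τ) :=
    h2.comp (f := fun τ : ℝ => (x, τ)) (by fun_prop)
  have h4 : (0 : ℝ) < 1 / 4 ^ r := by positivity
  have hab : t0 - 1 / 4 ^ r < t0 + 1 / 4 ^ r := by linarith
  obtain ⟨ht1, ht2⟩ := abs_le.1 ht
  have hs := hS (fun τ => gr b r x τ) (fun τ => dgr b r x τ) _ _ t hab (fun τ => h3 x τ) hc2
    ⟨by linarith, by linarith⟩
  have hlen : (t0 + 1 / 4 ^ r : ℝ) - (t0 - 1 / 4 ^ r) = 2 / 4 ^ r := by ring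
  rw [hlen] at hs
  have hq : (0 : ℝ) < 4 ^ r := by positivity
  have h16 : (16 : ℝ) ^ r = 4 ^ r * 4 ^ r := by rw [← mul_pow]; norm_num
  have e1 : (2 : ℝ) / (2 / 4 ^ r) = 4 ^ r := by field_simp
  have e2 : 2 * (2 / (4 : ℝ) ^ r) = 4 * 4 ^ r / 16 ^ r := by rw [h16]; field_simp; norm_num
  rw [e1, e2] at hs
  have i1 : (0 : ℝ) ≤ ∫ τ in (t0 - 1 / 4 ^ r)..(t0 + 1 / 4 ^ r), gr b r x τ ^ 2 :=
    intervalIntegral.integral_nonneg hab.le fun τ _ => sq_nonneg _
  have i2 : (0 : ℝ) ≤ ∫ τ in (t0 - 1 / 4 ^ r)..(t0 + 1 / 4 ^ r), dgr b r x τ ^ 2 :=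
    intervalIntegral.integral_nonneg hab.le fun τ _ => sq_nonneg _
  have hcF : Continuous (fun τ => gr b r x τ ^ 2 + dgr b r x τ ^ 2 / 16 ^ r) :=
    (hc1.pow 2).add ((hc2.pow 2).div_const _)
  have hsum : (∫ τ in (t0 - 1 / 4 ^ r)..(t0 + 1 / 4 ^ r),
      (gr b r x τ ^ 2 + dgr b r x τ ^ 2 / 16 ^ r)) =
      (∫ τ in (t0 - 1 / 4 ^ r)..(t0 + 1 / 4 ^ r), gr b r x τ ^ 2) +
        (∫ τ in (t0 - 1 / 4 ^ r)..(t0 + 1 / 4 ^ r), dgr b r x τ ^ 2) / 16 ^ r := by
    have hf1 : Continuous (fun τ => gr b r x τ ^ 2) := hc1.pow 2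
    have hf2 : Continuous (fun τ => dgr b r x τ ^ 2 / 16 ^ r) := (hc2.pow 2).div_const _
    rw [intervalIntegral.integral_add (hf1.intervalIntegrable _ _)
      (hf2.intervalIntegrable _ _), intervalIntegral.integral_div]
  have hfin : gr b r x t ^ 2 ≤ 4 * 4 ^ r * ∫ τ in (t0 - 1 / 4 ^ r)..(t0 + 1 / 4 ^ r),
      (gr b r x τ ^ 2 + dgr b r x τ ^ 2 / 16 ^ r) := by
    rw [hsum]
    have h5 : 4 * 4 ^ r / 16 ^ r * (∫ τ in (t0 - 1 / 4 ^ r)..(t0 + 1 / 4 ^ r),
        dgr b r x τ ^ 2) = 4 * 4 ^ r * ((∫ τ in (t0 - 1 / 4 ^ r)..(t0 + 1 / 4 ^ r),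
        dgr b r x τ ^ 2) / 16 ^ r) := by ring
    rw [h5] at hs
    nlinarith [mul_nonneg hq.le i1]
  calc ENNReal.ofReal (gr b r x t ^ 2)
      ≤ ENNReal.ofReal (4 * 4 ^ r * ∫ τ in (t0 - 1 / 4 ^ r)..(t0 + 1 / 4 ^ r),
        (gr b r x τ ^ 2 + dgr b r x τ ^ 2 / 16 ^ r)) := ENNReal.ofReal_le_ofReal hfin
    _ = ENNReal.ofReal (4 * 4 ^ r) * ENNReal.ofReal (∫ τ in Ioc (t0 - 1 / 4 ^ r)
        (t0 + 1 / 4 ^ r), (gr b r x τ ^ 2 + dgr b r x τ ^ 2 / 16 ^ r)) := by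
        rw [ENNReal.ofReal_mul (by positivity), intervalIntegral.integral_of_le hab.le]
    _ = ENNReal.ofReal (4 * 4 ^ r) * ∫⁻ τ in Ioc (t0 - 1 / 4 ^ r) (t0 + 1 / 4 ^ r),
        ENNReal.ofReal (gr b r x τ ^ 2 + dgr b r x τ ^ 2 / 16 ^ r) := by
        rw [ofReal_integral_eq_lintegral_ofReal hcF.integrableOn_Ioc
          (ae_of_all _ fun τ => by positivity)]
    _ ≤ ENNReal.ofReal (4 * 4 ^ r) * HH b r t0 x := by
        apply mul_le_mul_right
        exact lintegral_mono_set Ioc_subset_Icc_self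

/-- The motion of the points in the window. -/
theorem pt_affine (i n : ℕ) (ud vd t : ℝ) : 4 ^ n * rho i t - ud - t * vd =
    (4 ^ n * (1 - 4 ^ (i + 1)) - vd) * t + (4 ^ n * (1 + 2 * 4 ^ i) - ud) := by
  unfold rho
  ring

theorem slope_bound (i n : ℕ) (vd : ℝ) (hv : |vd| ≤ 4 ^ n - 1) :
    2 * 4 ^ (n + i) ≤ |4 ^ n * (1 - 4 ^ (i + 1)) - vd| ∧
      |4 ^ n * (1 - 4 ^ (i + 1)) - vd| ≤ (4 : ℝ) ^ (n + i + 1) := by
  obtain ⟨h1, h2⟩ := abs_le.1 hv
  have hi : (1 : ℝ) ≤ 4 ^ i := one_le_pow₀ (by norm_num)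
  have hn : (1 : ℝ) ≤ 4 ^ n := one_le_pow₀ (by norm_num)
  have e1 : (4 : ℝ) ^ (n + i) = 4 ^ n * 4 ^ i := pow_add _ _ _
  have e2 : (4 : ℝ) ^ (n + i + 1) = 4 * (4 ^ n * 4 ^ i) := by rw [pow_succ, e1]; ring
  have e3 : (4 : ℝ) ^ (i + 1) = 4 * 4 ^ i := by rw [pow_succ]; ring
  rw [e1, e2, e3]
  have h3 : (4 : ℝ) ^ n ≤ 4 ^ n * 4 ^ i := by nlinarith
  have h4 : 4 ^ n * (1 - 4 * 4 ^ i) - vd ≤ 0 := by nlinarith
  rw [abs_of_nonpos h4]
  constructor <;> nlinarith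

end W3

open W3 in
theorem W3_thm : Stmt_EXP2 → Stmt_W1 → Stmt_DER → Stmt_SOB → Stmt_W3 := by
  intro hX hW hD hS
  obtain ⟨C1, hC1, hW⟩ := hW
  refine ⟨2 * C1 ^ 2, by positivity, ?_⟩
  intro b i j n0 u v K G hdat n r t0 hn hr ht0
  obtain ⟨m, w, ud, vd, hw, hu, hv, _, hexp⟩ := hX n
  have hRg0 : Rg b t0 := hdat.rg t0 ht0
  have hb : b = 7 / 5 ∨ b = 169 / 100 := by
    rcases hRg0 with ⟨h, _⟩ | ⟨h, _⟩
    · exact Or.inl h
    · exact Or.inr h
  have hE0 : 0 ≤ E b i n t0 := E_nonneg b i n t0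
  -- the points which occur
  set D0 : Finset (Fin m) := Finset.univ.filter
    (fun d => |4 ^ n * rho i t0 - ud d - t0 * vd d| ≤ 5 / 4 + t0) with hD0
  have hwsum : ∑ d ∈ D0, w d ≤ C1 * E b i n t0 := by
    have h1 := (hW b i n t0 hn hRg0 (hdat.blk t0 ht0)).1
    rw [hexp] at h1
    refine le_trans (le_of_eq ?_) h1
    rw [hD0, Finset.sum_filter]
    refine Finset.sum_congr rfl fun d _ => ?_
    unfold ind
    split_ifs <;> simp
  have hl : ell (n + i) = 1 / (256 * 4 ^ (n + i)) := rfl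
  have hq : (0 : ℝ) < 4 ^ (n + i) := by positivity
  have hlpos : 0 < ell (n + i) := by rw [hl]; positivity
  have hpow1 : (1 : ℝ) ≤ 4 ^ (n + i) := one_le_pow₀ (by norm_num)
  have hl1 : ell (n + i) ≤ 1 / 256 := by
    rw [hl]
    apply one_div_le_one_div_of_le (by norm_num)
    linarith
  have hlr : ell (n + i) ≤ 1 / 4 ^ r := by
    rw [hl]
    apply one_div_le_one_div_of_le (by positivity)
    have : (4 : ℝ) ^ r ≤ 4 ^ (n + i) := pow_le_pow_right₀ (by norm_num) (by omega)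
    linarith
  have hl4 : ell (n + i) * 4 ^ (n + i + 1) = 1 / 64 := by
    rw [hl, pow_succ]
    field_simp
    norm_num
  -- the pointwise estimate
  have hpt : ∀ t ∈ Iw u v t0 (ell (n + i)),
      ENNReal.ofReal ((E b i (n + r + 1) t - E b i (n + r) t) ^ 2) ≤
        ENNReal.ofReal (C1 * E b i n t0) * ∑ d ∈ D0, ENNReal.ofReal (w d) *
          (ENNReal.ofReal (4 * 4 ^ r) * HH b r t0 ((4 ^ n * (1 - 4 ^ (i + 1)) - vd d) * t +
            (4 ^ n * (1 + 2 * 4 ^ i) - ud d))) := by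
    intro t ht
    obtain ⟨ht1, ht2⟩ := ht
    have hdt : |t - t0| ≤ ell (n + i) := by
      rw [abs_le]
      exact ⟨by linarith [ht2.1], by linarith [ht2.2]⟩
    have hRg : Rg b t := hdat.rg t ht1
    rw [Ediff, hexp]
    have hzero : ∀ d, d ∉ D0 → gr b r (4 ^ n * rho i t - ud d - t * vd d) t = 0 := by
      intro d hd
      apply gr_zero hRg
      rw [hD0, Finset.mem_filter, not_and] at hd
      have h1 := not_le.1 (hd (Finset.mem_univ d))
      have h2 : (4 ^ n * rho i t - ud d - t * vd d) - (4 ^ n * rho i t0 - ud d - t0 * vd d) =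
          (4 ^ n * (1 - 4 ^ (i + 1)) - vd d) * (t - t0) := by
        rw [pt_affine, pt_affine]
        ring
      have h3 : |(4 ^ n * rho i t - ud d - t * vd d) -
          (4 ^ n * rho i t0 - ud d - t0 * vd d)| ≤ 1 / 64 := by
        rw [h2, abs_mul]
        calc |4 ^ n * (1 - 4 ^ (i + 1)) - vd d| * |t - t0|
            ≤ (4 : ℝ) ^ (n + i + 1) * ell (n + i) :=
              mul_le_mul (slope_bound i n (vd d) (hv d)).2 hdt (abs_nonneg _) (by positivity)
          _ = 1 / 64 := by rw [mul_comm]; exact hl4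
      have h4 := abs_sub_abs_le_abs_sub (4 ^ n * rho i t0 - ud d - t0 * vd d)
        (4 ^ n * rho i t - ud d - t * vd d)
      rw [abs_sub_comm (4 ^ n * rho i t0 - ud d - t0 * vd d)
        (4 ^ n * rho i t - ud d - t * vd d)] at h4
      have h5 := (abs_le.1 hdt).2
      linarith
    have hs1 : ∑ d, w d * gr b r (4 ^ n * rho i t - ud d - t * vd d) t =
        ∑ d ∈ D0, w d * gr b r (4 ^ n * rho i t - ud d - t * vd d) t := by
      symm
      apply Finset.sum_subset (Finset.subset_univ _)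
      intro d _ hd
      rw [hzero d hd, mul_zero]
    rw [hs1]
    have hcs : (∑ d ∈ D0, w d * gr b r (4 ^ n * rho i t - ud d - t * vd d) t) ^ 2 ≤
        (∑ d ∈ D0, w d) *
          ∑ d ∈ D0, w d * gr b r (4 ^ n * rho i t - ud d - t * vd d) t ^ 2 := by
      apply Finset.sum_sq_le_sum_mul_sum_of_sq_le_mul
      · intro d _
        exact (hw d).le
      · intro d _
        exact mul_nonneg (hw d).le (sq_nonneg _)
      · intro d _
        exact le_of_eq (by ring)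
    have hnn : 0 ≤ ∑ d ∈ D0, w d * gr b r (4 ^ n * rho i t - ud d - t * vd d) t ^ 2 :=
      Finset.sum_nonneg fun d _ => mul_nonneg (hw d).le (sq_nonneg _)
    calc ENNReal.ofReal ((∑ d ∈ D0, w d * gr b r (4 ^ n * rho i t - ud d - t * vd d) t) ^ 2)
        ≤ ENNReal.ofReal ((C1 * E b i n t0) *
          ∑ d ∈ D0, w d * gr b r (4 ^ n * rho i t - ud d - t * vd d) t ^ 2) :=
          ENNReal.ofReal_le_ofReal (le_trans hcs (mul_le_mul_of_nonneg_right hwsum hnn))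
      _ = ENNReal.ofReal (C1 * E b i n t0) * ∑ d ∈ D0, ENNReal.ofReal (w d) *
          ENNReal.ofReal (gr b r (4 ^ n * rho i t - ud d - t * vd d) t ^ 2) := by
          rw [ENNReal.ofReal_mul (by positivity), ENNReal.ofReal_sum_of_nonneg
            (fun d _ => mul_nonneg (hw d).le (sq_nonneg _))]
          congr 1
          refine Finset.sum_congr rfl fun d _ => ?_
          rw [ENNReal.ofReal_mul (hw d).le]
      _ ≤ _ := by
          apply mul_le_mul_right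
          apply Finset.sum_le_sum
          intro d _
          apply mul_le_mul_right
          have := sob_bound hD hS hb r t0 t (4 ^ n * rho i t - ud d - t * vd d)
            (le_trans hdt hlr)
          rw [pt_affine] at this ⊢
          exact this
  have hWm : MeasurableSet (Iw u v t0 (ell (n + i))) := measurableSet_Icc.inter measurableSet_Icc
  have hHm := measurable_HH hD hb r t0
  have hHd : ∀ d, Measurable (fun t => HH b r t0 ((4 ^ n * (1 - 4 ^ (i + 1)) - vd d) * t +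
      (4 ^ n * (1 + 2 * 4 ^ i) - ud d))) := fun d =>
    hHm.comp (f := fun t => (4 ^ n * (1 - 4 ^ (i + 1)) - vd d) * t +
      (4 ^ n * (1 + 2 * 4 ^ i) - ud d)) (by fun_prop)
  -- integration of one point
  have hone : ∀ d, ∫⁻ t in Iw u v t0 (ell (n + i)), HH b r t0
      ((4 ^ n * (1 - 4 ^ (i + 1)) - vd d) * t + (4 ^ n * (1 + 2 * 4 ^ i) - ud d)) ≤
      ENNReal.ofReal (1 / (2 * 4 ^ (n + i))) *
        ∫⁻ τ in Icc (t0 - 1 / 4 ^ r) (t0 + 1 / 4 ^ r), Nr b r τ := by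
    intro d
    have hsl := (slope_bound i n (vd d) (hv d)).1
    have hspos : 0 < |4 ^ n * (1 - 4 ^ (i + 1)) - vd d| := lt_of_lt_of_le (by positivity) hsl
    calc ∫⁻ t in Iw u v t0 (ell (n + i)), HH b r t0
          ((4 ^ n * (1 - 4 ^ (i + 1)) - vd d) * t + (4 ^ n * (1 + 2 * 4 ^ i) - ud d))
        ≤ ∫⁻ t, HH b r t0
          ((4 ^ n * (1 - 4 ^ (i + 1)) - vd d) * t + (4 ^ n * (1 + 2 * 4 ^ i) - ud d)) :=
          setLIntegral_le_lintegral _ _
      _ = ENNReal.ofReal |(4 ^ n * (1 - 4 ^ (i + 1)) - vd d)⁻¹| * ∫⁻ x, HH b r t0 x :=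
          lint_affine _ hHm _ _ (abs_pos.1 hspos)
      _ ≤ ENNReal.ofReal (1 / (2 * 4 ^ (n + i))) * ∫⁻ x, HH b r t0 x := by
          apply mul_le_mul_left
          apply ENNReal.ofReal_le_ofReal
          rw [abs_inv, ← one_div]
          exact one_div_le_one_div_of_le (by positivity) hsl
      _ = _ := by rw [lint_HH hD hb]
  calc ∫⁻ t in Iw u v t0 (ell (n + i)),
        ENNReal.ofReal ((E b i (n + r + 1) t - E b i (n + r) t) ^ 2)
      ≤ ∫⁻ t in Iw u v t0 (ell (n + i)), ENNReal.ofReal (C1 * E b i n t0) *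
          ∑ d ∈ D0, ENNReal.ofReal (w d) *
          (ENNReal.ofReal (4 * 4 ^ r) * HH b r t0 ((4 ^ n * (1 - 4 ^ (i + 1)) - vd d) * t +
            (4 ^ n * (1 + 2 * 4 ^ i) - ud d))) := setLIntegral_mono' hWm hpt
    _ = ENNReal.ofReal (C1 * E b i n t0) * ∑ d ∈ D0, ENNReal.ofReal (w d) *
          (ENNReal.ofReal (4 * 4 ^ r) * ∫⁻ t in Iw u v t0 (ell (n + i)),
            HH b r t0 ((4 ^ n * (1 - 4 ^ (i + 1)) - vd d) * t +
            (4 ^ n * (1 + 2 * 4 ^ i) - ud d))) := by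
        rw [lintegral_const_mul _ (Finset.measurable_sum _ fun d _ =>
          ((hHd d).const_mul _).const_mul _), lintegral_finsetSum _ (fun d _ =>
          ((hHd d).const_mul _).const_mul _)]
        congr 1
        refine Finset.sum_congr rfl fun d _ => ?_
        rw [lintegral_const_mul _ ((hHd d).const_mul _), lintegral_const_mul _ (hHd d)]
    _ ≤ ENNReal.ofReal (C1 * E b i n t0) * ∑ d ∈ D0, ENNReal.ofReal (w d) *
          (ENNReal.ofReal (4 * 4 ^ r) * (ENNReal.ofReal (1 / (2 * 4 ^ (n + i))) *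
            ∫⁻ τ in Icc (t0 - 1 / 4 ^ r) (t0 + 1 / 4 ^ r), Nr b r τ)) := by
        apply mul_le_mul_right
        apply Finset.sum_le_sum
        intro d _
        exact mul_le_mul_right (mul_le_mul_right (hone d) _) _
    _ ≤ ENNReal.ofReal (C1 * E b i n t0) * (ENNReal.ofReal (C1 * E b i n t0) *
          (ENNReal.ofReal (4 * 4 ^ r) * (ENNReal.ofReal (1 / (2 * 4 ^ (n + i))) *
            ∫⁻ τ in Icc (t0 - 1 / 4 ^ r) (t0 + 1 / 4 ^ r), Nr b r τ))) := by
        apply mul_le_mul_right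
        rw [← Finset.sum_mul]
        apply mul_le_mul_left
        rw [← ENNReal.ofReal_sum_of_nonneg (fun d _ => (hw d).le)]
        exact ENNReal.ofReal_le_ofReal hwsum
    _ = _ := by
        rw [← mul_assoc, ← mul_assoc, ← mul_assoc, ← ENNReal.ofReal_mul (by positivity),
          ← ENNReal.ofReal_mul (by positivity), ← ENNReal.ofReal_mul (by positivity)]
        congr 2
        field_simp
        ring

end Pool.Agent.FCQ
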