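import Pool.Agent.FCQ.EXP2
import Pool.Agent.FCQ.AUT1
import Pool.Agent.FCQ.AUT2
import Pool.Agent.FCQ.EDGE
import Pool.Agent.FCQ.COV
import Pool.Agent.FCQ.JEN
import Pool.Agent.FCQ.GMID
import Pool.Agent.FCQ.CM
import Pool.Agent.FCQ.DATS
import Pool.Agent.FCQ.W2
import Pool.Agent.FCQ.SHORT
import Pool.Agent.FCQ.FTR
import Pool.Agent.FCQ.PSI
import Pool.Agent.FCQ.DER
import Pool.Agent.FCQ.FTG
import Pool.Agent.FCQ.PLN
import Pool.Agent.FCQ.NRB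
import Pool.Agent.FCQ.RATE
import Pool.Agent.FCQ.SOB
import Pool.Agent.FCQ.W3
import Pool.Agent.FCQ.COVW
import Pool.Agent.FCQ.FINX
import Pool.Agent.FCQ.REC1
import Pool.Agent.FCQ.GRO
import Pool.Agent.FCQ.LOCB
import Pool.Agent.FCQ.REC2
import Pool.Agent.FCQ.REC3
import Pool.Agent.FCQ.SEQ
import Pool.Agent.FCQ.MIDF
import Pool.Agent.FCQ.HALF1
import Pool.Agent.FCQ.LOWJ
import Pool.Agent.FCQ.EXPO
import Pool.Agent.FCQ.ONE1
import Pool.Agent.FCQ.ONE2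
import Pool.Agent.FCQ.MOM
import Pool.Agent.FCQ.TAIL2
import Pool.Agent.FCQ.DICH2
import Pool.Agent.FCQ.INT2
import Pool.Agent.FCQ.SYM
import Pool.Agent.FCQ.RED2
import Pool.Agent.FCC.GEO
import Pool.Agent.FCC.FAVL

/-!
# The Favard length of the generations of the four corner Cantor set
-/

set_option autoImplicit false

namespace Pool.Agent.FCQ

open MeasureTheory Set

/-- The average length of the projections, from the two certificates. -/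
theorem AVERQ_thm (hW1 : Stmt_W1) (hHALF2 : Stmt_HALF2) (hCO : Stmt_CO) (hGONE : Stmt_GONE) :
    ∃ C : ℝ, 0 < C ∧ ∀ n : ℕ, 1 ≤ n → ∫ t in (0 : ℝ)..1, FCC.L n t ≤ C / √n := by
  have hW2 : Stmt_W2 := W2_thm EXP2_thm hW1 JEN_thm
  have hDER : Stmt_DER := DER_thm EXP2_thm
  have hW3 : Stmt_W3 := W3_thm EXP2_thm hW1 hDER SOB_thm
  have hFINX : Stmt_FINX := FINX_thm hW1
  have hGRO : Stmt_GRO := GRO_thm (REC1_thm hW2 COVW_thm hFINX)
  have hNRB : Stmt_NRB := NRB_thm PLN_thm (FTG_thm FTR_thm hDER) PSI_thm hDER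
  have hREC2 : Stmt_REC2 :=
    REC2_thm (LOCB_thm hW2 hW3 hFINX) COVW_thm (RATE_thm hNRB SHORT_thm) hFINX
  have hREC3 : Stmt_REC3 := REC3_thm hREC2 hFINX
  have hLOWJ : Stmt_LOWJ := LOWJ_thm COV_thm
  have hONE2 : Stmt_ONE2 :=
    ONE2_thm (ONE1_thm hLOWJ hGRO hFINX EXPO_thm) hREC3 hGRO SEQ_thm hFINX hLOWJ EXPO_thm
  have hMIDF : Stmt_MIDF := MIDF_thm hREC3 hGRO SEQ_thm hFINX
  have hD := DATS_thm CM_thm (GMID_thm COV_thm JEN_thm) hCO hGONE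
  exact RED2_thm (INT2_thm (TAIL2_thm (MOM_thm hD hMIDF hHALF2 hONE2 EDGE_thm hFINX)
    AUT1_thm AUT2_thm) DICH2_full) SYM_thm

/-- The theorem. -/
theorem MAINQ_of (h : ∃ C : ℝ, 0 < C ∧ ∀ n : ℕ, 1 ≤ n → ∫ t in (0 : ℝ)..1, FCC.L n t ≤ C / √n)
    (hFAVL : FCC.Stmt_FAVL) (hCAP : FCC.Stmt_CAP) : Stmt_MAINQ := by
  obtain ⟨C, hC, h⟩ := h
  have h1 : ∀ n : ℕ, 1 ≤ n → FCC.Fav (FCC.E n) ≤ 4 * C / √n := by
    intro n hn
    calc FCC.Fav (FCC.E n) ≤ 4 * ∫ t in (0 : ℝ)..1, FCC.L n t := hFAVL n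
      _ ≤ 4 * (C / √n) := by linarith [h n hn]
      _ = 4 * C / √n := by ring
  refine ⟨⟨4 * C, by positivity, h1⟩, 1 / (248 * C), by positivity, fun n hn => ?_⟩
  have hs : 0 < √(n : ℝ) := Real.sqrt_pos.2 (by exact_mod_cast hn)
  calc 1 / (248 * C) * FCC.Fav (FCC.E n) ≤ 1 / (248 * C) * (4 * C / √n) :=
        mul_le_mul_of_nonneg_left (h1 n hn) (by positivity)
    _ = 1 / (62 * √n) := by field_simp; norm_num
    _ ≤ FCC.gam (FCC.E n) := hCAP n hn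

end Pool.Agent.FCQ
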