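import Pool.Agent.FCQ.Stmts

/-!
# Four corner Cantor sets, the exponent one half: the square norms of the increments
-/

set_option autoImplicit false

namespace Pool.Agent.FCQ

open MeasureTheory Set

namespace NRB

/-- The part of `Dr` with the exponent `2` at one place. -/
noncomputable def D1 (r : ℕ) (z : ℝ) : ℝ :=
  ∑ i ∈ Finset.range r, (4 : ℝ) ^ i / 4 ^ r *
    (Real.cos (4 ^ i * z) ^ 2 * ∏ l ∈ (Finset.range r).erase i, Real.cos (4 ^ l * z) ^ 4)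

/-- The derivative of `P2 r`. -/
noncomputable def P2' (r : ℕ) (z : ℝ) : ℝ :=
  ∑ i ∈ Finset.range r, (∏ l ∈ (Finset.range r).erase i, Real.cos (4 ^ l * z) ^ 2) *
    (2 * Real.cos (4 ^ i * z) * (-Real.sin (4 ^ i * z) * 4 ^ i))

/-- The final integrand. -/
noncomputable def G (r : ℕ) (t ω : ℝ) : ℝ :=
  ω ^ 2 / (1 + ω ^ 2) ^ 2 * Q4 r (3 * ω / 2) * Dr r (3 * t * ω / 2)

theorem Dr_eq (r : ℕ) (z : ℝ) : Dr r z = Q4 r z + D1 r z := rfl

theorem P2_sq (r : ℕ) (z : ℝ) : P2 r z ^ 2 = Q4 r z := by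
  unfold P2 Q4
  rw [← Finset.prod_pow]
  exact Finset.prod_congr rfl fun i _ => by ring

theorem Q4_nonneg (r : ℕ) (z : ℝ) : 0 ≤ Q4 r z :=
  Finset.prod_nonneg fun i _ => by positivity

theorem D1_nonneg (r : ℕ) (z : ℝ) : 0 ≤ D1 r z :=
  Finset.sum_nonneg fun i _ => mul_nonneg (by positivity)
    (mul_nonneg (by positivity) (Finset.prod_nonneg fun l _ => by positivity))

theorem Dr_nonneg (r : ℕ) (z : ℝ) : 0 ≤ Dr r z := by
  rw [Dr_eq]; exact add_nonneg (Q4_nonneg r z) (D1_nonneg r z)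

theorem Q4_le_Dr (r : ℕ) (z : ℝ) : Q4 r z ≤ Dr r z := by
  rw [Dr_eq]; linarith [D1_nonneg r z]

theorem continuous_Q4 (r : ℕ) : Continuous (Q4 r) := by
  unfold Q4
  exact continuous_finsetProd _ fun i _ => by fun_prop

theorem continuous_Dr (r : ℕ) : Continuous (Dr r) := by
  unfold Dr
  refine (continuous_Q4 r).add (continuous_finsetSum _ fun i _ => ?_)
  refine continuous_const.mul (Continuous.mul (by fun_prop) ?_)
  exact continuous_finsetProd _ fun l _ => by fun_prop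

theorem continuous_G (r : ℕ) (t : ℝ) : Continuous (G r t) := by
  unfold G
  refine (Continuous.mul ?_ ((continuous_Q4 r).comp (by fun_prop))).mul
    ((continuous_Dr r).comp (by fun_prop))
  exact Continuous.div (by fun_prop) (by fun_prop) (fun x => by positivity)

theorem G_nonneg (r : ℕ) (t ω : ℝ) : 0 ≤ G r t ω :=
  mul_nonneg (mul_nonneg (by positivity) (Q4_nonneg _ _)) (Dr_nonneg _ _)

theorem hasDerivAt_P2 (r : ℕ) (z : ℝ) : HasDerivAt (P2 r) (P2' r z) z := by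
  unfold P2 P2'
  have h : ∀ i ∈ Finset.range r, HasDerivAt (fun z : ℝ => Real.cos (4 ^ i * z) ^ 2)
      (2 * Real.cos (4 ^ i * z) * (-Real.sin (4 ^ i * z) * 4 ^ i)) z := by
    intro i _
    have h1 : HasDerivAt (fun z : ℝ => (4 : ℝ) ^ i * z) (4 ^ i) z := by
      simpa using (hasDerivAt_id z).const_mul ((4 : ℝ) ^ i)
    have h2 := (h1.cos).fun_pow 2
    simpa using h2
  have := HasDerivAt.fun_finsetProd h
  simpa [smul_eq_mul] using this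

theorem geom4 (r : ℕ) : ∑ i ∈ Finset.range r, ((2 : ℝ) ^ i) ^ 2 ≤ 4 ^ r / 3 := by
  have h : ∑ i ∈ Finset.range r, ((2 : ℝ) ^ i) ^ 2 = (4 ^ r - 1) / 3 := by
    induction r with
    | zero => simp
    | succ n ih =>
      rw [Finset.sum_range_succ, ih, ← pow_mul, mul_comm n 2, pow_mul]
      norm_num
      ring
  rw [h]; linarith

theorem P2'_sq_le (r : ℕ) (z : ℝ) : P2' r z ^ 2 ≤ 4 / 3 * 16 ^ r * D1 r z := by
  set c : ℕ → ℝ := fun i => |Real.cos (4 ^ i * z)| *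
    ∏ l ∈ (Finset.range r).erase i, Real.cos (4 ^ l * z) ^ 2 with hc
  have hc0 : ∀ i, 0 ≤ c i := fun i => mul_nonneg (abs_nonneg _)
    (Finset.prod_nonneg fun l _ => by positivity)
  -- the absolute value
  have h1 : |P2' r z| ≤ 2 * ∑ i ∈ Finset.range r, 2 ^ i * (2 ^ i * c i) := by
    unfold P2'
    refine (Finset.abs_sum_le_sum_abs _ _).trans ?_
    rw [Finset.mul_sum]
    refine Finset.sum_le_sum fun i _ => ?_
    have hp : 0 ≤ ∏ l ∈ (Finset.range r).erase i, Real.cos (4 ^ l * z) ^ 2 :=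
      Finset.prod_nonneg fun l _ => by positivity
    rw [abs_mul, abs_of_nonneg hp, abs_mul, abs_mul, abs_mul, abs_neg,
      abs_of_nonneg (by positivity : (0 : ℝ) ≤ 4 ^ i), abs_of_nonneg (by norm_num : (0 : ℝ) ≤ 2)]
    have hs : |Real.sin (4 ^ i * z)| ≤ 1 := Real.abs_sin_le_one _
    have h4 : (4 : ℝ) ^ i = 2 ^ i * 2 ^ i := by rw [← mul_pow]; norm_num
    have hx : 0 ≤ (∏ l ∈ (Finset.range r).erase i, Real.cos (4 ^ l * z) ^ 2) *
        (2 * |Real.cos (4 ^ i * z)| * 4 ^ i) :=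
      mul_nonneg hp (by positivity)
    calc (∏ l ∈ (Finset.range r).erase i, Real.cos (4 ^ l * z) ^ 2) *
          (2 * |Real.cos (4 ^ i * z)| * (|Real.sin (4 ^ i * z)| * 4 ^ i))
        = ((∏ l ∈ (Finset.range r).erase i, Real.cos (4 ^ l * z) ^ 2) *
          (2 * |Real.cos (4 ^ i * z)| * 4 ^ i)) * |Real.sin (4 ^ i * z)| := by ring
      _ ≤ ((∏ l ∈ (Finset.range r).erase i, Real.cos (4 ^ l * z) ^ 2) *
          (2 * |Real.cos (4 ^ i * z)| * 4 ^ i)) * 1 := mul_le_mul_of_nonneg_left hs hx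
      _ = 2 * (2 ^ i * (2 ^ i * c i)) := by
          have e : c i = |Real.cos (4 ^ i * z)| *
            ∏ l ∈ (Finset.range r).erase i, Real.cos (4 ^ l * z) ^ 2 := rfl
          rw [e]
          generalize |Real.cos (4 ^ i * z)| = K
          generalize ∏ l ∈ (Finset.range r).erase i, Real.cos (4 ^ l * z) ^ 2 = P
          rw [h4]; ring
  have hs0 : 0 ≤ ∑ i ∈ Finset.range r, 2 ^ i * (2 ^ i * c i) :=
    Finset.sum_nonneg fun i _ => mul_nonneg (by positivity) (mul_nonneg (by positivity) (hc0 i))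
  have h2 : P2' r z ^ 2 ≤ 4 * (∑ i ∈ Finset.range r, 2 ^ i * (2 ^ i * c i)) ^ 2 := by
    rw [← sq_abs]
    calc |P2' r z| ^ 2 ≤ (2 * ∑ i ∈ Finset.range r, 2 ^ i * (2 ^ i * c i)) ^ 2 :=
          pow_le_pow_left₀ (abs_nonneg _) h1 2
      _ = _ := by ring
  have h3 := Finset.sum_mul_sq_le_sq_mul_sq (Finset.range r) (fun i => (2 : ℝ) ^ i)
    (fun i => 2 ^ i * c i)
  have h4 : ∑ i ∈ Finset.range r, (2 ^ i * c i) ^ 2 = 4 ^ r * D1 r z := by
    unfold D1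
    rw [Finset.mul_sum]
    refine Finset.sum_congr rfl fun i _ => ?_
    have e : c i ^ 2 = Real.cos (4 ^ i * z) ^ 2 *
        ∏ l ∈ (Finset.range r).erase i, Real.cos (4 ^ l * z) ^ 4 := by
      rw [hc]
      simp only
      rw [mul_pow, sq_abs, ← Finset.prod_pow]
      congr 1
      exact Finset.prod_congr rfl fun l _ => by ring
    rw [mul_pow, e, ← pow_mul, mul_comm i 2, pow_mul]
    have h4r : (4 : ℝ) ^ r ≠ 0 := by positivity
    field_simp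
    norm_num
  rw [h4] at h3
  have h5 := mul_le_mul_of_nonneg_right (geom4 r)
    (mul_nonneg (by positivity : (0 : ℝ) ≤ 4 ^ r) (D1_nonneg r z))
  have h6 : (4 : ℝ) ^ r / 3 * (4 ^ r * D1 r z) = 16 ^ r / 3 * D1 r z := by
    have : (16 : ℝ) ^ r = 4 ^ r * 4 ^ r := by rw [← mul_pow]; norm_num
    rw [this]; ring
  calc P2' r z ^ 2 ≤ 4 * (∑ i ∈ Finset.range r, 2 ^ i * (2 ^ i * c i)) ^ 2 := h2
    _ ≤ 4 * (16 ^ r / 3 * D1 r z) := by
        refine mul_le_mul_of_nonneg_left ?_ (by norm_num)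
        rw [← h6]
        exact h3.trans h5
    _ = 4 / 3 * 16 ^ r * D1 r z := by ring

/-- Change of variables. -/
theorem scale (F : ℝ → ENNReal) (hF : Measurable F) (r : ℕ) :
    ∫⁻ ξ : ℝ, F (ξ / 4 ^ r) = ENNReal.ofReal (4 ^ r) * ∫⁻ ω, F ω := by
  have ha : ((4 : ℝ) ^ r)⁻¹ ≠ 0 := by positivity
  have h1 : (fun ξ : ℝ => F (ξ / 4 ^ r)) = fun ξ => F (((4 : ℝ) ^ r)⁻¹ * ξ) := by
    funext ξ; rw [div_eq_inv_mul]
  rw [h1, ← lintegral_map hF (by fun_prop : Measurable fun ξ : ℝ => ((4 : ℝ) ^ r)⁻¹ * ξ),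
    Real.map_volume_mul_left ha, lintegral_smul_measure, inv_inv, smul_eq_mul,
    abs_of_nonneg (by positivity)]

/-- The bound for the transform of the increments. -/
theorem ft_gr_le {C b t : ℝ} (r : ℕ) (ω : ℝ)
    (hPs : ‖Ps b t ω‖ ≤ C * |ω| / (1 + ω ^ 2)) :
    ‖((P2 r (3 * ω / 2) * P2 r (3 * t * ω / 2) : ℝ) : ℂ) * Ps b t ω‖ ^ 2 ≤ C ^ 2 * G r t ω := by
  rw [norm_mul, Complex.norm_real, mul_pow, Real.norm_eq_abs, sq_abs, mul_pow, P2_sq, P2_sq]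
  have h1 : ‖Ps b t ω‖ ^ 2 ≤ C ^ 2 * (ω ^ 2 / (1 + ω ^ 2) ^ 2) := by
    calc ‖Ps b t ω‖ ^ 2 ≤ (C * |ω| / (1 + ω ^ 2)) ^ 2 := pow_le_pow_left₀ (norm_nonneg _) hPs 2
      _ = C ^ 2 * (ω ^ 2 / (1 + ω ^ 2) ^ 2) := by
        rw [div_pow, mul_pow, sq_abs]; ring
  unfold G
  have hq := Q4_nonneg r (3 * ω / 2)
  have hq' := Q4_nonneg r (3 * t * ω / 2)
  have hD := Q4_le_Dr r (3 * t * ω / 2)
  calc Q4 r (3 * ω / 2) * Q4 r (3 * t * ω / 2) * ‖Ps b t ω‖ ^ 2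
      ≤ Q4 r (3 * ω / 2) * Dr r (3 * t * ω / 2) * (C ^ 2 * (ω ^ 2 / (1 + ω ^ 2) ^ 2)) :=
        mul_le_mul (mul_le_mul_of_nonneg_left hD hq) h1 (by positivity)
          (mul_nonneg hq (Dr_nonneg _ _))
    _ = C ^ 2 * (ω ^ 2 / (1 + ω ^ 2) ^ 2 * Q4 r (3 * ω / 2) * Dr r (3 * t * ω / 2)) := by ring

/-- The bound for the transform of the derivatives of the increments. -/
theorem ft_dgr_le {C b t : ℝ} (r : ℕ) (ω : ℝ)
    (hPs : ‖Ps b t ω‖ ≤ C / (1 + ω ^ 2)) (hd : DifferentiableAt ℝ (fun τ => Ps b τ ω) t)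
    (hd' : ‖deriv (fun τ => Ps b τ ω) t‖ ≤ C * |ω| / (1 + ω ^ 2)) :
    ‖deriv (fun τ => ((P2 r (3 * ω / 2) * P2 r (3 * τ * ω / 2) : ℝ) : ℂ) * Ps b τ ω) t‖ ^ 2 ≤
      6 * C ^ 2 * 16 ^ r * G r t ω := by
  have hlin : HasDerivAt (fun τ : ℝ => 3 * τ * ω / 2) (3 * ω / 2) t := by
    have := (((hasDerivAt_id t).const_mul 3).mul_const ω).div_const 2
    simpa using this
  have hp : HasDerivAt (fun τ : ℝ => P2 r (3 * ω / 2) * P2 r (3 * τ * ω / 2))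
      (P2 r (3 * ω / 2) * (P2' r (3 * t * ω / 2) * (3 * ω / 2))) t :=
    ((hasDerivAt_P2 r (3 * t * ω / 2)).comp t hlin).const_mul _
  have hderiv : deriv (fun τ => ((P2 r (3 * ω / 2) * P2 r (3 * τ * ω / 2) : ℝ) : ℂ) * Ps b τ ω) t =
      ((P2 r (3 * ω / 2) * (P2' r (3 * t * ω / 2) * (3 * ω / 2)) : ℝ) : ℂ) * Ps b t ω +
      ((P2 r (3 * ω / 2) * P2 r (3 * t * ω / 2) : ℝ) : ℂ) * deriv (fun τ => Ps b τ ω) t :=
    (hp.ofReal_comp.mul hd.hasDerivAt).deriv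
  rw [hderiv]
  set x : ℂ := ((P2 r (3 * ω / 2) * (P2' r (3 * t * ω / 2) * (3 * ω / 2)) : ℝ) : ℂ) * Ps b t ω
    with hx
  set y : ℂ := ((P2 r (3 * ω / 2) * P2 r (3 * t * ω / 2) : ℝ) : ℂ) *
    deriv (fun τ => Ps b τ ω) t with hy
  have hq := Q4_nonneg r (3 * ω / 2)
  have hq' := Q4_nonneg r (3 * t * ω / 2)
  have hD1 := D1_nonneg r (3 * t * ω / 2)
  have h16 : (1 : ℝ) ≤ 16 ^ r := one_le_pow₀ (by norm_num)
  set κ : ℝ := ω ^ 2 / (1 + ω ^ 2) ^ 2 with hκ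
  have hκ0 : 0 ≤ κ := by positivity
  have hxb : ‖x‖ ^ 2 ≤ 3 * C ^ 2 * 16 ^ r * (κ * Q4 r (3 * ω / 2) * D1 r (3 * t * ω / 2)) := by
    rw [hx, norm_mul, Complex.norm_real, mul_pow, Real.norm_eq_abs, sq_abs, mul_pow, P2_sq,
      mul_pow]
    have h1 : ‖Ps b t ω‖ ^ 2 ≤ C ^ 2 / (1 + ω ^ 2) ^ 2 := by
      calc ‖Ps b t ω‖ ^ 2 ≤ (C / (1 + ω ^ 2)) ^ 2 := pow_le_pow_left₀ (norm_nonneg _) hPs 2
        _ = C ^ 2 / (1 + ω ^ 2) ^ 2 := by rw [div_pow]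
    have h2 := P2'_sq_le r (3 * t * ω / 2)
    calc Q4 r (3 * ω / 2) * (P2' r (3 * t * ω / 2) ^ 2 * (3 * ω / 2) ^ 2) * ‖Ps b t ω‖ ^ 2
        ≤ Q4 r (3 * ω / 2) * (4 / 3 * 16 ^ r * D1 r (3 * t * ω / 2) * (3 * ω / 2) ^ 2) *
          (C ^ 2 / (1 + ω ^ 2) ^ 2) :=
          mul_le_mul (mul_le_mul_of_nonneg_left
            (mul_le_mul_of_nonneg_right h2 (by positivity)) hq) h1 (by positivity)
            (mul_nonneg hq (mul_nonneg (mul_nonneg (by positivity) hD1) (by positivity)))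
      _ = 3 * C ^ 2 * 16 ^ r * (κ * Q4 r (3 * ω / 2) * D1 r (3 * t * ω / 2)) := by
          rw [hκ]; ring
  have hyb : ‖y‖ ^ 2 ≤ C ^ 2 * (κ * Q4 r (3 * ω / 2) * Q4 r (3 * t * ω / 2)) := by
    rw [hy, norm_mul, Complex.norm_real, mul_pow, Real.norm_eq_abs, sq_abs, mul_pow, P2_sq, P2_sq]
    have h1 : ‖deriv (fun τ => Ps b τ ω) t‖ ^ 2 ≤ C ^ 2 * κ := by
      calc ‖deriv (fun τ => Ps b τ ω) t‖ ^ 2 ≤ (C * |ω| / (1 + ω ^ 2)) ^ 2 :=
            pow_le_pow_left₀ (norm_nonneg _) hd' 2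
        _ = C ^ 2 * κ := by rw [div_pow, mul_pow, sq_abs, hκ]; ring
    calc Q4 r (3 * ω / 2) * Q4 r (3 * t * ω / 2) * ‖deriv (fun τ => Ps b τ ω) t‖ ^ 2
        ≤ Q4 r (3 * ω / 2) * Q4 r (3 * t * ω / 2) * (C ^ 2 * κ) :=
          mul_le_mul_of_nonneg_left h1 (mul_nonneg hq hq')
      _ = C ^ 2 * (κ * Q4 r (3 * ω / 2) * Q4 r (3 * t * ω / 2)) := by ring
  have hyb' : ‖y‖ ^ 2 ≤ 3 * C ^ 2 * 16 ^ r *
      (κ * Q4 r (3 * ω / 2) * Q4 r (3 * t * ω / 2)) := by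
    refine hyb.trans (mul_le_mul_of_nonneg_right ?_ (mul_nonneg (mul_nonneg hκ0 hq) hq'))
    nlinarith [sq_nonneg C]
  have hn : ‖x + y‖ ^ 2 ≤ 2 * (‖x‖ ^ 2 + ‖y‖ ^ 2) := by
    have h1 := norm_add_le x y
    have h2 : ‖x + y‖ ^ 2 ≤ (‖x‖ + ‖y‖) ^ 2 := pow_le_pow_left₀ (norm_nonneg _) h1 2
    nlinarith [sq_nonneg (‖x‖ - ‖y‖)]
  have hG : G r t ω = κ * Q4 r (3 * ω / 2) * D1 r (3 * t * ω / 2) +
      κ * Q4 r (3 * ω / 2) * Q4 r (3 * t * ω / 2) := by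
    unfold G
    rw [Dr_eq, ← hκ]; ring
  calc ‖x + y‖ ^ 2 ≤ 2 * (‖x‖ ^ 2 + ‖y‖ ^ 2) := hn
    _ ≤ 2 * (3 * C ^ 2 * 16 ^ r * (κ * Q4 r (3 * ω / 2) * D1 r (3 * t * ω / 2)) +
        3 * C ^ 2 * 16 ^ r * (κ * Q4 r (3 * ω / 2) * Q4 r (3 * t * ω / 2))) := by linarith
    _ = 6 * C ^ 2 * 16 ^ r * G r t ω := by rw [hG]; ring

end NRB

open NRB in
theorem NRB_thm (hPLN : Stmt_PLN) (hFTG : Stmt_FTG) (hPSI : Stmt_PSI) (hDER : Stmt_DER) :
    Stmt_NRB := by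
  obtain ⟨C, hC, hP⟩ := hPSI
  refine ⟨7 * C ^ 2, by positivity, fun b t hb ht ht' r => ?_⟩
  obtain ⟨hc1, hc2, _, hz⟩ := hDER b hb r
  have hcg : Continuous (fun x => gr b r x t) := hc1.comp (f := fun x => (x, t)) (by fun_prop)
  have hcd : Continuous (fun x => dgr b r x t) := hc2.comp (f := fun x => (x, t)) (by fun_prop)
  have ht0 : 0 ≤ t := by linarith
  have ht2 : t ≤ 2 := by linarith
  have hsg : HasCompactSupport (fun x => gr b r x t) := by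
    refine HasCompactSupport.intro (isCompact_Icc (a := (-10 : ℝ)) (b := 10)) fun x hx => ?_
    refine (hz x t ht0 ht2 ?_).1
    by_contra h
    push Not at h
    exact hx ⟨by linarith [neg_abs_le x], by linarith [le_abs_self x]⟩
  have hsd : HasCompactSupport (fun x => dgr b r x t) := by
    refine HasCompactSupport.intro (isCompact_Icc (a := (-10 : ℝ)) (b := 10)) fun x hx => ?_
    refine (hz x t ht0 ht2 ?_).2
    by_contra h
    push Not at h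
    exact hx ⟨by linarith [neg_abs_le x], by linarith [le_abs_self x]⟩
  set I : ENNReal := ∫⁻ ω, ENNReal.ofReal (G r t ω) with hI
  have hmG : Measurable fun ω => ENNReal.ofReal (G r t ω) :=
    (continuous_G r t).measurable.ennreal_ofReal
  have hmG' : Measurable fun ξ : ℝ => ENNReal.ofReal (G r t (ξ / 4 ^ r)) :=
    hmG.comp (by fun_prop : Measurable fun ξ : ℝ => ξ / 4 ^ r)
  -- the two Plancherel estimates
  have h1 : ∫⁻ x, ENNReal.ofReal (gr b r x t ^ 2) ≤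
      ENNReal.ofReal (C ^ 2) * (ENNReal.ofReal (4 ^ r) * I) := by
    refine (hPLN _ hcg hsg).trans ?_
    rw [hI, ← scale _ hmG r, ← lintegral_const_mul _ hmG']
    refine lintegral_mono fun ξ => ?_
    rw [← ENNReal.ofReal_mul (by positivity)]
    refine ENNReal.ofReal_le_ofReal ?_
    rw [(hFTG b hb r t ξ ht ht').1]
    exact ft_gr_le r _ (hP b t _ hb ht ht').1
  have h2 : ∫⁻ x, ENNReal.ofReal (dgr b r x t ^ 2) ≤
      ENNReal.ofReal (6 * C ^ 2 * 16 ^ r) * (ENNReal.ofReal (4 ^ r) * I) := by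
    refine (hPLN _ hcd hsd).trans ?_
    rw [hI, ← scale _ hmG r, ← lintegral_const_mul _ hmG']
    refine lintegral_mono fun ξ => ?_
    rw [← ENNReal.ofReal_mul (by positivity)]
    refine ENNReal.ofReal_le_ofReal ?_
    rw [(hFTG b hb r t ξ ht ht').2]
    obtain ⟨_, p2, p3, p4⟩ := hP b t (ξ / 4 ^ r) hb ht ht'
    exact ft_dgr_le r _ p2 p3 p4
  have h3 : Nr b r t = (∫⁻ x, ENNReal.ofReal (gr b r x t ^ 2)) +
      ENNReal.ofReal (1 / 16 ^ r) * ∫⁻ x, ENNReal.ofReal (dgr b r x t ^ 2) := by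
    unfold Nr
    rw [← lintegral_const_mul _ (by fun_prop), ← lintegral_add_left (by fun_prop)]
    refine lintegral_congr fun x => ?_
    rw [← ENNReal.ofReal_mul (by positivity), ← ENNReal.ofReal_add (by positivity) (by positivity)]
    congr 1
    ring
  rw [h3]
  calc (∫⁻ x, ENNReal.ofReal (gr b r x t ^ 2)) +
        ENNReal.ofReal (1 / 16 ^ r) * ∫⁻ x, ENNReal.ofReal (dgr b r x t ^ 2)
      ≤ ENNReal.ofReal (C ^ 2) * (ENNReal.ofReal (4 ^ r) * I) +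
        ENNReal.ofReal (1 / 16 ^ r) *
          (ENNReal.ofReal (6 * C ^ 2 * 16 ^ r) * (ENNReal.ofReal (4 ^ r) * I)) := by
        gcongr
    _ = ENNReal.ofReal (7 * C ^ 2 * 4 ^ r) * I := by
        rw [← mul_assoc, ← mul_assoc, ← mul_assoc, ← ENNReal.ofReal_mul (by positivity),
          ← ENNReal.ofReal_mul (by positivity), ← ENNReal.ofReal_mul (by positivity), ← add_mul,
          ← ENNReal.ofReal_add (by positivity) (by positivity)]
        congr 2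
        have : (16 : ℝ) ^ r ≠ 0 := by positivity
        field_simp
        ring

end Pool.Agent.FCQ
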