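import Pool.Agent.FCQ.Stmts

/-!
# Module ONE2
-/

set_option autoImplicit false

namespace Pool.Agent.FCQ

open MeasureTheory Set

namespace ONE2

theorem pow_eq_exp {a : ℝ} (ha : 0 < a) (n : ℕ) : a ^ n = Real.exp (n * Real.log a) := by
  rw [Real.exp_nat_mul, Real.exp_log ha]

theorem sum_d (M : ℕ) (hM : 1 ≤ M) (n : ℕ) :
    ∑ k ∈ Finset.Ico M n, (2 : ℝ) / ((k : ℝ) + 1) ^ 2 ≤ 2 := by
  have h : ∀ n : ℕ, M ≤ n →
      ∑ k ∈ Finset.Ico M n, (2 : ℝ) / ((k : ℝ) + 1) ^ 2 ≤ (2 : ℝ) / (M : ℝ) - (2 : ℝ) / (n : ℝ) := by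
    intro n hn
    induction n, hn using Nat.le_induction with
    | base => simp
    | succ n hn ih =>
      rw [Finset.sum_Ico_succ_top hn]
      have hn0 : (0 : ℝ) < n := by
        have : 0 < n := lt_of_lt_of_le hM hn
        exact_mod_cast this
      have h1 : (2 : ℝ) / ((n : ℝ) + 1) ^ 2 ≤ 2 / n - 2 / ((n : ℝ) + 1) := by
        rw [div_sub_div _ _ hn0.ne' (by positivity), div_le_div_iff₀ (by positivity) (by positivity)]
        nlinarith
      push_cast
      linarith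
  rcases le_or_gt M n with hn | hn
  · refine (h n hn).trans ?_
    have h1 : (2 : ℝ) / M ≤ 2 := by
      rw [div_le_iff₀ (by exact_mod_cast hM)]
      have : (1 : ℝ) ≤ M := by exact_mod_cast hM
      linarith
    have h2 : (0 : ℝ) ≤ 2 / n := by positivity
    linarith
  · rw [Finset.Ico_eq_empty (by omega)]
    simp

theorem summ (p : ℕ) : Summable fun k : ℕ => ((k : ℝ) + 1) ^ p * Real.exp (-((k : ℝ) / 800)) := by
  have h := Real.summable_pow_mul_exp_neg_nat_mul p (r := 1 / 800) (by norm_num)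
  have h2 := (summable_nat_add_iff 1).2 h
  have h3 := h2.mul_left (Real.exp (1 / 800))
  refine h3.congr fun k => ?_
  push_cast
  rw [mul_left_comm, ← Real.exp_add]
  congr 2
  ring

/-- The choice of the number of doublings. -/
theorem choose_l (j N : ℕ) (hN : j + 1 ≤ N) : ∃ l : ℕ, N ≤ 2 ^ l * (j + 1) ∧
    16 * j * l ≤ 64 * j + N ∧ 2 ^ l ≤ 16 * N := by
  by_cases h4 : N ≤ 2 ^ 4 * (j + 1)
  · exact ⟨4, h4, by omega, by omega⟩
  · have hex : ∃ l : ℕ, N ≤ 2 ^ l * (j + 1) := by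
      refine ⟨N, ?_⟩
      have := Nat.lt_two_pow_self (n := N)
      nlinarith
    classical
    have hl := Nat.find_spec hex
    have hl5 : 5 ≤ Nat.find hex := by
      by_contra hc
      push Not at hc
      apply h4
      refine hl.trans ?_
      exact Nat.mul_le_mul_right _ (Nat.pow_le_pow_right (by norm_num) (by omega))
    have hmin := Nat.find_min hex (m := Nat.find hex - 1) (by omega)
    refine ⟨Nat.find hex, hl, ?_, ?_⟩
    · obtain ⟨k, hk⟩ := Nat.exists_eq_add_of_le hl5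
      rw [hk] at hmin ⊢
      have h1 : 5 + k - 1 = 4 + k := by omega
      rw [h1, pow_add] at hmin
      have h2 := Nat.lt_two_pow_self (n := k)
      push Not at hmin
      have h3 : j * (k + 1) ≤ j * 2 ^ k := Nat.mul_le_mul_left _ h2
      nlinarith
    · obtain ⟨k, hk⟩ := Nat.exists_eq_add_of_le hl5
      rw [hk] at hmin ⊢
      have h1 : 5 + k - 1 = 4 + k := by omega
      rw [h1] at hmin
      push Not at hmin
      have h3 : 2 ^ (5 + k) = 2 * 2 ^ (4 + k) := by
        rw [show 5 + k = (4 + k) + 1 by omega, pow_succ]; ring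
      have h4 : 2 ^ (4 + k) ≤ 2 ^ (4 + k) * (j + 1) := Nat.le_mul_of_pos_right _ (by omega)
      omega

/-- The second moment at the level `j + 1`. -/
theorem base2 (hlow : Stmt_LOWJ) (j : ℕ) (u v : ℝ) (hj : 1 ≤ j) (hu : 1 - 1 / (2 * 4 ^ j) ≤ u)
    (hv : v ≤ 1) (huv : u ≤ v) (hl : v - u ≤ 2 / 4 ^ j) :
    Xr (169 / 100) 0 u v 2 (j + 1) ≤
      2592 * Real.exp (-(j * Real.log 4) - 2 * (j * Real.log (3 / 2))) := by
  have h0 : (0 : ℝ) < (3 / 2) ^ (j + 1) / 36 := by positivity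
  have h1 : X (169 / 100) 0 u v 2 (j + 1) ≤
      ENNReal.ofReal ((v - u) * (((3 / 2) ^ (j + 1) / 36) ^ (-(2 : ℝ)))) := by
    unfold X
    calc ∫⁻ t in Icc u v, (ENNReal.ofReal (E (169 / 100) 0 (j + 1) t)) ^ (-(2 : ℝ)) ≤
          ∫⁻ t in Icc u v, (ENNReal.ofReal ((3 / 2) ^ (j + 1) / 36)) ^ (-(2 : ℝ)) := by
          refine setLIntegral_mono' measurableSet_Icc fun t ht => ?_
          rw [ENNReal.rpow_neg, ENNReal.rpow_neg]
          refine ENNReal.inv_le_inv.2 (ENNReal.rpow_le_rpow (ENNReal.ofReal_le_ofReal ?_) (by norm_num))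
          exact hlow j (j + 1) t hj le_rfl (hu.trans ht.1) (ht.2.trans hv)
      _ = ENNReal.ofReal ((v - u) * (((3 / 2) ^ (j + 1) / 36) ^ (-(2 : ℝ)))) := by
          rw [setLIntegral_const, Real.volume_Icc, ENNReal.ofReal_rpow_of_pos h0, mul_comm,
            ← ENNReal.ofReal_mul (by linarith)]
  have h2 : Xr (169 / 100) 0 u v 2 (j + 1) ≤ (v - u) * (((3 / 2) ^ (j + 1) / 36) ^ (-(2 : ℝ))) := by
    unfold Xr
    refine ENNReal.toReal_le_of_le_ofReal ?_ h1
    have : 0 ≤ v - u := by linarith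
    positivity
  refine h2.trans ?_
  have h3 : (((3 / 2 : ℝ) ^ (j + 1) / 36) ^ (-(2 : ℝ))) = 1296 * (((3 / 2 : ℝ) ^ (j + 1)) ^ 2)⁻¹ := by
    rw [Real.rpow_neg h0.le]
    have : ((3 / 2 : ℝ) ^ (j + 1) / 36) ^ (2 : ℝ) = ((3 / 2 : ℝ) ^ (j + 1) / 36) ^ 2 := by
      exact_mod_cast Real.rpow_natCast _ 2
    rw [this, div_pow]
    field_simp
    norm_num
  rw [h3]
  have h4 : (((3 / 2 : ℝ) ^ (j + 1)) ^ 2)⁻¹ ≤ Real.exp (-(2 * (j * Real.log (3 / 2)))) := by
    rw [Real.exp_neg]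
    refine inv_anti₀ (Real.exp_pos _) ?_
    have : Real.exp (2 * (j * Real.log (3 / 2))) = ((3 / 2 : ℝ) ^ j) ^ 2 := by
      rw [pow_eq_exp (by norm_num : (0 : ℝ) < 3 / 2), ← Real.exp_nat_mul]
      norm_num
    rw [this]
    refine pow_le_pow_left₀ (by positivity) ?_ 2
    exact pow_le_pow_right₀ (by norm_num) (by omega)
  have h5 : (2 : ℝ) / 4 ^ j = 2 * Real.exp (-(j * Real.log 4)) := by
    rw [Real.exp_neg, ← pow_eq_exp (by norm_num : (0 : ℝ) < 4)]
    rfl
  calc (v - u) * (1296 * (((3 / 2 : ℝ) ^ (j + 1)) ^ 2)⁻¹) ≤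
        (2 * Real.exp (-(j * Real.log 4))) * (1296 * Real.exp (-(2 * (j * Real.log (3 / 2))))) := by
        rw [← h5]
        gcongr
    _ = 2592 * Real.exp (-(j * Real.log 4) - 2 * (j * Real.log (3 / 2))) := by
        rw [sub_eq_add_neg, Real.exp_add]
        ring

theorem rpow_exp_le {c x y z : ℝ} (hc : 1 ≤ c) (hz0 : 0 ≤ z) (hz1 : z ≤ 1) (hx0 : 0 ≤ x)
    (hx : x ≤ c * Real.exp y) : x ^ z ≤ c * Real.exp (z * y) := by
  have hc0 : 0 < c := by linarith
  calc x ^ z ≤ (c * Real.exp y) ^ z := Real.rpow_le_rpow hx0 hx hz0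
    _ = c ^ z * Real.exp (z * y) := by
        rw [Real.mul_rpow hc0.le (Real.exp_pos _).le, mul_comm z y, Real.exp_mul]
    _ ≤ c * Real.exp (z * y) := by
        refine mul_le_mul_of_nonneg_right ?_ (Real.exp_pos _).le
        calc c ^ z ≤ c ^ (1 : ℝ) := Real.rpow_le_rpow_of_exponent_le hc hz1
          _ = c := Real.rpow_one c

/-- The error term, given bounds for its factors. -/
theorem err_le {A3 K0 m R q1 N2 Y1 cY cX y1 y2 y3 y4 : ℝ} (hA3 : 1 ≤ A3) (hK0 : 1 ≤ K0)
    (hcX : 1 ≤ cX) (hR0 : 0 ≤ R) (hq0 : 0 ≤ q1) (hN0 : 0 ≤ N2) (hY0 : 0 ≤ Y1)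
    (hR : R ≤ K0 * Real.exp y1) (hq : q1 ≤ 1 * Real.exp y2)
    (hN : N2 ≤ cX * Real.exp y3) (hY : Y1 ^ (1 / 2 : ℝ) ≤ cY * Real.exp y4) (hcY : 0 ≤ cY) :
    A3 * m ^ 2 * R ^ (501 / 800 : ℝ) * q1 ^ (299 / 800 : ℝ) * Y1 ^ (1 / 2 : ℝ) *
      N2 ^ (101 / 800 : ℝ) ≤ A3 * K0 * cX * cY * m ^ 2 *
      Real.exp (501 / 800 * y1 + 299 / 800 * y2 + 101 / 800 * y3 + y4) := by
  have h1 := rpow_exp_le (z := 501 / 800) hK0 (by norm_num) (by norm_num) hR0 hR
  have h2 := rpow_exp_le (z := 299 / 800) le_rfl (by norm_num) (by norm_num) hq0 hq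
  have h3 := rpow_exp_le (z := 101 / 800) hcX (by norm_num) (by norm_num) hN0 hN
  have n1 : 0 ≤ R ^ (501 / 800 : ℝ) := Real.rpow_nonneg hR0 _
  have n2 : 0 ≤ q1 ^ (299 / 800 : ℝ) := Real.rpow_nonneg hq0 _
  have n3 : 0 ≤ N2 ^ (101 / 800 : ℝ) := Real.rpow_nonneg hN0 _
  have n4 : 0 ≤ Y1 ^ (1 / 2 : ℝ) := Real.rpow_nonneg hY0 _
  calc A3 * m ^ 2 * R ^ (501 / 800 : ℝ) * q1 ^ (299 / 800 : ℝ) * Y1 ^ (1 / 2 : ℝ) *
      N2 ^ (101 / 800 : ℝ) ≤ A3 * m ^ 2 * (K0 * Real.exp (501 / 800 * y1)) *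
        (1 * Real.exp (299 / 800 * y2)) * (cY * Real.exp y4) * (cX * Real.exp (101 / 800 * y3)) := by
        gcongr
    _ = _ := by
        rw [Real.exp_add, Real.exp_add, Real.exp_add]
        ring

/-- The growth of the second moment. -/
theorem x2_le (hgr : ∃ A : ℝ, 1 ≤ A ∧
    ∀ (b : ℝ) (i j n0 : ℕ) (u v K G : ℝ), Dat b i j n0 u v K G → ∀ l n : ℕ, n0 ≤ n → n ≤ 2 ^ l * n0 →
    Xr b i u v 2 n ≤ (A * K) ^ l * G ^ (n - n0) * Xr b i u v 2 n0) (hlow : Stmt_LOWJ) :
    ∃ A2 : ℝ, 1 ≤ A2 ∧ ∀ (K0 : ℝ) (j : ℕ) (u v G R : ℝ), 1 ≤ K0 → 2 ≤ j → 1 ≤ G → 0 < R →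
      1 - 1 / (2 * 4 ^ j) ≤ u → v ≤ 1 → Dat (169 / 100) 0 j (j + 1) u v (K0 * R ^ j) G →
      ∀ N l : ℕ, j + 1 ≤ N → N ≤ 2 ^ l * (j + 1) →
      Xr (169 / 100) 0 u v 2 N ≤ ((A2 * K0) ^ l * 2592) *
        Real.exp (j * l * Real.log R + ((N : ℝ) - j) * Real.log G - j * Real.log 4 -
          2 * (j * Real.log (3 / 2))) := by
  obtain ⟨A2, hA2, hgr⟩ := hgr
  refine ⟨A2, hA2, ?_⟩
  intro K0 j u v G R hK0 hj hG hR hu hv D N l hN hl
  have hG0 : 0 < G := by linarith
  have huv : u ≤ v := by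
    have : 0 < v - u := lt_of_lt_of_le (by positivity) D.len
    linarith
  have h1 := hgr (169 / 100) 0 j (j + 1) u v (K0 * R ^ j) G D l N hN hl
  have h2 := base2 hlow j u v (by omega) hu hv huv D.len'
  have h3 : (A2 * (K0 * R ^ j)) ^ l = (A2 * K0) ^ l * Real.exp (j * l * Real.log R) := by
    rw [← mul_assoc, mul_pow, ← pow_mul, pow_eq_exp hR (j * l)]
    push_cast
    rfl
  have h4 : G ^ (N - (j + 1)) ≤ Real.exp (((N : ℝ) - j) * Real.log G) := by
    calc G ^ (N - (j + 1)) ≤ G ^ (N - j) := pow_le_pow_right₀ hG (by omega)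
      _ = Real.exp (((N : ℝ) - j) * Real.log G) := by
          rw [pow_eq_exp hG0, Nat.cast_sub (by omega)]
  have h5 : 0 ≤ Xr (169 / 100) 0 u v 2 (j + 1) := ENNReal.toReal_nonneg
  calc Xr (169 / 100) 0 u v 2 N ≤ (A2 * (K0 * R ^ j)) ^ l * G ^ (N - (j + 1)) *
        Xr (169 / 100) 0 u v 2 (j + 1) := h1
    _ ≤ ((A2 * K0) ^ l * Real.exp (j * l * Real.log R)) *
        Real.exp (((N : ℝ) - j) * Real.log G) *
        (2592 * Real.exp (-(j * Real.log 4) - 2 * (j * Real.log (3 / 2)))) := by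
        rw [h3]
        gcongr
    _ = _ := by
        have e : j * l * Real.log R + ((N : ℝ) - j) * Real.log G - j * Real.log 4 -
          2 * (j * Real.log (3 / 2)) = j * l * Real.log R + ((N : ℝ) - j) * Real.log G +
            (-(j * Real.log 4) - 2 * (j * Real.log (3 / 2))) := by ring
        rw [e, Real.exp_add, Real.exp_add]
        ring

theorem q_eq (j N : ℕ) : ((2 : ℝ) / 3) ^ j * (9 / 16) ^ N =
    Real.exp (-(j * Real.log (3 / 2) + N * Real.log (16 / 9))) := by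
  rw [pow_eq_exp (by norm_num : (0 : ℝ) < 2 / 3), pow_eq_exp (by norm_num : (0 : ℝ) < 9 / 16),
    ← Real.exp_add]
  have h1 : Real.log (2 / 3) = -Real.log (3 / 2) := by
    rw [← Real.log_inv]; norm_num
  have h2 : Real.log (9 / 16) = -Real.log (16 / 9) := by
    rw [← Real.log_inv]; norm_num
  rw [h1, h2]
  congr 1
  ring

/-- Exponents, case `N < 12 j`. -/
theorem expA {lG lR L4 L32 L169 j N m : ℝ} (hj : 0 ≤ j) (h6 : 6 * j ≤ N) (h12 : N ≤ 12 * j)
    (hm : m ≤ 24 * j)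
    (hex : ∀ x : ℝ, x = 6 ∨ x = 12 →
    101 / 800 * (-L4 - 2 * L32 + 4 * lR + (x - 1) * lG) + 501 / 800 * (lR + x * lG) -
      299 / 800 * (x * L169 + L32) + 1 / 2 * (-L4 + 101 / 400 * (-(2 * L32) + 4 * lR +
        (x - 1) * lG)) ≤ -(1 / 20)) :
    501 / 800 * (j * lR + N * lG) + 299 / 800 * (-(j * L32 + N * L169)) +
      101 / 800 * (j * 4 * lR + (N - j) * lG - j * L4 - 2 * (j * L32)) +
      1 / 2 * (-(j * L4) + 101 / 400 * (-(2 * j * L32) + 4 * j * lR + (N - j) * lG)) ≤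
      -(m / 800) + -(j / 50) := by
  have e6 := mul_le_mul_of_nonneg_left (hex 6 (Or.inl rfl)) hj
  have e12 := mul_le_mul_of_nonneg_left (hex 12 (Or.inr rfl)) hj
  set β : ℝ := 101 / 800 * lG + 501 / 800 * lG - 299 / 800 * L169 + 1 / 2 * (101 / 400 * lG) with hβ
  rcases le_or_gt 0 β with hb | hb
  · have := mul_nonneg hb (sub_nonneg.2 h12)
    rw [hβ] at this
    linarith
  · have := mul_nonneg (neg_nonneg.2 hb.le) (sub_nonneg.2 h6)
    rw [hβ] at this
    linarith

/-- Exponents, case `12 j ≤ N`. -/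
theorem expB {lG lR L4 L32 L169 j N m : ℝ} (hj : 0 ≤ j) (h12 : 12 * j ≤ N) (hm : m ≤ 2 * N)
    (h2 : 602 / 800 * lG + 101 / 12800 * lR - 299 / 800 * L169 ≤ -(1 / 400))
    (h3 : 101 / 800 * (-L4 - 2 * L32 + 19 / 4 * lR + 11 * lG) + 501 / 800 * (lR + 12 * lG) -
      299 / 800 * (12 * L169 + L32) ≤ -(1 / 20)) :
    501 / 800 * (j * lR + N * lG) + 299 / 800 * (-(j * L32 + N * L169)) +
      101 / 800 * ((4 * j + N / 16) * lR + (N - j) * lG - j * L4 - 2 * (j * L32)) + 0 ≤
      -(m / 800) + -(j / 50) := by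
  have e2 := mul_le_mul_of_nonneg_left h2 (sub_nonneg.2 h12)
  have e3 := mul_le_mul_of_nonneg_left h3 hj
  linarith

end ONE2

theorem ONE2_thm (hone1 : Stmt_ONE1) (hrec3 : Stmt_REC3) (hgro : Stmt_GRO) (hseq : Stmt_SEQ)
    (_ : Stmt_FINX) (hlow : Stmt_LOWJ) (hexpo : Stmt_EXPO) : Stmt_ONE2 := by
  intro K0 hK0
  obtain ⟨C1, hC1, h1⟩ := hone1 K0 hK0
  obtain ⟨A3, hA3, hrec⟩ := hrec3
  obtain ⟨A2, hA2, hx2⟩ := ONE2.x2_le hgro hlow
  obtain ⟨c, hc⟩ : ∃ c : ℕ, A2 * K0 < 2 ^ c := pow_unbounded_of_one_lt _ one_lt_two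
  have hsum := ONE2.summ (c + 2)
  set Sg : ℝ := ∑' k : ℕ, ((k : ℝ) + 1) ^ (c + 2) * Real.exp (-((k : ℝ) / 800)) with hSg
  have hSg0 : 0 ≤ Sg := tsum_nonneg fun k => by positivity
  have hAK : 1 ≤ A2 * K0 := one_le_mul_of_one_le_of_one_le hA2 hK0
  set BA : ℝ := A3 * K0 * ((A2 * K0) ^ 4 * 2592) * C1 ^ (1 / 2 : ℝ) with hBA
  set BB : ℝ := A3 * K0 * (32 ^ c * 2592) with hBB
  have hBA0 : 0 ≤ BA := by positivity
  have hBB0 : 0 ≤ BB := by positivity
  set B : ℝ := BA + BB with hB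
  refine ⟨(2 * Real.exp 2 * (C1 + B * Sg) + (Real.exp 2 * (B * Sg)) ^ 2) + C1, by positivity, ?_⟩
  intro j u v G GA hj hPr hu hv D m hm
  have hG : 1 ≤ G := D.hG
  have hG0 : 0 < G := by linarith
  have hRR : 1 ≤ GA / G := by
    rcases hPr with h | h | h | h <;> rw [h.1, h.2] <;> norm_num
  have hR0 : 0 < GA / G := by linarith
  have hlR : 0 ≤ Real.log (GA / G) := Real.log_nonneg hRR
  obtain ⟨-, ex2, ex3, ex4⟩ := hexpo G GA hPr
  obtain ⟨o1, o2⟩ := h1 j u v G GA hj hPr hu hv D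
  have hj0 : (0 : ℝ) ≤ j := Nat.cast_nonneg j
  have hj3 : (2 : ℝ) ≤ j := by exact_mod_cast hj
  have hexp1 : Real.exp (-(j : ℝ) / 10) ≤ Real.exp (-(j : ℝ) / 50) :=
    Real.exp_le_exp.2 (by linarith)
  rcases le_or_gt m (12 * j) with hm12 | hm12
  · refine (o2 m hm hm12).trans ?_
    calc C1 * Real.exp (-(j : ℝ) / 10) ≤ C1 * Real.exp (-(j : ℝ) / 50) := by gcongr
      _ ≤ _ := by
        gcongr
        have : 0 ≤ 2 * Real.exp 2 * (C1 + B * Sg) + (Real.exp 2 * (B * Sg)) ^ 2 := by positivity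
        linarith
  · have key := hseq (fun n => Xr (169 / 100) 0 u v (101 / 200) n)
      (fun k => 2 / ((k : ℝ) + 1) ^ 2)
      (fun k => B * Real.exp (-(j : ℝ) / 50) *
        (((k : ℝ) + 1) ^ (c + 2) * Real.exp (-((k : ℝ) / 800))))
      (fun k => B * Real.exp (-(j : ℝ) / 50) *
        (((k : ℝ) + 1) ^ (c + 2) * Real.exp (-((k : ℝ) / 800))))
      (12 * j) 2 (C1 * Real.exp (-(j : ℝ) / 50)) (B * Real.exp (-(j : ℝ) / 50) * Sg)
      (B * Real.exp (-(j : ℝ) / 50) * Sg) (fun n => ENNReal.toReal_nonneg)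
      (fun n => by positivity) (fun n => by positivity) (fun n => by positivity)
      (fun n => ONE2.sum_d _ (by omega) n)
      (fun n => by
        rw [← Finset.mul_sum]
        refine mul_le_mul_of_nonneg_left ?_ (by positivity)
        exact hsum.sum_le_tsum _ fun k _ => by positivity)
      (fun n => by
        rw [← Finset.mul_sum]
        refine mul_le_mul_of_nonneg_left ?_ (by positivity)
        exact hsum.sum_le_tsum _ fun k _ => by positivity)
      ((o2 (12 * j) (by omega) le_rfl).trans (by gcongr))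
      (by
        intro n hn z hz
        have hrn := hrec (169 / 100) 0 j (j + 1) u v (K0 * (GA / G) ^ j) G D n (by omega)
        set N : ℕ := (n + 2) / 2 with hN
        have hN6 : 6 * j ≤ N := by omega
        have hNj : j + 1 ≤ N := by omega
        have hNn : N ≤ n := by omega
        have hN2 : n + 1 ≤ 2 * N := by omega
        have hN6' : 6 * (j : ℝ) ≤ N := by exact_mod_cast hN6
        have hNn' : (N : ℝ) ≤ n := by exact_mod_cast hNn
        have hN2' : (n : ℝ) + 1 ≤ 2 * N := by exact_mod_cast hN2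
        have hz0 : 0 ≤ z := le_trans ENNReal.toReal_nonneg (hz n hn le_rfl)
        have hKG : K0 * (GA / G) ^ j * G ^ N ≤
            K0 * Real.exp (j * Real.log (GA / G) + N * Real.log G) := by
          rw [ONE2.pow_eq_exp hR0, ONE2.pow_eq_exp hG0, mul_assoc, ← Real.exp_add]
        have hq := ONE2.q_eq j N
        have hq' : ((2 : ℝ) / 3) ^ j * (9 / 16) ^ N ≤
            1 * Real.exp (-(j * Real.log (3 / 2) + N * Real.log (16 / 9))) := by
          rw [one_mul, hq]
        have nX : 0 ≤ Xr (169 / 100) 0 u v 2 N := ENNReal.toReal_nonneg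
        have nY : 0 ≤ Xr (169 / 100) 0 u v (101 / 200) N := ENNReal.toReal_nonneg
        have hn1 : (1 : ℝ) ≤ (n : ℝ) + 1 := by
          have : (0 : ℝ) ≤ n := Nat.cast_nonneg n
          linarith
        have hpw : ((n : ℝ) + 1) ^ 2 ≤ ((n : ℝ) + 1) ^ (c + 2) :=
          pow_le_pow_right₀ hn1 (by omega)
        refine hrn.trans ?_
        rcases lt_or_ge N (12 * j) with hcase | hcase
        · -- case A
          have y1 := o1 N hNj hcase.le
          have y2 : Xr (169 / 100) 0 u v (101 / 200) N ^ (1 / 2 : ℝ) ≤ C1 ^ (1 / 2 : ℝ) *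
              Real.exp (1 / 2 * (-(j * Real.log 4) + 101 / 400 * (-(2 * j * Real.log (3 / 2)) +
                4 * j * Real.log (GA / G) + ((N : ℝ) - j) * Real.log G))) := by
            calc Xr (169 / 100) 0 u v (101 / 200) N ^ (1 / 2 : ℝ) ≤ (C1 *
                Real.exp (-(j * Real.log 4) + 101 / 400 * (-(2 * j * Real.log (3 / 2)) +
                4 * j * Real.log (GA / G) + ((N : ℝ) - j) * Real.log G))) ^ (1 / 2 : ℝ) :=
                  Real.rpow_le_rpow nY y1 (by norm_num)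
              _ = _ := by
                  rw [Real.mul_rpow hC1.le (Real.exp_pos _).le, ← Real.exp_mul, mul_comm (1 / 2 : ℝ)]
          have x1 := hx2 K0 j u v G (GA / G) hK0 hj hG hR0 hu hv D N 4 hNj (by omega)
          push_cast at x1
          have er := ONE2.err_le (m := (n : ℝ) + 1) hA3 hK0 (by
              have : 1 ≤ (A2 * K0) ^ 4 := one_le_pow₀ hAK
              linarith) (by positivity) (by positivity) nX nY hKG hq' x1 y2 (by positivity)
          have ex := ONE2.expA (lG := Real.log G) (lR := Real.log (GA / G)) (L4 := Real.log 4)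
            (L32 := Real.log (3 / 2)) (L169 := Real.log (16 / 9)) (j := j) (N := N) (m := n)
            hj0 hN6' (by exact_mod_cast hcase.le) (by
              have : n ≤ 24 * j := by omega
              exact_mod_cast this) ex4
          have fin : A3 * K0 * ((A2 * K0) ^ 4 * 2592) * C1 ^ (1 / 2 : ℝ) * ((n : ℝ) + 1) ^ 2 *
              Real.exp (501 / 800 * (j * Real.log (GA / G) + N * Real.log G) +
                299 / 800 * (-(j * Real.log (3 / 2) + N * Real.log (16 / 9))) +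
                101 / 800 * (j * 4 * Real.log (GA / G) + ((N : ℝ) - j) * Real.log G -
                  j * Real.log 4 - 2 * (j * Real.log (3 / 2))) +
                1 / 2 * (-(j * Real.log 4) + 101 / 400 * (-(2 * j * Real.log (3 / 2)) +
                  4 * j * Real.log (GA / G) + ((N : ℝ) - j) * Real.log G))) ≤
              B * Real.exp (-(j : ℝ) / 50) *
                (((n : ℝ) + 1) ^ (c + 2) * Real.exp (-((n : ℝ) / 800))) := by
            calc _ ≤ BA * ((n : ℝ) + 1) ^ (c + 2) *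
                  Real.exp (-((n : ℝ) / 800) + -((j : ℝ) / 50)) := by
                  rw [← hBA]
                  gcongr
              _ = BA * Real.exp (-(j : ℝ) / 50) *
                (((n : ℝ) + 1) ^ (c + 2) * Real.exp (-((n : ℝ) / 800))) := by
                  rw [Real.exp_add, neg_div]
                  ring
              _ ≤ _ := by
                  gcongr
                  linarith
          have hpos : 0 ≤ B * Real.exp (-(j : ℝ) / 50) *
                (((n : ℝ) + 1) ^ (c + 2) * Real.exp (-((n : ℝ) / 800))) * z ^ (1 / 2 : ℝ) := by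
            positivity
          have := er.trans fin
          linarith
        · -- case B
          obtain ⟨l, hl1, hl2, hl3⟩ := ONE2.choose_l j N hNj
          have x0 := hx2 K0 j u v G (GA / G) hK0 hj hG hR0 hu hv D N l hNj hl1
          have hl2' : (j : ℝ) * l ≤ 4 * j + N / 16 := by
            have : 16 * (j : ℝ) * l ≤ 64 * j + N := by exact_mod_cast hl2
            linarith
          have hl3' : (2 : ℝ) ^ l ≤ 16 * N := by exact_mod_cast hl3
          have hAl : (A2 * K0) ^ l ≤ 32 ^ c * ((n : ℝ) + 1) ^ c := by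
            calc (A2 * K0) ^ l ≤ (2 ^ c) ^ l := pow_le_pow_left₀ (by positivity) hc.le l
              _ = (2 ^ l) ^ c := by rw [← pow_mul, ← pow_mul, mul_comm]
              _ ≤ (32 * ((n : ℝ) + 1)) ^ c := by
                  refine pow_le_pow_left₀ (by positivity) ?_ c
                  linarith
              _ = _ := mul_pow _ _ _
          have x1 : Xr (169 / 100) 0 u v 2 N ≤ ((32 ^ c * ((n : ℝ) + 1) ^ c) * 2592) *
              Real.exp ((4 * j + N / 16) * Real.log (GA / G) + ((N : ℝ) - j) * Real.log G -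
                j * Real.log 4 - 2 * (j * Real.log (3 / 2))) := by
            refine x0.trans ?_
            gcongr
          have y2 : Xr (169 / 100) 0 u v (101 / 200) N ^ (1 / 2 : ℝ) ≤
              z ^ (1 / 2 : ℝ) * Real.exp 0 := by
            rw [Real.exp_zero, mul_one]
            exact Real.rpow_le_rpow nY (hz N hcase hNn) (by norm_num)
          have hcX : (1 : ℝ) ≤ (32 ^ c * ((n : ℝ) + 1) ^ c) * 2592 := by
            have a1 : (1 : ℝ) ≤ 32 ^ c := one_le_pow₀ (by norm_num)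
            have a2 : (1 : ℝ) ≤ ((n : ℝ) + 1) ^ c := one_le_pow₀ hn1
            nlinarith
          have er := ONE2.err_le (m := (n : ℝ) + 1) hA3 hK0 hcX (by positivity) (by positivity)
            nX nY hKG hq' x1 y2 (by positivity)
          have ex := ONE2.expB (lG := Real.log G) (lR := Real.log (GA / G)) (L4 := Real.log 4)
            (L32 := Real.log (3 / 2)) (L169 := Real.log (16 / 9)) (j := j) (N := N) (m := n)
            hj0 (by exact_mod_cast hcase) (by linarith) ex2 ex3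
          have fin : A3 * K0 * ((32 ^ c * ((n : ℝ) + 1) ^ c) * 2592) * z ^ (1 / 2 : ℝ) *
              ((n : ℝ) + 1) ^ 2 *
              Real.exp (501 / 800 * (j * Real.log (GA / G) + N * Real.log G) +
                299 / 800 * (-(j * Real.log (3 / 2) + N * Real.log (16 / 9))) +
                101 / 800 * ((4 * j + N / 16) * Real.log (GA / G) + ((N : ℝ) - j) * Real.log G -
                  j * Real.log 4 - 2 * (j * Real.log (3 / 2))) + 0) ≤
              B * Real.exp (-(j : ℝ) / 50) *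
                (((n : ℝ) + 1) ^ (c + 2) * Real.exp (-((n : ℝ) / 800))) * z ^ (1 / 2 : ℝ) := by
            calc _ ≤ A3 * K0 * ((32 ^ c * ((n : ℝ) + 1) ^ c) * 2592) * z ^ (1 / 2 : ℝ) *
              ((n : ℝ) + 1) ^ 2 * Real.exp (-((n : ℝ) / 800) + -((j : ℝ) / 50)) := by gcongr
              _ = BB * Real.exp (-(j : ℝ) / 50) *
                (((n : ℝ) + 1) ^ (c + 2) * Real.exp (-((n : ℝ) / 800))) * z ^ (1 / 2 : ℝ) := by
                  rw [Real.exp_add, neg_div, hBB, pow_add]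
                  ring
              _ ≤ _ := by
                  gcongr
                  linarith
          have hpos : 0 ≤ B * Real.exp (-(j : ℝ) / 50) *
                (((n : ℝ) + 1) ^ (c + 2) * Real.exp (-((n : ℝ) / 800))) := by
            positivity
          have := er.trans fin
          linarith)
      m hm12.le
    refine key.trans ?_
    have e1 : Real.exp (-(j : ℝ) / 50) ≤ 1 := by
      rw [Real.exp_le_one_iff]
      linarith
    set w : ℝ := Real.exp (-(j : ℝ) / 50) with hw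
    have hw0 : 0 < w := Real.exp_pos _
    have e2 : (Real.exp 2 * (B * w * Sg)) ^ 2 ≤ (Real.exp 2 * (B * Sg)) ^ 2 * w := by
      have : (Real.exp 2 * (B * w * Sg)) ^ 2 = (Real.exp 2 * (B * Sg)) ^ 2 * (w * w) := by ring
      rw [this]
      gcongr
      nlinarith
    have e3 : 2 * Real.exp 2 * (C1 * w + B * w * Sg) = 2 * Real.exp 2 * (C1 + B * Sg) * w := by ring
    rw [e3]
    nlinarith [mul_pos hC1 hw0]

end Pool.Agent.FCQ
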